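import Pool.Agent.Lib.MP_5ddd96_lc.Level

/-!
From hyperfiniteness for one measure to locally constant, almost invariant finite sets.
-/

namespace Pool.Agent.EffHyp

open MeasureTheory Filter Topology

namespace ApproxAux

/-- Lusin's theorem for functions with countably many values on a compact metrizable space. -/
theorem lusin {Z : Type} [TopologicalSpace Z] [CompactSpace Z]
    [TopologicalSpace.PseudoMetrizableSpace Z] [MeasurableSpace Z] [BorelSpace Z]
    (ν : Measure Z) [IsFiniteMeasure ν] {α : Type} [Countable α] (Φ : Z → α)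
    (hΦ : ∀ s, MeasurableSet {z | Φ z = s}) (ε : ℝ) (hε : 0 < ε) :
    ∃ (I : Finset α) (C : α → Set Z), (∀ s, IsCompact (C s)) ∧ (∀ s, ∀ z ∈ C s, Φ z = s) ∧
      ν.real (⋃ s ∈ I, C s)ᶜ < ε := by
  classical
  have hε' : ENNReal.ofReal ε ≠ 0 := by simpa using hε
  obtain ⟨e, he0, he⟩ := ENNReal.exists_pos_sum_of_countable hε' α
  have h1 : ∀ s, ∃ C ⊆ {z | Φ z = s}, IsClosed C ∧ ν ({z | Φ z = s} \ C) < e s := fun s =>
    (hΦ s).exists_isClosed_sdiff_lt (measure_ne_top _ _) (by exact_mod_cast (he0 s).ne')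
  choose C hC hcl hm using h1
  have h2 : ν (⋂ I : Finset α, (⋃ s ∈ I, C s)ᶜ) < ENNReal.ofReal ε := by
    refine lt_of_le_of_lt ?_ he
    refine le_trans (measure_mono (t := ⋃ s, {z | Φ z = s} \ C s) ?_)
      ((measure_iUnion_le _).trans (ENNReal.tsum_le_tsum fun s => (hm s).le))
    intro z hz
    refine Set.mem_iUnion.2 ⟨Φ z, rfl, fun h => ?_⟩
    exact Set.mem_iInter.1 hz {Φ z} (Set.mem_biUnion (Finset.mem_singleton_self _) h)
  have h3 := tendsto_measure_iInter_atTop (μ := ν) (s := fun I : Finset α => (⋃ s ∈ I, C s)ᶜ)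
    (fun I => (Finset.measurableSet_biUnion I fun s _ =>
      (hcl s).measurableSet).compl.nullMeasurableSet)
    (fun I J hIJ => Set.compl_subset_compl.2 (Set.biUnion_subset_biUnion_left hIJ))
    ⟨∅, measure_ne_top _ _⟩
  obtain ⟨I, hI⟩ := (h3.eventually (gt_mem_nhds h2)).exists
  refine ⟨I, C, fun s => (hcl s).isCompact, fun s z hz => hC s hz, ?_⟩
  exact ENNReal.toReal_lt_of_lt_ofReal hI

theorem lc_on_union {Y α ι : Type} [TopologicalSpace Y] (F : Y → α) (J : Finset ι)
    (D : ι → Set Y) (hD : ∀ j, IsClosed (D j)) (v : ι → α) (hv : ∀ j, ∀ y ∈ D j, F y = v j)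
    (x : Y) : ∀ᶠ y in 𝓝 x, y ∈ (⋃ j ∈ J, D j) → x ∈ (⋃ j ∈ J, D j) → F y = F x := by
  have h : ∀ j ∈ J, ∀ᶠ y in 𝓝 x, y ∈ D j → F y = F x := fun j _ => by
    by_cases hx : x ∈ D j
    · exact Eventually.of_forall fun y hy => (hv j y hy).trans (hv j x hx).symm
    · filter_upwards [(hD j).isOpen_compl.mem_nhds hx] with y hy hy'
      exact absurd hy' hy
  filter_upwards [(Filter.eventually_all_finset J).2 h] with y hy hy' _
  obtain ⟨j, hj, hy''⟩ := Set.mem_iUnion₂.1 hy'
  exact hy j hj hy''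

end ApproxAux

open ApproxAux in
theorem exists_lc_sets {Γ : Type} [Group Γ] [Countable Γ] (X : Set Baire) [MulAction Γ X]
    [ContinuousConstSMul Γ X] (hfree : ∀ (g : Γ) (x : X), g • x = x → g = 1)
    (hE : MeasureHyperfinite (OrbitRel Γ X)) (K : Set X) (hK : IsCompact K) (T : Finset Γ)
    (η : ℝ) (hη : 0 < η) (ν : Measure K) [IsProbabilityMeasure ν] :
    ∃ τ : X → Finset Γ, IsLocallyConstant τ ∧ (∀ x, (τ x).Nonempty) ∧
      ν.real {z : K | ∃ g ∈ T, ∃ a : Γ, ¬ (a * g ∈ τ z ↔ a ∈ τ (g • (z : X)))} < η := by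
  classical
  have : CompactSpace K := isCompact_iff_compactSpace.1 hK
  have hc : ∀ g : Γ, Continuous fun z : K => g • (z : X) := fun g =>
    (continuous_const_smul g).comp continuous_subtype_val
  have hme : ∀ g : Γ, Measurable fun z : K => ((g • (z : X) : X) : Baire) := fun g =>
    (continuous_subtype_val.comp (hc g)).measurable
  have hm1 : Measurable fun z : K => ((z : X) : Baire) :=
    (continuous_subtype_val.comp continuous_subtype_val).measurable
  obtain ⟨A, hA, hA1, hAinv, F, ⟨hFe, hFf, hFm⟩, hFmeas, hFA⟩ :=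
    hE (ν.map fun z : K => ((z : X) : Baire)) (Measure.isProbabilityMeasure_map hm1.aemeasurable)
  have hmono : ∀ x y, Monotone fun n => F n x y := fun x y =>
    monotone_nat_of_le_succ fun n => hFm n x y
  have hmF : ∀ (n : ℕ) (g h : Γ),
      MeasurableSet {z : K | F n ((g • (z : X) : X) : Baire) ((h • (z : X) : X) : Baire)} :=
    fun n g h => ((hme g).prodMk (hme h)) (hFmeas n)
  set Bad : ℕ → Set K := fun n =>
    ⋃ g ∈ T, {z : K | F n (((1 : Γ) • (z : X) : X) : Baire) ((g • (z : X) : X) : Baire)}ᶜ with hBad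
  have hB0 : ν (⋂ n, Bad n) = 0 := by
    rw [Measure.map_apply hm1 hA] at hA1
    refine measure_mono_null ?_ ((prob_compl_eq_zero_iff (hm1 hA)).2 hA1)
    intro z hz hzA
    have h1 : ∀ g ∈ T, ∀ᶠ n in atTop, F n ((z : X) : Baire) ((g • (z : X) : X) : Baire) := by
      intro g _
      have hO : OrbitRel Γ X ((z : X) : Baire) ((g • (z : X) : X) : Baire) :=
        Or.inr ⟨(z : X).2, g, rfl⟩
      obtain ⟨n, hn⟩ := (hFA _ hzA _ (hAinv _ _ hO hzA)).1 hO
      exact eventually_atTop.2 ⟨n, fun m hm => hmono _ _ hm hn⟩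
    obtain ⟨n, hn⟩ := ((Filter.eventually_all_finset T).2 h1).exists
    obtain ⟨g, hg, hz'⟩ := Set.mem_iUnion₂.1 (Set.mem_iInter.1 hz n)
    exact hz' (by simpa using hn g hg)
  have hBt := tendsto_measure_iInter_atTop (μ := ν) (s := Bad)
    (fun n => (Finset.measurableSet_biUnion T fun g _ => (hmF n 1 g).compl).nullMeasurableSet)
    (fun n m hnm => Set.iUnion₂_mono fun g _ z hz hz' => hz (hmono _ _ hnm hz'))
    ⟨0, measure_ne_top _ _⟩
  rw [hB0] at hBt
  obtain ⟨n, hn⟩ := (hBt.eventually (gt_mem_nhds (ENNReal.ofReal_pos.2 (half_pos hη)))).exists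
  have hn' : ν.real (Bad n) < η / 2 := ENNReal.toReal_lt_of_lt_ofReal hn
  have hfin : ∀ x : X, {a : Γ | F n (x : Baire) ((a • x : X) : Baire)}.Finite := fun x => by
    refine (hFf n (x : Baire)).preimage (f := fun a : Γ => ((a • x : X) : Baire)) ?_
    intro a _ b _ hab
    have h1 : a • x = b • x := Subtype.ext hab
    have h2 : (b⁻¹ * a) • x = x := by rw [mul_smul, h1, inv_smul_smul]
    exact (inv_mul_eq_one.1 (hfree _ _ h2)).symm
  set T0 : X → Finset Γ := fun x => (hfin x).toFinset with hT0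
  have hmem : ∀ (x : X) (a : Γ), a ∈ T0 x ↔ F n (x : Baire) ((a • x : X) : Baire) :=
    fun x a => by simp [hT0]
  set T' : Finset Γ := insert 1 T with hT'
  obtain ⟨I, C, hC, hCv, hCm⟩ := lusin ν (fun (z : K) (g : T') => T0 ((g : Γ) • (z : X)))
    (fun s => by
      have h1 : {z : K | (fun g : T' => T0 ((g : Γ) • (z : X))) = s} = ⋂ g : T', ⋂ a : Γ,
          {z : K | F n (((g : Γ) • (z : X) : X) : Baire) (((a * g) • (z : X) : X) : Baire)
            ↔ a ∈ s g} := by
        ext z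
        simp only [Set.mem_ofPred_eq, funext_iff, Finset.ext_iff, hmem, Set.mem_iInter, mul_smul]
      rw [h1]
      exact MeasurableSet.iInter fun g => MeasurableSet.iInter fun a =>
        measurableSet_setOfPred.2 ((measurableSet_setOfPred.1 (hmF n g (a * g))).iff measurable_const))
    (η / 2) (half_pos hη)
  set D : T' × (T' → Finset Γ) → Set X :=
    fun j => (fun z : K => (j.1 : Γ) • (z : X)) '' C j.2 with hD
  have hDc : ∀ j, IsCompact (D j) := fun j => (hC j.2).image (hc _)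
  have hDv : ∀ j, ∀ y ∈ D j, T0 y = j.2 j.1 := by
    rintro j _ ⟨z, hz, rfl⟩
    exact congrFun (hCv _ z hz) j.1
  obtain ⟨G, hG, hGC, hGv⟩ := exists_extend T0 {1} (⋃ j ∈ Finset.univ ×ˢ I, D j)
    (Finset.isCompact_biUnion _ fun j _ => hDc j) (fun x hx => by
      filter_upwards [lc_on_union T0 (Finset.univ ×ˢ I) D (fun j => (hDc j).isClosed) _ hDv x]
        with y hy hy'
      exact hy hy' hx)
  refine ⟨G, hG, fun x => ?_, ?_⟩
  · rcases hGv x with h | ⟨y, _, h⟩
    · rw [h]; exact Finset.singleton_nonempty _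
    · rw [h]; exact ⟨1, (hmem y 1).2 (by simpa using (hFe n).refl _)⟩
  · have hsub : {z : K | ∃ g ∈ T, ∃ a : Γ, ¬ (a * g ∈ G z ↔ a ∈ G (g • (z : X)))}
        ⊆ Bad n ∪ (⋃ s ∈ I, C s)ᶜ := by
      rintro z ⟨g, hg, a, hz⟩
      by_contra hcon
      rw [Set.mem_union, not_or, Set.notMem_compl_iff] at hcon
      obtain ⟨s, hs, hzs⟩ := Set.mem_iUnion₂.1 hcon.2
      have h1 : ∀ h ∈ T', G (h • (z : X)) = T0 (h • (z : X)) := fun h hh =>
        hGC _ (Set.mem_iUnion₂.2 ⟨(⟨h, hh⟩, s), by simp [hs], z, hzs, rfl⟩)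
      have h2 := h1 1 (Finset.mem_insert_self _ _)
      rw [one_smul] at h2
      have h3 : F n ((z : X) : Baire) ((g • (z : X) : X) : Baire) := by
        by_contra h4
        exact hcon.1 (Set.mem_iUnion₂.2 ⟨g, hg, by simpa using h4⟩)
      apply hz
      rw [h2, h1 g (Finset.mem_insert_of_mem hg), hmem, hmem, mul_smul]
      exact ⟨fun h => (hFe n).trans ((hFe n).symm h3) h, fun h => (hFe n).trans h3 h⟩
    have h5 := measureReal_mono (μ := ν) hsub
    have h6 := measureReal_union_le (μ := ν) (Bad n) (⋃ s ∈ I, C s)ᶜ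
    linarith

end Pool.Agent.EffHyp
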