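import Pool.Agent.Lib.MP_5ddd96_lc.Approx

/-!
From hyperfiniteness for one measure to locally constant, almost invariant finite sets; the action
need not be free.
-/

namespace Pool.Agent.EffHyp

open MeasureTheory Filter Topology

namespace Approx2Aux

theorem map_eq_congr {α β γ : Type} (s : Multiset α) (t : Multiset β) (f f' : α → γ)
    (g g' : β → γ) (h : ∀ a ∈ s, ∀ b ∈ t, (f a = g b ↔ f' a = g' b)) :
    s.map f = t.map g ↔ s.map f' = t.map g' := by
  rw [← Multiset.rel_eq, ← Multiset.rel_eq, Multiset.rel_map, Multiset.rel_map]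
  exact ⟨fun r => r.mono fun a ha b hb => (h a ha b hb).1,
    fun r => r.mono fun a ha b hb => (h a ha b hb).2⟩

theorem clopen_eq {Γ X : Type} [Group Γ] [TopologicalSpace X] [MulAction Γ X]
    [ContinuousConstSMul Γ X] (hfix : ∀ g : Γ, IsClopen {x : X | g • x = x}) (G : X → Finset Γ)
    (hG : IsLocallyConstant G) (g : Γ) : IsClopen {x : X | ((G x).val.map fun a => a • x) =
      (G (g • x)).val.map fun a => a • g • x} := by
  have key : IsLocallyConstant fun x : X => (((G x).val.map fun a => a • x) =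
      (G (g • x)).val.map fun a => a • g • x) := by
    refine (IsLocallyConstant.iff_eventually_eq _).2 fun x => ?_
    have h1 : ∀ a b : Γ, ∀ᶠ y in 𝓝 x, (a • y = b • g • y ↔ a • x = b • g • x) := by
      intro a b
      have e : ∀ y : X, a • y = b • g • y ↔ ((b * g)⁻¹ * a) • y = y := fun y => by
        rw [mul_smul, inv_smul_eq_iff, mul_smul]
      simp only [e]
      by_cases hx : ((b * g)⁻¹ * a) • x = x
      · filter_upwards [(hfix _).isOpen.mem_nhds hx] with y hy
        exact iff_of_true hy hx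
      · filter_upwards [(hfix _).compl.isOpen.mem_nhds hx] with y hy
        exact iff_of_false hy hx
    have h2 := (Filter.eventually_all_finset (G x)).2 fun a _ =>
      (Filter.eventually_all_finset (G (g • x))).2 fun b _ => h1 a b
    filter_upwards [h2, hG.eventually_eq x,
      (hG.comp_continuous (continuous_const_smul g)).eventually_eq x] with y hy h3 h4
    have h5 : G (g • y) = G (g • x) := h4
    rw [h3, h5]
    exact propext (map_eq_congr _ _ _ _ _ _ hy)
  simpa using key.isClopen_fiber True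

end Approx2Aux

open ApproxAux in
theorem exists_lc_sets2 {Γ : Type} [Group Γ] [Countable Γ] (X : Set Baire) [MulAction Γ X]
    [ContinuousConstSMul Γ X] (hfix : ∀ g : Γ, IsClopen {x : X | g • x = x})
    (hE : MeasureHyperfinite (OrbitRel Γ X)) (K : Set X) (hK : IsCompact K) (T : Finset Γ)
    (η : ℝ) (hη : 0 < η) (ν : Measure K) [IsProbabilityMeasure ν] :
    ∃ τ : X → Finset Γ, IsLocallyConstant τ ∧ (∀ x, (τ x).Nonempty) ∧
      ∃ U : Set K, IsClopen U ∧ ν.real U < η ∧ ∀ z : K, z ∉ U → ∀ g ∈ T,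
        (τ z).val.map (fun a => a • (z : X)) =
          (τ (g • (z : X))).val.map (fun a => a • g • (z : X)) := by
  classical
  have : CompactSpace K := isCompact_iff_compactSpace.1 hK
  have hc : ∀ g : Γ, Continuous fun z : K => g • (z : X) := fun g =>
    (continuous_const_smul g).comp continuous_subtype_val
  have hme : ∀ g : Γ, Measurable fun z : K => ((g • (z : X) : X) : Baire) := fun g =>
    (continuous_subtype_val.comp (hc g)).measurable
  have hm1 : Measurable fun z : K => ((z : X) : Baire) :=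
    (continuous_subtype_val.comp continuous_subtype_val).measurable
  obtain ⟨A, hA, hA1, hAinv, F, ⟨hFe, hFf, hFm⟩, hFmeas, hFA⟩ :=
    hE (ν.map fun z : K => ((z : X) : Baire)) (Measure.isProbabilityMeasure_map hm1.aemeasurable)
  have hmono : ∀ x y, Monotone fun n => F n x y := fun x y =>
    monotone_nat_of_le_succ fun n => hFm n x y
  have hmF : ∀ (n : ℕ) (g h : Γ),
      MeasurableSet {z : K | F n ((g • (z : X) : X) : Baire) ((h • (z : X) : X) : Baire)} :=
    fun n g h => ((hme g).prodMk (hme h)) (hFmeas n)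
  set Bad : ℕ → Set K := fun n =>
    ⋃ g ∈ T, {z : K | F n (((1 : Γ) • (z : X) : X) : Baire) ((g • (z : X) : X) : Baire)}ᶜ with hBad
  have hB0 : ν (⋂ n, Bad n) = 0 := by
    rw [Measure.map_apply hm1 hA] at hA1
    refine measure_mono_null ?_ ((prob_compl_eq_zero_iff (hm1 hA)).2 hA1)
    intro z hz hzA
    have h1 : ∀ g ∈ T, ∀ᶠ n in atTop, F n ((z : X) : Baire) ((g • (z : X) : X) : Baire) := by
      intro g _
      have hO : OrbitRel Γ X ((z : X) : Baire) ((g • (z : X) : X) : Baire) :=
        Or.inr ⟨(z : X).2, g, rfl⟩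
      obtain ⟨n, hn⟩ := (hFA _ hzA _ (hAinv _ _ hO hzA)).1 hO
      exact eventually_atTop.2 ⟨n, fun m hm => hmono _ _ hm hn⟩
    obtain ⟨n, hn⟩ := ((Filter.eventually_all_finset T).2 h1).exists
    obtain ⟨g, hg, hz'⟩ := Set.mem_iUnion₂.1 (Set.mem_iInter.1 hz n)
    exact hz' (by simpa using hn g hg)
  have hBt := tendsto_measure_iInter_atTop (μ := ν) (s := Bad)
    (fun n => (Finset.measurableSet_biUnion T fun g _ => (hmF n 1 g).compl).nullMeasurableSet)
    (fun n m hnm => Set.iUnion₂_mono fun g _ z hz hz' => hz (hmono _ _ hnm hz'))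
    ⟨0, measure_ne_top _ _⟩
  rw [hB0] at hBt
  obtain ⟨n, hn⟩ := (hBt.eventually (gt_mem_nhds (ENNReal.ofReal_pos.2 (half_pos hη)))).exists
  have hn' : ν.real (Bad n) < η / 2 := ENNReal.toReal_lt_of_lt_ofReal hn
  obtain ⟨enc, henc⟩ := Countable.exists_injective_nat Γ
  have hinj : ∀ (x : X) (a b : Γ), (∀ a', enc a' < enc a → a' • x ≠ a • x) →
      (∀ a', enc a' < enc b → a' • x ≠ b • x) → a • x = b • x → a = b := fun x a b ha hb h =>
    henc (le_antisymm (not_lt.1 fun h1 => ha b h1 h.symm) (not_lt.1 fun h1 => hb a h1 h))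
  have hfin : ∀ x : X, {a : Γ | F n (x : Baire) ((a • x : X) : Baire) ∧
      ∀ a', enc a' < enc a → a' • x ≠ a • x}.Finite := fun x =>
    Set.Finite.of_finite_image (f := fun a : Γ => ((a • x : X) : Baire))
      ((hFf n (x : Baire)).subset (by rintro _ ⟨a, ha, rfl⟩; exact ha.1))
      fun a ha b hb hab => hinj x a b ha.2 hb.2 (Subtype.ext hab)
  set T0 : X → Finset Γ := fun x => (hfin x).toFinset with hT0
  have hmem : ∀ (x : X) (a : Γ), a ∈ T0 x ↔ F n (x : Baire) ((a • x : X) : Baire) ∧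
      ∀ a', enc a' < enc a → a' • x ≠ a • x := fun x a => by simp [hT0]
  have hrep : ∀ (x : X) (b : Γ), F n (x : Baire) ((b • x : X) : Baire) →
      ∃ a ∈ T0 x, a • x = b • x := by
    intro x b hb
    have hex : ∃ k, ∃ a : Γ, enc a = k ∧ a • x = b • x := ⟨_, b, rfl, rfl⟩
    obtain ⟨a, ha, hab⟩ := Nat.find_spec hex
    refine ⟨a, (hmem x a).2 ⟨hab ▸ hb, fun a' h1 h2 => ?_⟩, hab⟩
    exact Nat.find_min hex (ha ▸ h1) ⟨a', rfl, h2.trans hab⟩
  have hnd : ∀ x : X, ((T0 x).val.map fun a => a • x).Nodup := fun x =>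
    Multiset.Nodup.map_on (fun a ha b hb h =>
      hinj x a b ((hmem x a).1 ha).2 ((hmem x b).1 hb).2 h) (T0 x).nodup
  have heq : ∀ (x : X) (g : Γ), F n (x : Baire) ((g • x : X) : Baire) →
      ((T0 x).val.map fun a => a • x) = (T0 (g • x)).val.map fun a => a • g • x := by
    intro x g hg
    refine (Multiset.Nodup.ext (hnd x) (hnd (g • x))).2 fun y => ?_
    simp only [Multiset.mem_map, Finset.mem_val]
    constructor
    · rintro ⟨a, ha, rfl⟩
      have e : (a * g⁻¹) • g • x = a • x := by rw [mul_smul, inv_smul_smul]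
      obtain ⟨b, hb, hb'⟩ := hrep (g • x) (a * g⁻¹)
        (by rw [e]; exact (hFe n).trans ((hFe n).symm hg) ((hmem x a).1 ha).1)
      exact ⟨b, hb, hb'.trans e⟩
    · rintro ⟨a, ha, rfl⟩
      obtain ⟨b, hb, hb'⟩ := hrep x (a * g)
        (by rw [mul_smul]; exact (hFe n).trans hg ((hmem _ a).1 ha).1)
      exact ⟨b, hb, hb'.trans (mul_smul _ _ _)⟩
  set T' : Finset Γ := insert 1 T with hT'
  obtain ⟨I, C, hC, hCv, hCm⟩ := lusin ν (fun (z : K) (g : T') => T0 ((g : Γ) • (z : X)))
    (fun s => by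
      have h1 : {z : K | (fun g : T' => T0 ((g : Γ) • (z : X))) = s} = ⋂ g : T', ⋂ a : Γ,
          {z : K | (F n (((g : Γ) • (z : X) : X) : Baire) (((a * g) • (z : X) : X) : Baire) ∧
            ∀ a', enc a' < enc a → (a' * g) • (z : X) ≠ (a * g) • (z : X)) ↔ a ∈ s g} := by
        ext z
        simp only [Set.mem_ofPred_eq, funext_iff, Finset.ext_iff, hmem, Set.mem_iInter, mul_smul]
      rw [h1]
      exact MeasurableSet.iInter fun g => MeasurableSet.iInter fun a =>
        measurableSet_setOfPred.2 (((measurableSet_setOfPred.1 (hmF n g (a * g))).and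
          (Measurable.forall fun a' => measurable_const.imp (measurableSet_setOfPred.1
            (isClosed_eq (hc (a' * g)) (hc (a * g))).measurableSet).not)).iff measurable_const))
    (η / 2) (half_pos hη)
  set D : T' × (T' → Finset Γ) → Set X :=
    fun j => (fun z : K => (j.1 : Γ) • (z : X)) '' C j.2 with hD
  have hDc : ∀ j, IsCompact (D j) := fun j => (hC j.2).image (hc _)
  have hDv : ∀ j, ∀ y ∈ D j, T0 y = j.2 j.1 := by
    rintro j _ ⟨z, hz, rfl⟩
    exact congrFun (hCv _ z hz) j.1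
  obtain ⟨G, hG, hGC, hGv⟩ := exists_extend T0 {1} (⋃ j ∈ Finset.univ ×ˢ I, D j)
    (Finset.isCompact_biUnion _ fun j _ => hDc j) (fun x hx => by
      filter_upwards [lc_on_union T0 (Finset.univ ×ˢ I) D (fun j => (hDc j).isClosed) _ hDv x]
        with y hy hy'
      exact hy hy' hx)
  have hcl : ∀ g : Γ, IsClopen {x : X | ((G x).val.map fun a => a • x) =
      (G (g • x)).val.map fun a => a • g • x} := fun g => Approx2Aux.clopen_eq hfix G hG g
  refine ⟨G, hG, fun x => ?_, ⋃ g ∈ T, {z : K | ((G z).val.map fun a => a • (z : X)) =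
    (G (g • (z : X))).val.map fun a => a • g • (z : X)}ᶜ, ?_, ?_, fun z hz g hg => ?_⟩
  · rcases hGv x with h | ⟨y, _, h⟩
    · rw [h]; exact Finset.singleton_nonempty _
    · rw [h]
      obtain ⟨a, ha, _⟩ := hrep y 1 (by simpa using (hFe n).refl _)
      exact ⟨a, ha⟩
  · exact isClopen_biUnion_finset fun g _ => ((hcl g).preimage continuous_subtype_val).compl
  · have hsub : (⋃ g ∈ T, {z : K | ((G z).val.map fun a => a • (z : X)) =
        (G (g • (z : X))).val.map fun a => a • g • (z : X)}ᶜ) ⊆ Bad n ∪ (⋃ s ∈ I, C s)ᶜ := by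
      intro z hz
      obtain ⟨g, hg, hz⟩ := Set.mem_iUnion₂.1 hz
      by_contra hcon
      rw [Set.mem_union, not_or, Set.notMem_compl_iff] at hcon
      obtain ⟨s, hs, hzs⟩ := Set.mem_iUnion₂.1 hcon.2
      have h1 : ∀ h ∈ T', G (h • (z : X)) = T0 (h • (z : X)) := fun h hh =>
        hGC _ (Set.mem_iUnion₂.2 ⟨(⟨h, hh⟩, s), by simp [hs], z, hzs, rfl⟩)
      have h2 := h1 1 (Finset.mem_insert_self _ _)
      rw [one_smul] at h2
      have h3 : F n ((z : X) : Baire) ((g • (z : X) : X) : Baire) := by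
        by_contra h4
        exact hcon.1 (Set.mem_iUnion₂.2 ⟨g, hg, by simpa using h4⟩)
      apply hz
      rw [Set.mem_ofPred_eq, h2, h1 g (Finset.mem_insert_of_mem hg)]
      exact heq _ g h3
    have h5 := measureReal_mono (μ := ν) hsub
    have h6 := measureReal_union_le (μ := ν) (Bad n) (⋃ s ∈ I, C s)ᶜ
    linarith
  · by_contra h
    exact hz (Set.mem_iUnion₂.2 ⟨g, hg, h⟩)

end Pool.Agent.EffHyp
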