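import Pool.Agent.Lib.MP_5ddd96_lc.Basic

/-!
Points far from `Λ`: the forward paths from a ball pass through a bounded cross section.
-/

namespace Pool.Agent.EffHyp

namespace GeoFarAux

theorem locmin_aux (s : ℕ → ℕ) (L t : ℕ) (i : ℕ) : ∀ t0, t + L + i * L ≤ t0 → s t0 ≤ i →
    ∃ q, t0 ≤ q + i * L ∧ q ≤ t0 + i * L ∧ ∀ j, q ≤ j + L → j ≤ q + L → s q ≤ s j := by
  induction i with
  | zero => exact fun t0 _ h => ⟨t0, by omega, by omega, fun j _ _ => by omega⟩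
  | succ i ih =>
    intro t0 h0 h
    rw [Nat.succ_mul] at h0 ⊢
    by_cases hm : ∀ j, t0 ≤ j + L → j ≤ t0 + L → s t0 ≤ s j
    · exact ⟨t0, by omega, by omega, hm⟩
    · push Not at hm
      obtain ⟨j, h1, h2, h3⟩ := hm
      obtain ⟨q, q1, q2, q3⟩ := ih j (by omega) (by omega)
      exact ⟨q, by omega, by omega, q3⟩

variable {V : Type} (H : HM V)

theorem up (w : ℕ → V) (hw : ∀ k, H.d (w k) (w (k + 1)) ≤ H.D) (a k : ℕ) :
    H.d (w a) (w (a + k)) ≤ H.D * k := by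
  induction k with
  | zero => simp [H.d_self]
  | succ k ih =>
    have h1 := H.d_tri (w a) (w (a + k)) (w (a + k + 1))
    have h2 := hw (a + k)
    rw [Nat.mul_succ, ← Nat.add_assoc]
    omega

theorem grow (w : ℕ → V) (N : ℕ) (h1 : ∀ k ≤ N, H.d (w k) (w (k + 1)) = H.D)
    (h2 : ∀ k, k + 1 ≤ N → 2 * H.D ≤ H.d (w k) (w (k + 2)) + 2 * H.δ) (a k : ℕ)
    (hk : a + k ≤ N) : H.d (w a) (w (a + k)) + H.D ≤ H.d (w a) (w (a + k + 1)) + 3 * H.δ := by
  induction k with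
  | zero =>
    have := h1 a (by omega)
    have := H.d_self (w a)
    simp only [Nat.add_zero]
    omega
  | succ k ih =>
    have i1 := ih (by omega)
    have e1 := h1 (a + k) (by omega)
    have e2 := h1 (a + k + 1) (by omega)
    have e3 := h2 (a + k) (by omega)
    have f := H.four (w (a + k)) (w (a + k + 2)) (w a) (w (a + k + 1))
    have c1 := H.d_comm (w (a + k)) (w a)
    have c2 := H.d_comm (w (a + k + 2)) (w (a + k + 1))
    have c3 := H.d_comm (w (a + k + 2)) (w a)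
    have hD : H.D = 3 * H.δ + 1 := rfl
    rw [← Nat.add_assoc]
    change _ ≤ H.d (w a) (w (a + k + 2)) + _
    change H.d (w (a + k + 1)) (w (a + k + 2)) = _ at e2
    omega

theorem low (w : ℕ → V) (N : ℕ) (h1 : ∀ k ≤ N, H.d (w k) (w (k + 1)) = H.D)
    (h2 : ∀ k, k + 1 ≤ N → 2 * H.D ≤ H.d (w k) (w (k + 2)) + 2 * H.δ) (a k : ℕ)
    (hk : a + k ≤ N) : k ≤ H.d (w a) (w (a + k)) := by
  induction k with
  | zero => omega
  | succ k ih =>
    have i1 := ih (by omega)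
    have i2 := grow H w N h1 h2 a k (by omega)
    have hD : H.D = 3 * H.δ + 1 := rfl
    rw [← Nat.add_assoc]
    omega

theorem between (x u p p1 y : V) (ρ : ℕ) (hu : H.d x u ≤ ρ) (hp : ρ + 3 * H.δ + 1 ≤ H.d x p)
    (e : H.d p p1 = H.D) (g : H.d u p + H.D ≤ H.d u p1 + 3 * H.δ) (hy : y ∈ H.Sh p p1) :
    H.d x p + H.d p y ≤ H.d x y + 5 * H.δ := by
  have hy' : H.d p p1 + H.d p1 y ≤ H.d p y + H.δ := hy
  have hD : H.D = 3 * H.δ + 1 := rfl
  have f1 := H.four u p1 y p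
  have f2 := H.four u y x p
  have c1 := H.d_comm y p
  have c2 := H.d_comm p1 p
  have c3 := H.d_comm u x
  have c4 := H.d_comm y x
  have t := H.d_tri x u p
  omega

theorem tube (x y p p' : V) (A : ℕ) (h1 : H.d x p + H.d p y ≤ H.d x y + 5 * H.δ)
    (h2 : H.d x p' + H.d p' y ≤ H.d x y + 5 * H.δ) (a1 : A ≤ H.d x p) (a2 : H.d x p ≤ A + 3 * H.δ)
    (b1 : A ≤ H.d x p') (b2 : H.d x p' ≤ A + 3 * H.δ) : H.d p p' ≤ 9 * H.δ := by
  have f := H.four p p' y x
  have c1 := H.d_comm y x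
  have c2 := H.d_comm p' x
  have c3 := H.d_comm p x
  omega

end GeoFarAux

open GeoFarAux

/-- A bounded sequence has a local minimum in every long window. -/
theorem exists_locmin (s : ℕ → ℕ) (M L t : ℕ) (hs : ∀ k, s k ≤ M) :
    ∃ q, t ≤ q ∧ q ≤ t + 2 * M * L ∧ ∀ k ≤ 2 * L, s (q + L) ≤ s (q + k) := by
  obtain ⟨q, q1, q2, q3⟩ := locmin_aux s L t M (t + L + M * L) le_rfl (hs _)
  obtain ⟨r, rfl⟩ : ∃ r, q = r + L := ⟨q - L, by omega⟩
  refine ⟨r, by omega, ?_, fun k hk => q3 _ (by omega) (by omega)⟩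
  rw [Nat.mul_assoc]
  omega

theorem exists_mark {V : Type} (c : V → ℕ) (f : V → V) (M L t : ℕ) (hc : ∀ z, c z ≤ M) (u : V) :
    ∃ q, t ≤ q ∧ q ≤ t + 2 * M * L ∧ Mark c f L (f^[q] u) := by
  obtain ⟨q, q1, q2, q3⟩ := exists_locmin (fun k => c (f^[k] u)) M L t (fun k => hc _)
  refine ⟨q, q1, q2, fun k hk => ?_⟩
  have := q3 k hk
  rwa [Nat.add_comm q L, Nat.add_comm q k, Function.iterate_add_apply,
    Function.iterate_add_apply] at this

namespace GeoFarAux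

theorem two_times {V : Type} (c : V → ℕ) (f : V → V) (M L : ℕ) (hc : ∀ z, c z ≤ M) (u : V)
    (k : ℕ) (hk : k ≤ L)
    (hs : ∀ a j, a < L → 1 ≤ j → j ≤ L → Mark c f L (f^[a] u) → ¬ Mark c f L (f^[a + j] u)) :
    f^[ftime c f L L u] u = f^[ftime c f L 0 (f^[k] u)] (f^[k] u) ∨
      f^[ftime c f L L u] u = f^[ftime c f L L (f^[k] u)] (f^[k] u) := by
  have mem : ∀ t z, t ≤ ftime c f L t z ∧ Mark c f L (f^[ftime c f L t z] z) := by
    intro t z
    obtain ⟨q, q1, -, q3⟩ := exists_mark c f M L t hc z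
    exact Nat.sInf_mem (s := {q | t ≤ q ∧ Mark c f L (f^[q] z)}) ⟨q, q1, q3⟩
  have le : ∀ t z q, t ≤ q → Mark c f L (f^[q] z) → ftime c f L t z ≤ q :=
    fun t z q h1 h2 => Nat.sInf_le (s := {q | t ≤ q ∧ Mark c f L (f^[q] z)}) ⟨h1, h2⟩
  obtain ⟨m1, m2⟩ := mem L u
  obtain ⟨b, hb⟩ : ∃ b, ftime c f L L u = b + k := ⟨ftime c f L L u - k, by omega⟩
  obtain ⟨-, a2⟩ := mem 0 (f^[k] u)
  obtain ⟨b1, b2⟩ := mem L (f^[k] u)
  rw [← Function.iterate_add_apply] at a2 b2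
  have m3 : Mark c f L (f^[b] (f^[k] u)) := by rwa [← Function.iterate_add_apply, ← hb]
  rw [hb, Function.iterate_add_apply]
  by_cases h : L ≤ ftime c f L 0 (f^[k] u) + k
  · left
    have h1 := le L u _ h a2
    have h2 := le 0 (f^[k] u) b (Nat.zero_le _) m3
    have : b = ftime c f L 0 (f^[k] u) := by omega
    rw [← this]
  · right
    have h1 := le L u _ (by omega) b2
    have h0 : L ≤ b := by
      by_contra hlt
      obtain ⟨j, hj⟩ : ∃ j, ftime c f L L u = ftime c f L 0 (f^[k] u) + k + j :=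
        ⟨ftime c f L L u - (ftime c f L 0 (f^[k] u) + k), by omega⟩
      exact hs _ j (by omega) (by omega) (by omega) a2 (hj ▸ m2)
    have h2 := le L (f^[k] u) b h0 m3
    have : b = ftime c f L L (f^[k] u) := by omega
    rw [← this]

end GeoFarAux

theorem far_count {V : Type} (H : HM V) (x : V) (ρ L R M : ℕ) (hL : L = 2 * ρ + 3 * H.δ + 1)
    (hR : ρ + 4 * H.D * L ≤ R) (Λ : Set V) (f : V → V) (c : V → ℕ)
    (hf : ∀ z, H.d z (f z) ≤ H.D) (hfD : ∀ z, z ∉ Λ → H.d z (f z) = H.D)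
    (hI : ∀ z z', H.d x z ≤ R → H.d x z' ≤ R → z ∉ Λ → z' ∉ Λ →
      ∃ y, y ∈ H.Sh z (f z) ∧ y ∈ H.Sh z' (f z'))
    (hcM : ∀ z, c z ≤ M) (hc : ∀ a b, a ≠ b → H.d a b ≤ H.D * L → c a ≠ c b) :
    {v | ∃ u, H.d x u ≤ ρ ∧ (∀ z, H.d u z ≤ 4 * H.D * L → z ∉ Λ) ∧
      v = f^[ftime c f L L u] u}.encard ≤ (2 * H.β : ℕ) := by
  have hD : H.D = 3 * H.δ + 1 := rfl
  have key : ∀ u, H.d x u ≤ ρ → (∀ z, H.d u z ≤ 4 * H.D * L → z ∉ Λ) →
      ∃ p, H.d x p ≤ R ∧ p ∉ Λ ∧ ρ + 3 * H.δ + 1 ≤ H.d x p ∧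
        H.d x p ≤ ρ + 3 * H.δ + 1 + 3 * H.δ ∧
        (∀ y ∈ H.Sh p (f p), H.d x p + H.d p y ≤ H.d x y + 5 * H.δ) ∧
        (f^[ftime c f L L u] u = f^[ftime c f L 0 p] p ∨
          f^[ftime c f L L u] u = f^[ftime c f L L p] p) := by
    intro u hu hfar
    set w : ℕ → V := fun k => f^[k] u with hw
    have ws : ∀ k, w (k + 1) = f (w k) := fun k => Function.iterate_succ_apply' f k u
    have w0 : w 0 = u := rfl
    have hup := up H w (fun k => by rw [ws]; exact hf _)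
    have near : ∀ k ≤ 4 * L, H.d u (w k) ≤ 4 * H.D * L := by
      intro k hk
      have h1 := hup 0 k
      rw [Nat.zero_add, w0] at h1
      calc _ ≤ H.D * k := h1
        _ ≤ H.D * (4 * L) := Nat.mul_le_mul_left _ hk
        _ = 4 * H.D * L := by ring
    have nL : ∀ k ≤ 4 * L, w k ∉ Λ := fun k hk => hfar _ (near k hk)
    have nR : ∀ k ≤ 4 * L, H.d x (w k) ≤ R := by
      intro k hk
      have := near k hk
      have := H.d_tri x u (w k)
      omega
    have h1 : ∀ k ≤ 4 * L, H.d (w k) (w (k + 1)) = H.D := fun k hk => by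
      rw [ws]; exact hfD _ (nL k hk)
    have h2 : ∀ k, k + 1 ≤ 4 * L → 2 * H.D ≤ H.d (w k) (w (k + 2)) + 2 * H.δ := by
      intro k hk
      obtain ⟨y, y1, y2⟩ := hI (w k) (w (k + 1)) (nR k (by omega)) (nR _ hk) (nL k (by omega))
        (nL _ hk)
      rw [← ws] at y1 y2
      have y1' : H.d (w k) (w (k + 1)) + H.d (w (k + 1)) y ≤ H.d (w k) y + H.δ := y1
      have y2' : H.d (w (k + 1)) (w (k + 2)) + H.d (w (k + 2)) y ≤ H.d (w (k + 1)) y + H.δ := y2
      have e1 := h1 k (by omega)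
      have e2 : H.d (w (k + 1)) (w (k + 2)) = H.D := h1 (k + 1) hk
      have t := H.d_tri (w k) (w (k + 2)) y
      omega
    have hex : ρ + 3 * H.δ + 1 ≤ H.d x (w L) := by
      have l := low H w (4 * L) h1 h2 0 L (by omega)
      rw [Nat.zero_add, w0] at l
      have t := H.d_tri u x (w L)
      have c1 := H.d_comm u x
      omega
    classical
    have hex' : ∃ k, ρ + 3 * H.δ + 1 ≤ H.d x (w k) := ⟨L, hex⟩
    have k1 := Nat.find_spec hex'
    have k2 : Nat.find hex' ≤ L := Nat.find_min' hex' hex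
    have k3 := fun m => Nat.find_min hex' (m := m)
    generalize Nat.find hex' = k at k1 k2 k3
    have k0 : k ≠ 0 := by
      rintro rfl
      rw [w0] at k1
      omega
    obtain ⟨k', rfl⟩ := Nat.exists_eq_succ_of_ne_zero k0
    have k4 := k3 k' (Nat.lt_succ_self _)
    simp only [Nat.succ_eq_add_one] at k1 k2 k3
    refine ⟨w (k' + 1), nR _ (by omega), nL _ (by omega), k1, ?_, ?_, ?_⟩
    · have := h1 k' (by omega)
      have := H.d_tri x (w k') (w (k' + 1))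
      omega
    · intro y hy
      rw [← ws] at hy
      have g := grow H w (4 * L) h1 h2 0 (k' + 1) (by omega)
      rw [Nat.zero_add, w0] at g
      exact between H x u _ _ y ρ hu k1 (h1 _ (by omega)) g hy
    · refine two_times c f M L hcM u (k' + 1) k2 fun a j ha j1 j2 m1 m2 => ?_
      have i1 := m1 (L + j) (by omega)
      have i2 := m2 (L - j) (by omega)
      simp only [← Function.iterate_add_apply] at i1 i2
      have e1 : L + j + a = L + a + j := by omega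
      have e2 : L + (a + j) = L + a + j := by omega
      have e3 : L - j + (a + j) = L + a := by omega
      rw [e1] at i1
      rw [e2, e3] at i2
      have l := low H w (4 * L) h1 h2 (L + a) j (by omega)
      have u1 := hup (L + a) j
      refine hc (w (L + a)) (w (L + a + j)) ?_ (u1.trans (Nat.mul_le_mul_left _ j2))
        (le_antisymm i1 i2)
      intro e
      rw [← e, H.d_self] at l
      omega
  by_cases hne : ∃ u, H.d x u ≤ ρ ∧ ∀ z, H.d u z ≤ 4 * H.D * L → z ∉ Λ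
  · obtain ⟨u0, a1, a2⟩ := hne
    obtain ⟨p0, b1, b2, b3, b4, b5, -⟩ := key u0 a1 a2
    have sub : {v | ∃ u, H.d x u ≤ ρ ∧ (∀ z, H.d u z ≤ 4 * H.D * L → z ∉ Λ) ∧
        v = f^[ftime c f L L u] u} ⊆
        (fun p => f^[ftime c f L 0 p] p) '' {b | H.d p0 b ≤ 9 * H.δ} ∪
          (fun p => f^[ftime c f L L p] p) '' {b | H.d p0 b ≤ 9 * H.δ} := by
      rintro v ⟨u, c1, c2, rfl⟩
      obtain ⟨p, d1, d2, d3, d4, d5, d6⟩ := key u c1 c2
      obtain ⟨y, y1, y2⟩ := hI p0 p b1 d1 b2 d2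
      have hp : H.d p0 p ≤ 9 * H.δ := tube H x y p0 p _ (b5 y y1) (d5 y y2) b3 b4 d3 d4
      rcases d6 with d6 | d6
      · exact Or.inl ⟨p, hp, d6.symm⟩
      · exact Or.inr ⟨p, hp, d6.symm⟩
    refine (Set.encard_le_encard sub).trans ((Set.encard_union_le _ _).trans ?_)
    have hb := H.ball p0
    push_cast
    rw [two_mul]
    exact add_le_add ((Set.encard_image_le _ _).trans hb) ((Set.encard_image_le _ _).trans hb)
  · have : {v | ∃ u, H.d x u ≤ ρ ∧ (∀ z, H.d u z ≤ 4 * H.D * L → z ∉ Λ) ∧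
        v = f^[ftime c f L L u] u} = ∅ := by
      ext v
      simp only [Set.mem_ofPred_eq, Set.mem_empty_iff_false, iff_false]
      rintro ⟨u, c1, c2, -⟩
      exact hne ⟨u, c1, c2⟩
    rw [this]
    simp

end Pool.Agent.EffHyp
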