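import Pool.Agent.Lib.MP_5ddd96_lc.Basic

/-!
Separated points of `Λ` in a ball lie along a geodesic, so there are few of them.
-/

namespace Pool.Agent.EffHyp

namespace GeoNearAux

theorem off_shadow {V : Type} (H : HM V) (a b a' y : V) (h1 : H.d a a' = H.D)
    (h2 : H.d a' b + H.D = H.d a b) (hy : y ∉ H.Sh a a') :
    H.d y a + H.d a b < H.d y b + 2 * H.D := by
  have hy' : ¬ (H.d a a' + H.d a' y ≤ H.d a y + H.δ) := hy
  have h4 := H.four y a' b a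
  have c1 := H.d_comm y a'
  have c2 := H.d_comm y a
  have c3 := H.d_comm b a
  have c4 := H.d_comm a' a
  omega

theorem two_off {V : Type} (H : HM V) (a b c y : V)
    (h1 : H.d y a + H.d a b < H.d y b + 2 * H.D) (h2 : H.d y b + H.d b c < H.d y c + 2 * H.D)
    (hab : 16 * H.δ + 4 < H.d a b) : H.d a b + H.d b c ≤ H.d a c + (7 * H.δ + 2) := by
  have h4 := H.four y c a b
  have c1 := H.d_comm c b
  have c2 := H.d_comm c a
  have hD : H.D = 3 * H.δ + 1 := rfl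
  omega

theorem three {V : Type} (H : HM V) (a b c : V) (hab : 16 * H.δ + 4 < H.d a b)
    (hbc : 16 * H.δ + 4 < H.d b c) (hca : 16 * H.δ + 4 < H.d c a)
    (hI : ∀ b₁ b₂ b₃, H.d a b₁ = H.D → H.d b b₂ = H.D → H.d c b₃ = H.D →
      ∃ y, (y ∉ H.Sh a b₁ ∧ y ∉ H.Sh b b₂) ∨ (y ∉ H.Sh b b₂ ∧ y ∉ H.Sh c b₃) ∨
        (y ∉ H.Sh c b₃ ∧ y ∉ H.Sh a b₁)) :
    H.d a b + H.d b c ≤ H.d a c + (7 * H.δ + 2) ∨ H.d b c + H.d c a ≤ H.d b a + (7 * H.δ + 2) ∨
      H.d c a + H.d a b ≤ H.d c b + (7 * H.δ + 2) := by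
  have hD : H.D = 3 * H.δ + 1 := rfl
  obtain ⟨a', ha1, ha2⟩ := H.geod a b H.D (by omega)
  obtain ⟨b', hb1, hb2⟩ := H.geod b c H.D (by omega)
  obtain ⟨c', hc1, hc2⟩ := H.geod c a H.D (by omega)
  obtain ⟨y, ⟨h1, h2⟩ | ⟨h1, h2⟩ | ⟨h1, h2⟩⟩ := hI a' b' c' ha1 hb1 hc1
  · exact Or.inl (two_off H a b c y (off_shadow H a b a' y ha1 ha2 h1)
      (off_shadow H b c b' y hb1 hb2 h2) hab)
  · exact Or.inr (Or.inl (two_off H b c a y (off_shadow H b c b' y hb1 hb2 h1)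
      (off_shadow H c a c' y hc1 hc2 h2) hbc))
  · exact Or.inr (Or.inr (two_off H c a b y (off_shadow H c a c' y hc1 hc2 h1)
      (off_shadow H a b a' y ha1 ha2 h2) hca))

theorem tube {V : Type} (H : HM V) (a b c c' : V) (G : ℕ)
    (h1 : H.d a c + H.d c b ≤ H.d a b + G) (h2 : H.d a c' + H.d c' b ≤ H.d a b + G) :
    H.d c c' + H.d a c ≤ H.d a c' + G + H.δ ∨ H.d c c' + H.d a c' ≤ H.d a c + G + H.δ := by
  have h4 := H.four c c' b a
  have c1 := H.d_comm b a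
  have c2 := H.d_comm c' a
  have c3 := H.d_comm c a
  omega

theorem close_of_div {J u v : ℕ} (hJ : 0 < J) (h : u / J = v / J) : u < v + J := by
  have h1 := Nat.div_add_mod u J
  have h2 := Nat.div_add_mod v J
  have h3 := Nat.mod_lt u hJ
  rw [h] at h1
  omega

end GeoNearAux

open GeoNearAux in
theorem near_count {V : Type} (H : HM V) (x : V) (J : ℕ) (hJ : 8 * H.δ + 2 ≤ J) (P : Set V)
    (hP : ∀ a ∈ P, H.d x a ≤ 4 * J) (hsep : ∀ a ∈ P, ∀ b ∈ P, a ≠ b → 2 * J < H.d a b)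
    (hI : ∀ a₁ ∈ P, ∀ a₂ ∈ P, ∀ a₃ ∈ P, ∀ b₁ b₂ b₃,
      H.d a₁ b₁ = H.D → H.d a₂ b₂ = H.D → H.d a₃ b₃ = H.D →
      ∃ y, (y ∉ H.Sh a₁ b₁ ∧ y ∉ H.Sh a₂ b₂) ∨ (y ∉ H.Sh a₂ b₂ ∧ y ∉ H.Sh a₃ b₃) ∨
        (y ∉ H.Sh a₃ b₃ ∧ y ∉ H.Sh a₁ b₁)) :
    P.encard ≤ 9 := by
  classical
  rcases P.eq_empty_or_nonempty with rfl | ⟨p, hp⟩
  · simp
  have hbd : ∀ a ∈ P, ∀ b ∈ P, H.d a b ≤ 8 * J := by
    intro a ha b hb
    have h1 := H.d_tri a x b
    have h2 := hP a ha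
    have h3 := hP b hb
    have h4 := H.d_comm a x
    omega
  have hex : ∃ a ∈ P, ∃ b ∈ P, ∀ c ∈ P, ∀ e ∈ P, H.d c e ≤ H.d a b := by
    have hS : ∃ a ∈ P, ∃ b ∈ P, H.d a b =
        Nat.findGreatest (fun n => ∃ a ∈ P, ∃ b ∈ P, H.d a b = n) (8 * J) :=
      Nat.findGreatest_spec (P := fun n => ∃ a ∈ P, ∃ b ∈ P, H.d a b = n)
        (hbd p hp p hp) ⟨p, hp, p, hp, rfl⟩
    obtain ⟨a, ha, b, hb, hab⟩ := hS
    refine ⟨a, ha, b, hb, fun c hc e he => ?_⟩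
    rw [hab]
    exact Nat.le_findGreatest (hbd c hc e he) ⟨c, hc, e, he, rfl⟩
  obtain ⟨a, ha, b, hb, hmax⟩ := hex
  have hbet : ∀ c ∈ P, H.d a c + H.d c b ≤ H.d a b + (7 * H.δ + 2) := by
    intro c hc
    by_cases hca : c = a
    · rw [hca, H.d_self]; omega
    by_cases hcb : c = b
    · rw [hcb, H.d_self]; omega
    have s1 := hsep c hc a ha hca
    have s2 := hsep c hc b hb hcb
    have m1 := hmax c hc a ha
    have m2 := hmax c hc b hb
    have c1 := H.d_comm a c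
    have c2 := H.d_comm b c
    have c3 := H.d_comm a b
    have h3 := three H a c b (by omega) (by omega) (by omega) (hI a ha c hc b hb)
    omega
  have hJ0 : 0 < J := by omega
  have hinj : Set.InjOn (fun c => H.d a c / J) P := by
    intro c hc c' hc' h
    by_contra hne
    have s := hsep c hc c' hc' hne
    have t := tube H a b c c' _ (hbet c hc) (hbet c' hc')
    have u1 := close_of_div hJ0 h
    have u2 := close_of_div hJ0 h.symm
    omega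
  have hmap : Set.MapsTo (fun c => H.d a c / J) P ((Finset.range 9 : Finset ℕ) : Set ℕ) := by
    intro c hc
    have h1 := hbd a ha c hc
    have h2 : H.d a c / J < 9 := by
      rw [Nat.div_lt_iff_lt_mul hJ0]
      omega
    simpa using h2
  have h := Set.encard_le_encard_of_injOn hmap hinj
  rw [Set.encard_coe_eq_coe_finsetCard, Finset.card_range] at h
  exact_mod_cast h

end Pool.Agent.EffHyp
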