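import Pool.Agent.Lib.MP_5ddd96_lc.Basic

/-!
The word length of a hyperbolic group.
-/

namespace Pool.Agent.EffHyp

namespace LenAux

variable {Γ : Type} [Group Γ]

theorem le_length (S : Finset Γ) (l : List Γ) (hl : ∀ a ∈ l, a ∈ S ∨ a⁻¹ ∈ S) :
    wordLen S l.prod ≤ l.length :=
  Nat.sInf_le ⟨l, rfl, hl, rfl⟩

theorem attained (S : Finset Γ) (hS : Subgroup.closure (S : Set Γ) = ⊤) (g : Γ) :
    ∃ l : List Γ, l.length = wordLen S g ∧ (∀ a ∈ l, a ∈ S ∨ a⁻¹ ∈ S) ∧ l.prod = g := by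
  have hne : {n : ℕ | ∃ l : List Γ, l.length = n ∧ (∀ a ∈ l, a ∈ S ∨ a⁻¹ ∈ S) ∧
      l.prod = g}.Nonempty := by
    have hg : g ∈ Subgroup.closure (S : Set Γ) := by
      rw [hS]
      exact Subgroup.mem_top g
    have hg' : g ∈ Submonoid.closure ((S : Set Γ) ∪ (S : Set Γ)⁻¹) := by
      rw [← Subgroup.closure_toSubmonoid]
      exact hg
    obtain ⟨l, hl, hp⟩ := Submonoid.exists_list_of_mem_closure hg'
    exact ⟨l.length, l, rfl, fun a ha => by simpa using hl a ha, hp⟩
  exact Nat.sInf_mem hne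

theorem len_one (S : Finset Γ) : wordLen S (1 : Γ) = 0 := by
  have h := le_length S [] (by simp)
  simpa using h

theorem len_inv_le (S : Finset Γ) (hS : Subgroup.closure (S : Set Γ) = ⊤) (g : Γ) :
    wordLen S g⁻¹ ≤ wordLen S g := by
  obtain ⟨l, h1, h2, h3⟩ := attained S hS g
  have h := le_length S (l.map fun x => x⁻¹).reverse (by
    intro a ha
    rw [List.mem_reverse, List.mem_map] at ha
    obtain ⟨b, hb, rfl⟩ := ha
    rw [inv_inv]
    exact (h2 b hb).symm)
  rw [← List.prod_inv_reverse, h3, List.length_reverse, List.length_map, h1] at h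
  exact h

theorem len_inv (S : Finset Γ) (hS : Subgroup.closure (S : Set Γ) = ⊤) (g : Γ) :
    wordLen S g⁻¹ = wordLen S g := by
  refine le_antisymm (len_inv_le S hS g) ?_
  have h := len_inv_le S hS g⁻¹
  rwa [inv_inv] at h

theorem len_mul (S : Finset Γ) (hS : Subgroup.closure (S : Set Γ) = ⊤) (g h : Γ) :
    wordLen S (g * h) ≤ wordLen S g + wordLen S h := by
  obtain ⟨l, h1, h2, h3⟩ := attained S hS g
  obtain ⟨m, k1, k2, k3⟩ := attained S hS h
  have h := le_length S (l ++ m) (by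
    intro a ha
    rcases List.mem_append.1 ha with ha | ha
    · exact h2 a ha
    · exact k2 a ha)
  rwa [List.prod_append, h3, k3, List.length_append, h1, k1] at h

theorem finite_ball (S : Finset Γ) (hS : Subgroup.closure (S : Set Γ) = ⊤) (r : ℕ) :
    {g | wordLen S g ≤ r}.Finite := by
  induction r with
  | zero =>
    refine (Set.finite_singleton (1 : Γ)).subset fun g hg => ?_
    obtain ⟨l, h1, _, h3⟩ := attained S hS g
    have h0 : l.length = 0 := by
      have : wordLen S g ≤ 0 := hg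
      omega
    rw [List.length_eq_zero_iff] at h0
    subst h0
    simpa using h3.symm
  | succ r ih =>
    have hfin : ((S : Set Γ) ∪ (S : Set Γ)⁻¹).Finite := S.finite_toSet.union S.finite_toSet.inv
    refine (ih.union (hfin.mul ih)).subset fun g hg => ?_
    obtain ⟨l, h1, h2, h3⟩ := attained S hS g
    have hg' : wordLen S g ≤ r + 1 := hg
    cases l with
    | nil =>
      left
      have : wordLen S g = 0 := by simpa using h1.symm
      show wordLen S g ≤ r
      omega
    | cons a l =>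
      right
      refine ⟨a, ?_, l.prod, ?_, by simpa using h3⟩
      · rcases h2 a List.mem_cons_self with h | h
        · exact Or.inl h
        · exact Or.inr h
      · have h := le_length S l fun b hb => h2 b (List.mem_cons_of_mem _ hb)
        rw [List.length_cons] at h1
        show wordLen S l.prod ≤ r
        omega

theorem geod (S : Finset Γ) (hS : Subgroup.closure (S : Set Γ) = ⊤) (g : Γ) (n : ℕ)
    (hn : n ≤ wordLen S g) :
    ∃ a, wordLen S a = n ∧ wordLen S (g * a⁻¹) + n = wordLen S g := by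
  obtain ⟨l, h1, h2, h3⟩ := attained S hS g
  have hp : (l.take (l.length - n)).prod * (l.drop (l.length - n)).prod = g := by
    rw [List.prod_take_mul_prod_drop, h3]
  have ha := le_length S (l.drop (l.length - n)) fun b hb => h2 b (List.mem_of_mem_drop hb)
  have hb := le_length S (l.take (l.length - n)) fun b hb => h2 b (List.mem_of_mem_take hb)
  have hm := len_mul S hS (l.take (l.length - n)).prod (l.drop (l.length - n)).prod
  rw [hp] at hm
  rw [List.length_drop] at ha
  rw [List.length_take] at hb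
  refine ⟨(l.drop (l.length - n)).prod, by omega, ?_⟩
  rw [← eq_mul_inv_of_mul_eq hp]
  omega

end LenAux

theorem wordLen_le_iff {Γ : Type} [Group Γ] (S : Finset Γ)
    (hS : Subgroup.closure (S : Set Γ) = ⊤) (g : Γ) (r : ℕ) :
    wordLen S g ≤ r ↔ ∃ l : List Γ, l.length ≤ r ∧ (∀ a ∈ l, a ∈ S ∨ a⁻¹ ∈ S) ∧ l.prod = g := by
  constructor
  · intro h
    obtain ⟨l, h1, h2, h3⟩ := LenAux.attained S hS g
    exact ⟨l, h1.trans_le h, h2, h3⟩
  · rintro ⟨l, h1, h2, rfl⟩
    exact (LenAux.le_length S l h2).trans h1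

theorem exists_hypLen {Γ : Type} [Group Γ] (S : Finset Γ) (hS : IsHyperbolic S) :
    ∃ ℓ : HypLen Γ, ℓ.len = wordLen S := by
  obtain ⟨hS, δ, hδ⟩ := hS
  have e : ∀ a b : Γ, wordLen S (a⁻¹⁻¹ * b⁻¹) = wordLen S (b * a⁻¹) := fun a b => by
    rw [← LenAux.len_inv S hS (b * a⁻¹), mul_inv_rev]
  refine ⟨⟨wordLen S, δ, LenAux.len_one S, LenAux.len_inv S hS, LenAux.len_mul S hS,
    LenAux.finite_ball S hS, LenAux.geod S hS, fun x y z w => ?_⟩, rfl⟩
  have h := hδ x⁻¹ y⁻¹ z⁻¹ w⁻¹
  simp only [e] at h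
  omega

theorem HypLen.countable {Γ : Type} [Group Γ] (ℓ : HypLen Γ) : Countable Γ := by
  have h : (⋃ r : ℕ, {g | ℓ.len g ≤ r}).Countable :=
    Set.countable_iUnion fun r => (ℓ.finite_ball r).countable
  rw [← Set.countable_univ_iff]
  exact h.mono fun g _ => Set.mem_iUnion.2 ⟨ℓ.len g, le_refl (ℓ.len g)⟩

/-- The right invariant metric of a hyperbolic length function. -/
theorem HypLen.exists_HM {Γ : Type} [Group Γ] (ℓ : HypLen Γ) :
    ∃ H : HM Γ, H.δ = ℓ.δ ∧ ∀ a b, H.d a b = ℓ.len (b * a⁻¹) := by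
  refine ⟨⟨fun a b => ℓ.len (b * a⁻¹), ℓ.δ, {g | ℓ.len g ≤ 9 * ℓ.δ}.ncard, fun a => ?_,
    fun a b => ?_, fun a b c => ?_, ℓ.four, fun a b n hn => ?_, fun a => ?_⟩, rfl, fun _ _ => rfl⟩
  · rw [mul_inv_cancel, ℓ.len_one]
  · rw [← ℓ.len_inv (b * a⁻¹), mul_inv_rev, inv_inv]
  · have h := ℓ.len_mul (c * b⁻¹) (b * a⁻¹)
    rw [mul_assoc, inv_mul_cancel_left] at h
    omega
  · obtain ⟨a', h1, h2⟩ := ℓ.geod _ n hn
    refine ⟨a' * a, ?_, ?_⟩
    · rw [mul_inv_cancel_right, h1]
    · rw [mul_inv_rev, ← mul_assoc, h2]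
  · rw [(ℓ.finite_ball (9 * ℓ.δ)).cast_ncard_eq]
    exact Set.encard_le_encard_of_injOn (f := fun b => b * a⁻¹) (fun b hb => hb)
      fun b _ c _ h => mul_right_cancel h

end Pool.Agent.EffHyp
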