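import Pool.Agent.Lib.MP_5ddd96_lc.Greedy
import Pool.Agent.Lib.MP_5ddd96_lc.GeoFar
import Pool.Agent.Lib.MP_5ddd96_lc.GeoNear
import Pool.Agent.Lib.MP_5ddd96_lc.Len

/-!
Finite asymptotic dimension with locally constant witnesses from Reiter functions.
-/

namespace Pool.Agent.EffHyp

open Filter Topology

namespace AsdimAux

theorem lc_dep {Z α β : Type} [TopologicalSpace Z] {φ : Z → α} (hφ : IsLocallyConstant φ)
    {G : α → Z → β} (hG : ∀ a, IsLocallyConstant (G a)) :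
    IsLocallyConstant (fun x => G (φ x) x) := by
  rw [IsLocallyConstant.iff_eventually_eq] at hφ ⊢
  intro x
  filter_upwards [hφ x, (IsLocallyConstant.iff_eventually_eq _).1 (hG (φ x)) x] with y h1 h2
  rw [h1, h2]

theorem lc_set {Z α : Type} [TopologicalSpace Z] {B : Set α} (hB : B.Finite) {P : α → Z → Prop}
    (hP : ∀ a, IsLocallyConstant (P a)) : IsLocallyConstant (fun x => {a | a ∈ B ∧ P a x}) := by
  rw [IsLocallyConstant.iff_eventually_eq]
  intro x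
  have : ∀ᶠ y in 𝓝 x, ∀ a ∈ B, P a y = P a x :=
    (eventually_all_finite hB).2 fun a _ => (IsLocallyConstant.iff_eventually_eq _).1 (hP a) x
  filter_upwards [this] with y hy
  ext a
  simp only [Set.mem_setOf_eq]
  exact and_congr_right fun ha => by rw [hy a ha]

theorem lc_smul {Γ Z β : Type} [Group Γ] [TopologicalSpace Z] [MulAction Γ Z]
    [ContinuousConstSMul Γ Z] {F : Z → β} (hF : IsLocallyConstant F) (g : Γ) :
    IsLocallyConstant (fun x => F (g • x)) :=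
  hF.comp_continuous (continuous_const_smul g)

theorem lc_smul' {Γ Z β : Type} [Group Γ] [TopologicalSpace Z] [MulAction Γ Z]
    [ContinuousConstSMul Γ Z] {F : Z → β} (hF : IsLocallyConstant F) {φ : Z → Γ}
    (hφ : IsLocallyConstant φ) : IsLocallyConstant (fun x => F (φ x • x)) :=
  lc_dep hφ (G := fun g x => F (g • x)) fun g => lc_smul hF g

/-- The cocycle of the iterates of `x ↦ φ x • x`. -/
def coc {Γ Z : Type} [Group Γ] [MulAction Γ Z] (φ : Z → Γ) : ℕ → Z → Γ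
  | 0, _ => 1
  | k + 1, x => φ (coc φ k x • x) * coc φ k x

theorem lc_coc {Γ Z : Type} [Group Γ] [TopologicalSpace Z] [MulAction Γ Z]
    [ContinuousConstSMul Γ Z] {φ : Z → Γ} (hφ : IsLocallyConstant φ) (k : ℕ) :
    IsLocallyConstant (coc φ k) := by
  induction k with
  | zero => exact IsLocallyConstant.const 1
  | succ k ih => exact (lc_smul' hφ ih).mul ih

theorem iterate_eq {Γ Z : Type} [Group Γ] [MulAction Γ Z] (φ : Z → Γ) (y : Z) (k : ℕ) (g : Γ) :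
    (fun a : Γ => φ (a • y) * a)^[k] g = coc φ k (g • y) * g := by
  induction k with
  | zero => simp [coc]
  | succ k ih => rw [Function.iterate_succ_apply', ih]; simp [coc, mul_smul, mul_assoc]

theorem fap_mono {Γ : Type} {m : Set Γ → ℝ} (h : IsFAP m) {Y Y' : Set Γ} (hY : Y ⊆ Y') :
    m Y ≤ m Y' := by
  have := h.add Y (Y' \ Y) Set.disjoint_sdiff_right
  rw [Set.union_diff_cancel hY] at this
  linarith [h.nonneg (Y' \ Y)]

theorem fap_compl {Γ : Type} {m : Set Γ → ℝ} (h : IsFAP m) (Y : Set Γ) : m Y + m Yᶜ = 1 := by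
  rw [← h.add Y Yᶜ disjoint_compl_right, Set.union_compl_self, h.univ]

theorem fap_two {Γ : Type} {m : Set Γ → ℝ} (h : IsFAP m) {Y Y' : Set Γ} (h1 : 1 / 2 < m Y)
    (h2 : 1 / 2 < m Y') : ∃ y, y ∈ Y ∧ y ∈ Y' := by
  by_contra hc
  have hd : Y' ⊆ Yᶜ := fun y hy hy' => hc ⟨y, hy', hy⟩
  linarith [fap_mono h hd, fap_compl h Y]

theorem fap_three {Γ : Type} {m : Set Γ → ℝ} (h : IsFAP m) {Y₁ Y₂ Y₃ : Set Γ} (h1 : m Y₁ < 2 / 3)
    (h2 : m Y₂ < 2 / 3) (h3 : m Y₃ < 2 / 3) :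
    ∃ y, (y ∉ Y₁ ∧ y ∉ Y₂) ∨ (y ∉ Y₂ ∧ y ∉ Y₃) ∨ (y ∉ Y₃ ∧ y ∉ Y₁) := by
  by_contra hc
  have hd : Disjoint Y₂ᶜ Y₃ᶜ := Set.disjoint_left.2 fun y hy hy' => hc ⟨y, Or.inr (Or.inl ⟨hy, hy'⟩)⟩
  have hs : Y₂ᶜ ∪ Y₃ᶜ ⊆ Y₁ := by
    intro y hy
    by_contra hy1
    rcases hy with hy | hy
    · exact hc ⟨y, Or.inl ⟨hy1, hy⟩⟩
    · exact hc ⟨y, Or.inr (Or.inr ⟨hy, hy1⟩)⟩
  linarith [fap_mono h hs, h.add _ _ hd, fap_compl h Y₂, fap_compl h Y₃]

end AsdimAux

open AsdimAux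

theorem asdim_of_reiter {Γ : Type} [Group Γ] (ℓ : HypLen Γ) :
    ∃ N : ℕ, ∀ ρ : ℕ, ∃ R : ℕ, ∀ (Z : Type) [TopologicalSpace Z] [MulAction Γ Z] [ContinuousConstSMul Γ Z],
      (∀ B : Finset Γ, ∃ c : Z → ℕ, IsLocallyConstant c ∧
        ∀ x, ∀ g ∈ B, g ≠ 1 → c (g • x) ≠ c x) →
      ∀ K : Set Z, (∀ T : Finset Γ, ∃ m : Z → Set Γ → ℝ, IsLocallyConstant m ∧
        (∀ x, IsFAP (m x)) ∧
        ∀ x ∈ K, ∀ g ∈ T, ∀ Y : Set Γ, m x Y ≤ m (g • x) {a | a * g ∈ Y} + 1 / 20) →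
      ∃ τ : Z → Γ, IsLocallyConstant τ ∧ (∀ z, ℓ.len (τ z) ≤ R) ∧
        ∀ y ∈ K, {a | ∃ g, ℓ.len g ≤ ρ ∧ a = τ (g • y) * g}.encard ≤ N := by
  classical
  obtain ⟨H, hδ, hd⟩ := ℓ.exists_HM
  refine ⟨9 + 2 * H.β, fun ρ => ?_⟩
  set L := 2 * ρ + 3 * H.δ + 1 with hL
  set K₁ := 4 * H.D * L with hK₁
  set J := ρ + K₁ + 8 * H.δ + 2 with hJ
  let ball : ℕ → Finset Γ := fun r => (ℓ.finite_ball r).toFinset
  have hball : ∀ r g, g ∈ ball r ↔ ℓ.len g ≤ r := fun r g => by simp [ball]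
  refine ⟨K₁ + 2 * J + (L + 2 * (ball (H.D * L)).card * L) * H.D, ?_⟩
  intro Z _ _ _ hcol K hR
  have hinv : ∀ r, ∀ g ∈ ball r, g⁻¹ ∈ ball r := fun r g hg => by
    rw [hball] at hg ⊢; rwa [ℓ.len_inv]
  have hd1 : ∀ a, H.d 1 a = ℓ.len a := fun a => by rw [hd]; simp
  have hdm : ∀ a g, H.d g (a * g) = ℓ.len a := fun a g => by rw [hd]; simp
  obtain ⟨m, hm, hfap, hmK⟩ := hR (ball (4 * J))
  -- the set `Λ` and the step `φ`
  let St : (Set Γ → ℝ) → Set Γ := fun μ => {a | ℓ.len a = H.D ∧ 3 / 5 < μ (H.Sh 1 a)}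
  let Lam : Z → Prop := fun z => ¬ (St (m z)).Nonempty
  let φ : Z → Γ := fun z => if h : (St (m z)).Nonempty then h.some else 1
  have hLam : IsLocallyConstant Lam := hm.comp (fun μ => ¬ (St μ).Nonempty)
  have hφ : IsLocallyConstant φ :=
    hm.comp (fun μ => if h : (St μ).Nonempty then h.some else 1)
  have hφ1 : ∀ z, ¬ Lam z → φ z ∈ St (m z) := by
    intro z hz
    have h : (St (m z)).Nonempty := not_not.1 hz
    simp only [φ, dif_pos h]
    exact h.some_mem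
  have hφ2 : ∀ z, ℓ.len (φ z) ≤ H.D := by
    intro z
    by_cases hz : Lam z
    · have h : ¬ (St (m z)).Nonempty := hz
      simp only [φ, dif_neg h, ℓ.len_one]
      exact Nat.zero_le _
    · exact (hφ1 z hz).1.le
  -- colourings
  obtain ⟨c₀, hc₀, hp₀⟩ := hcol (ball (H.D * L))
  obtain ⟨c, hc, hcM, hcp, -⟩ := exists_greedy (ball (H.D * L)) (hinv _) c₀ hc₀ hp₀
    (fun _ => True) (IsLocallyConstant.const True)
  obtain ⟨e₀, he₀, hq₀⟩ := hcol (ball (2 * J))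
  obtain ⟨e, he, -, hep, hez⟩ := exists_greedy (ball (2 * J)) (hinv _) e₀ he₀ hq₀ Lam hLam
  set M := (ball (H.D * L)).card with hM
  -- markers and the map `τ`
  let Mk : Z → Prop := fun z => ∀ k ≤ 2 * L, c (coc φ L z • z) ≤ c (coc φ k z • z)
  have hMk : IsLocallyConstant Mk := by
    have h1 : IsLocallyConstant (fun z => {k | k ∈ Set.Iic (2 * L) ∧
        c (coc φ L z • z) ≤ c (coc φ k z • z)}) :=
      lc_set (Set.finite_Iic _) fun k => (lc_smul' hc (lc_coc hφ L)).comp₂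
        (lc_smul' hc (lc_coc hφ k)) (fun a b => a ≤ b)
    have h2 := h1.comp (fun s => ∀ k ≤ 2 * L, k ∈ s)
    convert h2 using 1
    funext z
    simp only [Mk, Function.comp, Set.mem_setOf_eq, Set.mem_Iic]
    exact propext ⟨fun h k hk => ⟨hk, h k hk⟩, fun h k hk => (h k hk).2⟩
  let qt : Z → ℕ := fun z => sInf {q | q ∈ Set.Iic (L + 2 * M * L) ∧ (L ≤ q ∧ Mk (coc φ q z • z))}
  have hqt : IsLocallyConstant qt :=
    (lc_set (Set.finite_Iic _) fun q =>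
      (lc_smul' hMk (lc_coc hφ q)).comp (fun p => L ≤ q ∧ p)).comp sInf
  let Nr : Z → Set Γ := fun z => {a | a ∈ (ball K₁ : Set Γ) ∧ Lam (a • z)}
  have hNr : IsLocallyConstant Nr := lc_set (Finset.finite_toSet _) fun a => lc_smul hLam a
  let Ns : Z → Set Γ := fun z => {a | a ∈ (ball (K₁ + 2 * J) : Set Γ) ∧ (Lam (a • z) ∧ e (a • z) = 0)}
  have hNs : IsLocallyConstant Ns := lc_set (Finset.finite_toSet _) fun a =>
    (lc_smul hLam a).comp₂ (lc_smul he a) (fun p n => p ∧ n = 0)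
  have hNe : ∀ z, (Nr z).Nonempty → (Ns z).Nonempty := by
    rintro z ⟨a, ha, hl⟩
    have ha' : ℓ.len a ≤ K₁ := (hball _ _).1 ha
    by_cases h0 : e (a • z) = 0
    · exact ⟨a, (hball _ _).2 (by omega), hl, h0⟩
    · obtain ⟨g, hg, hl', h0'⟩ := hez _ h0
      have hg' : ℓ.len g ≤ 2 * J := (hball _ _).1 hg
      refine ⟨g * a, (hball _ _).2 ?_, by rwa [mul_smul], by rwa [mul_smul]⟩
      have := ℓ.len_mul g a
      omega
  let τ : Z → Γ := fun z => if (Nr z).Nonempty then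
    (if h : (Ns z).Nonempty then h.some else 1) else coc φ (qt z) z
  have hτ : IsLocallyConstant τ := by
    have h1 : IsLocallyConstant (fun z => coc φ (qt z) z) :=
      lc_dep hqt (G := fun q z => coc φ q z) fun q => lc_coc hφ q
    exact ((hNr.prodMk hNs).prodMk h1).comp (fun p : (Set Γ × Set Γ) × Γ =>
      if p.1.1.Nonempty then (if h : p.1.2.Nonempty then h.some else 1) else p.2)
  have hcoc : ∀ q z, ℓ.len (coc φ q z) ≤ q * H.D := by
    intro q z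
    induction q with
    | zero => simp [coc, ℓ.len_one]
    | succ q ih =>
      have h1 := ℓ.len_mul (φ (coc φ q z • z)) (coc φ q z)
      have h2 := hφ2 (coc φ q z • z)
      rw [coc, Nat.succ_mul]
      omega
  have hτR : ∀ z, ℓ.len (τ z) ≤ K₁ + 2 * J + (L + 2 * M * L) * H.D := by
    intro z
    by_cases hn : (Nr z).Nonempty
    · have h := hNe _ hn
      have h1 : τ z ∈ Ns z := by
        simp only [τ, if_pos hn, dif_pos h]
        exact h.some_mem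
      exact ((hball _ _).1 h1.1).trans (Nat.le_add_right _ _)
    · have h1 : qt z ≤ L + 2 * M * L := by
        rcases Set.eq_empty_or_nonempty {q | q ∈ Set.Iic (L + 2 * M * L) ∧
          (L ≤ q ∧ Mk (coc φ q z • z))} with h | h
        · simp only [qt, h, Nat.sInf_empty]
          exact Nat.zero_le _
        · exact (Nat.sInf_mem h).1
      simp only [τ, if_neg hn]
      exact ((hcoc _ z).trans (Nat.mul_le_mul_right _ h1)).trans (Nat.le_add_left _ _)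
  refine ⟨τ, hτ, hτR, fun y hy => ?_⟩
  -- transport to the group
  let f : Γ → Γ := fun a => φ (a • y) * a
  let cy : Γ → ℕ := fun a => c (a • y)
  let Λ : Set Γ := {a | Lam (a • y)}
  have hSh : ∀ g a, {b | b * g ∈ H.Sh g (a * g)} = H.Sh 1 a := by
    intro g a
    ext b
    simp only [HM.Sh, Set.mem_setOf_eq, hd]
    simp [mul_assoc]
  have hlow : ∀ g, H.d 1 g ≤ 4 * J → g ∉ Λ → 1 / 2 < m y (H.Sh g (f g)) := by
    intro g hg hΛ
    have h1 := hmK y hy g ((hball _ _).2 (by rwa [← hd1])) (H.Sh g (f g))ᶜ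
    have h2 : {b | b * g ∈ (H.Sh g (f g))ᶜ} = (H.Sh 1 (φ (g • y)))ᶜ := by
      rw [← hSh g]; rfl
    rw [h2] at h1
    have h3 := (hφ1 (g • y) hΛ).2
    linarith [fap_compl (hfap y) (H.Sh g (f g)), fap_compl (hfap (g • y)) (H.Sh 1 (φ (g • y)))]
  have hupp : ∀ g b, H.d 1 g ≤ 4 * J → g ∈ Λ → H.d g b = H.D → m y (H.Sh g b) < 2 / 3 := by
    intro g b hg hΛ hb
    have h1 := hmK y hy g ((hball _ _).2 (by rwa [← hd1])) (H.Sh g b)
    have h2 : {a | a * g ∈ H.Sh g b} = H.Sh 1 (b * g⁻¹) := by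
      rw [← hSh g]; simp
    rw [h2] at h1
    have h3 : ¬ (3 / 5 < m (g • y) (H.Sh 1 (b * g⁻¹))) := fun h =>
      hΛ ⟨b * g⁻¹, by rw [← hd, hb], h⟩
    linarith
  have hfar := far_count H 1 ρ L (4 * J) M hL (by omega) Λ f cy
    (fun z => by simp only [f]; rw [hdm]; exact hφ2 _)
    (fun z hz => by simp only [f]; rw [hdm]; exact (hφ1 _ hz).1)
    (fun z z' h1 h2 h3 h4 => fap_two (hfap y) (hlow z h1 h3) (hlow z' h2 h4))
    (fun z => hcM _)
    (fun a b hab hle => by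
      have h1 := hcp (a • y) (b * a⁻¹) ((hball _ _).2 (by rwa [← hd]))
        (fun h => hab (mul_inv_eq_one.1 h).symm) trivial trivial
      rw [smul_smul, inv_mul_cancel_right] at h1
      exact h1.symm)
  have hnear := near_count H 1 J (by omega) {a | H.d 1 a ≤ 4 * J ∧ a ∈ Λ ∧ e (a • y) = 0}
    (fun a ha => ha.1)
    (fun a ha b hb hab => by
      by_contra hle
      have h1 := hep (a • y) (b * a⁻¹) ((hball _ _).2 (by rw [← hd]; omega))
        (fun h => hab (mul_inv_eq_one.1 h).symm) ha.2.1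
        (by rw [smul_smul, inv_mul_cancel_right]; exact hb.2.1)
      rw [smul_smul, inv_mul_cancel_right, ha.2.2, hb.2.2] at h1
      exact h1 rfl)
    (fun a₁ h₁ a₂ h₂ a₃ h₃ b₁ b₂ b₃ e₁ e₂ e₃ => fap_three (hfap y) (hupp _ _ h₁.1 h₁.2.1 e₁)
      (hupp _ _ h₂.1 h₂.2.1 e₂) (hupp _ _ h₃.1 h₃.2.1 e₃))
  have hMkf : ∀ q g, Mk (coc φ q (g • y) • g • y) ↔ Mark cy f L (f^[q] g) := by
    intro q g
    have h1 : f^[q] g • y = coc φ q (g • y) • g • y := by
      simp only [f]; rw [iterate_eq, mul_smul]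
    have h2 : ∀ k a, cy (f^[k] a) = c (coc φ k (a • y) • a • y) := by
      intro k a
      simp only [f, cy]; rw [iterate_eq, mul_smul]
    simp only [Mk, Mark, h2, h1]
  have hqf : ∀ g, qt (g • y) = ftime cy f L L g := by
    intro g
    obtain ⟨q, hq1, hq2, hq3⟩ := exists_mark cy f M L L (fun z => hcM _) g
    have hne : {q | L ≤ q ∧ Mark cy f L (f^[q] g)}.Nonempty := ⟨q, hq1, hq3⟩
    have hle : ftime cy f L L g ≤ q := Nat.sInf_le ⟨hq1, hq3⟩
    have hmem := Nat.sInf_mem hne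
    apply le_antisymm
    · exact Nat.sInf_le ⟨hle.trans hq2, hmem.1, (hMkf _ _).2 hmem.2⟩
    · have hne' : {q | q ∈ Set.Iic (L + 2 * M * L) ∧
          (L ≤ q ∧ Mk (coc φ q (g • y) • g • y))}.Nonempty := ⟨q, hq2, hq1, (hMkf _ _).2 hq3⟩
      have h' := Nat.sInf_mem hne'
      exact Nat.sInf_le ⟨h'.2.1, (hMkf _ _).1 h'.2.2⟩
  refine le_trans (Set.encard_le_encard (t := {a | H.d 1 a ≤ 4 * J ∧ a ∈ Λ ∧ e (a • y) = 0} ∪
    {v | ∃ u, H.d 1 u ≤ ρ ∧ (∀ z, H.d u z ≤ 4 * H.D * L → z ∉ Λ) ∧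
      v = f^[ftime cy f L L u] u}) ?_) ?_
  · rintro a ⟨g, hg, rfl⟩
    by_cases hn : (Nr (g • y)).Nonempty
    · left
      have h := hNe _ hn
      have h1 : τ (g • y) ∈ Ns (g • y) := by
        simp only [τ, if_pos hn, dif_pos h]
        exact h.some_mem
      have h2 : ℓ.len (τ (g • y)) ≤ K₁ + 2 * J := (hball _ _).1 h1.1
      refine ⟨?_, ?_, ?_⟩
      · rw [hd1]
        have := ℓ.len_mul (τ (g • y)) g
        omega
      · show Lam ((τ (g • y) * g) • y)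
        rw [mul_smul]; exact h1.2.1
      · rw [mul_smul]; exact h1.2.2
    · right
      refine ⟨g, by rwa [hd1], fun z hz hΛ => hn ⟨z * g⁻¹, (hball _ _).2 (by rwa [← hd]), ?_⟩, ?_⟩
      · rw [smul_smul, inv_mul_cancel_right]; exact hΛ
      · simp only [τ, if_neg hn, f]
        rw [iterate_eq, hqf]
  · refine (Set.encard_union_le _ _).trans ?_
    push_cast at hfar ⊢
    exact add_le_add hnear hfar

end Pool.Agent.EffHyp
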