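import Pool.Agent.Lib.MP_5ddd96_lc.Basic

/-!
Greedy recolouring is locally constant.
-/

namespace Pool.Agent.EffHyp

open Filter Topology

namespace GreedyAux

/-- the greedy colour after `n` rounds -/
noncomputable def gn {Γ Z : Type} [Group Γ] [MulAction Γ Z] (B : Finset Γ) (c₀ : Z → ℕ)
    (P : Z → Prop) : ℕ → Z → ℕ
  | 0, _ => 0
  | n + 1, x => sInf {j | ∀ g ∈ B, P (g • x) → c₀ (g • x) < c₀ x → gn B c₀ P n (g • x) ≠ j}

variable {Γ Z : Type} [Group Γ] [MulAction Γ Z] (B : Finset Γ) (c₀ : Z → ℕ) (P : Z → Prop)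

theorem gn_stable : ∀ (n m : ℕ) (x : Z), c₀ x < n → c₀ x < m → gn B c₀ P n x = gn B c₀ P m x := by
  intro n
  induction n with
  | zero => intro m x h; omega
  | succ n ih =>
    intro m x h1 h2
    obtain ⟨m, rfl⟩ : ∃ k, m = k + 1 := ⟨m - 1, by omega⟩
    simp only [gn]
    congr 1
    ext j
    refine forall_congr' fun g => forall_congr' fun _ => forall_congr' fun _ =>
      forall_congr' fun h => ?_
    rw [ih m (g • x) (by omega) (by omega)]

/-- the greedy colour -/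
noncomputable def gr (x : Z) : ℕ := gn B c₀ P (c₀ x + 1) x

theorem gr_eq (x : Z) :
    gr B c₀ P x = sInf {j | ∀ g ∈ B, P (g • x) → c₀ (g • x) < c₀ x → gr B c₀ P (g • x) ≠ j} := by
  unfold gr
  simp only [gn]
  congr 1
  ext j
  refine forall_congr' fun g => forall_congr' fun _ => forall_congr' fun _ =>
    forall_congr' fun h => ?_
  have := gn_stable B c₀ P (c₀ x) (c₀ (g • x) + 1) (g • x) h (Nat.lt_succ_self _)
  simp only [gn] at this
  rw [this]

omit [Group Γ] in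
theorem exists_mem (F : Γ → ℕ) : ∃ j ≤ B.card, ∀ g ∈ B, F g ≠ j := by
  classical
  have h : (B.image F).card < (Finset.range (B.card + 1)).card := by
    rw [Finset.card_range]; exact Nat.lt_succ_of_le Finset.card_image_le
  obtain ⟨j, hj, hn⟩ := Finset.exists_mem_notMem_of_card_lt_card h
  exact ⟨j, Nat.le_of_lt_succ (Finset.mem_range.1 hj),
    fun g hg e => hn (Finset.mem_image.2 ⟨g, hg, e⟩)⟩

theorem gr_spec (x : Z) : gr B c₀ P x ≤ B.card ∧
    ∀ g ∈ B, P (g • x) → c₀ (g • x) < c₀ x → gr B c₀ P (g • x) ≠ gr B c₀ P x := by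
  obtain ⟨j, hj, h⟩ := exists_mem B fun g => gr B c₀ P (g • x)
  have hm : j ∈ {j | ∀ g ∈ B, P (g • x) → c₀ (g • x) < c₀ x → gr B c₀ P (g • x) ≠ j} :=
    fun g hg _ _ => h g hg
  rw [gr_eq B c₀ P x]
  exact ⟨(Nat.sInf_le hm).trans hj, Nat.sInf_mem ⟨j, hm⟩⟩

theorem gn_lc [TopologicalSpace Z] [ContinuousConstSMul Γ Z] (hc₀ : IsLocallyConstant c₀)
    (hP : IsLocallyConstant P) (n : ℕ) : IsLocallyConstant (gn B c₀ P n) := by
  induction n with
  | zero => exact IsLocallyConstant.const 0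
  | succ n ih =>
    refine (IsLocallyConstant.iff_eventually_eq _).2 fun x => ?_
    have h1 : ∀ᶠ y in 𝓝 x, ∀ g ∈ B, P (g • y) = P (g • x) ∧ c₀ (g • y) = c₀ (g • x) ∧
        gn B c₀ P n (g • y) = gn B c₀ P n (g • x) :=
      (Filter.eventually_all_finset B).2 fun g _ =>
        ((hP.comp_continuous (continuous_const_smul g)).eventually_eq x).and
          (((hc₀.comp_continuous (continuous_const_smul g)).eventually_eq x).and
            ((ih.comp_continuous (continuous_const_smul g)).eventually_eq x))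
    filter_upwards [h1, hc₀.eventually_eq x] with y hy e
    simp only [gn]
    congr 1
    ext j
    refine forall_congr' fun g => forall_congr' fun hg => ?_
    rw [(hy g hg).1, (hy g hg).2.1, (hy g hg).2.2, e]

end GreedyAux

open GreedyAux

theorem exists_greedy {Γ Z : Type} [Group Γ] [TopologicalSpace Z] [MulAction Γ Z]
    [ContinuousConstSMul Γ Z] (B : Finset Γ) (hB : ∀ g ∈ B, g⁻¹ ∈ B)
    (c₀ : Z → ℕ) (hc₀ : IsLocallyConstant c₀) (hp : ∀ x, ∀ g ∈ B, g ≠ 1 → c₀ (g • x) ≠ c₀ x)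
    (P : Z → Prop) (hP : IsLocallyConstant P) :
    ∃ c : Z → ℕ, IsLocallyConstant c ∧ (∀ x, c x ≤ B.card) ∧
      (∀ x, ∀ g ∈ B, g ≠ 1 → P x → P (g • x) → c (g • x) ≠ c x) ∧
      ∀ x, c x ≠ 0 → ∃ g ∈ B, P (g • x) ∧ c (g • x) = 0 := by
  refine ⟨gr B c₀ P, ?_, fun x => (gr_spec B c₀ P x).1, fun x g hg h1 hx hgx => ?_, fun x hx => ?_⟩
  · refine (IsLocallyConstant.iff_eventually_eq _).2 fun x => ?_
    filter_upwards [hc₀.eventually_eq x, (gn_lc B c₀ P hc₀ hP (c₀ x + 1)).eventually_eq x] with y e h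
    unfold gr
    rw [e, h]
  · rcases lt_or_gt_of_ne (hp x g hg h1) with h | h
    · exact (gr_spec B c₀ P x).2 g hg hgx h
    · have := (gr_spec B c₀ P (g • x)).2 g⁻¹ (hB g hg) (by rwa [inv_smul_smul])
        (by rwa [inv_smul_smul])
      rw [inv_smul_smul] at this
      exact this.symm
  · by_contra hn
    apply hx
    rw [gr_eq B c₀ P x]
    exact Nat.eq_zero_of_le_zero (Nat.sInf_le fun g hg h1 _ e => hn ⟨g, hg, h1, e⟩)

end Pool.Agent.EffHyp
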