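import Pool.Agent.Lib.MP_5ddd96_lc.Level
import Pool.Agent.Lib.MP_5ddd96_lc.Greedy

/-!
Locally constant colourings for actions with clopen sets of fixed points.
-/

namespace Pool.Agent.EffHyp

open Filter Topology

theorem exists_base_colour2 {Γ : Type} [Group Γ] (X : Set Baire) [MulAction Γ X]
    [ContinuousConstSMul Γ X] (hfix : ∀ g : Γ, IsClopen {x : X | g • x = x}) (B : Finset Γ) :
    ∃ c : X → ℕ, IsLocallyConstant c ∧ ∀ x, ∀ g ∈ B, g • x ≠ x → c (g • x) ≠ c x := by
  classical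
  let P : X → ℕ → Prop := fun x j => ∀ g ∈ B, g • x ≠ x → pre (g • x : X) j ≠ pre x j
  have hex : ∀ x : X, ∃ j, P x j := by
    intro x
    have h1 : ∀ g : Γ, ∃ i : ℕ, g • x ≠ x → ((g • x : X) : Baire) i ≠ (x : Baire) i := by
      intro g
      by_cases hg : g • x = x
      · exact ⟨0, fun h => absurd hg h⟩
      · have hne : ((g • x : X) : Baire) ≠ (x : Baire) := fun h => hg (Subtype.ext h)
        obtain ⟨i, hi⟩ := Function.ne_iff.1 hne
        exact ⟨i, fun _ => hi⟩
    choose I hI using h1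
    refine ⟨B.sup I + 1, fun g hg hg1 h => hI g hg1 ?_⟩
    exact (pre_eq_iff _ _ _).1 h _ (Nat.lt_succ_of_le (Finset.le_sup (f := I) hg))
  have hF : ∀ (x : X) (g : Γ), ∀ᶠ y : X in 𝓝 x, (g • y = y ↔ g • x = x) := by
    intro x g
    by_cases hg : g • x = x
    · filter_upwards [(hfix g).isOpen.mem_nhds hg] with y hy
      exact ⟨fun _ => hg, fun _ => hy⟩
    · filter_upwards [(hfix g).compl.isOpen.mem_nhds hg] with y hy
      exact ⟨fun h => absurd h hy, fun h => absurd h hg⟩
  have hP : ∀ (x : X) (j : ℕ), ∀ᶠ y : X in 𝓝 x, (P y j ↔ P x j) := by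
    intro x j
    have h1 : ∀ g ∈ B, ∀ᶠ y : X in 𝓝 x,
        pre (g • y : X) j = pre (g • x : X) j ∧ (g • y = y ↔ g • x = x) := fun g _ =>
      ((IsLocallyConstant.iff_eventually_eq _).1
        ((isLocallyConstant_pre X j).comp_continuous (continuous_const_smul g)) x).and (hF x g)
    filter_upwards [(Filter.eventually_all_finset _).2 h1,
      (IsLocallyConstant.iff_eventually_eq _).1 (isLocallyConstant_pre X j) x] with y hy hy'
    refine forall_congr' fun g => forall_congr' fun hg => ?_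
    rw [(hy g hg).1, hy', Ne, (hy g hg).2]
  let J : X → ℕ := fun x => Nat.find (hex x)
  refine ⟨fun x => Encodable.encode (pre x (J x)), ?_, fun x g hg hg1 h => ?_⟩
  · rw [IsLocallyConstant.iff_eventually_eq]
    intro x
    have h1 : ∀ i ∈ Finset.range (J x + 1), ∀ᶠ y : X in 𝓝 x, (P y i ↔ P x i) :=
      fun i _ => hP x i
    filter_upwards [(Filter.eventually_all_finset _).2 h1,
      (IsLocallyConstant.iff_eventually_eq _).1 (isLocallyConstant_pre X (J x)) x] with y hy hy'
    have e : J y = J x := by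
      refine (Nat.find_eq_iff (hex y)).2 ⟨?_, fun i hi => ?_⟩
      · exact (hy _ (Finset.mem_range.2 (Nat.lt_succ_self _))).2 (Nat.find_spec (hex x))
      · exact fun hi' => Nat.find_min (hex x) hi
          ((hy i (Finset.mem_range.2 (Nat.lt_succ_of_lt hi))).1 hi')
    rw [e, hy']
  · have e : pre (g • x : X) (J (g • x)) = pre x (J x) := Encodable.encode_injective h
    have e2 : J (g • x) = J x := by
      have := congrArg List.length e
      rwa [pre_length, pre_length] at this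
    rw [e2] at e
    exact Nat.find_spec (hex x) g hg hg1 e

open GreedyAux in
theorem exists_greedy2 {Γ Z : Type} [Group Γ] [TopologicalSpace Z] [MulAction Γ Z]
    [ContinuousConstSMul Γ Z] (B : Finset Γ) (hB : ∀ g ∈ B, g⁻¹ ∈ B)
    (c₀ : Z → ℕ) (hc₀ : IsLocallyConstant c₀) (hp : ∀ x, ∀ g ∈ B, g • x ≠ x → c₀ (g • x) ≠ c₀ x)
    (P : Z → Prop) (hP : IsLocallyConstant P) :
    ∃ c : Z → ℕ, IsLocallyConstant c ∧ (∀ x, c x ≤ B.card) ∧
      (∀ x, ∀ g ∈ B, g • x ≠ x → P x → P (g • x) → c (g • x) ≠ c x) ∧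
      ∀ x, c x ≠ 0 → ∃ g ∈ B, P (g • x) ∧ c (g • x) = 0 := by
  refine ⟨gr B c₀ P, ?_, fun x => (gr_spec B c₀ P x).1, fun x g hg h1 hx hgx => ?_, fun x hx => ?_⟩
  · refine (IsLocallyConstant.iff_eventually_eq _).2 fun x => ?_
    filter_upwards [hc₀.eventually_eq x, (gn_lc B c₀ P hc₀ hP (c₀ x + 1)).eventually_eq x] with y e h
    unfold gr
    rw [e, h]
  · rcases lt_or_gt_of_ne (hp x g hg h1) with h | h
    · exact (gr_spec B c₀ P x).2 g hg hgx h
    · have := (gr_spec B c₀ P (g • x)).2 g⁻¹ (hB g hg) (by rwa [inv_smul_smul])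
        (by rwa [inv_smul_smul])
      rw [inv_smul_smul] at this
      exact this.symm
  · by_contra hn
    apply hx
    rw [gr_eq B c₀ P x]
    exact Nat.eq_zero_of_le_zero (Nat.sInf_le fun g hg h1 _ e => hn ⟨g, hg, h1, e⟩)

end Pool.Agent.EffHyp
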