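import Pool.Agent.Lib.MP_5ddd96_lc.Basic2
import Pool.Agent.Lib.MP_5ddd96_lc.Len

/-!
The distance in Schreier graphs.
-/

namespace Pool.Agent.EffHyp

variable {Γ : Type} [Group Γ]

theorem exists_gLen (S : Finset Γ) (hS : Subgroup.closure (S : Set Γ) = ⊤) :
    ∃ ℓ : GLen Γ, ℓ.len = wordLen S :=
  ⟨⟨wordLen S, LenAux.len_one S, LenAux.len_inv S hS, LenAux.len_mul S hS,
    LenAux.finite_ball S hS, LenAux.geod S hS⟩, rfl⟩

theorem GLen.countable (ℓ : GLen Γ) : Countable Γ := by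
  have h : (⋃ r : ℕ, {g | ℓ.len g ≤ r}).Countable :=
    Set.countable_iUnion fun r => (ℓ.finite_ball r).countable
  rw [← Set.countable_univ_iff]
  exact h.mono fun g _ => Set.mem_iUnion.2 ⟨ℓ.len g, le_refl (ℓ.len g)⟩

namespace Len2Aux

variable {Z : Type} [MulAction Γ Z]

theorem sd_le (ℓ : GLen Γ) {x y : Z} {g : Γ} (h : g • x = y) : ℓ.sd x y ≤ ℓ.len g :=
  Nat.sInf_le ⟨g, le_refl _, h⟩

theorem sd_attained (ℓ : GLen Γ) {x y : Z} {b : Γ} (h : b • x = y) :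
    ∃ g : Γ, ℓ.len g = ℓ.sd x y ∧ g • x = y := by
  have hne : {n | ∃ g : Γ, ℓ.len g ≤ n ∧ g • x = y}.Nonempty := ⟨ℓ.len b, b, le_refl _, h⟩
  obtain ⟨g, h1, h2⟩ := Nat.sInf_mem hne
  exact ⟨g, le_antisymm h1 (sd_le ℓ h2), h2⟩

theorem sd_self (ℓ : GLen Γ) (x : Z) : ℓ.sd x x = 0 := by
  have h := sd_le ℓ (one_smul Γ x)
  rw [ℓ.len_one] at h
  omega

theorem sd_comm_le (ℓ : GLen Γ) {x y : Z} {b : Γ} (h : b • x = y) : ℓ.sd y x ≤ ℓ.sd x y := by
  obtain ⟨g, h1, h2⟩ := sd_attained ℓ h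
  have h3 : g⁻¹ • y = x := by rw [← h2, inv_smul_smul]
  have h4 := sd_le ℓ h3
  rw [ℓ.len_inv] at h4
  omega

theorem sd_tri (ℓ : GLen Γ) {x y z : Z} {b c : Γ} (h : b • x = y) (h' : c • y = z) :
    ℓ.sd x z ≤ ℓ.sd x y + ℓ.sd y z := by
  obtain ⟨g, h1, h2⟩ := sd_attained ℓ h
  obtain ⟨k, k1, k2⟩ := sd_attained ℓ h'
  have h3 : (k * g) • x = z := by rw [mul_smul, h2, k2]
  have h4 := sd_le ℓ h3
  have h5 := ℓ.len_mul k g
  omega

theorem orbit_rel (o : Z) (a b : MulAction.orbit Γ o) : ∃ g : Γ, g • (a : Z) = (b : Z) := by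
  obtain ⟨a, ga, rfl⟩ := a
  obtain ⟨b, gb, rfl⟩ := b
  exact ⟨gb * ga⁻¹, by simp [mul_smul]⟩

theorem walk_of_word (S : Finset Γ) (x : Z) (l : List Γ) (hl : ∀ a ∈ l, a ∈ S ∨ a⁻¹ ∈ S) :
    ∀ y : Z, l.prod • x = y → ∃ p : (schreier S Z).Walk x y, p.length ≤ l.length := by
  induction l with
  | nil =>
    intro y hy
    rw [List.prod_nil, one_smul] at hy
    subst hy
    exact ⟨SimpleGraph.Walk.nil, le_refl _⟩
  | cons a l ih =>
    intro y hy
    rw [List.prod_cons, mul_smul] at hy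
    obtain ⟨p, hp⟩ := ih (fun b hb => hl b (List.mem_cons_of_mem _ hb)) _ rfl
    by_cases hxy : l.prod • x = y
    · subst hxy
      exact ⟨p, by rw [List.length_cons]; omega⟩
    · have hadj : (schreier S Z).Adj (l.prod • x) y := by
        rw [schreier, SimpleGraph.fromRel_adj]
        refine ⟨hxy, ?_⟩
        rcases hl a List.mem_cons_self with h | h
        · exact Or.inl ⟨a, h, hy⟩
        · exact Or.inr ⟨a⁻¹, h, by rw [← hy, inv_smul_smul]⟩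
      exact ⟨p.concat hadj, by
        rw [SimpleGraph.Walk.length_concat, List.length_cons]; omega⟩

theorem word_of_walk (S : Finset Γ) {x y : Z} (p : (schreier S Z).Walk x y) :
    ∃ l : List Γ, l.length = p.length ∧ (∀ a ∈ l, a ∈ S ∨ a⁻¹ ∈ S) ∧ l.prod • x = y := by
  induction p with
  | nil => exact ⟨[], rfl, by simp, by simp⟩
  | @cons u v w huv p ih =>
    obtain ⟨l, h1, h2, h3⟩ := ih
    rw [schreier, SimpleGraph.fromRel_adj] at huv
    have hs : ∃ s : Γ, (s ∈ S ∨ s⁻¹ ∈ S) ∧ s • u = v := by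
      rcases huv.2 with ⟨s, hs, h⟩ | ⟨s, hs, h⟩
      · exact ⟨s, Or.inl hs, h⟩
      · exact ⟨s⁻¹, Or.inr (by rwa [inv_inv]), by rw [← h, inv_smul_smul]⟩
    obtain ⟨s, hs, hsu⟩ := hs
    refine ⟨l ++ [s], by simp [h1], fun a ha => ?_, ?_⟩
    · rcases List.mem_append.1 ha with ha | ha
      · exact h2 a ha
      · rw [List.mem_singleton.1 ha]
        exact hs
    · rw [List.prod_append, List.prod_singleton, mul_smul, hsu, h3]

theorem reachable (S : Finset Γ) (hS : Subgroup.closure (S : Set Γ) = ⊤) {x y : Z} {g : Γ}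
    (h : g • x = y) : (schreier S Z).Reachable x y := by
  obtain ⟨l, _, h2, h3⟩ := LenAux.attained S hS g
  obtain ⟨p, _⟩ := walk_of_word S x l h2 y (by rw [h3, h])
  exact ⟨p⟩

theorem dist_eq (S : Finset Γ) (hS : Subgroup.closure (S : Set Γ) = ⊤) (ℓ : GLen Γ)
    (hℓ : ℓ.len = wordLen S) {x y : Z} {g : Γ} (h : g • x = y) :
    (schreier S Z).dist x y = ℓ.sd x y := by
  refine le_antisymm ?_ ?_
  · obtain ⟨k, k1, k2⟩ := sd_attained ℓ h
    obtain ⟨l, h1, h2, h3⟩ := LenAux.attained S hS k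
    obtain ⟨p, hp⟩ := walk_of_word S x l h2 y (by rw [h3, k2])
    have h4 := SimpleGraph.dist_le p
    rw [hℓ] at k1
    omega
  · obtain ⟨p, hp⟩ := (reachable S hS h).exists_walk_length_eq_dist
    obtain ⟨l, h1, h2, h3⟩ := word_of_walk S p
    have h4 := sd_le ℓ h3
    have h5 := LenAux.le_length S l h2
    rw [hℓ] at h4
    omega

end Len2Aux

theorem GLen.sd_le_iff (ℓ : GLen Γ) {Z : Type} [MulAction Γ Z] (x : Z) (b : Γ) (r : ℕ) :
    ℓ.sd x (b • x) ≤ r ↔ ∃ g : Γ, ℓ.len g ≤ r ∧ g • x = b • x := by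
  constructor
  · intro h
    obtain ⟨g, h1, h2⟩ := Len2Aux.sd_attained ℓ (rfl : b • x = b • x)
    exact ⟨g, h1.trans_le h, h2⟩
  · rintro ⟨g, h1, h2⟩
    exact (Len2Aux.sd_le ℓ h2).trans h1

/-- The orbit of `o` as a hyperbolic metric space. -/
theorem GLen.exists_HM (ℓ : GLen Γ) {Z : Type} [MulAction Γ Z] {δ : ℕ} (h : ℓ.Four Z δ) (o : Z) :
    ∃ H : HM (MulAction.orbit Γ o), H.δ = δ ∧ H.β = (ℓ.finite_ball (9 * δ)).toFinset.card ∧
      ∀ a b, H.d a b = ℓ.sd (a : Z) (b : Z) := by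
  refine ⟨⟨fun a b => ℓ.sd (a : Z) (b : Z), δ, (ℓ.finite_ball (9 * δ)).toFinset.card,
    fun a => Len2Aux.sd_self ℓ _, fun a b => ?_, fun a b c => ?_, fun x y z w => ?_,
    fun a b n hn => ?_, fun a => ?_⟩, rfl, rfl, fun _ _ => rfl⟩
  · obtain ⟨g, hg⟩ := Len2Aux.orbit_rel o a b
    obtain ⟨k, hk⟩ := Len2Aux.orbit_rel o b a
    exact le_antisymm (Len2Aux.sd_comm_le ℓ hk) (Len2Aux.sd_comm_le ℓ hg)
  · obtain ⟨g, hg⟩ := Len2Aux.orbit_rel o a b
    obtain ⟨k, hk⟩ := Len2Aux.orbit_rel o b c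
    exact Len2Aux.sd_tri ℓ hg hk
  · obtain ⟨x, gx, rfl⟩ := x
    obtain ⟨y, gy, rfl⟩ := y
    obtain ⟨z, gz, rfl⟩ := z
    obtain ⟨w, gw, rfl⟩ := w
    exact h o gx gy gz gw
  · obtain ⟨g0, hg0⟩ := Len2Aux.orbit_rel o a b
    obtain ⟨g, h1, h2⟩ := Len2Aux.sd_attained ℓ hg0
    obtain ⟨k, k1, k2⟩ := ℓ.geod g n (by rw [h1]; exact hn)
    have e1 : k • (a : Z) = ((k • a : MulAction.orbit Γ o) : Z) := rfl
    have e2 : (g * k⁻¹) • ((k • a : MulAction.orbit Γ o) : Z) = (b : Z) := by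
      rw [← e1, mul_smul, inv_smul_smul, h2]
    have t1 := Len2Aux.sd_le ℓ e1
    have t2 := Len2Aux.sd_le ℓ e2
    have t3 := Len2Aux.sd_tri ℓ e1 e2
    exact ⟨k • a, by omega, by omega⟩
  · have hsub : {b : MulAction.orbit Γ o | ℓ.sd (a : Z) (b : Z) ≤ 9 * δ} ⊆
        (fun g : Γ => g • a) '' {g | ℓ.len g ≤ 9 * δ} := by
      intro b hb
      obtain ⟨g0, hg0⟩ := Len2Aux.orbit_rel o a b
      obtain ⟨g, h1, h2⟩ := Len2Aux.sd_attained ℓ hg0
      exact ⟨g, h1.trans_le hb, Subtype.ext h2⟩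
    refine (Set.encard_le_encard hsub).trans ((Set.encard_image_le _ _).trans ?_)
    rw [(ℓ.finite_ball (9 * δ)).encard_eq_coe_toFinset_card]

theorem GLen.lc_sd (ℓ : GLen Γ) {Z : Type} [TopologicalSpace Z] [MulAction Γ Z]
    [ContinuousConstSMul Γ Z] (hfix : ∀ g : Γ, IsClopen {x : Z | g • x = x}) (a b : Γ) :
    IsLocallyConstant (fun z : Z => ℓ.sd (a • z) (b • z)) := by
  have hle : ∀ r : ℕ, IsClopen {z : Z | ℓ.sd (a • z) (b • z) ≤ r} := by
    intro r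
    have e : {z : Z | ℓ.sd (a • z) (b • z) ≤ r} =
        ⋃ g ∈ {g | ℓ.len g ≤ r}, {x : Z | (b⁻¹ * g * a) • x = x} := by
      ext z
      have e1 : b • z = (b * a⁻¹) • (a • z) := by rw [mul_smul, inv_smul_smul]
      have e2 : ∀ g : Γ, (b⁻¹ * g * a) • z = z ↔ g • a • z = b • z := fun g => by
        rw [mul_smul, mul_smul, inv_smul_eq_iff]
      simp only [Set.mem_ofPred_eq, Set.mem_iUnion, exists_prop, e2]
      rw [e1]
      exact ℓ.sd_le_iff _ _ _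
    rw [e]
    exact (ℓ.finite_ball r).isClopen_biUnion fun g _ => hfix _
  rw [IsLocallyConstant.iff_isOpen_fiber]
  intro r
  cases r with
  | zero =>
    have e : (fun z : Z => ℓ.sd (a • z) (b • z)) ⁻¹' {0} = {z : Z | ℓ.sd (a • z) (b • z) ≤ 0} := by
      ext z
      simp
    rw [e]
    exact (hle 0).isOpen
  | succ r =>
    have e : (fun z : Z => ℓ.sd (a • z) (b • z)) ⁻¹' {r + 1} =
        {z : Z | ℓ.sd (a • z) (b • z) ≤ r + 1} ∩ {z : Z | ℓ.sd (a • z) (b • z) ≤ r}ᶜ := by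
      ext z
      simp only [Set.mem_preimage, Set.mem_singleton_iff, Set.mem_inter_iff, Set.mem_ofPred_eq,
        Set.mem_compl_iff]
      omega
    rw [e]
    exact (hle (r + 1)).isOpen.inter (hle r).compl.isOpen

/-- The graph distance of the Schreier graph is `sd` for the word length. -/
theorem four_of_hypComponents (S : Finset Γ) (hS : Subgroup.closure (S : Set Γ) = ⊤)
    (ℓ : GLen Γ) (hℓ : ℓ.len = wordLen S) (Z : Type) [MulAction Γ Z]
    (h : HypComponents (schreier S Z)) : ∃ δ, ℓ.Four Z δ := by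
  obtain ⟨δ, hδ⟩ := h
  refine ⟨δ, fun o a b c d => ?_⟩
  have e : ∀ u v : Γ, (v * u⁻¹) • (u • o) = v • o := fun u v => by
    rw [mul_smul, inv_smul_smul]
  have h1 := hδ (a • o) (b • o) (c • o) (d • o) (Len2Aux.reachable S hS (e a b))
    (Len2Aux.reachable S hS (e a c)) (Len2Aux.reachable S hS (e a d))
  rw [Len2Aux.dist_eq S hS ℓ hℓ (e a b), Len2Aux.dist_eq S hS ℓ hℓ (e c d),
    Len2Aux.dist_eq S hS ℓ hℓ (e a c), Len2Aux.dist_eq S hS ℓ hℓ (e b d),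
    Len2Aux.dist_eq S hS ℓ hℓ (e a d), Len2Aux.dist_eq S hS ℓ hℓ (e b c)] at h1
  omega

end Pool.Agent.EffHyp
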