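import Pool.Agent.Lib.MP_5ddd96_lc.Asdim
import Pool.Agent.Lib.MP_5ddd96_lc.Greedy2
import Pool.Agent.Lib.MP_5ddd96_lc.Len2

/-!
Finite asymptotic dimension with locally constant witnesses from Reiter functions, for actions with
hyperbolic Schreier graphs.
-/

namespace Pool.Agent.EffHyp

open Filter Topology AsdimAux

namespace Asdim2Aux

theorem iterate_val {Γ Z : Type} [Group Γ] [MulAction Γ Z] (φ : Z → Γ) (o : Z)
    (f : MulAction.orbit Γ o → MulAction.orbit Γ o) (hf : ∀ v, (f v : Z) = φ v • (v : Z)) (k : ℕ)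
    (v : MulAction.orbit Γ o) : ((f^[k] v : MulAction.orbit Γ o) : Z) = coc φ k v • (v : Z) := by
  induction k with
  | zero => simp [coc]
  | succ k ih => rw [Function.iterate_succ_apply', hf, ih]; simp [coc, mul_smul]

end Asdim2Aux

open Asdim2Aux

theorem asdim_of_reiter2 {Γ : Type} [Group Γ] (ℓ : GLen Γ) (δ : ℕ) :
    ∃ N : ℕ, ∀ ρ : ℕ, ∃ R : ℕ, ∀ (Z : Type) [TopologicalSpace Z] [MulAction Γ Z]
      [ContinuousConstSMul Γ Z], (∀ g : Γ, IsClopen {x : Z | g • x = x}) → ℓ.Four Z δ →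
      (∀ B : Finset Γ, ∃ c : Z → ℕ, IsLocallyConstant c ∧
        ∀ x, ∀ g ∈ B, g • x ≠ x → c (g • x) ≠ c x) →
      ∀ K : Set Z, (∀ T : Finset Γ, ∃ μ : Z → Set Z → ℝ, (∀ x, IsFAP (μ x)) ∧
        (∀ Y : Z → Set Z, (∀ b : Γ, IsLocallyConstant (fun z => b • z ∈ Y z)) →
          IsLocallyConstant (fun z => μ z (Y z))) ∧
        (∀ x Y, μ x Y = μ x (Y ∩ MulAction.orbit Γ x)) ∧
        ∀ x ∈ K, ∀ g ∈ T, ∀ Y : Set Z, μ x Y ≤ μ (g • x) Y + 1 / 20) →
      ∃ τ : Z → Γ, IsLocallyConstant τ ∧ (∀ z, ℓ.len (τ z) ≤ R) ∧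
        ∀ y ∈ K, {v : Z | ∃ g, ℓ.len g ≤ ρ ∧ v = τ (g • y) • g • y}.encard ≤ N := by
  classical
  refine ⟨9 + 2 * (ℓ.finite_ball (9 * δ)).toFinset.card, fun ρ => ?_⟩
  set D := 3 * δ + 1 with hD
  set L := 2 * ρ + 3 * δ + 1 with hL
  set K₁ := 4 * D * L with hK₁
  set J := ρ + K₁ + 8 * δ + 2 with hJ
  let ball : ℕ → Finset Γ := fun r => (ℓ.finite_ball r).toFinset
  have hball : ∀ r g, g ∈ ball r ↔ ℓ.len g ≤ r := fun r g => by simp [ball]
  refine ⟨K₁ + 2 * J + (L + 2 * (ball (D * L)).card * L) * D, ?_⟩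
  intro Z _ _ _ hfix hfour hcol K hR
  have hinv : ∀ r, ∀ g ∈ ball r, g⁻¹ ∈ ball r := fun r g hg => by
    rw [hball] at hg ⊢; rwa [ℓ.len_inv]
  obtain ⟨μ, hfap, hμ, hμo, hμK⟩ := hR (ball (4 * J))
  -- the set `Λ` and the step `φ`
  let Sh : Z → Z → Set Z := fun z w => {y | ℓ.sd z w + ℓ.sd w y ≤ ℓ.sd z y + δ}
  let St : Z → Set Γ := fun z =>
    {a | a ∈ (ball D : Set Γ) ∧ (ℓ.sd z (a • z) = D ∧ 3 / 5 < μ z (Sh z (a • z)))}
  have hsd1 : ∀ a : Γ, IsLocallyConstant (fun z : Z => ℓ.sd z (a • z)) := fun a => by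
    simpa using ℓ.lc_sd hfix 1 a
  have hSt : IsLocallyConstant St := by
    refine lc_set (Finset.finite_toSet _) fun a => ?_
    have h1 : IsLocallyConstant (fun z => μ z (Sh z (a • z))) := by
      refine hμ _ fun b => ?_
      exact (((hsd1 a).prodMk (ℓ.lc_sd hfix a b)).prodMk (hsd1 b)).comp
        (fun p : (ℕ × ℕ) × ℕ => p.1.1 + p.1.2 ≤ p.2 + δ)
    exact (hsd1 a).comp₂ h1 (fun n r => n = D ∧ 3 / 5 < r)
  let Lam : Z → Prop := fun z => ¬ (St z).Nonempty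
  let φ : Z → Γ := fun z => if h : (St z).Nonempty then h.some else 1
  have hLam : IsLocallyConstant Lam := hSt.comp (fun s => ¬ s.Nonempty)
  have hφ : IsLocallyConstant φ := hSt.comp (fun s => if h : s.Nonempty then h.some else 1)
  have hφ1 : ∀ z, ¬ Lam z → φ z ∈ St z := by
    intro z hz
    have h : (St z).Nonempty := not_not.1 hz
    simp only [φ, dif_pos h]
    exact h.some_mem
  have hφ2 : ∀ z, ℓ.len (φ z) ≤ D := by
    intro z
    by_cases hz : Lam z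
    · have h : ¬ (St z).Nonempty := hz
      simp only [φ, dif_neg h, ℓ.len_one]
      exact Nat.zero_le _
    · exact (hball _ _).1 (hφ1 z hz).1
  -- colourings
  obtain ⟨c₀, hc₀, hp₀⟩ := hcol (ball (D * L))
  obtain ⟨c, hc, hcM, hcp, -⟩ := exists_greedy2 (ball (D * L)) (hinv _) c₀ hc₀ hp₀
    (fun _ => True) (IsLocallyConstant.const True)
  obtain ⟨e₀, he₀, hq₀⟩ := hcol (ball (2 * J))
  obtain ⟨e, he, -, hep, hez⟩ := exists_greedy2 (ball (2 * J)) (hinv _) e₀ he₀ hq₀ Lam hLam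
  set M := (ball (D * L)).card with hM
  -- markers and the map `τ`
  let Mk : Z → Prop := fun z => ∀ k ≤ 2 * L, c (coc φ L z • z) ≤ c (coc φ k z • z)
  have hMk : IsLocallyConstant Mk := by
    have h1 : IsLocallyConstant (fun z => {k | k ∈ Set.Iic (2 * L) ∧
        c (coc φ L z • z) ≤ c (coc φ k z • z)}) :=
      lc_set (Set.finite_Iic _) fun k => (lc_smul' hc (lc_coc hφ L)).comp₂
        (lc_smul' hc (lc_coc hφ k)) (fun a b => a ≤ b)
    have h2 := h1.comp (fun s => ∀ k ≤ 2 * L, k ∈ s)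
    convert h2 using 1
    funext z
    simp only [Mk, Function.comp, Set.mem_ofPred_eq, Set.mem_Iic]
    exact propext ⟨fun h k hk => ⟨hk, h k hk⟩, fun h k hk => (h k hk).2⟩
  let qt : Z → ℕ := fun z => sInf {q | q ∈ Set.Iic (L + 2 * M * L) ∧ (L ≤ q ∧ Mk (coc φ q z • z))}
  have hqt : IsLocallyConstant qt :=
    (lc_set (Set.finite_Iic _) fun q =>
      (lc_smul' hMk (lc_coc hφ q)).comp (fun p => L ≤ q ∧ p)).comp sInf
  let Nr : Z → Set Γ := fun z => {a | a ∈ (ball K₁ : Set Γ) ∧ Lam (a • z)}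
  have hNr : IsLocallyConstant Nr := lc_set (Finset.finite_toSet _) fun a => lc_smul hLam a
  let Ns : Z → Set Γ := fun z => {a | a ∈ (ball (K₁ + 2 * J) : Set Γ) ∧ (Lam (a • z) ∧ e (a • z) = 0)}
  have hNs : IsLocallyConstant Ns := lc_set (Finset.finite_toSet _) fun a =>
    (lc_smul hLam a).comp₂ (lc_smul he a) (fun p n => p ∧ n = 0)
  have hNe : ∀ z, (Nr z).Nonempty → (Ns z).Nonempty := by
    rintro z ⟨a, ha, hl⟩
    have ha' : ℓ.len a ≤ K₁ := (hball _ _).1 ha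
    by_cases h0 : e (a • z) = 0
    · exact ⟨a, (hball _ _).2 (by omega), hl, h0⟩
    · obtain ⟨g, hg, hl', h0'⟩ := hez _ h0
      have hg' : ℓ.len g ≤ 2 * J := (hball _ _).1 hg
      refine ⟨g * a, (hball _ _).2 ?_, by rwa [mul_smul], by rwa [mul_smul]⟩
      have := ℓ.len_mul g a
      omega
  let τ : Z → Γ := fun z => if (Nr z).Nonempty then
    (if h : (Ns z).Nonempty then h.some else 1) else coc φ (qt z) z
  have hτ : IsLocallyConstant τ := by
    have h1 : IsLocallyConstant (fun z => coc φ (qt z) z) :=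
      lc_dep hqt (G := fun q z => coc φ q z) fun q => lc_coc hφ q
    exact ((hNr.prodMk hNs).prodMk h1).comp (fun p : (Set Γ × Set Γ) × Γ =>
      if p.1.1.Nonempty then (if h : p.1.2.Nonempty then h.some else 1) else p.2)
  have hcoc : ∀ q z, ℓ.len (coc φ q z) ≤ q * D := by
    intro q z
    induction q with
    | zero => simp [coc, ℓ.len_one]
    | succ q ih =>
      have h1 := ℓ.len_mul (φ (coc φ q z • z)) (coc φ q z)
      have h2 := hφ2 (coc φ q z • z)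
      rw [coc, Nat.succ_mul]
      omega
  have hτR : ∀ z, ℓ.len (τ z) ≤ K₁ + 2 * J + (L + 2 * M * L) * D := by
    intro z
    by_cases hn : (Nr z).Nonempty
    · have h := hNe _ hn
      have h1 : τ z ∈ Ns z := by
        simp only [τ, if_pos hn, dif_pos h]
        exact h.some_mem
      exact ((hball _ _).1 h1.1).trans (Nat.le_add_right _ _)
    · have h1 : qt z ≤ L + 2 * M * L := by
        rcases Set.eq_empty_or_nonempty {q | q ∈ Set.Iic (L + 2 * M * L) ∧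
          (L ≤ q ∧ Mk (coc φ q z • z))} with h | h
        · simp only [qt, h, Nat.sInf_empty]
          exact Nat.zero_le _
        · exact (Nat.sInf_mem h).1
      simp only [τ, if_neg hn]
      exact ((hcoc _ z).trans (Nat.mul_le_mul_right _ h1)).trans (Nat.le_add_left _ _)
  refine ⟨τ, hτ, hτR, fun y hy => ?_⟩
  -- the orbit of `y`
  obtain ⟨H, hδ, hβ, hd⟩ := ℓ.exists_HM hfour y
  have hHD : H.D = D := by rw [HM.D, hδ]
  let o : MulAction.orbit Γ y := ⟨y, MulAction.mem_orbit_self y⟩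
  let f : MulAction.orbit Γ y → MulAction.orbit Γ y := fun v => φ v • v
  have hf : ∀ v, (f v : Z) = φ v • (v : Z) := fun v => rfl
  let cy : MulAction.orbit Γ y → ℕ := fun v => c v
  let Λ : Set (MulAction.orbit Γ y) := {v | Lam v}
  have hrel : ∀ a b : MulAction.orbit Γ y, ∃ g : Γ, (b : Z) = g • (a : Z) := by
    rintro ⟨_, ⟨g, rfl⟩⟩ ⟨_, ⟨g', rfl⟩⟩
    exact ⟨g' * g⁻¹, by simp [smul_smul]⟩
  have hdle : ∀ (a b : MulAction.orbit Γ y) (r : ℕ),
      H.d a b ≤ r ↔ ∃ g : Γ, ℓ.len g ≤ r ∧ g • (a : Z) = b := by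
    intro a b r
    obtain ⟨g, hg⟩ := hrel a b
    rw [hd, hg, ℓ.sd_le_iff]
  let ν : Set (MulAction.orbit Γ y) → ℝ := fun Y => μ y (Subtype.val '' Y)
  have hν : IsFAP ν := by
    refine ⟨fun Y => (hfap y).nonneg _, fun Y Y' h => ?_, ?_⟩
    · simp only [ν]
      rw [Set.image_union, (hfap y).add _ _ (Set.disjoint_image_of_injective Subtype.val_injective h)]
    · simp only [ν]
      rw [← (hfap y).univ, hμo y Set.univ]
      simp
  have hSh : ∀ a b : MulAction.orbit Γ y, ν (H.Sh a b) = μ y (Sh a b) := by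
    intro a b
    simp only [ν]
    rw [hμo y (Sh a b)]
    congr 1
    ext v
    constructor
    · rintro ⟨w, hw, rfl⟩
      refine ⟨?_, w.2⟩
      simpa only [HM.Sh, hd, hδ, Sh, Set.mem_ofPred_eq] using hw
    · rintro ⟨h1, h2⟩
      refine ⟨⟨v, h2⟩, ?_, rfl⟩
      simpa only [HM.Sh, hd, hδ, Sh, Set.mem_ofPred_eq] using h1
  have hlow : ∀ v, H.d o v ≤ 4 * J → v ∉ Λ → 1 / 2 < ν (H.Sh v (f v)) := by
    intro v hv hΛ
    obtain ⟨g, hg, hgv⟩ := (hdle o v _).1 hv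
    have h1 := hμK y hy g ((hball _ _).2 hg) (Sh v (f v))ᶜ
    have hgv' : g • y = v := hgv
    rw [hgv'] at h1
    have h3 := (hφ1 v hΛ).2.2
    rw [hSh, hf] at *
    linarith [fap_compl (hfap y) (Sh v (φ v • (v : Z))), fap_compl (hfap v) (Sh v (φ v • (v : Z)))]
  have hupp : ∀ v b, H.d o v ≤ 4 * J → v ∈ Λ → H.d v b = H.D → ν (H.Sh v b) < 2 / 3 := by
    intro v b hv hΛ hb
    obtain ⟨g, hg, hgv⟩ := (hdle o v _).1 hv
    have h1 := hμK y hy g ((hball _ _).2 hg) (Sh v b)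
    have hgv' : g • y = v := hgv
    rw [hgv'] at h1
    obtain ⟨a, ha, hab⟩ := (hdle v b _).1 hb.le
    have h3 : ¬ (3 / 5 < μ v (Sh v b)) := fun h =>
      hΛ ⟨a, (hball _ _).2 (by rwa [← hHD]), by rw [hab, ← hd, hb, hHD], by rwa [hab]⟩
    rw [hSh]
    linarith
  have hfar := far_count H o ρ L (4 * J) M (by rw [hδ]) (by rw [hHD]; omega) Λ f cy
    (fun z => (hdle _ _ _).2 ⟨φ z, by rw [hHD]; exact hφ2 _, rfl⟩)
    (fun z hz => by rw [hd, hf, hHD]; exact (hφ1 _ hz).2.1)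
    (fun z z' h1 h2 h3 h4 => fap_two hν (hlow z h1 h3) (hlow z' h2 h4))
    (fun z => hcM _)
    (fun a b hab hle => by
      obtain ⟨g, hg, hgv⟩ := (hdle a b _).1 hle
      have h1 := hcp a g ((hball _ _).2 (by rwa [← hHD]))
        (fun h => hab (Subtype.ext (h.symm.trans hgv))) trivial trivial
      rw [hgv] at h1
      exact h1.symm)
  have hnear := near_count H o J (by omega) {a | H.d o a ≤ 4 * J ∧ a ∈ Λ ∧ e a = 0}
    (fun a ha => ha.1)
    (fun a ha b hb hab => by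
      by_contra hle
      obtain ⟨g, hg, hgv⟩ := (hdle a b _).1 (not_lt.1 hle)
      have h1 := hep a g ((hball _ _).2 hg) (fun h => hab (Subtype.ext (h.symm.trans hgv))) ha.2.1
        (by rw [hgv]; exact hb.2.1)
      rw [hgv, ha.2.2, hb.2.2] at h1
      exact h1 rfl)
    (fun a₁ h₁ a₂ h₂ a₃ h₃ b₁ b₂ b₃ e₁ e₂ e₃ => fap_three hν (hupp _ _ h₁.1 h₁.2.1 e₁)
      (hupp _ _ h₂.1 h₂.2.1 e₂) (hupp _ _ h₃.1 h₃.2.1 e₃))
  have hMkf : ∀ (q : ℕ) (v : MulAction.orbit Γ y), Mk (coc φ q (v : Z) • (v : Z)) ↔ Mark cy f L (f^[q] v) := by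
    intro q v
    simp only [Mk, Mark, cy, iterate_val φ y f hf]
  have hqf : ∀ v : MulAction.orbit Γ y, qt v = ftime cy f L L v := by
    intro g
    obtain ⟨q, hq1, hq2, hq3⟩ := exists_mark cy f M L L (fun z => hcM _) g
    have hne : {q | L ≤ q ∧ Mark cy f L (f^[q] g)}.Nonempty := ⟨q, hq1, hq3⟩
    have hle : ftime cy f L L g ≤ q := Nat.sInf_le ⟨hq1, hq3⟩
    have hmem := Nat.sInf_mem hne
    apply le_antisymm
    · exact Nat.sInf_le ⟨hle.trans hq2, hmem.1, (hMkf _ _).2 hmem.2⟩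
    · have hne' : {q | q ∈ Set.Iic (L + 2 * M * L) ∧
          (L ≤ q ∧ Mk (coc φ q (g : Z) • (g : Z)))}.Nonempty := ⟨q, hq2, hq1, (hMkf _ _).2 hq3⟩
      have h' := Nat.sInf_mem hne'
      exact Nat.sInf_le ⟨h'.2.1, (hMkf _ _).1 h'.2.2⟩
  refine le_trans (Set.encard_le_encard (t := Subtype.val ''
    ({a | H.d o a ≤ 4 * J ∧ a ∈ Λ ∧ e a = 0} ∪
    {v | ∃ u, H.d o u ≤ ρ ∧ (∀ z, H.d u z ≤ 4 * H.D * L → z ∉ Λ) ∧
      v = f^[ftime cy f L L u] u})) ?_) ?_
  · rintro a ⟨g, hg, rfl⟩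
    let u : MulAction.orbit Γ y := g • o
    have hu : (u : Z) = g • y := rfl
    by_cases hn : (Nr (g • y)).Nonempty
    · have h := hNe _ hn
      have h1 : τ (g • y) ∈ Ns (g • y) := by
        simp only [τ, if_pos hn, dif_pos h]
        exact h.some_mem
      have h2 : ℓ.len (τ (g • y)) ≤ K₁ + 2 * J := (hball _ _).1 h1.1
      refine ⟨τ (g • y) • u, Or.inl ⟨(hdle _ _ _).2 ⟨τ (g • y) * g, ?_, mul_smul _ _ _⟩,
        h1.2.1, h1.2.2⟩, rfl⟩
      have := ℓ.len_mul (τ (g • y)) g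
      omega
    · refine ⟨f^[ftime cy f L L u] u, Or.inr ⟨u, (hdle _ _ _).2 ⟨g, hg, rfl⟩, fun z hz hΛ => ?_,
        rfl⟩, ?_⟩
      · obtain ⟨a, ha, haz⟩ := (hdle u z _).1 hz
        refine hn ⟨a, (hball _ _).2 (by rwa [hHD] at ha), ?_⟩
        rw [← hu, haz]; exact hΛ
      · simp only [τ, if_neg hn]
        rw [iterate_val φ y f hf, ← hqf, hu]
  · refine (Set.encard_image_le _ _).trans ((Set.encard_union_le _ _).trans ?_)
    rw [hβ] at hfar
    push_cast at hfar ⊢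
    exact add_le_add hnear hfar

end Pool.Agent.EffHyp
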