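import Pool.Agent.Lib.MP_5ddd96_lc.Raw

/-!
Atomic closed sets and the comparison with the definition of `Σ¹₁` used in the statement.
-/

namespace Pool.Agent.EffHyp

namespace AtomsAux

open RawAux

/-- A set given by countably many tests, each decided by a long enough initial segment. -/
theorem pi01_basic (T : ℕ → Baire → Prop) (t : ℕ × List ℕ → Bool) (u : ℕ × List ℕ → ℕ)
    (ht : Computable t) (hu : Primrec u) (hex : ∀ m x, ∃ N, u (m, pre x N) ≤ N)
    (hT : ∀ m x N, u (m, pre x N) ≤ N → (t (m, pre x N) = true ↔ T m x)) :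
    Pi01 (fun x => ∀ m, T m x) := by
  refine ⟨fun p => if u p ≤ p.2.length then t p else true,
    computable_test hu (Primrec.list_length.comp Primrec.snd) ht, fun x => ?_⟩
  constructor
  · intro hx m N
    simp only [length_pre]
    split_ifs with hN
    · exact (hT m x N hN).2 (hx m)
    · rfl
  · intro hx m
    obtain ⟨N, hN⟩ := hex m x
    have := hx m N
    simp only [length_pre, hN, if_true] at this
    exact (hT m x N hN).1 this

/-- The list of the values of `l` at `σ 0, …, σ (m - 1)`. -/
def sub (σ : ℕ → ℕ) (l : List ℕ) (m : ℕ) : List ℕ := (List.range m).map fun i => l.getD (σ i) 0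

theorem sub_pre (σ : ℕ → ℕ) (x : Baire) {N m : ℕ} (h : ∀ i < m, σ i < N) :
    sub σ (pre x N) m = pre (fun i => x (σ i)) m := by
  rw [pre_eq (fun i => x (σ i)), sub]
  apply List.map_congr_left
  intro i hi
  exact getD_pre x (h i (List.mem_range.1 hi))

theorem primrec_sub {α : Type} [Primcodable α] {σ : ℕ → ℕ} (hσ : Primrec σ) {l : α → List ℕ}
    {m : α → ℕ} (hl : Primrec l) (hm : Primrec m) : Primrec (fun a => sub σ (l a) (m a)) :=
  Primrec.list_map (Primrec.list_range.comp hm)
    ((Primrec.list_getD 0).comp (hl.comp Primrec.fst) (hσ.comp Primrec.snd)).to₂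

theorem primrec_get {α : Type} [Primcodable α] {l : α → List ℕ} {m : α → ℕ} (hl : Primrec l)
    (hm : Primrec m) : Primrec (fun a => (l a).getD (m a) 0) :=
  (Primrec.list_getD 0).comp hl hm

theorem primrec_lin (a b : ℕ) : Primrec (fun i : ℕ => a * i + b) :=
  Primrec.nat_add.comp (Primrec.nat_mul.comp (Primrec.const a) Primrec.id) (Primrec.const b)

theorem computable_eq {α : Type} [Primcodable α] {u v : α → ℕ} (hu : Computable u)
    (hv : Computable v) : Computable (fun a => decide (u a = v a)) := by
  have h : Primrec₂ (fun a b : ℕ => decide (a = b)) := by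
    have := (Primrec.eq (α := ℕ))
    exact PrimrecRel.decide this
  exact h.to_comp.comp hu hv

/-- The value at `i` of the real rebuilt from a number and three lists. -/
def val (q : ℕ × List ℕ × List ℕ × List ℕ) (i : ℕ) : ℕ :=
  if i % 2 = 0 then
    (if i / 2 % 2 = 0 then q.1 else
      (if i / 2 / 2 % 2 = 0 then q.2.1.getD (i / 2 / 2 / 2) 0 else q.2.2.1.getD (i / 2 / 2 / 2) 0))
  else q.2.2.2.getD (i / 2) 0

theorem primrec_val : Primrec₂ val := by
  have hi : Primrec (fun p : (ℕ × List ℕ × List ℕ × List ℕ) × ℕ => p.2) := Primrec.snd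
  have h2 := half.comp hi
  have h4 := half.comp h2
  have h8 := half.comp h4
  have hq : Primrec (fun p : (ℕ × List ℕ × List ℕ × List ℕ) × ℕ => p.1.2) :=
    Primrec.snd.comp Primrec.fst
  exact Primrec.ite (even_pred hi)
    (Primrec.ite (even_pred h2) (Primrec.fst.comp Primrec.fst)
      (Primrec.ite (even_pred h4) (primrec_get (Primrec.fst.comp hq) h8)
        (primrec_get (Primrec.fst.comp (Primrec.snd.comp hq)) h8)))
    (primrec_get (Primrec.snd.comp (Primrec.snd.comp hq)) h2)

theorem val_pre (k : ℕ) (x y z : Baire) {N i : ℕ} (h : i < N) :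
    val (k, pre x N, pre y N, pre z N) i = join (join (cst k) (join x y)) z i := by
  simp only [val, join, cst]
  split_ifs
  · rfl
  · exact getD_pre x (by omega)
  · exact getD_pre y (by omega)
  · exact getD_pre z (by omega)

end AtomsAux

open RawAux AtomsAux

/-- Comparison with the definition used in the statement. -/
theorem sigma11_iff (R : ℕ → Baire → Baire → Prop) :
    Sigma11 R ↔ S0 (fun w => R (w 0) (lft (rgt w)) (rgt (rgt w))) := by
  constructor
  · rintro ⟨f, hf, h⟩
    have hP := pi01_basic
      (fun m W => f (W 0, pre (fun i => W (8 * i + 2)) m, pre (fun i => W (8 * i + 6)) m,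
        pre (fun i => W (2 * i + 1)) m) = true)
      (fun p => f (p.2.getD 0 0, sub (fun i => 8 * i + 2) p.2 p.1,
        sub (fun i => 8 * i + 6) p.2 p.1, sub (fun i => 2 * i + 1) p.2 p.1))
      (fun p => 8 * p.1 + 8)
      (hf.comp (Primrec.pair (primrec_get Primrec.snd (Primrec.const 0))
        (Primrec.pair (primrec_sub (primrec_lin 8 2) Primrec.snd Primrec.fst)
          (Primrec.pair (primrec_sub (primrec_lin 8 6) Primrec.snd Primrec.fst)
            (primrec_sub (primrec_lin 2 1) Primrec.snd Primrec.fst)))).to_comp)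
      ((primrec_lin 8 8).comp Primrec.fst)
      (fun m _ => ⟨8 * m + 8, le_rfl⟩)
      (by
        intro m x N hN
        simp only at hN ⊢
        rw [getD_pre x (by omega), sub_pre _ x (by intro i hi; omega),
          sub_pre _ x (by intro i hi; omega), sub_pre _ x (by intro i hi; omega)])
    refine ⟨_, hP, fun w => ?_⟩
    have e0 : ∀ z, join w z 0 = w 0 := fun z => join_even w z 0
    have e1 : ∀ z, (fun i => join w z (8 * i + 2)) = lft (rgt w) := by
      intro z
      funext i
      have : 8 * i + 2 = 2 * (2 * (2 * i) + 1) := by ring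
      rw [this, join_even]
      rfl
    have e2 : ∀ z, (fun i => join w z (8 * i + 6)) = rgt (rgt w) := by
      intro z
      funext i
      have : 8 * i + 6 = 2 * (2 * (2 * i + 1) + 1) := by ring
      rw [this, join_even]
      rfl
    have e3 : ∀ z, (fun i => join w z (2 * i + 1)) = z := by
      intro z
      funext i
      exact join_odd w z i
    simp only [e0, e1, e2, e3]
    exact h _ _ _
  · rintro ⟨R', ⟨g, hg, hgR⟩, h⟩
    have hu : Primrec (fun q : ℕ × List ℕ × List ℕ × List ℕ => q.2.1.length.unpair) :=
      Primrec.unpair.comp (Primrec.list_length.comp (Primrec.fst.comp Primrec.snd))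
    have hl : Primrec (fun q : ℕ × List ℕ × List ℕ × List ℕ =>
        (List.range q.2.1.length.unpair.2).map (val q)) :=
      Primrec.list_map (Primrec.list_range.comp (Primrec.snd.comp hu)) primrec_val
    refine ⟨fun q => g (q.2.1.length.unpair.1, (List.range q.2.1.length.unpair.2).map (val q)),
      hg.comp (Primrec.pair (Primrec.fst.comp hu) hl).to_comp, fun k x y => ?_⟩
    have key : ∀ (z : Baire) (N n : ℕ), n ≤ N →
        (List.range n).map (val (k, pre x N, pre y N, pre z N)) =
          pre (join (join (cst k) (join x y)) z) n := by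
      intro z N n hn
      rw [pre_eq (join _ z)]
      apply List.map_congr_left
      intro i hi
      exact val_pre k x y z (lt_of_lt_of_le (List.mem_range.1 hi) hn)
    have hw := h (join (cst k) (join x y))
    have e0 : join (cst k) (join x y) 0 = k := join_even (cst k) (join x y) 0
    simp only [rgt_join, lft_join, e0] at hw
    rw [hw]
    refine exists_congr fun z => ?_
    rw [hgR]
    simp only [length_pre]
    constructor
    · intro hz N
      rw [key z N _ (Nat.unpair_right_le N)]
      exact hz _ _
    · intro hz m n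
      have := hz (Nat.pair m n)
      rw [key z _ _ (Nat.unpair_right_le _)] at this
      simpa only [Nat.unpair_pair] using this

/-- Atom: the even and the odd part agree. -/
theorem pi01_eq : Pi01 (fun w => lft w = rgt w) := by
  have hP := pi01_basic (fun m W => W (2 * m + 0) = W (2 * m + 1))
    (fun p => decide (p.2.getD (2 * p.1 + 0) 0 = p.2.getD (2 * p.1 + 1) 0))
    (fun p => 2 * p.1 + 2)
    (computable_eq (primrec_get Primrec.snd ((primrec_lin 2 0).comp Primrec.fst)).to_comp
      (primrec_get Primrec.snd ((primrec_lin 2 1).comp Primrec.fst)).to_comp)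
    ((primrec_lin 2 2).comp Primrec.fst)
    (fun m _ => ⟨2 * m + 2, le_rfl⟩)
    (by
      intro m x N hN
      simp only at hN ⊢
      rw [getD_pre x (by omega), getD_pre x (by omega), decide_eq_true_iff])
  exact hP.congr fun w => funext_iff

/-- Atom: a computable test of the first value. -/
theorem pi01_test {φ : ℕ → Bool} (hφ : Computable φ) : Pi01 (fun w => φ (w 0) = true) := by
  have hP := pi01_basic (fun _ W => φ (W 0) = true) (fun p => φ (p.2.getD 0 0)) (fun _ => 1)
    (hφ.comp (primrec_get Primrec.snd (Primrec.const 0)).to_comp) (Primrec.const 1)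
    (fun _ _ => ⟨1, le_rfl⟩)
    (by
      intro m x N hN
      simp only at hN ⊢
      rw [getD_pre x (by omega)])
  exact hP.congr fun w => ⟨fun h _ => h, fun h => h 0⟩

/-- Atom: graph of a computable function of two numbers. -/
theorem pi01_fun {φ : ℕ → ℕ → ℕ} (hφ : Computable₂ φ) :
    Pi01 (fun w => rgt w = cst (φ (w 0) (w 2))) := by
  have hP := pi01_basic (fun m W => W (2 * m + 1) = φ (W 0) (W 2))
    (fun p => decide (p.2.getD (2 * p.1 + 1) 0 = φ (p.2.getD 0 0) (p.2.getD 2 0)))
    (fun p => 2 * p.1 + 3)
    (computable_eq (primrec_get Primrec.snd ((primrec_lin 2 1).comp Primrec.fst)).to_comp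
      (hφ.comp (primrec_get Primrec.snd (Primrec.const 0)).to_comp
        (primrec_get Primrec.snd (Primrec.const 2)).to_comp))
    ((primrec_lin 2 3).comp Primrec.fst)
    (fun m _ => ⟨2 * m + 3, le_rfl⟩)
    (by
      intro m x N hN
      simp only at hN ⊢
      rw [getD_pre x (by omega), getD_pre x (by omega), getD_pre x (by omega),
        decide_eq_true_iff])
  exact hP.congr fun w => funext_iff

/-- Atom: graph of `(x, n) ↦ pre x n`. -/
theorem pi01_pre :
    Pi01 (fun w => rgt w = cst (Encodable.encode (pre (lft (lft w)) (w 2)))) := by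
  have h2 : Primrec (fun p : ℕ × List ℕ => p.2.getD 2 0) :=
    primrec_get Primrec.snd (Primrec.const 2)
  have hP := pi01_basic
    (fun m W => W (2 * m + 1) = Encodable.encode (pre (fun i => W (4 * i + 0)) (W 2)))
    (fun p => decide (p.2.getD (2 * p.1 + 1) 0 =
      Encodable.encode (sub (fun i => 4 * i + 0) p.2 (p.2.getD 2 0))))
    (fun p => (2 * p.1 + 3) + (4 * p.2.getD 2 0 + 0))
    (computable_eq (primrec_get Primrec.snd ((primrec_lin 2 1).comp Primrec.fst)).to_comp
      (Primrec.encode.comp (primrec_sub (primrec_lin 4 0) Primrec.snd h2)).to_comp)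
    (Primrec.nat_add.comp ((primrec_lin 2 3).comp Primrec.fst) ((primrec_lin 4 0).comp h2))
    (by
      intro m x
      refine ⟨2 * m + 3 + 4 * x 2, ?_⟩
      simp only
      rw [getD_pre x (by omega)]
      omega)
    (by
      intro m x N hN
      simp only at hN ⊢
      rw [getD_pre x (show 2 < N by omega)] at hN ⊢
      rw [getD_pre x (by omega), sub_pre _ x (by intro i hi; omega), decide_eq_true_iff])
  refine hP.congr fun w => ?_
  have e : (fun i => w (4 * i + 0)) = lft (lft w) := by
    funext i
    simp only [lft]
    congr 1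
    ring
  simp only [e]
  exact funext_iff

end Pool.Agent.EffHyp
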