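import Pool.Agent.Lib.MP_5ddd96_lc.Defs

/-!
Auxiliary structures used in the proof.
-/

namespace Pool.Agent.EffHyp

/-- A finitely additive probability on the subsets of `Γ`. -/
structure IsFAP {Γ : Type} (m : Set Γ → ℝ) : Prop where
  nonneg : ∀ Y, 0 ≤ m Y
  add : ∀ Y Y', Disjoint Y Y' → m (Y ∪ Y') = m Y + m Y'
  univ : m Set.univ = 1

/-- A geodesic integer metric with the four point condition and a bound for balls of radius `9 δ`. -/
structure HM (V : Type) where
  d : V → V → ℕ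
  δ : ℕ
  β : ℕ
  d_self : ∀ a, d a a = 0
  d_comm : ∀ a b, d a b = d b a
  d_tri : ∀ a b c, d a c ≤ d a b + d b c
  four : ∀ x y z w, d x y + d z w ≤ d x z + d y w + δ ∨ d x y + d z w ≤ d x w + d y z + δ
  geod : ∀ a b n, n ≤ d a b → ∃ c, d a c = n ∧ d c b + n = d a b
  ball : ∀ a, {b | d a b ≤ 9 * δ}.encard ≤ β

/-- The step length. -/
def HM.D {V : Type} (H : HM V) : ℕ := 3 * H.δ + 1

/-- The shadow of `w` seen from `z`. -/
def HM.Sh {V : Type} (H : HM V) (z w : V) : Set V := {y | H.d z w + H.d w y ≤ H.d z y + H.δ}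

/-- `b` is a marker: the colour of `f^[L] b` is minimal among `f^[k] b`, `k ≤ 2 L`. -/
def Mark {V : Type} (c : V → ℕ) (f : V → V) (L : ℕ) (b : V) : Prop :=
  ∀ k ≤ 2 * L, c (f^[L] b) ≤ c (f^[k] b)

/-- The first time `q ≥ t` at which the `f`-path of `u` is at a marker. -/
noncomputable def ftime {V : Type} (c : V → ℕ) (f : V → V) (L t : ℕ) (u : V) : ℕ :=
  sInf {q | t ≤ q ∧ Mark c f L (f^[q] u)}

/-- A proper geodesic length function on a group with the four point condition for the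
right invariant metric `len (b * a⁻¹)`. -/
structure HypLen (Γ : Type) [Group Γ] where
  len : Γ → ℕ
  δ : ℕ
  len_one : len 1 = 0
  len_inv : ∀ g, len g⁻¹ = len g
  len_mul : ∀ g h, len (g * h) ≤ len g + len h
  finite_ball : ∀ r, {g | len g ≤ r}.Finite
  geod : ∀ g n, n ≤ len g → ∃ a, len a = n ∧ len (g * a⁻¹) + n = len g
  four : ∀ x y z w, len (y * x⁻¹) + len (w * z⁻¹) ≤ len (z * x⁻¹) + len (w * y⁻¹) + δ ∨
    len (y * x⁻¹) + len (w * z⁻¹) ≤ len (w * x⁻¹) + len (z * y⁻¹) + δ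

end Pool.Agent.EffHyp
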