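import Pool.Agent.Lib.MP_5ddd96_lc.Defs

/-!
Definitions for Schreier graphs with hyperbolic components and effective Borel boundedness.
-/

namespace Pool.Agent.EffHyp

/-- The Schreier graph of an action with respect to `S`. -/
def schreier {Γ : Type} [Group Γ] (S : Finset Γ) (Z : Type) [MulAction Γ Z] : SimpleGraph Z :=
  SimpleGraph.fromRel (fun x y => ∃ s ∈ S, s • x = y)

/-- All components of the graph satisfy Gromov's four point condition with the same constant. -/
def HypComponents {V : Type} (H : SimpleGraph V) : Prop :=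
  ∃ δ : ℕ, ∀ x y z w : V, H.Reachable x y → H.Reachable x z → H.Reachable x w →
    H.dist x y + H.dist z w ≤ max (H.dist x z + H.dist y w) (H.dist x w + H.dist y z) + δ

/-- Lightface version of Borel boundedness (Boykin and Jackson). -/
def EffBorelBounded (E : Baire → Baire → Prop) : Prop :=
  ∀ φ : Baire → Baire, Sigma11 (fun _ x y => φ x = y) →
    ∃ ψ : Baire → Baire, Sigma11 (fun _ x y => ψ x = y) ∧
      (∀ x, ∃ n₀, ∀ n ≥ n₀, φ x n ≤ ψ x n) ∧ ∀ x y, E x y → ∃ n₀, ∀ n ≥ n₀, ψ x n = ψ y n

end Pool.Agent.EffHyp
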