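import Pool.Agent.Lib.MP_5ddd96_lc.Basic
import Pool.Agent.Lib.MP_5ddd96_lc.Defs2

/-!
Length functions and the distance in Schreier graphs.
-/

namespace Pool.Agent.EffHyp

/-- A proper geodesic length function on a group. -/
structure GLen (Γ : Type) [Group Γ] where
  len : Γ → ℕ
  len_one : len 1 = 0
  len_inv : ∀ g, len g⁻¹ = len g
  len_mul : ∀ g h, len (g * h) ≤ len g + len h
  finite_ball : ∀ r, {g | len g ≤ r}.Finite
  geod : ∀ g n, n ≤ len g → ∃ a, len a = n ∧ len (g * a⁻¹) + n = len g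

/-- The distance between two points of one orbit. -/
noncomputable def GLen.sd {Γ : Type} [Group Γ] (ℓ : GLen Γ) {Z : Type} [MulAction Γ Z]
    (x y : Z) : ℕ :=
  sInf {n | ∃ g : Γ, ℓ.len g ≤ n ∧ g • x = y}

/-- The four point condition on every orbit. -/
def GLen.Four {Γ : Type} [Group Γ] (ℓ : GLen Γ) (Z : Type) [MulAction Γ Z] (δ : ℕ) : Prop :=
  ∀ (o : Z) (a b c d : Γ),
    ℓ.sd (a • o) (b • o) + ℓ.sd (c • o) (d • o) ≤ ℓ.sd (a • o) (c • o) + ℓ.sd (b • o) (d • o) + δ ∨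
    ℓ.sd (a • o) (b • o) + ℓ.sd (c • o) (d • o) ≤ ℓ.sd (a • o) (d • o) + ℓ.sd (b • o) (c • o) + δ

end Pool.Agent.EffHyp
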