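import Pool.Agent.Lib.MP_5ddd96_lc.Sig2

/-!
An effective bound that is invariant modulo finite gives an exhaustion by bounded classes.
-/

namespace Pool.Agent.EffHyp

namespace BoundAux

/-- The running maximum of `z m + m`. -/
def run (z : Baire) : ℕ → ℕ
  | 0 => z 0
  | k + 1 => max (run z k) (z (k + 1) + (k + 1))

theorem run_mono (z : Baire) : Monotone (run z) :=
  monotone_nat_of_le_succ fun _ => le_max_left _ _

theorem le_run (z : Baire) (n : ℕ) : z n + n ≤ run z n := by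
  cases n with
  | zero => exact le_rfl
  | succ k => exact le_max_right _ _

theorem run_le {z : Baire} {n b : ℕ} (h : ∀ m ≤ n, z m + m ≤ b) : run z n ≤ b := by
  induction n with
  | zero => exact h 0 le_rfl
  | succ k ih => exact max_le (ih fun m hm => h m (Nat.le_succ_of_le hm)) (h _ le_rfl)

theorem run_le_run {z w : Baire} {n₀ n : ℕ} (h : ∀ m ≥ n₀, z m = w m) (hn : run z n₀ ≤ n) :
    run z n ≤ run w n := by
  refine run_le fun m hm => ?_
  by_cases hm0 : m ≤ n₀
  · have h1 := le_run z m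
    have h2 := run_mono z hm0
    have h3 := le_run w n
    omega
  · have h1 := le_run w m
    have h2 := run_mono w hm
    have h3 := h m (by omega)
    omega

theorem run_inv {z w : Baire} (h : ∃ n₀, ∀ n ≥ n₀, z n = w n) :
    ∃ n₁, ∀ n ≥ n₁, run z n = run w n := by
  obtain ⟨n₀, h⟩ := h
  refine ⟨max (run z n₀) (run w n₀), fun n hn => le_antisymm ?_ ?_⟩
  · exact run_le_run h (le_trans (le_max_left _ _) hn)
  · exact run_le_run (fun m hm => (h m hm).symm) (le_trans (le_max_right _ _) hn)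

/-- `y` is bounded at level `n` by the running maximum of `z`. -/
def Bd (n : ℕ) (y z : Baire) : Prop := ∀ m, y m ≤ run z (max m n)

theorem Bd.mono {n n' : ℕ} {y z : Baire} (h : Bd n y z) (hn : n ≤ n') : Bd n' y z :=
  fun m => le_trans (h m) (run_mono z (max_le_max le_rfl hn))

theorem exists_bd {y z : Baire} (h : ∃ n₀, ∀ n ≥ n₀, y n ≤ z n) : ∃ n, Bd n y z := by
  obtain ⟨n₀, h⟩ := h
  refine ⟨run y n₀, fun m => ?_⟩
  by_cases hm : m ≤ n₀
  · have h1 := le_run y m
    have h2 := run_mono y hm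
    have h3 := le_run z (max m (run y n₀))
    have h4 := le_max_right m (run y n₀)
    omega
  · have h1 := h m (by omega)
    have h2 := le_run z m
    have h3 := run_mono z (le_max_left m (run y n₀))
    omega

variable {S : Type} [Coded S]

theorem dfun_max {A B : S → ℕ} (hA : DFun A) (hB : DFun B) : DFun (fun s => max (A s) (B s)) :=
  DFun.prim₂ (φ := fun a b : ℕ => max a b) Primrec.nat_max.to_comp hA hB

theorem dfun_run₀ : DFun (fun p : Baire × ℕ => run p.1 p.2) := by
  refine DFun.recNat (G := fun (z : Baire) (k : ℕ) => run z k) (a := fun z : Baire => z 0)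
    (st := fun (z : Baire) (k r : ℕ) => max r (z (k + 1) + (k + 1))) ?_ ?_ (fun _ => rfl)
    (fun _ _ => rfl)
  · exact DFun.eval (A := fun z : Baire => z) (B := fun _ => 0) DFun.id (DFun.const 0)
  · have hk : DFun (fun p : Baire × ℕ × ℕ => p.2.1 + 1) :=
      DFun.add DFun.id.snd.fst (DFun.const 1)
    exact dfun_max DFun.id.snd.snd
      (DFun.add (DFun.eval (A := fun p : Baire × ℕ × ℕ => p.1) DFun.id.fst hk) hk)

theorem dfun_run {A : S → Baire} {B : S → ℕ} (hA : DFun A) (hB : DFun B) :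
    DFun (fun s => run (A s) (B s)) :=
  DFun.comp (G := fun p : Baire × ℕ => run p.1 p.2) (F := fun s => (A s, B s)) dfun_run₀
    (hA.prodMk hB)

theorem del_bd {N : S → ℕ} {A B : S → Baire} (hN : DFun N) (hA : DFun A) (hB : DFun B) :
    Del (fun s => Bd (N s) (A s) (B s)) := by
  refine Del.all (P := fun (s : S) (m : ℕ) => A s m ≤ run (B s) (max m (N s))) ?_
  exact Del.le (A := fun p : S × ℕ => A p.1 p.2)
    (B := fun p : S × ℕ => run (B p.1) (max p.2 (N p.1)))
    (DFun.eval (hA.comp DFun.id.fst) DFun.id.snd)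
    (dfun_run (hB.comp DFun.id.fst) (dfun_max DFun.id.snd (hN.comp DFun.id.fst)))

theorem del_tail {N : S → ℕ} {A B : S → Baire} (hN : DFun N) (hA : DFun A) (hB : DFun B) :
    Del (fun s => ∀ m, N s ≤ m → run (A s) m = run (B s) m) := by
  refine Del.all (P := fun (s : S) (m : ℕ) => N s ≤ m → run (A s) m = run (B s) m) ?_
  refine Del.imp (P := fun p : S × ℕ => N p.1 ≤ p.2)
    (Q := fun p : S × ℕ => run (A p.1) p.2 = run (B p.1) p.2)
    (Del.le (hN.comp DFun.id.fst) DFun.id.snd) ?_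
  exact Del.eqAtom (dfun_run (hA.comp DFun.id.fst) DFun.id.snd)
    (dfun_run (hB.comp DFun.id.fst) DFun.id.snd)

/-- The `n`-th relation of the exhaustion. -/
def Lev (E : Baire → Baire → Prop) (ψ : Baire → Baire) (n : ℕ) (x y : Baire) : Prop :=
  x = y ∨ (E x y ∧ Bd n x (ψ x) ∧ Bd n y (ψ y) ∧ ∀ m, n ≤ m → run (ψ x) m = run (ψ y) m)

theorem del_lev {E : Baire → Baire → Prop} (hd : Del (fun p : Baire × Baire => E p.1 p.2))
    {ψ : Baire → Baire} (hψ : DFun ψ) :
    Del (fun p : ℕ × Baire × Baire => Lev E ψ p.1 p.2.1 p.2.2) := by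
  have hn : DFun (fun p : ℕ × Baire × Baire => p.1) := DFun.id.fst
  have hx : DFun (fun p : ℕ × Baire × Baire => p.2.1) := DFun.id.snd.fst
  have hy : DFun (fun p : ℕ × Baire × Baire => p.2.2) := DFun.id.snd.snd
  have hE : Del (fun p : ℕ × Baire × Baire => E p.2.1 p.2.2) :=
    Del.comp (P := fun p : Baire × Baire => E p.1 p.2) (F := fun p : ℕ × Baire × Baire => p.2) hd
      DFun.id.snd
  exact (Del.eqReal hx hy).or (hE.and ((del_bd hn hx (hψ.comp hx)).and
    ((del_bd hn hy (hψ.comp hy)).and (del_tail hn (hψ.comp hx) (hψ.comp hy)))))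

theorem lev_equiv {E : Baire → Baire → Prop} (hE : Equivalence E) (ψ : Baire → Baire) (n : ℕ) :
    Equivalence (Lev E ψ n) := by
  refine ⟨fun x => Or.inl rfl, ?_, ?_⟩
  · rintro x y (h | ⟨h, hx, hy, ht⟩)
    · exact Or.inl h.symm
    · exact Or.inr ⟨hE.symm h, hy, hx, fun m hm => (ht m hm).symm⟩
  · rintro x y z (h | ⟨h, hx, hy, ht⟩) h'
    · rwa [h]
    · rcases h' with h' | ⟨h', _, hz, ht'⟩
      · subst h'
        exact Or.inr ⟨h, hx, hy, ht⟩
      · exact Or.inr ⟨hE.trans h h', hx, hz, fun m hm => (ht m hm).trans (ht' m hm)⟩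

theorem isCompact_box (b : Baire) : IsCompact (Set.pi Set.univ (fun m => Set.Iic (b m))) :=
  isCompact_univ_pi fun m => (Set.finite_Iic (b m)).isCompact

end BoundAux

open BoundAux

theorem exists_exhaustion {E : Baire → Baire → Prop} (hE : Equivalence E)
    (hd : Del (fun p : Baire × Baire => E p.1 p.2)) (Y : Set Baire)
    (hY : ∀ x y, E x y → x = y ∨ (x ∈ Y ∧ y ∈ Y)) (ψ : Baire → Baire) (hψ : DFun ψ)
    (h1 : ∀ x ∈ Y, ∃ n₀, ∀ n ≥ n₀, x n ≤ ψ x n)
    (h2 : ∀ x y, E x y → ∃ n₀, ∀ n ≥ n₀, ψ x n = ψ y n) :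
    ∃ G : ℕ → Baire → Baire → Prop, Delta11 G ∧ (∀ n, Equivalence (G n)) ∧
      (∀ n x y, G n x y → G (n + 1) x y) ∧ (∀ x y, E x y ↔ ∃ n, G n x y) ∧
      ∀ n x, ∃ K : Set Baire, IsCompact K ∧ ∀ y, G n x y → y ∈ K := by
  have hD := del_lev hd hψ
  refine ⟨Lev E ψ, ⟨(sig_iff_sigma11 _).1 hD.1,
    (sig_iff_sigma11 (fun n x y => ¬ Lev E ψ n x y)).1 hD.2⟩, lev_equiv hE ψ, ?_, ?_, ?_⟩
  · rintro n x y (h | ⟨h, hx, hy, ht⟩)
    · exact Or.inl h
    · exact Or.inr ⟨h, hx.mono (Nat.le_succ n), hy.mono (Nat.le_succ n),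
        fun m hm => ht m (Nat.le_of_succ_le hm)⟩
  · intro x y
    constructor
    · intro h
      rcases hY x y h with e | ⟨hx, hy⟩
      · exact ⟨0, Or.inl e⟩
      · obtain ⟨a, ha⟩ := exists_bd (h1 x hx)
        obtain ⟨b, hb⟩ := exists_bd (h1 y hy)
        obtain ⟨c, hc⟩ := run_inv (h2 x y h)
        refine ⟨max (max a b) c, Or.inr ⟨h, ha.mono ?_, hb.mono ?_, fun m hm => hc m ?_⟩⟩
        · exact le_trans (le_max_left _ _) (le_max_left _ _)
        · exact le_trans (le_max_right _ _) (le_max_left _ _)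
        · exact le_trans (le_max_right _ _) hm
    · rintro ⟨n, h | ⟨h, _⟩⟩
      · exact h ▸ hE.refl x
      · exact h
  · intro n x
    refine ⟨insert x (Set.pi Set.univ (fun m => Set.Iic (run (ψ x) (max m n)))),
      (isCompact_box _).insert x, ?_⟩
    rintro y (h | ⟨_, _, hy, ht⟩)
    · exact Or.inl h.symm
    · refine Or.inr fun m _ => ?_
      have := hy m
      rw [← ht _ (le_max_right m n)] at this
      exact this

end Pool.Agent.EffHyp
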