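import Pool.Agent.Lib.MP_5ddd96_lc.Basic

/-!
Locally constant functions on subspaces of Baire space.
-/

namespace Pool.Agent.EffHyp

open Filter Topology

theorem pre_length (x : Baire) (n : ℕ) : (pre x n).length = n := by
  simp [pre]

theorem pre_eq_iff (x y : Baire) (n : ℕ) : pre x n = pre y n ↔ ∀ i < n, x i = y i := by
  unfold pre
  rw [List.ofFn_inj]
  constructor
  · intro h i hi
    exact congrFun h ⟨i, hi⟩
  · intro h
    funext i
    exact h i i.2

theorem isLocallyConstant_pre (X : Set Baire) (j : ℕ) :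
    IsLocallyConstant (fun x : X => pre x j) := by
  rw [IsLocallyConstant.iff_eventually_eq]
  intro x
  have h : ∀ i ∈ Finset.range j, ∀ᶠ y : X in 𝓝 x, (y : Baire) i = (x : Baire) i := by
    intro i _
    have hc : Continuous (fun y : X => (y : Baire) i) :=
      (continuous_apply i).comp continuous_subtype_val
    exact (IsLocallyConstant.iff_eventually_eq _).1
      ((IsLocallyConstant.iff_continuous _).2 hc) x
  filter_upwards [(Filter.eventually_all_finset _).2 h] with y hy
  exact (pre_eq_iff _ _ _).2 fun i hi => hy i (Finset.mem_range.2 hi)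

theorem finite_pre_image {X : Set Baire} (C : Set X) (hC : IsCompact C) (j : ℕ) :
    ((fun x : X => pre x j) '' C).Finite := by
  letI : TopologicalSpace (List ℕ) := ⊥
  haveI : DiscreteTopology (List ℕ) := ⟨rfl⟩
  exact (hC.image (isLocallyConstant_pre X j).continuous).finite_of_discrete

namespace LevelAux

theorem pre_mono {x y : Baire} {i j : ℕ} (hij : i ≤ j) (h : pre x j = pre y j) :
    pre x i = pre y i :=
  (pre_eq_iff _ _ _).2 fun k hk => (pre_eq_iff _ _ _).1 h k (lt_of_lt_of_le hk hij)

/-- Cylinders form a basis of neighbourhoods. -/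
theorem exists_cyl {X : Set Baire} (x : X) {p : X → Prop} (h : ∀ᶠ y in 𝓝 x, p y) :
    ∃ j : ℕ, ∀ y : X, pre y j = pre x j → p y := by
  rw [nhds_subtype, Filter.eventually_comap] at h
  rw [nhds_pi, Filter.eventually_iff, Filter.mem_pi] at h
  obtain ⟨I, hI, t, ht, hsub⟩ := h
  obtain ⟨N, hN⟩ := hI.bddAbove
  refine ⟨N + 1, fun y hy => ?_⟩
  have hmem : (y : Baire) ∈ I.pi t := by
    intro i hi
    have e := (pre_eq_iff _ _ _).1 hy i (Nat.lt_succ_of_le (hN hi))
    rw [e]
    exact mem_of_mem_nhds (ht i)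
  exact hsub hmem y rfl

end LevelAux

open LevelAux

/-- A function that is locally constant on a compact set depends there on an initial segment of
fixed length. -/
theorem exists_level {X : Set Baire} {α : Type} (F : X → α) (C : Set X) (hC : IsCompact C)
    (hF : ∀ x ∈ C, ∀ᶠ y in 𝓝 x, y ∈ C → F y = F x) :
    ∃ j : ℕ, ∀ x ∈ C, ∀ y ∈ C, pre x j = pre y j → F x = F y := by
  classical
  have h1 : ∀ x : X, ∃ j : ℕ, x ∈ C → ∀ y : X, pre y j = pre x j → y ∈ C → F y = F x := by
    intro x
    by_cases hx : x ∈ C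
    · obtain ⟨j, hj⟩ := exists_cyl x (hF x hx)
      exact ⟨j, fun _ => hj⟩
    · exact ⟨0, fun h => absurd h hx⟩
  choose J hJ using h1
  obtain ⟨t, htC, hcov⟩ := hC.elim_nhds_subcover
    (fun x : X => {y : X | pre y (J x) = pre x (J x)})
    (fun x _ => (IsLocallyConstant.iff_eventually_eq _).1 (isLocallyConstant_pre X (J x)) x)
  refine ⟨t.sup J, fun x hx y hy hxy => ?_⟩
  have hx' := hcov hx
  simp only [Set.mem_iUnion] at hx'
  obtain ⟨z, hz, hxz⟩ := hx'
  have hxz' : pre x (J z) = pre z (J z) := hxz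
  have hyz : pre y (J z) = pre z (J z) :=
    (pre_mono (Finset.le_sup (f := J) hz) hxy).symm.trans hxz'
  rw [hJ z (htC z hz) x hxz' hx, hJ z (htC z hz) y hyz hy]

/-- Extension of a function that is locally constant on a compact set. -/
theorem exists_extend {X : Set Baire} {α : Type} (F : X → α) (a₀ : α) (C : Set X)
    (hC : IsCompact C) (hF : ∀ x ∈ C, ∀ᶠ y in 𝓝 x, y ∈ C → F y = F x) :
    ∃ G : X → α, IsLocallyConstant G ∧ (∀ x ∈ C, G x = F x) ∧
      ∀ x, G x = a₀ ∨ ∃ y ∈ C, G x = F y := by
  classical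
  obtain ⟨j, hj⟩ := exists_level F C hC hF
  let H : List ℕ → α := fun l =>
    if h : ∃ x : X, x ∈ C ∧ pre x j = l then F h.choose else a₀
  refine ⟨H ∘ fun x : X => pre x j, (isLocallyConstant_pre X j).comp H, fun x hx => ?_,
    fun x => ?_⟩
  · have h : ∃ z : X, z ∈ C ∧ pre z j = pre x j := ⟨x, hx, rfl⟩
    show H (pre x j) = F x
    simp only [H, dif_pos h]
    exact hj _ h.choose_spec.1 x hx h.choose_spec.2
  · show H (pre x j) = a₀ ∨ ∃ y ∈ C, H (pre x j) = F y
    by_cases h : ∃ z : X, z ∈ C ∧ pre z j = pre x j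
    · right
      exact ⟨h.choose, h.choose_spec.1, by simp only [H, dif_pos h]⟩
    · left
      simp only [H, dif_neg h]

/-- A locally constant proper colouring with countably many colours. -/
theorem exists_base_colour {Γ : Type} [Group Γ] (X : Set Baire) [MulAction Γ X]
    [ContinuousConstSMul Γ X] (hfree : ∀ (g : Γ) (x : X), g • x = x → g = 1) (B : Finset Γ) :
    ∃ c : X → ℕ, IsLocallyConstant c ∧ ∀ x, ∀ g ∈ B, g ≠ 1 → c (g • x) ≠ c x := by
  classical
  let P : X → ℕ → Prop := fun x j => ∀ g ∈ B, g ≠ 1 → pre (g • x : X) j ≠ pre x j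
  have hex : ∀ x : X, ∃ j, P x j := by
    intro x
    have h1 : ∀ g : Γ, ∃ i : ℕ, g ≠ 1 → ((g • x : X) : Baire) i ≠ (x : Baire) i := by
      intro g
      by_cases hg : g = 1
      · exact ⟨0, fun h => absurd hg h⟩
      · have hne : ((g • x : X) : Baire) ≠ (x : Baire) := fun h => hg (hfree g x (Subtype.ext h))
        obtain ⟨i, hi⟩ := Function.ne_iff.1 hne
        exact ⟨i, fun _ => hi⟩
    choose I hI using h1
    refine ⟨B.sup I + 1, fun g hg hg1 h => hI g hg1 ?_⟩
    exact (pre_eq_iff _ _ _).1 h _ (Nat.lt_succ_of_le (Finset.le_sup (f := I) hg))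
  have hP : ∀ (x : X) (j : ℕ), ∀ᶠ y : X in 𝓝 x, (P y j ↔ P x j) := by
    intro x j
    have h1 : ∀ g ∈ B, ∀ᶠ y : X in 𝓝 x, pre (g • y : X) j = pre (g • x : X) j := fun g _ =>
      (IsLocallyConstant.iff_eventually_eq _).1
        ((isLocallyConstant_pre X j).comp_continuous (continuous_const_smul g)) x
    filter_upwards [(Filter.eventually_all_finset _).2 h1,
      (IsLocallyConstant.iff_eventually_eq _).1 (isLocallyConstant_pre X j) x] with y hy hy'
    refine forall_congr' fun g => forall_congr' fun hg => forall_congr' fun _ => ?_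
    rw [hy g hg, hy']
  let J : X → ℕ := fun x => Nat.find (hex x)
  refine ⟨fun x => Encodable.encode (pre x (J x)), ?_, fun x g hg hg1 h => ?_⟩
  · rw [IsLocallyConstant.iff_eventually_eq]
    intro x
    have h1 : ∀ i ∈ Finset.range (J x + 1), ∀ᶠ y : X in 𝓝 x, (P y i ↔ P x i) :=
      fun i _ => hP x i
    filter_upwards [(Filter.eventually_all_finset _).2 h1,
      (IsLocallyConstant.iff_eventually_eq _).1 (isLocallyConstant_pre X (J x)) x] with y hy hy'
    have e : J y = J x := by
      refine (Nat.find_eq_iff (hex y)).2 ⟨?_, fun i hi => ?_⟩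
      · exact (hy _ (Finset.mem_range.2 (Nat.lt_succ_self _))).2 (Nat.find_spec (hex x))
      · exact fun hi' => Nat.find_min (hex x) hi
          ((hy i (Finset.mem_range.2 (Nat.lt_succ_of_lt hi))).1 hi')
    rw [e, hy']
  · have e : pre (g • x : X) (J (g • x)) = pre x (J x) := Encodable.encode_injective h
    have e2 : J (g • x) = J x := by
      have := congrArg List.length e
      rwa [pre_length, pre_length] at this
    rw [e2] at e
    exact Nat.find_spec (hex x) g hg hg1 e

end Pool.Agent.EffHyp
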