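import Pool.Agent.Lib.MP_5ddd96_lc.Delta
import Pool.Agent.Lib.MP_5ddd96_lc.Defs2
import Pool.Agent.Lib.MP_5ddd96_lc.Level

/-!
The easy implications, and transfer along a realization.
-/

namespace Pool.Agent.EffHyp

open MeasureTheory

namespace ConverseAux

theorem continuous_pre (n : ℕ) :
    @Continuous Baire (List ℕ) _ ⊥ (fun x => pre x n) := by
  let _ : TopologicalSpace (List ℕ) := ⊥
  have : DiscreteTopology (List ℕ) := ⟨rfl⟩
  have h : Continuous (fun v : Fin n → ℕ => List.ofFn v) := continuous_of_discreteTopology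
  exact h.comp (continuous_pi fun i => continuous_apply (i : ℕ))

theorem analytic {R : ℕ → Baire → Baire → Prop} (h : Sigma11 R) (k : ℕ) :
    AnalyticSet {p : Baire × Baire | R k p.1 p.2} := by
  obtain ⟨f, -, hf⟩ := h
  let _ : TopologicalSpace (List ℕ) := ⊥
  have : DiscreteTopology (List ℕ) := ⟨rfl⟩
  have hc : IsClosed {q : (Baire × Baire) × Baire |
      ∀ n, f (k, pre q.1.1 n, pre q.1.2 n, pre q.2 n) = true} := by
    rw [Set.ofPred_forall]
    refine isClosed_iInter fun n => isClosed_eq ?_ continuous_const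
    have h1 : Continuous (fun q : (Baire × Baire) × Baire =>
        (k, pre q.1.1 n, pre q.1.2 n, pre q.2 n)) :=
      continuous_const.prodMk (((continuous_pre n).comp (by fun_prop)).prodMk
        (((continuous_pre n).comp (by fun_prop)).prodMk ((continuous_pre n).comp (by fun_prop))))
    exact continuous_of_discreteTopology.comp h1
  have : PolishSpace (Baire × Baire) := inferInstance
  have : PolishSpace Baire := inferInstance
  have := hc.analyticSet.image_of_continuous (f := Prod.fst) continuous_fst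
  convert this using 1
  ext p
  simp [hf]

theorem chain_mono {F : ℕ → Baire → Baire → Prop} (h : FiniteChain F) {m n : ℕ} (hmn : m ≤ n)
    {x y : Baire} (hxy : F m x y) : F n x y := by
  induction hmn with
  | refl => exact hxy
  | step _ ih => exact h.2.2 _ _ _ ih

theorem del_of {F : ℕ → Baire → Baire → Prop} (h : Delta11 F) :
    Del (fun p : ℕ × Baire × Baire => F p.1 p.2.1 p.2.2) :=
  ⟨(sig_iff_sigma11 _).2 h.1, (sig_iff_sigma11 (fun n x y => ¬ F n x y)).2 h.2⟩

end ConverseAux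

open ConverseAux

theorem EffHyperfinite.measureHyperfinite {E : Baire → Baire → Prop} (h : EffHyperfinite E) :
    MeasureHyperfinite E := by
  obtain ⟨F, h1, h2, h3⟩ := h
  intro μ _
  refine ⟨Set.univ, MeasurableSet.univ, measure_univ, fun _ _ _ _ => trivial, F, h1, fun n => ?_,
    fun x _ y _ => h3 x y⟩
  exact (analytic h2.1 n).measurableSet_of_compl (analytic h2.2 n)

/-- `en` enumerates the classes of `E`. -/
theorem EffHyperfinite.effBorelBounded {E : Baire → Baire → Prop} (h : EffHyperfinite E)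
    {k : ℕ} (en : List (Fin k) → Baire → Baire)
    (hen : DFun (fun p : List (Fin k) × Baire => en p.1 p.2))
    (hE : ∀ x y, E x y ↔ ∃ w, en w x = y) : EffBorelBounded E := by
  obtain ⟨F, h1, h2, h3⟩ := h
  intro φ hφ
  have hφd : DFun φ := DFun.ofGraphReal (((sig_iff_sigma11 _).2 hφ).comp
    (F := fun p : Baire × Baire => ((0 : ℕ), p.1, p.2)) (by fun_prop))
  let ψ : Baire → Baire := fun x n => sInf {b | ∀ w, F n x (en w x) → φ (en w x) n ≤ b}
  have hψ : DFun ψ := by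
    refine DFun.lam (DFun.sInf (Del.all (Del.imp ?_ (Del.le (DFun.eval (hφd.comp ?_)
      (by fun_prop)) (by fun_prop)))))
    · exact (del_of h2).comp (F := fun q : ((Baire × ℕ) × ℕ) × List (Fin k) =>
        (q.1.1.2, q.1.1.1, en q.2 q.1.1.1)) (DFun.prodMk (by fun_prop) (DFun.prodMk (by fun_prop)
        (hen.comp (F := fun q : ((Baire × ℕ) × ℕ) × List (Fin k) => (q.2, q.1.1.1))
          (by fun_prop))))
    · exact hen.comp (F := fun q : ((Baire × ℕ) × ℕ) × List (Fin k) => (q.2, q.1.1.1))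
        (by fun_prop)
  have hset : ∀ x n, {b | ∀ w, F n x (en w x) → φ (en w x) n ≤ b} =
      {b | ∀ z, F n x z → φ z n ≤ b} := by
    intro x n
    ext b
    refine ⟨fun hb z hz => ?_, fun hb w hw => hb _ hw⟩
    obtain ⟨w, rfl⟩ := (hE x z).1 ((h3 x z).2 ⟨n, hz⟩)
    exact hb w hz
  refine ⟨ψ, (sig_iff_sigma11 (fun _ x y => ψ x = y)).1
    (Del.eqReal (hψ.comp (by fun_prop)) (by fun_prop)).1, fun x => ⟨0, fun n _ => ?_⟩,
    fun x y hxy => ?_⟩
  · simp only [ψ, hset]
    obtain ⟨b, hb⟩ := ((h1.2.1 n x).image fun z => φ z n).bddAbove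
    exact Nat.sInf_mem (s := {b | ∀ z, F n x z → φ z n ≤ b})
      ⟨b, fun z hz => hb ⟨z, hz, rfl⟩⟩ x ((h1.1 n).refl x)
  · obtain ⟨m, hm⟩ := (h3 x y).1 hxy
    refine ⟨m, fun n hn => ?_⟩
    have hn' := chain_mono h1 hn hm
    simp only [ψ, hset]
    congr 1
    ext b
    exact ⟨fun hb z hz => hb z ((h1.1 n).trans hn' hz),
      fun hb z hz => hb z ((h1.1 n).trans ((h1.1 n).symm hn') hz)⟩

theorem MeasureHyperfinite.transfer {E E' : Baire → Baire → Prop} (h : MeasureHyperfinite E)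
    (σ π : Baire → Baire) (hπ : Continuous π) (hσ : ∀ x, π (σ x) = x)
    (hc : IsClosed (Set.range σ)) (_hr : ∀ x, E x x)
    (hE : ∀ y y', E' y y' ↔ y = y' ∨ ∃ x x', σ x = y ∧ σ x' = y' ∧ E x x') :
    MeasureHyperfinite E' := by
  intro μ _
  have := Measure.isProbabilityMeasure_map (μ := μ) hπ.measurable.aemeasurable
  obtain ⟨A, hA, hA1, hAi, F, hF, hFm, hFE⟩ := h (μ.map π) this
  refine ⟨π ⁻¹' A, hπ.measurable hA, by rwa [Measure.map_apply hπ.measurable hA] at hA1, ?_,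
    fun n y y' => y = y' ∨ (y ∈ Set.range σ ∧ y' ∈ Set.range σ ∧ F n (π y) (π y')),
    ⟨fun n => ⟨fun _ => Or.inl rfl, ?_, ?_⟩, fun n y => ?_, fun n y y' h => ?_⟩, fun n => ?_, ?_⟩
  · intro y y' h hy
    rcases (hE y y').1 h with rfl | ⟨x, x', rfl, rfl, h'⟩
    · exact hy
    · simp only [Set.mem_preimage, hσ] at hy ⊢
      exact hAi x x' h' hy
  · rintro y y' (rfl | ⟨h1, h2, h3⟩)
    · exact Or.inl rfl
    · exact Or.inr ⟨h2, h1, (hF.1 n).symm h3⟩
  · rintro y y' y'' (rfl | ⟨h1, h2, h3⟩) h'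
    · exact h'
    · rcases h' with rfl | ⟨-, h5, h6⟩
      · exact Or.inr ⟨h1, h2, h3⟩
      · exact Or.inr ⟨h1, h5, (hF.1 n).trans h3 h6⟩
  · refine (((hF.2.1 n (π y)).image σ).insert y).subset ?_
    rintro y' (rfl | ⟨-, ⟨x, rfl⟩, h3⟩)
    · exact Or.inl rfl
    · exact Or.inr ⟨x, by simpa [hσ] using h3, rfl⟩
  · exact h.imp_right fun ⟨h1, h2, h3⟩ => ⟨h1, h2, hF.2.2 _ _ _ h3⟩
  · refine MeasurableSet.union (isClosed_eq continuous_fst continuous_snd).measurableSet
      ((measurable_fst hc.measurableSet).inter ((measurable_snd hc.measurableSet).inter ?_))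
    exact (hπ.measurable.prodMap hπ.measurable) (hFm n)
  · intro y hy y' hy'
    rw [hE]
    constructor
    · rintro (rfl | ⟨x, x', rfl, rfl, h'⟩)
      · exact ⟨0, Or.inl rfl⟩
      · simp only [Set.mem_preimage, hσ] at hy hy'
        obtain ⟨n, hn⟩ := (hFE x hy x' hy').1 h'
        exact ⟨n, Or.inr ⟨⟨_, rfl⟩, ⟨_, rfl⟩, by simpa [hσ] using hn⟩⟩
    · rintro ⟨n, rfl | ⟨⟨x, rfl⟩, ⟨x', rfl⟩, h3⟩⟩
      · exact Or.inl rfl
      · simp only [Set.mem_preimage, hσ] at hy hy' h3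
        exact Or.inr ⟨x, x', rfl, rfl, (hFE x hy x' hy').2 ⟨n, h3⟩⟩

theorem EffHyperfinite.pullback {E E' : Baire → Baire → Prop} (h : EffHyperfinite E')
    (σ : Baire → Baire) (hσ : DFun σ) (hi : Function.Injective σ)
    (hE : ∀ x x', E x x' ↔ E' (σ x) (σ x')) : EffHyperfinite E := by
  obtain ⟨F, h1, h2, h3⟩ := h
  have hd : Del (fun p : ℕ × Baire × Baire => F p.1 (σ p.2.1) (σ p.2.2)) :=
    (del_of h2).comp (F := fun p : ℕ × Baire × Baire => (p.1, σ p.2.1, σ p.2.2))
      (DFun.prodMk (by fun_prop) (DFun.prodMk (hσ.comp (by fun_prop)) (hσ.comp (by fun_prop))))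
  refine ⟨fun n x x' => F n (σ x) (σ x'), ⟨fun n => ⟨fun x => (h1.1 n).refl _,
    fun h => (h1.1 n).symm h, fun h h' => (h1.1 n).trans h h'⟩, fun n x => ?_,
    fun n x x' h => h1.2.2 _ _ _ h⟩, ⟨(sig_iff_sigma11 _).1 hd.1,
    (sig_iff_sigma11 (fun n x x' => ¬ F n (σ x) (σ x'))).1 hd.2⟩, fun x x' => by rw [hE, h3]⟩
  exact (h1.2.1 n (σ x)).preimage hi.injOn

end Pool.Agent.EffHyp
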