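import Mathlib

/-!
Definitions for the statement on effective hyperfiniteness of actions of hyperbolic groups.
-/

namespace Pool.Agent.EffHyp

open MeasureTheory

/-- Baire space. -/
abbrev Baire : Type := ℕ → ℕ

/-- The list of the first `n` values of `x`. -/
def pre (x : Baire) (n : ℕ) : List ℕ := List.ofFn (fun i : Fin n => x i)

/-- Lightface `Σ¹₁` subsets of `ℕ × 𝒩 × 𝒩`: projections of the branches of a computable tree. -/
def Sigma11 (R : ℕ → Baire → Baire → Prop) : Prop :=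
  ∃ f : ℕ × List ℕ × List ℕ × List ℕ → Bool, Computable f ∧
    ∀ k x y, R k x y ↔ ∃ z : Baire, ∀ n : ℕ, f (k, pre x n, pre y n, pre z n) = true

/-- Lightface `Δ¹₁` subsets of `ℕ × 𝒩 × 𝒩`. -/
def Delta11 (R : ℕ → Baire → Baire → Prop) : Prop :=
  Sigma11 R ∧ Sigma11 (fun k x y => ¬ R k x y)

/-- Word length with respect to `S ∪ S⁻¹`. -/
noncomputable def wordLen {Γ : Type} [Group Γ] (S : Finset Γ) (g : Γ) : ℕ :=
  sInf {n : ℕ | ∃ l : List Γ, l.length = n ∧ (∀ a ∈ l, a ∈ S ∨ a⁻¹ ∈ S) ∧ l.prod = g}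

/-- `S` is a finite generating set whose word metric satisfies Gromov's four point condition. -/
def IsHyperbolic {Γ : Type} [Group Γ] (S : Finset Γ) : Prop :=
  Subgroup.closure (S : Set Γ) = ⊤ ∧ ∃ δ : ℕ, ∀ x y z w : Γ,
    wordLen S (x⁻¹ * y) + wordLen S (z⁻¹ * w) ≤
      max (wordLen S (x⁻¹ * z) + wordLen S (y⁻¹ * w))
        (wordLen S (x⁻¹ * w) + wordLen S (y⁻¹ * z)) + δ

/-- The orbit equivalence relation of an action on `X ⊆ 𝒩`, extended by equality off `X`. -/
def OrbitRel (Γ : Type) [Group Γ] (X : Set Baire) [MulAction Γ X] (x y : Baire) : Prop :=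
  x = y ∨ ∃ (hx : x ∈ X) (g : Γ), ((g • (⟨x, hx⟩ : X) : X) : Baire) = y

/-- An increasing sequence of equivalence relations on `𝒩` with finite classes. -/
def FiniteChain (F : ℕ → Baire → Baire → Prop) : Prop :=
  (∀ n, Equivalence (F n)) ∧ (∀ n x, {y | F n x y}.Finite) ∧ ∀ n x y, F n x y → F (n + 1) x y

/-- `E` is `μ`-hyperfinite for every Borel probability measure `μ` on `𝒩`. -/
def MeasureHyperfinite (E : Baire → Baire → Prop) : Prop :=
  ∀ μ : Measure Baire, IsProbabilityMeasure μ →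
    ∃ A : Set Baire, MeasurableSet A ∧ μ A = 1 ∧ (∀ x y, E x y → x ∈ A → y ∈ A) ∧
      ∃ F : ℕ → Baire → Baire → Prop, FiniteChain F ∧
        (∀ n, MeasurableSet {p : Baire × Baire | F n p.1 p.2}) ∧
        ∀ x ∈ A, ∀ y ∈ A, E x y ↔ ∃ n, F n x y

/-- `E` is the union of a uniformly `Δ¹₁` increasing sequence of finite equivalence relations. -/
def EffHyperfinite (E : Baire → Baire → Prop) : Prop :=
  ∃ F : ℕ → Baire → Baire → Prop, FiniteChain F ∧ Delta11 F ∧ ∀ x y, E x y ↔ ∃ n, F n x y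

end Pool.Agent.EffHyp
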