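import Pool.Agent.Lib.MP_5ddd96_lc.Sig

/-!
Closure properties of `Δ¹₁` predicates and functions: search, cases and recursion.
-/

namespace Pool.Agent.EffHyp

open Coded

variable {S T U : Type} [Coded S] [Coded T] [Coded U]
variable {α β γ : Type} [Atom α] [Primcodable α] [Atom β] [Primcodable β] [Atom γ] [Primcodable γ]

theorem Del.comp {P : T → Prop} {F : S → T} (hP : Del P) (hF : DFun F) :
    Del (fun s => P (F s)) := ⟨hP.1.comp hF, hP.2.comp hF⟩

theorem Del.not {P : T → Prop} (hP : Del P) : Del (fun t => ¬ P t) :=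
  ⟨hP.2, hP.1.congr fun _ => not_not⟩

theorem Del.and {P Q : T → Prop} (hP : Del P) (hQ : Del Q) : Del (fun t => P t ∧ Q t) :=
  ⟨hP.1.and hQ.1, (hP.2.or hQ.2).congr fun _ => not_and_or⟩

theorem Del.or {P Q : T → Prop} (hP : Del P) (hQ : Del Q) : Del (fun t => P t ∨ Q t) :=
  ⟨hP.1.or hQ.1, (hP.2.and hQ.2).congr fun _ => not_or⟩

theorem Del.imp {P Q : T → Prop} (hP : Del P) (hQ : Del Q) : Del (fun t => P t → Q t) :=
  (hP.not.or hQ).congr fun _ => imp_iff_not_or

theorem Del.ex {P : T → α → Prop} (h : Del (fun p : T × α => P p.1 p.2)) :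
    Del (fun t => ∃ a, P t a) :=
  ⟨h.1.ex, (Sig.all (P := fun t a => ¬ P t a) h.2).congr fun _ => not_exists⟩

theorem Del.all {P : T → α → Prop} (h : Del (fun p : T × α => P p.1 p.2)) :
    Del (fun t => ∀ a, P t a) :=
  ⟨h.1.all, (Sig.ex (P := fun t a => ¬ P t a) h.2).congr fun _ => not_forall⟩

theorem Del.const (p : Prop) : Del (fun _ : T => p) := ⟨Sig.const p, Sig.const _⟩

namespace Sig2Aux

theorem sig_true : Sig (fun b : Bool => b = true) := by
  refine ⟨fun w => (fun n : ℕ => decide (n = 1)) (w 0) = true, 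
    (pi01_test (φ := fun n : ℕ => decide (n = 1)) ?_).s0, ?_⟩
  · exact (Primrec.eq.comp Primrec.id (Primrec.const 1)).decide.to_comp
  · intro b
    cases b
    · change (false = true) ↔ decide ((0 : ℕ) = 1) = true
      simp
    · change (true = true) ↔ decide ((1 : ℕ) = 1) = true
      simp

theorem sig_enc_eq {A : S → T} {B : S → Baire} (hA : DFun A) (hB : DFun B) :
    Sig (fun s => enc (A s) = B s) :=
  Sig.comp (P := fun p : S × Baire => enc (A p.1) = p.2) (F := fun s => (s, B s)) hA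
    (DFun.prodMk DFun.id hB)

theorem cst_iff {A : S → ℕ} : DFun (T := Baire) (fun s => cst (A s)) ↔ DFun A := Iff.rfl

/-- The `k`-th column of a real. -/
def col (Z : Baire) (k : ℕ) : Baire := fun i => Z (Nat.pair k i)

theorem dfun_col {A : S → Baire} {B : S → ℕ} (hA : DFun A) (hB : DFun B) :
    DFun (fun s => col (A s) (B s)) := by
  refine DFun.lam (F := fun s i => A s (Nat.pair (B s) i)) ?_
  refine DFun.eval (A := fun p : S × ℕ => A p.1) (B := fun p : S × ℕ => Nat.pair (B p.1) p.2)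
    (hA.comp DFun.id.fst) ?_
  exact DFun.prim₂ (φ := Nat.pair) Primrec₂.natPair.to_comp (hB.comp DFun.id.fst) DFun.id.snd

end Sig2Aux

open Sig2Aux

theorem Del.test {A : S → Bool} (hA : DFun A) : Del (fun s => A s = true) := by
  refine ⟨sig_true.comp hA, ?_⟩
  refine (sig_true.comp (DFun.prim₁ (φ := fun b : Bool => !b) Primrec.not.to_comp hA)).congr ?_
  intro s
  simp

theorem Del.eqAtom {A B : S → α} (hA : DFun A) (hB : DFun B) : Del (fun s => A s = B s) := by
  classical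
  have h : Computable₂ (fun a b : α => decide (a = b)) := Primrec.eq.decide.to_comp
  exact (Del.test (DFun.prim₂ h hA hB)).congr fun s => by simp

theorem Del.eqReal {A B : S → Baire} (hA : DFun A) (hB : DFun B) : Del (fun s => A s = B s) := by
  refine (Del.all (P := fun s (i : ℕ) => A s i = B s i) ?_).congr fun s => funext_iff
  exact Del.eqAtom (A := fun p : S × ℕ => A p.1 p.2) (B := fun p : S × ℕ => B p.1 p.2)
    (DFun.eval (hA.comp DFun.id.fst) DFun.id.snd) (DFun.eval (hB.comp DFun.id.fst) DFun.id.snd)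

theorem Del.le {A B : S → ℕ} (hA : DFun A) (hB : DFun B) : Del (fun s => A s ≤ B s) := by
  have h : Computable₂ (fun a b : ℕ => decide (a ≤ b)) := Primrec.nat_le.decide.to_comp
  exact (Del.test (DFun.prim₂ h hA hB)).congr fun s => by simp

theorem Del.lt {A B : S → ℕ} (hA : DFun A) (hB : DFun B) : Del (fun s => A s < B s) := by
  have h : Computable₂ (fun a b : ℕ => decide (a < b)) := Primrec.nat_lt.decide.to_comp
  exact (Del.test (DFun.prim₂ h hA hB)).congr fun s => by simp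

theorem DFun.ofGraphReal {F : S → Baire} (h : Sig (fun p : S × Baire => F p.1 = p.2)) : DFun F :=
  h

theorem DFun.ofGraphAtom {F : S → α} (h : Sig (fun p : S × α => F p.1 = p.2)) : DFun F := by
  have h1 : Sig (fun q : (S × Baire) × α => F q.1.1 = q.2) :=
    Sig.comp (P := fun p : S × α => F p.1 = p.2) (F := fun q : (S × Baire) × α => (q.1.1, q.2)) h
      (DFun.prodMk DFun.id.fst.fst DFun.id.snd)
  have h2 : Sig (fun q : (S × Baire) × α => enc q.2 = q.1.2) :=
    sig_enc_eq DFun.id.snd DFun.id.fst.snd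
  refine (Sig.ex (P := fun (p : S × Baire) (a : α) => F p.1 = a ∧ enc a = p.2)
    (h1.and h2)).congr ?_
  intro p
  constructor
  · intro e
    exact ⟨_, rfl, e⟩
  · rintro ⟨a, rfl, e⟩
    exact e

theorem DFun.ite {P : S → Prop} [DecidablePred P] {A B : S → T} (hP : Del P) (hA : DFun A)
    (hB : DFun B) : DFun (fun s => if P s then A s else B s) := by
  have hP' : Del (fun p : S × Baire => P p.1) := hP.comp DFun.id.fst
  refine ((hP'.1.and hA).or (hP'.2.and hB)).congr ?_
  intro p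
  by_cases h : P p.1 <;> simp [h]

theorem DFun.sInf {P : S → ℕ → Prop} (h : Del (fun p : S × ℕ => P p.1 p.2)) :
    DFun (fun s => sInf {n | P s n}) := by
  apply DFun.ofGraphAtom
  have hq : Del (fun q : (S × ℕ) × ℕ => P q.1.1 q.2) :=
    Del.comp (P := fun p : S × ℕ => P p.1 p.2) (F := fun q : (S × ℕ) × ℕ => (q.1.1, q.2)) h
      (DFun.prodMk DFun.id.fst.fst DFun.id.snd)
  have hlt : Del (fun q : (S × ℕ) × ℕ => q.2 < q.1.2) := Del.lt DFun.id.snd DFun.id.fst.snd
  have h1 : Del (fun p : S × ℕ => ∀ m, m < p.2 → ¬ P p.1 m) :=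
    Del.all (P := fun (p : S × ℕ) (m : ℕ) => m < p.2 → ¬ P p.1 m) (hlt.imp hq.not)
  have h2 : Del (fun p : S × ℕ => ∀ m, ¬ P p.1 m) :=
    Del.all (P := fun (p : S × ℕ) (m : ℕ) => ¬ P p.1 m) hq.not
  have h3 : Del (fun p : S × ℕ => p.2 = 0) := Del.eqAtom DFun.id.snd (DFun.const 0)
  refine ((h.and h1).or (h3.and h2)).1.congr ?_
  rintro ⟨s, n⟩
  simp only
  constructor
  · intro e
    by_cases hne : {n | P s n}.Nonempty
    · left
      refine ⟨?_, fun m hm => ?_⟩
      · rw [← e]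
        exact Nat.sInf_mem hne
      · rw [← e] at hm
        exact Nat.notMem_of_lt_sInf hm
    · right
      have he : {n | P s n} = ∅ := Set.not_nonempty_iff_eq_empty.1 hne
      refine ⟨?_, fun m hm => hne ⟨m, hm⟩⟩
      rw [← e, he, Nat.sInf_empty]
  · rintro (⟨h1, h2⟩ | ⟨h1, h2⟩)
    · apply le_antisymm (Nat.sInf_le h1)
      by_contra hlt
      exact h2 _ (not_le.1 hlt) (Nat.sInf_mem (s := {n | P s n}) ⟨n, h1⟩)
    · have he : {n | P s n} = ∅ := Set.eq_empty_of_forall_notMem h2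
      rw [he, Nat.sInf_empty, h1]

theorem DFun.recReal {G : S → ℕ → Baire} {a : S → Baire} {st : S → ℕ → Baire → Baire}
    (ha : DFun a) (hst : DFun (fun p : S × ℕ × Baire => st p.1 p.2.1 p.2.2))
    (h0 : ∀ s, G s 0 = a s) (h1 : ∀ s k, G s (k + 1) = st s k (G s k)) :
    DFun (fun p : S × ℕ => G p.1 p.2) := by
  apply DFun.ofGraphReal
  have e0 : Del (fun q : ((S × ℕ) × Baire) × Baire => col q.2 0 = a q.1.1.1) :=
    Del.eqReal (dfun_col DFun.id.snd (DFun.const 0)) (ha.comp DFun.id.fst.fst.fst)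
  have e1 : Del (fun r : (((S × ℕ) × Baire) × Baire) × ℕ =>
      col r.1.2 (r.2 + 1) = st r.1.1.1.1 r.2 (col r.1.2 r.2)) := by
    refine Del.eqReal (dfun_col DFun.id.fst.snd
      (DFun.prim₁ (φ := fun k : ℕ => k + 1) Primrec.succ.to_comp DFun.id.snd)) ?_
    exact DFun.comp (G := fun p : S × ℕ × Baire => st p.1 p.2.1 p.2.2)
      (F := fun r : (((S × ℕ) × Baire) × Baire) × ℕ => (r.1.1.1.1, r.2, col r.1.2 r.2)) hst
      (DFun.prodMk DFun.id.fst.fst.fst.fst
        (DFun.prodMk DFun.id.snd (dfun_col DFun.id.fst.snd DFun.id.snd)))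
  have e1' : Del (fun q : ((S × ℕ) × Baire) × Baire =>
      ∀ k : ℕ, col q.2 (k + 1) = st q.1.1.1 k (col q.2 k)) :=
    Del.all (P := fun (q : ((S × ℕ) × Baire) × Baire) (k : ℕ) =>
      col q.2 (k + 1) = st q.1.1.1 k (col q.2 k)) e1
  have e2 : Del (fun q : ((S × ℕ) × Baire) × Baire => col q.2 q.1.1.2 = q.1.2) :=
    Del.eqReal (dfun_col DFun.id.snd DFun.id.fst.fst.snd) DFun.id.fst.snd
  refine (Sig.exReal (P := fun (p : (S × ℕ) × Baire) (Z : Baire) =>
    col Z 0 = a p.1.1 ∧ (∀ k : ℕ, col Z (k + 1) = st p.1.1 k (col Z k)) ∧ col Z p.1.2 = p.2)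
    (e0.and (e1'.and e2)).1).congr ?_
  rintro ⟨⟨s, n⟩, y⟩
  simp only
  constructor
  · intro e
    have hc : ∀ k, col (fun m => G s m.unpair.1 m.unpair.2) k = G s k := by
      intro k
      funext i
      simp [col]
    refine ⟨fun m => G s m.unpair.1 m.unpair.2, ?_, fun k => ?_, ?_⟩
    · rw [hc, h0]
    · rw [hc, hc, h1]
    · rw [hc, e]
  · rintro ⟨Z, z0, z1, z2⟩
    have hc : ∀ k, col Z k = G s k := by
      intro k
      induction k with
      | zero => rw [z0, h0]
      | succ k ih => rw [z1, ih, h1]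
    rw [← hc, z2]

theorem DFun.recNat {G : S → ℕ → ℕ} {a : S → ℕ} {st : S → ℕ → ℕ → ℕ}
    (ha : DFun a) (hst : DFun (fun p : S × ℕ × ℕ => st p.1 p.2.1 p.2.2))
    (h0 : ∀ s, G s 0 = a s) (h1 : ∀ s k, G s (k + 1) = st s k (G s k)) :
    DFun (fun p : S × ℕ => G p.1 p.2) := by
  refine cst_iff.1 (DFun.recReal (G := fun s k => cst (G s k)) (a := fun s => cst (a s))
    (st := fun s k y => cst (st s k (y 0))) (cst_iff.2 ha) (cst_iff.2 ?_) ?_ ?_)
  · exact DFun.comp (G := fun p : S × ℕ × ℕ => st p.1 p.2.1 p.2.2)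
      (F := fun p : S × ℕ × Baire => (p.1, p.2.1, p.2.2 0)) hst
      (DFun.prodMk DFun.id.fst (DFun.prodMk DFun.id.snd.fst
        (DFun.eval DFun.id.snd.snd (DFun.const 0))))
  · intro s
    rw [h0]
  · intro s k
    rw [h1]
    rfl

@[fun_prop] theorem DFun.add {A B : S → ℕ} (hA : DFun A) (hB : DFun B) :
    DFun (fun s => A s + B s) := DFun.prim₂ Primrec.nat_add.to_comp hA hB

@[fun_prop] theorem DFun.mul {A B : S → ℕ} (hA : DFun A) (hB : DFun B) :
    DFun (fun s => A s * B s) := DFun.prim₂ Primrec.nat_mul.to_comp hA hB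

@[fun_prop] theorem DFun.length {δ : Type} [Primcodable δ] {A : S → List δ} (hA : DFun A) :
    DFun (fun s => (A s).length) := DFun.prim₁ Primrec.list_length.to_comp hA

end Pool.Agent.EffHyp
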