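import Pool.Agent.Lib.MP_5ddd96_lc.Sys
import Pool.Agent.Lib.MP_5ddd96_lc.Sig2

/-!
The sequence `Sys.F` is uniformly `Δ¹₁`.
-/

namespace Pool.Agent.EffHyp

open Coded

namespace Sys

variable {k : ℕ} (A : Sys k)
variable {S : Type} [Coded S]

/-- The relations `G n` are uniformly `Δ¹₁`. -/
def DG : Prop := Del (fun p : ℕ × Baire × Baire => A.G p.1 p.2.1 p.2.2)

theorem DG.del {A : Sys k} (hh : A.DG) {N : S → ℕ} {X Y : S → Baire} (hN : DFun N) (hX : DFun X)
    (hY : DFun Y) : Del (fun s => A.G (N s) (X s) (Y s)) :=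
  Del.comp hh (hN.prodMk (hX.prodMk hY))

theorem primrec_bd : Primrec bd := Primrec.fst.comp Primrec.unpair

theorem primrec_word (k : ℕ) : Primrec₂ (word k) := by
  unfold word
  have h1 : Primrec (fun q : ℕ × List ℕ =>
      (Encodable.decode q.1.unpair.2.unpair.2 : Option (List (List (Fin k)))).getD []) :=
    Primrec.option_getD.comp (Primrec.decode.comp (Primrec.snd.comp (Primrec.unpair.comp
      (Primrec.snd.comp (Primrec.unpair.comp Primrec.fst))))) (Primrec.const [])
  have h2 := (Primrec.list_getD ([] : List (Fin k))).comp h1 (Primrec.encode.comp Primrec.snd)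
  exact Primrec.list_take.comp (primrec_bd.comp Primrec.fst) h2

theorem dfun_gen (hgen : ∀ s, DFun (A.gen s)) : DFun (fun p : Fin k × Baire => A.gen p.1 p.2) := by
  apply DFun.ofGraphReal
  have : Sig (fun t : (Fin k × Baire) × Baire => ∃ i : Fin k, t.1.1 = i ∧ A.gen i t.1.2 = t.2) := by
    refine Sig.exFin fun i => Sig.and (Del.eqAtom (by fun_prop) (by fun_prop)).1 ?_
    exact (Del.eqReal ((hgen i).comp (by fun_prop)) (by fun_prop)).1
  refine this.congr fun t => ?_
  simp

/-- One step of the evaluation of a word from the right. -/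
noncomputable def stepw (w : List (Fin k)) (j : ℕ) (y : Baire) : Baire :=
  match w.reverse[j]? with
  | some s => A.gen s y
  | none => y

theorem act_drop (w : List (Fin k)) (x : Baire) (j : ℕ) :
    A.act (w.reverse.take (j + 1)).reverse x = A.stepw w j (A.act (w.reverse.take j).reverse x) := by
  rw [List.take_add_one, stepw]
  cases h : w.reverse[j]? with
  | none => simp
  | some s => simp [act]

theorem dfun_act0 (hgen : ∀ s, DFun (A.gen s)) :
    DFun (fun p : List (Fin k) × Baire => A.act p.1 p.2) := by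
  have hst : DFun (fun p : (List (Fin k) × Baire) × ℕ × Baire => A.stepw p.1.1 p.2.1 p.2.2) := by
    apply DFun.ofGraphReal
    have hget : DFun (fun t : ((List (Fin k) × Baire) × ℕ × Baire) × Baire =>
        (t.1.1.1.reverse[t.1.2.1]?).toList) := by
      refine DFun.prim₂ (φ := fun (w : List (Fin k)) (j : ℕ) => (w.reverse[j]?).toList) ?_
        (by fun_prop) (by fun_prop)
      refine Primrec₂.to_comp ?_
      have h1 : Primrec (fun q : List (Fin k) × ℕ => q.1.reverse[q.2]?) :=
        Primrec.list_getElem?.comp (Primrec.list_reverse.comp Primrec.fst) Primrec.snd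
      refine (Primrec.option_casesOn h1 (Primrec.const [])
        (Primrec.list_cons.comp Primrec.snd (Primrec.const [])).to₂).of_eq fun q => ?_
      beta_reduce
      cases q.1.reverse[q.2]? <;> rfl
    have h1 : Sig (fun t : ((List (Fin k) × Baire) × ℕ × Baire) × Baire =>
        ((t.1.1.1.reverse[t.1.2.1]?).toList = [] ∧ t.1.2.2 = t.2) ∨
        ∃ i : Fin k, (t.1.1.1.reverse[t.1.2.1]?).toList = [i] ∧ A.gen i t.1.2.2 = t.2) := by
      refine Sig.or (Sig.and (Del.eqAtom hget (by fun_prop)).1
        (Del.eqReal (by fun_prop) (by fun_prop)).1) (Sig.exFin fun i => ?_)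
      exact Sig.and (Del.eqAtom hget (by fun_prop)).1
        (Del.eqReal ((hgen i).comp (by fun_prop)) (by fun_prop)).1
    refine h1.congr fun t => ?_
    rw [stepw]
    cases t.1.1.1.reverse[t.1.2.1]? <;> simp
  have h := DFun.recReal (S := List (Fin k) × Baire)
    (G := fun p j => A.act (p.1.reverse.take j).reverse p.2) (a := fun p => p.2)
    (st := fun p j y => A.stepw p.1 j y) (by fun_prop) hst (fun p => by simp [act])
    (fun p j => A.act_drop p.1 p.2 j)
  have h2 := h.comp (F := fun p : List (Fin k) × Baire => (p, p.1.length)) (by fun_prop)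
  refine h2.congr fun p => ?_
  simp only
  rw [List.take_of_length_le (by simp), List.reverse_reverse]

theorem dfun_act (hgen : ∀ s, DFun (A.gen s)) {W : S → List (Fin k)} {Y : S → Baire}
    (hW : DFun W) (hY : DFun Y) : DFun (fun s => A.act (W s) (Y s)) :=
  (A.dfun_act0 hgen).comp (hW.prodMk hY)

theorem dfun_lam (hgen : ∀ s, DFun (A.gen s)) {P : S → ℕ} {Y : S → Baire}
    (hP : DFun P) (hY : DFun Y) : DFun (fun s => A.lam (P s) (Y s)) := by
  unfold lam
  refine A.dfun_act hgen (DFun.prim₂ (primrec_word k).to_comp hP (DFun.pre hY ?_)) hY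
  exact DFun.prim₁ (φ := fun p : ℕ => p.unpair.2.unpair.1) (Primrec.fst.comp (Primrec.unpair.comp
    (Primrec.snd.comp Primrec.unpair))).to_comp hP

theorem dfun_getD {L : S → List (List (Fin k))} {I : S → ℕ} (hL : DFun L) (hI : DFun I) :
    DFun (fun s => (L s).getD (I s) []) :=
  DFun.prim₂ (Primrec.list_getD ([] : List (Fin k))).to_comp hL hI

theorem del_near (hgen : ∀ s, DFun (A.gen s)) {R : S → ℕ} {X Y : S → Baire}
    (hR : DFun R) (hX : DFun X) (hY : DFun Y) : Del (fun s => A.near (R s) (X s) (Y s)) := by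
  unfold near
  refine Del.ex (Del.and (Del.le (by fun_prop) (by fun_prop)) (Del.eqReal ?_ (by fun_prop)))
  exact A.dfun_act hgen (by fun_prop) (by fun_prop)

theorem del_good (hgen : ∀ s, DFun (A.gen s)) (hh : A.DG) {P N R : S → ℕ} {X : S → Baire}
    (hP : DFun P) (hN : DFun N) (hR : DFun R) (hX : DFun X) :
    Del (fun s => A.Good (P s) (N s) (R s) (X s)) := by
  unfold Good
  refine Del.all (Del.imp (hh.del (by fun_prop) (by fun_prop)
    (A.dfun_act hgen (by fun_prop) (by fun_prop))) (Del.ex (Del.all (Del.imp (Del.le (by fun_prop) (by fun_prop))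
    (Del.ex (Del.and (Del.lt (by fun_prop) (by fun_prop)) (Del.eqReal ?_ ?_)))))))
  · exact A.dfun_lam hgen (by fun_prop) (A.dfun_act hgen (by fun_prop)
      (A.dfun_act hgen (by fun_prop) (by fun_prop)))
  · exact A.dfun_act hgen (dfun_getD (by fun_prop) (by fun_prop))
      (A.dfun_act hgen (by fun_prop) (by fun_prop))

theorem dfun_bnd (hgen : ∀ s, DFun (A.gen s)) (hh : A.DG) {N R : S → ℕ} {X : S → Baire}
    (hN : DFun N) (hR : DFun R) (hX : DFun X) : DFun (fun s => A.bnd (N s) (R s) (X s)) := by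
  unfold bnd
  refine DFun.sInf (Del.all (Del.ex (Del.and (Del.le (DFun.prim₁ primrec_bd.to_comp
    (by fun_prop)) (by fun_prop)) ?_)))
  exact A.del_good hgen hh (by fun_prop) (by fun_prop) (by fun_prop)
    (A.dfun_act hgen (by fun_prop) (by fun_prop))

theorem dfun_best (hgen : ∀ s, DFun (A.gen s)) (hh : A.DG) {N R : S → ℕ} {X : S → Baire}
    (hN : DFun N) (hR : DFun R) (hX : DFun X) : DFun (fun s => A.best (N s) (R s) (X s)) := by
  unfold best
  exact DFun.sInf (Del.and (Del.le (DFun.prim₁ primrec_bd.to_comp (by fun_prop))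
    (A.dfun_bnd hgen hh (by fun_prop) (by fun_prop) (by fun_prop)))
    (A.del_good hgen hh (by fun_prop) (by fun_prop) (by fun_prop) (by fun_prop)))

theorem dfun_diam (hgen : ∀ s, DFun (A.gen s)) (hh : A.DG) {N : S → ℕ} {X : S → Baire}
    (hX : DFun X) (hN : DFun N) : DFun (fun s => A.diam (X s) (N s)) := by
  have h := DFun.recNat (S := Baire) (G := fun x n => A.diam x n) (a := fun _ => 0)
    (st := fun x n v => 2 * v + 2 * n + 2 * A.N * (v + 2 * n) +
      2 * A.bnd n (2 * A.N * (v + 2 * n)) x) (by fun_prop) ?_ (fun _ => rfl)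
    (fun _ _ => rfl)
  · exact h.comp (hX.prodMk hN)
  · refine DFun.add (by fun_prop) (DFun.mul (by fun_prop) ?_)
    exact A.dfun_bnd hgen hh (by fun_prop) (by fun_prop) (by fun_prop)

theorem dfun_rad (hgen : ∀ s, DFun (A.gen s)) (hh : A.DG) {N : S → ℕ} {X : S → Baire}
    (hX : DFun X) (hN : DFun N) : DFun (fun s => A.rad (X s) (N s)) := by
  unfold rad
  exact DFun.add (A.dfun_diam hgen hh hX hN) (by fun_prop)

theorem dfun_code (hgen : ∀ s, DFun (A.gen s)) (hh : A.DG) {N : S → ℕ} {X : S → Baire}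
    (hX : DFun X) (hN : DFun N) : DFun (fun s => A.code (X s) (N s)) := by
  unfold code
  exact A.dfun_best hgen hh hN (DFun.mul (by fun_prop) (A.dfun_rad hgen hh hX hN)) hX

theorem del_col (hgen : ∀ s, DFun (A.gen s)) (hh : A.DG) {I N : S → ℕ} {X : S → Baire}
    (hI : DFun I) (hN : DFun N) (hX : DFun X) : Del (fun s => A.Col (I s) (N s) (X s)) := by
  unfold Col
  refine Del.and (Del.lt hI (by fun_prop))
    (Del.all (Del.imp (Del.le (by fun_prop) (DFun.mul (by fun_prop) ?_))
    (Del.ex (Del.and (Del.le (by fun_prop) (DFun.mul (by fun_prop) ?_)) (Del.eqReal ?_ ?_)))))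
  · exact A.dfun_rad hgen hh (by fun_prop) (by fun_prop)
  · exact A.dfun_rad hgen hh (by fun_prop) (by fun_prop)
  · exact A.dfun_lam hgen (A.dfun_code hgen hh (by fun_prop) (by fun_prop))
      (A.dfun_act hgen (by fun_prop) (by fun_prop))
  · exact A.dfun_lam hgen (A.dfun_code hgen hh (by fun_prop) (by fun_prop))
      (A.dfun_act hgen (by fun_prop) (by fun_prop))

theorem del_step (hgen : ∀ s, DFun (A.gen s)) (hh : A.DG) {I N : S → ℕ} {X Y : S → Baire}
    (hI : DFun I) (hN : DFun N) (hX : DFun X) (hY : DFun Y) :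
    Del (fun s => A.Step (I s) (N s) (X s) (Y s)) := by
  unfold Step
  refine Del.ex (Del.and (Del.lt (by fun_prop) (by fun_prop)) (Del.and
    (A.del_near hgen (by fun_prop) (by fun_prop) (by fun_prop))
    (Del.and (hh.del (by fun_prop) (by fun_prop) (by fun_prop)) (Del.or ?_ ?_))))
  · exact A.del_col hgen hh (by fun_prop) (by fun_prop) (by fun_prop)
  · exact A.del_col hgen hh (by fun_prop) (by fun_prop) (by fun_prop)

theorem rel_iff (i n : ℕ) (x y : Baire) : A.Rel i n x y ↔ ∃ (m : ℕ) (L : List (List (Fin k))),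
    A.act (L.getD 0 []) x = x ∧ A.act (L.getD m []) x = y ∧
      ∀ j : ℕ, j < m → A.Step i n (A.act (L.getD j []) x) (A.act (L.getD (j + 1) []) x) := by
  constructor
  · intro h
    have : ∃ (m : ℕ) (L : List (List (Fin k))), L.length = m + 1 ∧
        A.act (L.getD 0 []) x = x ∧ A.act (L.getD m []) x = y ∧
        ∀ j : ℕ, j < m → A.Step i n (A.act (L.getD j []) x) (A.act (L.getD (j + 1) []) x) := by
      induction h with
      | refl => exact ⟨0, [[]], rfl, rfl, rfl, fun j hj => absurd hj (Nat.not_lt_zero j)⟩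
      | @tail b c _ hbc ih =>
        obtain ⟨m, L, hl, h0, hm, hs⟩ := ih
        obtain ⟨m', hm', ⟨w, hw, hwc⟩, hc⟩ := hbc
        have e1 : ∀ j, j ≤ m → (L ++ [w ++ L.getD m []]).getD j [] = L.getD j [] := by
          intro j hj
          rw [List.getD_append _ _ _ _ (by omega)]
        have e2 : (L ++ [w ++ L.getD m []]).getD (m + 1) [] = w ++ L.getD m [] := by
          rw [List.getD_append_right _ _ _ _ (by omega)]
          simp [hl]
        have e3 : A.act (w ++ L.getD m []) x = c := by
          rw [← hwc, ← hm]; simp [act]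
        refine ⟨m + 1, L ++ [w ++ L.getD m []], by simp [hl], ?_, ?_, ?_⟩
        · rw [e1 0 (Nat.zero_le _)]; exact h0
        · rw [e2]; exact e3
        · intro j hj
          rcases Nat.lt_succ_iff_lt_or_eq.1 hj with hj | rfl
          · rw [e1 j hj.le, e1 (j + 1) hj]; exact hs j hj
          · rw [e1 j le_rfl, e2, e3, hm]
            exact ⟨m', hm', ⟨w, hw, hwc⟩, hc⟩
    obtain ⟨m, L, -, h⟩ := this
    exact ⟨m, L, h⟩
  · rintro ⟨m, L, h0, hm, hs⟩
    have : ∀ j, j ≤ m → A.Rel i n x (A.act (L.getD j []) x) := by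
      intro j
      induction j with
      | zero => intro _; rw [h0]; exact Relation.ReflTransGen.refl
      | succ j ih => intro hj; exact (ih (by omega)).tail (hs j (by omega))
    rw [← hm]; exact this m le_rfl

theorem del_rel (hgen : ∀ s, DFun (A.gen s)) (hh : A.DG) {I N : S → ℕ} {X Y : S → Baire}
    (hI : DFun I) (hN : DFun N) (hX : DFun X) (hY : DFun Y) :
    Del (fun s => A.Rel (I s) (N s) (X s) (Y s)) := by
  refine Del.congr ?_ fun s => A.rel_iff _ _ _ _
  refine Del.ex (Del.ex (Del.and (Del.eqReal ?_ (by fun_prop)) (Del.and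
    (Del.eqReal ?_ (by fun_prop)) (Del.all (Del.imp (Del.lt (by fun_prop) (by fun_prop))
    (A.del_step hgen hh (by fun_prop) (by fun_prop) ?_ ?_))))))
  all_goals exact A.dfun_act hgen (dfun_getD (by fun_prop) (by fun_prop)) (by fun_prop)

theorem dfun_col (hgen : ∀ s, DFun (A.gen s)) (hh : A.DG) : DFun A.col := by
  unfold col
  refine DFun.sInf ?_
  unfold Full
  refine Del.all (Del.ex (A.del_rel hgen hh (by fun_prop) (by fun_prop) (by fun_prop) ?_))
  exact A.dfun_act hgen (by fun_prop) (by fun_prop)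

theorem delta (hgen : ∀ s, DFun (A.gen s)) (hh : A.DG) : Delta11 A.F := by
  have h : Del (fun p : ℕ × Baire × Baire => A.F p.1 p.2.1 p.2.2) := by
    unfold F
    exact A.del_rel hgen hh ((A.dfun_col hgen hh).comp (by fun_prop)) (by fun_prop)
      (by fun_prop) (by fun_prop)
  exact ⟨(sig_iff_sigma11 _).1 h.1, (sig_iff_sigma11 (fun n x y => ¬ A.F n x y)).1 h.2⟩

end Sys

end Pool.Agent.EffHyp
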