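import Mathlib

set_option autoImplicit false

namespace Pool.Agent.Lib.MP_5ddd96_lc.H74

open MeasureTheory

/-- Baire space. -/
abbrev B := ℕ → ℕ

/-- The first `n` values of a point of Baire space. -/
def pre (x : B) (n : ℕ) : List ℕ := List.ofFn (fun i : Fin n => x i)

/-- `R p`, `p : α`, is a uniformly `Σ¹₁(o)` family of binary relations on Baire space: the normal
form of the frozen statements, with a computable test `f` that may also read the oracle `o`. For a
computable `o` this is lightface `Σ¹₁`. -/
def Sigma11 (o : B) {α : Type} [Primcodable α] (R : α → B → B → Prop) : Prop :=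
  ∃ f : α × List ℕ × List ℕ × List ℕ × List ℕ → Bool, Computable f ∧
    ∀ p x y, R p x y ↔ ∃ z : B, ∀ n : ℕ, f (p, pre o n, pre x n, pre y n, pre z n) = true

/-- Uniformly `Δ¹₁(o)`: the family and the family of complements are uniformly `Σ¹₁(o)`. -/
def Delta11 (o : B) {α : Type} [Primcodable α] (R : α → B → B → Prop) : Prop :=
  Sigma11 o R ∧ Sigma11 o (fun p x y => ¬ R p x y)

/-- `F` is an equivalence relation on the set `A` all of whose classes are finite. -/
structure FiniteEquivOn (A : Set B) (F : B → B → Prop) : Prop where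
  mem : ∀ x y, F x y → x ∈ A ∧ y ∈ A
  refl : ∀ x ∈ A, F x x
  symm : ∀ x y, F x y → F y x
  trans : ∀ x y z, F x y → F y z → F x z
  finite : ∀ x, {y | F x y}.Finite

/-- The restriction of `E` to `A` is hyperfinite: it is the union of an increasing sequence of
finite Borel equivalence relations on `A`. -/
def HyperfiniteOn (A : Set B) (E : B → B → Prop) : Prop :=
  ∃ F : ℕ → B → B → Prop, (∀ n, MeasurableSet {p : B × B | F n p.1 p.2}) ∧
    (∀ n, FiniteEquivOn A (F n)) ∧ (∀ n x y, F n x y → F (n + 1) x y) ∧
    ∀ x ∈ A, ∀ y ∈ A, (E x y ↔ ∃ n, F n x y)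

/-- `E` is `μ`-hyperfinite for every Borel probability measure `μ`. -/
def MeasureHyperfinite (E : B → B → Prop) : Prop :=
  ∀ μ : Measure B, IsProbabilityMeasure μ →
    ∃ A : Set B, MeasurableSet A ∧ (∀ x y, E x y → x ∈ A → y ∈ A) ∧ μ A = 1 ∧ HyperfiniteOn A E

end Pool.Agent.Lib.MP_5ddd96_lc.H74
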