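import Pool.Agent.Lib.MP_5ddd96_lc.H74Sig

set_option autoImplicit false

namespace Pool.Agent.Lib.MP_5ddd96_lc.H74

open Classical

variable {α β γ : Type} [Primcodable α] [Primcodable β] [Primcodable γ] {o : B}

/-- both the predicate and its negation are projections of effectively closed predicates. -/
def Del (o : B) (P : α → B → Prop) : Prop := Sig o P ∧ Sig o (fun a x => ¬ P a x)

theorem Del.of_iff {P P' : α → B → Prop} (h : Del o P) (e : ∀ a w, P' a w ↔ P a w) : Del o P' :=
  ⟨h.1.of_iff e, h.2.of_iff fun a w => not_congr (e a w)⟩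

theorem Del.par {P : α → B → Prop} (hP : Del o P) {b : γ → α} (hb : Computable b) :
    Del o (fun c w => P (b c) w) := ⟨hP.1.par hb, hP.2.par hb⟩

theorem Del.not {P : α → B → Prop} (h : Del o P) : Del o (fun a w => ¬ P a w) :=
  ⟨h.2, h.1.of_iff fun _ _ => not_not⟩

theorem Del.and {P P' : α → B → Prop} (h : Del o P) (h' : Del o P') :
    Del o (fun a w => P a w ∧ P' a w) :=
  ⟨h.1.and h'.1, (h.2.or h'.2).of_iff fun _ _ => not_and_or⟩

theorem Del.or {P P' : α → B → Prop} (h : Del o P) (h' : Del o P') :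
    Del o (fun a w => P a w ∨ P' a w) :=
  ⟨h.1.or h'.1, (h.2.and h'.2).of_iff fun _ _ => not_or⟩

theorem Del.imp {P P' : α → B → Prop} (h : Del o P) (h' : Del o P') :
    Del o (fun a w => P a w → P' a w) :=
  (h.not.or h').of_iff fun _ _ => imp_iff_not_or

theorem Del.iff {P P' : α → B → Prop} (h : Del o P) (h' : Del o P') :
    Del o (fun a w => P a w ↔ P' a w) :=
  ((h.imp h').and (h'.imp h)).of_iff fun _ _ => iff_def

theorem Del.all [Inhabited β] {P : α × β → B → Prop} (h : Del o P) :
    Del o (fun a w => ∀ b, P (a, b) w) :=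
  ⟨h.1.all, h.2.ex.of_iff fun _ _ => not_forall⟩

theorem Del.ex [Inhabited β] {P : α × β → B → Prop} (h : Del o P) :
    Del o (fun a w => ∃ b, P (a, b) w) :=
  ⟨h.1.ex, h.2.all.of_iff fun _ _ => not_exists⟩

theorem Del.bool {c : α → Bool} (hc : Computable c) : Del o (fun a _ => c a = true) :=
  ⟨Sig.const hc, (Sig.const (Primrec.not.to_comp.comp hc)).of_iff fun a _ => by simp⟩

theorem Del.const {p : α → Prop} (hp : PrimrecPred p) : Del o (fun a _ => p a) :=
  (Del.bool (o := o) hp.decide.to_comp).of_iff fun a _ => by simp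

/-- functions with a `Sig` graph. -/
def SF (o : B) (F : α → B → β) : Prop := Sig o (fun (p : α × β) x => F p.1 x = p.2)

theorem SF.of_eq {F G : α → B → β} (h : SF o F) (e : ∀ a x, G a x = F a x) : SF o G :=
  Sig.of_iff h fun p x => by rw [e]

theorem SF.par {F : α → B → β} (h : SF o F) {b : γ → α} (hb : Computable b) :
    SF o (fun c x => F (b c) x) :=
  Sig.par h (b := fun p : γ × β => (b p.1, p.2)) ((hb.comp Computable.fst).pair Computable.snd)

theorem ceq' [DecidableEq β] {f l : α → β} (hf : Computable f) (hl : Computable l) :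
    Computable (fun a => decide (f a = l a)) :=
  (Primrec.eq.decide.to_comp : Computable₂ (fun a b : β => decide (a = b))).comp hf hl

theorem SF.const {c : α → β} (hc : Computable c) : SF o (fun a _ => c a) :=
  (Sig.const (ceq' (hc.comp Computable.fst) Computable.snd)).of_iff fun _ _ => by simp

theorem SF.pre0 : SF o (fun (n : ℕ) w => pre w n) :=
  (Sig.atom (c := fun p : (ℕ × List ℕ) × List ℕ × List ℕ => decide (p.2.2 = p.1.2))
    (μ := fun p => p.1) (ceq' (Computable.snd.comp Computable.snd)
      (Computable.snd.comp Computable.fst)) Computable.fst).of_iff fun _ _ => by simp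

theorem SF.orac0 : SF o (fun (n : ℕ) _ => pre o n) :=
  (Sig.atom (c := fun p : (ℕ × List ℕ) × List ℕ × List ℕ => decide (p.2.1 = p.1.2))
    (μ := fun p => p.1) (ceq' (Computable.fst.comp Computable.snd)
      (Computable.snd.comp Computable.fst)) Computable.fst).of_iff fun _ _ => by simp

theorem Sig.bind [Inhabited β] {P : α × β → B → Prop} (hP : Sig o P) {G : α → B → β}
    (hG : SF o G) : Sig o (fun a x => P (a, G a x) x) :=
  (Sig.and hG hP).ex.of_iff fun a x => by simp

theorem Del.bind [Inhabited β] {P : α × β → B → Prop} (hP : Del o P) {G : α → B → β}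
    (hG : SF o G) : Del o (fun a x => P (a, G a x) x) := ⟨hP.1.bind hG, hP.2.bind hG⟩

theorem SF.bind [Inhabited β] {F : α × β → B → γ} (hF : SF o F) {G : α → B → β}
    (hG : SF o G) : SF o (fun a x => F (a, G a x) x) :=
  Sig.bind (P := fun (p : (α × γ) × β) x => F (p.1.1, p.2) x = p.1.2)
    (Sig.par hF (b := fun p : (α × γ) × β => ((p.1.1, p.2), p.1.2))
      (((Computable.fst.comp Computable.fst).pair Computable.snd).pair
        (Computable.snd.comp Computable.fst))) (hG.par Computable.fst)

/-- substitute a definable parameter. -/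
theorem SF.app [Inhabited β] {F : β → B → γ} (hF : SF o F) {G : α → B → β}
    (hG : SF o G) : SF o (fun a x => F (G a x) x) := (hF.par Computable.snd).bind hG

theorem Del.app [Inhabited β] {P : β → B → Prop} (hP : Del o P) {G : α → B → β}
    (hG : SF o G) : Del o (fun a x => P (G a x) x) := (hP.par Computable.snd).bind hG

theorem SF.map [Inhabited β] {c : β → γ} (hc : Computable c) {G : α → B → β}
    (hG : SF o G) : SF o (fun a x => c (G a x)) := (SF.const hc).app hG

theorem SF.pair {F : α → B → β} {G : α → B → γ} (hF : SF o F)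
    (hG : SF o G) : SF o (fun a x => (F a x, G a x)) :=
  (Sig.and (Sig.par hF (b := fun p : α × β × γ => (p.1, p.2.1))
      (Computable.fst.pair (Computable.fst.comp Computable.snd)))
    (Sig.par hG (b := fun p : α × β × γ => (p.1, p.2.2))
      (Computable.fst.pair (Computable.snd.comp Computable.snd)))).of_iff
    fun p x => by simp [Prod.ext_iff]

theorem SF.map₂ {δ : Type} [Primcodable δ] [Inhabited β] [Inhabited γ] {c : β → γ → δ}
    (hc : Primrec₂ c) {F : α → B → β} {G : α → B → γ} (hF : SF o F) (hG : SF o G) :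
    SF o (fun a x => c (F a x) (G a x)) :=
  SF.map (c := fun p : β × γ => c p.1 p.2) (Primrec.to_comp hc) (hF.pair hG)

theorem Del.rel [Inhabited β] [Inhabited γ] {r : β → γ → Prop} (hr : PrimrecRel r)
    {F : α → B → β} {G : α → B → γ} (hF : SF o F) (hG : SF o G) :
    Del o (fun a x => r (F a x) (G a x)) :=
  (Del.const (p := fun p : β × γ => r p.1 p.2) hr).app (hF.pair hG)

theorem Del.eq [Inhabited β] {F G : α → B → β} (hF : SF o F) (hG : SF o G) :
    Del o (fun a x => F a x = G a x) := Del.rel Primrec.eq hF hG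

theorem Del.le {F G : α → B → ℕ} (hF : SF o F) (hG : SF o G) :
    Del o (fun a x => F a x ≤ G a x) := Del.rel Primrec.nat_le hF hG

theorem Del.lt {F G : α → B → ℕ} (hF : SF o F) (hG : SF o G) :
    Del o (fun a x => F a x < G a x) := Del.rel Primrec.nat_lt hF hG

theorem SF.of_del {F : α → B → β} {P : α × β → B → Prop} (hP : Del o P)
    (e : ∀ a b x, F a x = b ↔ P (a, b) x) : SF o F := hP.1.of_iff fun p x => e p.1 p.2 x

theorem SF.fst {F : α → B → γ} (h : SF o F) : SF o (fun (p : α × β) x => F p.1 x) :=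
  h.par Computable.fst

theorem Del.fst {P : α → B → Prop} (h : Del o P) : Del o (fun (p : α × β) x => P p.1 x) :=
  h.par Computable.fst

theorem SF.snd : SF o (fun (p : α × β) _ => p.2) := SF.const Computable.snd

theorem SF.ite [Inhabited β] {P : α → B → Prop} (hP : Del o P) {F G : α → B → β} (hF : SF o F)
    (hG : SF o G) : SF o (fun a x => if P a x then F a x else G a x) :=
  SF.of_del ((hP.fst.and (Del.eq hF.fst SF.snd)).or (hP.fst.not.and (Del.eq hG.fst SF.snd)))
    fun a b x => by by_cases h : P a x <;> simp [h]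

theorem SF.coord {G : α → B → ℕ} (hG : SF o G) : SF o (fun a w => w (G a w)) := by
  have h0 : SF o (fun (n : ℕ) w => w n) :=
    (SF.map₂ (Primrec.list_getD 0) (SF.pre0.par Computable.succ) (SF.const Computable.id)).of_eq
      fun n w => (pre_getD w (Nat.lt_succ_self n)).symm
  exact h0.app hG

/-- point valued definable functions. -/
def PF (o : B) (G : α → B → B) : Prop := SF o (fun (p : α × ℕ) x => G p.1 x p.2)

theorem PF.par {G : α → B → B} (h : PF o G) {b : γ → α} (hb : Computable b) :
    PF o (fun c x => G (b c) x) :=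
  SF.par h (b := fun p : γ × ℕ => (b p.1, p.2)) ((hb.comp Computable.fst).pair Computable.snd)

theorem PF.fst {G : α → B → B} (h : PF o G) : PF o (fun (p : α × β) x => G p.1 x) :=
  h.par Computable.fst

theorem PF.at {G : α → B → B} (h : PF o G) {n : α → B → ℕ} (hn : SF o n) :
    SF o (fun a x => G a x (n a x)) := SF.bind h hn

theorem PF.ev : PF o (fun (_ : α) w => ev w) :=
  SF.coord (SF.const (pmul2.to_comp.comp Computable.snd))

theorem PF.od : PF o (fun (_ : α) w => od w) :=
  SF.coord (SF.const (Computable.succ.comp (pmul2.to_comp.comp Computable.snd)))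

theorem PF.id : PF o (fun (_ : α) w => w) := SF.coord SF.snd

theorem Sig.ev {P : α → B → Prop} (h : Sig o P) : Sig o (fun a w => P a (ev w)) :=
  h.sub Computable.id (π := fun _ i => 2 * i) (pmul2.comp Primrec.snd).to₂

theorem Sig.od {P : α → B → Prop} (h : Sig o P) : Sig o (fun a w => P a (od w)) :=
  h.sub Computable.id (π := fun _ i => 2 * i + 1) (Primrec.succ.comp (pmul2.comp Primrec.snd)).to₂

theorem Sig.comp {P : α → B → Prop} (hP : Sig o P) {G : α → B → B} (hG : PF o G) :
    Sig o (fun a x => P a (G a x)) := by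
  have h1 : SF o (fun (p : α × ℕ) w => G p.1 (H74.ev w) p.2) := Sig.ev hG
  have h2 : Sig o (fun a w => (∀ i, G a (H74.ev w) i = H74.od w i) ∧ P a (H74.od w)) :=
    (Del.eq h1 (PF.od (α := α))).all.1.and hP.od
  refine (Sig.exB (R := fun a x u => (∀ i, G a x i = u i) ∧ P a u) h2).of_iff fun a x => ?_
  exact ⟨fun h => ⟨_, fun _ => rfl, h⟩, fun ⟨u, hu, h⟩ => by rwa [funext hu]⟩

theorem Del.comp {P : α → B → Prop} (hP : Del o P) {G : α → B → B} (hG : PF o G) :
    Del o (fun a x => P a (G a x)) := ⟨hP.1.comp hG, hP.2.comp hG⟩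

theorem SF.comp {F : α → B → β} (hF : SF o F) {G : α → B → B} (hG : PF o G) :
    SF o (fun a x => F a (G a x)) := Sig.comp hF hG.fst

theorem PF.comp {F : α → B → B} (hF : PF o F) {G : α → B → B} (hG : PF o G) :
    PF o (fun a x => F a (G a x)) := SF.comp hF hG.fst

theorem PF.app [Inhabited β] {F : β → B → B} (hF : PF o F) {G : α → B → β} (hG : SF o G) :
    PF o (fun a x => F (G a x) x) := SF.app hF (hG.fst.pair SF.snd)

theorem SF.pre {G : α → B → B} (hG : PF o G) {n : α → B → ℕ} (hn : SF o n) :
    SF o (fun a x => H74.pre (G a x) (n a x)) :=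
  SF.bind (F := fun (p : α × ℕ) x => H74.pre (G p.1 x) p.2)
    ((SF.pre0.par Computable.snd).comp hG.fst) hn

theorem PF.mg {F G : α → B → B} (hF : PF o F) (hG : PF o G) :
    PF o (fun a x => mg (F a x) (G a x)) :=
  (SF.ite (Del.const (peven.comp Primrec.snd))
    (hF.fst.at (SF.const (pdiv2.to_comp.comp Computable.snd)))
    (hG.fst.at (SF.const (pdiv2.to_comp.comp Computable.snd)))).of_eq
    fun p x => by by_cases h : p.2 % 2 = 0 <;> simp [H74.mg, h]

theorem Del.eqB {F G : α → B → B} (hF : PF o F) (hG : PF o G) :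
    Del o (fun a x => F a x = G a x) :=
  (Del.eq hF hG).all.of_iff fun _ _ => funext_iff

theorem SF.sInf {P : α × ℕ → B → Prop} (hP : Del o P) :
    SF o (fun a x => sInf {n | P (a, n) x}) := by
  have h1 : Del o (fun (p : α × ℕ) x => ∀ n, n < p.2 → ¬ P (p.1, n) x) :=
    Del.all (P := fun (q : (α × ℕ) × ℕ) x => q.2 < q.1.2 → ¬ P (q.1.1, q.2) x)
      ((Del.const (Primrec.nat_lt.comp Primrec.snd (Primrec.snd.comp Primrec.fst))).imp
        (hP.not.par ((Computable.fst.comp Computable.fst).pair Computable.snd)))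
  refine SF.of_del ((hP.and h1).or
    ((Del.const (Primrec.eq.comp Primrec.snd (Primrec.const 0))).and hP.not.all.fst)) ?_
  intro a b x
  by_cases h : ∃ n, P (a, n) x
  · constructor
    · rintro rfl
      exact Or.inl ⟨Nat.sInf_mem (s := {n | P (a, n) x}) h,
        fun n hn => Nat.notMem_of_lt_sInf (s := {n | P (a, n) x}) hn⟩
    · rintro (⟨h1, h2⟩ | ⟨_, h2⟩)
      · refine le_antisymm (Nat.sInf_le h1) (not_lt.1 fun hl => h2 _ hl ?_)
        exact Nat.sInf_mem (s := {n | P (a, n) x}) h
      · exact absurd h (not_exists.2 h2)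
  · have e : {n | P (a, n) x} = ∅ := Set.eq_empty_of_forall_notMem fun n hn => h ⟨n, hn⟩
    rw [e, Nat.sInf_empty]
    constructor
    · rintro rfl; exact Or.inr ⟨rfl, fun n hn => h ⟨n, hn⟩⟩
    · rintro (⟨h1, _⟩ | ⟨h1, _⟩)
      · exact absurd ⟨_, h1⟩ h
      · exact h1.symm

/-- implicit definitions through a code. -/
theorem SF.of_code {F : α → B → β} {R : α → B → B → Prop}
    (hR : Sig o (fun a w => R a (H74.ev w) (H74.od w))) {ι : α → ℕ} (hι : Computable ι)
    (hex : ∀ a x, ∃ t, R a x t)
    (hun : ∀ a x t, R a x t → t (ι a) = Encodable.encode (F a x)) : SF o F := by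
  have h2 : Sig o (fun (p : α × β) w => R p.1 (H74.ev w) (H74.od w) ∧
      H74.od w (ι p.1) = Encodable.encode p.2) :=
    (hR.par Computable.fst).and (Del.eq (PF.od.at (SF.const (hι.comp Computable.fst)))
      (SF.const (Computable.encode.comp Computable.snd))).1
  refine (Sig.exB (R := fun (p : α × β) x t => R p.1 x t ∧ t (ι p.1) = Encodable.encode p.2)
    h2).of_iff fun p x => ⟨fun h => ?_, fun ⟨t, h1, h3⟩ => ?_⟩
  · obtain ⟨t, ht⟩ := hex p.1 x
    exact ⟨t, ht, by rw [hun _ _ _ ht, h]⟩
  · exact Encodable.encode_injective ((hun _ _ _ h1).symm.trans h3)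

theorem SF.ev {F : α → B → β} (h : SF o F) : SF o (fun a w => F a (H74.ev w)) := Sig.ev h

theorem Del.ev {P : α → B → Prop} (h : Del o P) : Del o (fun a w => P a (H74.ev w)) :=
  ⟨h.1.ev, h.2.ev⟩

theorem SF.nrec [Inhabited β] {F : α → B → β} {S : α × ℕ × β → B → β} (hF : SF o F)
    (hS : SF o S) : SF o (fun (p : α × ℕ) x =>
      (Nat.rec (F p.1 x) (fun i acc => S (p.1, i, acc) x) p.2 : β)) := by
  refine SF.of_code (R := fun p x t => t 0 = Encodable.encode (F p.1 x) ∧
    ∀ q : ℕ × β, t q.1 = Encodable.encode q.2 → t (q.1 + 1) = Encodable.encode (S (p.1, q) x))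
    ?_ Computable.snd ?_ ?_
  · refine (Del.and (Del.eq (PF.od.at (SF.const (Computable.const 0)))
      (SF.map Computable.encode hF.fst.ev)) (Del.all (P := fun (r : (α × ℕ) × ℕ × β) w =>
        H74.od w r.2.1 = Encodable.encode r.2.2 →
        H74.od w (r.2.1 + 1) = Encodable.encode (S (r.1.1, r.2) (H74.ev w))) (Del.imp ?_ ?_))).1
    · exact Del.eq (PF.od.at (SF.const (Computable.fst.comp Computable.snd)))
        (SF.const (Computable.encode.comp (Computable.snd.comp Computable.snd)))
    · exact Del.eq (PF.od.at (SF.const (Computable.succ.comp (Computable.fst.comp Computable.snd))))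
        (SF.map Computable.encode
          (hS.par ((Computable.fst.comp Computable.fst).pair Computable.snd)).ev)
  · intro p x
    refine ⟨fun n => Encodable.encode
      (Nat.rec (F p.1 x) (fun i acc => S (p.1, i, acc) x) n : β), rfl, fun q hq => ?_⟩
    have := Encodable.encode_injective hq
    simp only [this]
  · intro p x t ⟨h0, h1⟩
    induction p.2 with
    | zero => exact h0
    | succ n ih => exact h1 (n, _) ih

theorem SF.count {P : α × ℕ → B → Prop} (hP : Del o P) {n : α → B → ℕ} (hn : SF o n) :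
    SF o (fun a x => ((Finset.range (n a x)).filter (fun i => P (a, i) x)).card) := by
  have h := SF.nrec (o := o) (F := fun (_ : α) _ => (0 : ℕ))
    (S := fun q x => if P (q.1, q.2.1) x then q.2.2 + 1 else q.2.2)
    (SF.const (Computable.const 0))
    (SF.ite (hP.par (Computable.fst.pair (Computable.fst.comp Computable.snd)))
      (SF.const (Computable.succ.comp (Computable.snd.comp Computable.snd)))
      (SF.const (Computable.snd.comp Computable.snd)))
  refine (h.bind hn).of_eq fun a x => ?_
  simp only []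
  induction n a x with
  | zero => simp
  | succ k ih =>
    rw [Finset.range_add_one, Finset.filter_insert]
    by_cases hk : P (a, k) x
    · simp only [hk, if_true]
      rw [Finset.card_insert_of_notMem (by simp), ih]
    · simp only [hk, if_false]; exact ih

theorem Del.of_sf {P : α → B → Prop} (h : SF o (fun a x => if P a x then 1 else 0)) : Del o P :=
  (Del.eq h (SF.const (Computable.const 1))).of_iff fun a x => by
    by_cases hp : P a x <;> simp [hp]

theorem Sigma11.sig {R : α → B → B → Prop} (h : Sigma11 o R) :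
    Sig o (fun a w => R a (H74.ev w) (H74.od w)) := by
  obtain ⟨f, hf, h⟩ := h
  have h1 : Del o (fun (p : α × ℕ) w => f (p.1, pre o p.2, pre (H74.ev (H74.ev w)) p.2,
      pre (H74.od (H74.ev w)) p.2, pre (H74.od w) p.2) = true) :=
    Del.eq ((SF.const (c := fun q : (α × ℕ) × List ℕ × List ℕ × List ℕ × List ℕ => f (q.1.1, q.2))
      (hf.comp ((Computable.fst.comp Computable.fst).pair Computable.snd))).bind
      ((SF.orac0.par Computable.snd).pair
      ((SF.pre (PF.ev.comp PF.ev) SF.snd).pair ((SF.pre (PF.od.comp PF.ev) SF.snd).pair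
        (SF.pre PF.od SF.snd))))) (SF.const (Computable.const true))
  exact (Sig.exB (R := fun a x z => ∀ n, f (a, pre o n, pre (H74.ev x) n, pre (H74.od x) n,
    pre z n) = true) h1.all.1).of_iff fun a w => h _ _ _

/-- interleaving of three words. -/
def mg3 (lx ly lz : List ℕ) (k : ℕ) : List ℕ := (List.range k).map fun i =>
  if i % 2 = 0 then (if (i / 2) % 2 = 0 then lx.getD (i / 2 / 2) 0 else ly.getD (i / 2 / 2) 0)
  else lz.getD (i / 2) 0

theorem mg3_pre (x y z : B) {k n : ℕ} (h : k ≤ n) :
    mg3 (pre x n) (pre y n) (pre z n) k = pre (mg (mg x y) z) k := by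
  rw [pre_eq (mg (mg x y) z), mg3]
  apply List.map_congr_left
  intro i hi
  have hi := List.mem_range.1 hi
  rw [pre_getD x (by omega), pre_getD y (by omega), pre_getD z (by omega)]
  simp [mg]

theorem mg3_prim : Primrec (fun p : (List ℕ × List ℕ × List ℕ) × ℕ =>
    mg3 p.1.1 p.1.2.1 p.1.2.2 p.2) := by
  unfold mg3
  refine Primrec.list_map (Primrec.list_range.comp Primrec.snd) ?_
  have d2 : Primrec (fun q : ((List ℕ × List ℕ × List ℕ) × ℕ) × ℕ => q.2 / 2) :=
    pdiv2.comp Primrec.snd
  have l3 : Primrec (fun q : ((List ℕ × List ℕ × List ℕ) × ℕ) × ℕ => q.1.1) :=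
    Primrec.fst.comp Primrec.fst
  exact Primrec.ite (peven.comp Primrec.snd) (Primrec.ite (peven.comp d2)
    ((Primrec.list_getD 0).comp (Primrec.fst.comp l3) (pdiv2.comp d2))
    ((Primrec.list_getD 0).comp (Primrec.fst.comp (Primrec.snd.comp l3)) (pdiv2.comp d2)))
    ((Primrec.list_getD 0).comp (Primrec.snd.comp (Primrec.snd.comp l3)) d2)

theorem Sig.sigma11 {R : α → B → B → Prop} (h : Sig o (fun a w => R a (H74.ev w) (H74.od w))) :
    Sigma11 o R := by
  obtain ⟨Q, ⟨h, μ, h1, h2, h3⟩, h4⟩ := h
  have hm : Computable (fun p : α × List ℕ × List ℕ × List ℕ × List ℕ =>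
      (p.1, p.2.1.length.unpair.1)) :=
    Computable.fst.pair (Computable.fst.comp (Computable.unpair.comp
      (Computable.list_length.comp (Computable.fst.comp Computable.snd))))
  refine ⟨fun p => bif decide (μ (p.1, p.2.1.length.unpair.1) ≤ p.2.1.length) then
    h ((p.1, p.2.1.length.unpair.1), p.2.1.take (μ (p.1, p.2.1.length.unpair.1)),
      mg3 p.2.2.1 p.2.2.2.1 p.2.2.2.2 (μ (p.1, p.2.1.length.unpair.1))) else true, ?_, ?_⟩
  · refine Computable.cond ?_ ?_ (Computable.const true)
    · exact (Primrec.nat_le.decide.to_comp : Computable₂ (fun a b : ℕ => decide (a ≤ b))).comp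
        (h2.comp hm) (Computable.list_length.comp (Computable.fst.comp Computable.snd))
    · exact h1.comp (hm.pair ((ctake (h2.comp hm) (Computable.fst.comp Computable.snd)).pair
        (mg3_prim.to_comp.comp ((Computable.snd.comp Computable.snd).pair (h2.comp hm)))))
  · intro a x y
    have := h4 a (mg x y)
    simp only [ev_mg, od_mg] at this
    rw [this]
    refine exists_congr fun z => ?_
    rw [h3]
    simp only [pre_length]
    constructor
    · intro H n
      by_cases hn : μ (a, n.unpair.1) ≤ n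
      · simp only [hn, decide_true, cond_true]
        rw [pre_take o hn, mg3_pre _ _ _ hn]; exact H _
      · simp [hn]
    · intro H m
      have := H (Nat.pair m (μ (a, m)))
      have hn : μ (a, m) ≤ Nat.pair m (μ (a, m)) := Nat.right_le_pair _ _
      simp only [Nat.unpair_pair, hn, decide_true, cond_true] at this
      rwa [pre_take o hn, mg3_pre _ _ _ hn] at this

theorem Del.delta11 {R : α → B → B → Prop} (h : Del o (fun a w => R a (H74.ev w) (H74.od w))) :
    Delta11 o R := ⟨h.1.sigma11, Sig.sigma11 (R := fun a x y => ¬ R a x y) h.2⟩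

theorem PF.of_graph {G : α → B → B} (h : Sigma11 o (fun a x y => G a x = y)) : PF o G := by
  have h2 : Sig o (fun (p : (α × ℕ) × ℕ) w => G p.1.1 (H74.ev w) = H74.od w ∧
      H74.od w p.1.2 = p.2) :=
    (h.sig.par (Computable.fst.comp Computable.fst)).and
      (Del.eq (PF.od.at (SF.const (Computable.snd.comp Computable.fst))) SF.snd).1
  exact (Sig.exB (R := fun (p : (α × ℕ) × ℕ) x u => G p.1.1 x = u ∧ u p.1.2 = p.2) h2).of_iff
    fun p x => by simp

end Pool.Agent.Lib.MP_5ddd96_lc.H74
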