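import Pool.Agent.Lib.MP_5ddd96_lc.H74Main

/-!
Effective Lusin-Novikov and Feldman-Moore theorems, and the final form of the theorem.
-/

set_option autoImplicit false

namespace Pool.Agent.Lib.MP_5ddd96_lc.H74

open Filter Topology Classical MeasureTheory

/-- first components. -/
def yp (w : B) : B := fun i => (w i).unpair.1
/-- second components. -/
def zp (w : B) : B := fun i => (w i).unpair.2

/-- type of the tests for one relation. -/
abbrev Test1 := Unit × List ℕ × List ℕ × List ℕ × List ℕ → Bool

/-- nodes of the tree of the section at `x`. -/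
def Nd (o : B) (f : Test1) (x : B) (u : List ℕ) : Prop :=
  ∀ n, n ≤ u.length → f ((), pre o n, pre x n, pre (yp (ext u)) n, pre (zp (ext u)) n) = true

/-- extension of words. -/
def Le (u v : List ℕ) : Prop := u.length ≤ v.length ∧ ∀ i, i < u.length → v.getD i 0 = u.getD i 0

/-- the first components differ. -/
def Inc (u v : List ℕ) : Prop :=
  ∃ i, i < u.length ∧ i < v.length ∧ (u.getD i 0).unpair.1 ≠ (v.getD i 0).unpair.1

/-- every node of the family is split in two. -/
def Sp (o : B) (f : Test1) (x : B) (c' c : List (List ℕ)) : Prop :=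
  0 < c.length ∧ c'.length = 2 * c.length ∧ ∀ i, i < c.length →
    Nd o f x (c'.getD (2 * i) []) ∧ Nd o f x (c'.getD (2 * i + 1) []) ∧
    Le (c.getD i []) (c'.getD (2 * i) []) ∧ Le (c.getD i []) (c'.getD (2 * i + 1) []) ∧
    Inc (c'.getD (2 * i) []) (c'.getD (2 * i + 1) [])

/-- nodes that survive the derivative indexed by a family. -/
inductive Al (o : B) (f : Test1) (x : B) : List (List ℕ) → List ℕ → Prop
  | mk (c : List (List ℕ)) (t t1 t2 : List ℕ) : Le t t1 → Le t t2 → Inc t1 t2 → Nd o f x t1 →
      Nd o f x t2 → (∀ c', Sp o f x c' c → Al o f x c' t1) →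
      (∀ c', Sp o f x c' c → Al o f x c' t2) → Al o f x c t

variable {o : B} {f : Test1}

theorem al_iff {x : B} {c : List (List ℕ)} {t : List ℕ} : Al o f x c t ↔
    ∃ q : List ℕ × List ℕ, (Le t q.1 ∧ Le t q.2 ∧ Inc q.1 q.2 ∧ Nd o f x q.1 ∧ Nd o f x q.2) ∧
      ∀ c', Sp o f x c' c → Al o f x c' q.1 ∧ Al o f x c' q.2 := by
  constructor
  · rintro ⟨_, _, t1, t2, h1, h2, h3, h4, h5, h6, h7⟩
    exact ⟨(t1, t2), ⟨h1, h2, h3, h4, h5⟩, fun c' h => ⟨h6 c' h, h7 c' h⟩⟩
  · rintro ⟨q, ⟨h1, h2, h3, h4, h5⟩, h6⟩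
    exact Al.mk c t q.1 q.2 h1 h2 h3 h4 h5 (fun c' h => (h6 c' h).1) (fun c' h => (h6 c' h).2)

theorem Le.trans' {u v w : List ℕ} (h : Le u v) (h' : Le v w) : Le u w :=
  ⟨h.1.trans h'.1, fun i hi => (h'.2 i (hi.trans_le h.1)).trans (h.2 i hi)⟩

theorem lt_of_inc {t u v : List ℕ} (h1 : Le t u) (h2 : Le t v) (h : Inc u v) :
    t.length < u.length ∧ t.length < v.length := by
  obtain ⟨i, a1, a2, a3⟩ := h
  have : t.length ≤ i := not_lt.1 fun hi => a3 (by rw [h1.2 i hi, h2.2 i hi])
  omega

theorem sp_wf {x : B} (hx : {y | ∃ z : B, ∀ n, f ((), pre o n, pre x n, pre y n, pre z n) =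
    true}.Countable) : WellFounded (Sp o f x) := by
  rw [wellFounded_iff_isEmpty_descending_chain]
  refine ⟨fun ⟨c, hc⟩ => ?_⟩
  let ix : (ℕ → Bool) → ℕ → ℕ := fun β n => Nat.rec 0 (fun k a => 2 * a + (β k).toNat) n
  have hix : ∀ β n, ix β (n + 1) = 2 * ix β n + (β n).toNat := fun _ _ => rfl
  have hlt : ∀ β n, ix β n < (c n).length := fun β n => by
    induction n with
    | zero => exact (hc 0).1
    | succ n ih => rw [hix, (hc n).2.1]; cases β n <;> simp <;> omega
  let t : (ℕ → Bool) → ℕ → List ℕ := fun β n => (c n).getD (ix β n) []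
  have hstep : ∀ β n, Nd o f x (t β (n + 1)) ∧ Le (t β n) (t β (n + 1)) ∧
      (t β n).length < (t β (n + 1)).length := fun β n => by
    obtain ⟨h1, h2, h3, h4, h5⟩ := (hc n).2.2 _ (hlt β n)
    have h6 := lt_of_inc h3 h4 h5
    simp only [t, hix]
    cases β n
    · exact ⟨h1, h3, h6.1⟩
    · exact ⟨h2, h4, h6.2⟩
  have hlen : ∀ β n, n ≤ (t β n).length := fun β n => by
    induction n with
    | zero => omega
    | succ n ih => have := (hstep β n).2.2; omega
  have hle : ∀ β n d, Le (t β n) (t β (n + d)) := fun β n d => by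
    induction d with
    | zero => exact ⟨le_rfl, fun _ _ => rfl⟩
    | succ d ih => exact ih.trans' (hstep β (n + d)).2.1
  let w : (ℕ → Bool) → B := fun β i => (t β (i + 1)).getD i 0
  have hw : ∀ β n i, i < (t β n).length → w β i = (t β n).getD i 0 := fun β n i hi => by
    have e1 := (hle β n (i + 1)).2 i hi
    have e2 := (hle β (i + 1) n).2 i (hlen β (i + 1))
    rw [add_comm (i + 1) n, e1] at e2
    exact e2.symm
  have hmem : ∀ β, yp (w β) ∈ {y | ∃ z : B, ∀ n, f ((), pre o n, pre x n, pre y n, pre z n) =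
      true} := fun β => ⟨zp (w β), fun n => by
    have h1 := hlen β (n + 1)
    have := (hstep β n).1 n (by omega)
    rwa [pre_congr (x := yp (ext (t β (n + 1)))) (y := yp (w β))
        fun i hi => by simp only [yp, ext]; rw [hw β (n + 1) i (by omega)],
      pre_congr (x := zp (ext (t β (n + 1)))) (y := zp (w β))
        fun i hi => by simp only [zp, ext]; rw [hw β (n + 1) i (by omega)]] at this⟩
  have hinj : Function.Injective fun β => yp (w β) := by
    intro β β' h
    have h : yp (w β) = yp (w β') := h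
    have key : ∀ n, ix β n = ix β' n := fun n => by
      induction n with
      | zero => rfl
      | succ n ih =>
        by_contra hne
        obtain ⟨i, a1, a2, a3⟩ := ((hc n).2.2 _ (hlt β n)).2.2.2.2
        have b1 := hw β (n + 1) i
        have b2 := hw β' (n + 1) i
        have b3 : (w β i).unpair.1 = (w β' i).unpair.1 := congrFun h i
        simp only [t, hix, ← ih] at b1 b2 hne
        cases h1 : β n <;> cases h2 : β' n <;> rw [h1] at b1 hne <;> rw [h2] at b2 hne
        · exact hne rfl
        · exact a3 (by rw [b1 a1, b2 a2] at b3; exact b3)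
        · exact a3 (by rw [b1 a2, b2 a1] at b3; exact b3.symm)
        · exact hne rfl
    funext n
    have := key (n + 1)
    rw [hix, hix, key n] at this
    cases h1 : β n <;> cases h2 : β' n <;> simp [h1, h2] at this ⊢
  have : Countable (ℕ → Bool) := by
    have := (hx.mono (Set.range_subset_iff.2 hmem)).to_subtype
    exact (Set.rangeFactorization_injective.2 hinj).countable
  obtain ⟨F, hF⟩ := exists_surjective_nat (ℕ → Bool)
  obtain ⟨n, hn⟩ := hF fun n => !F n n
  simpa using congrFun hn n

theorem exists_list_of (n : ℕ) (F : ℕ → List ℕ) :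
    ∃ c : List (List ℕ), c.length = n ∧ ∀ i, i < n → c.getD i [] = F i :=
  ⟨(List.range n).map F, by simp, fun i hi => by
    rw [List.getD_eq_getElem _ _ (by simpa using hi)]; simp⟩

theorem not_al {x : B} (hw : WellFounded (Sp o f x)) (c : List (List ℕ)) (hc : 0 < c.length) :
    ∃ i, i < c.length ∧ ¬ Al o f x c (c.getD i []) := by
  induction c using hw.induction with
  | _ c ih =>
    by_contra hcon
    have h : ∀ i, ∃ q : List ℕ × List ℕ, i < c.length → (Le (c.getD i []) q.1 ∧
        Le (c.getD i []) q.2 ∧ Inc q.1 q.2 ∧ Nd o f x q.1 ∧ Nd o f x q.2) ∧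
        ∀ c', Sp o f x c' c → Al o f x c' q.1 ∧ Al o f x c' q.2 := fun i => by
      by_cases hi : i < c.length
      · exact (al_iff.1 (not_not.1 fun h => hcon ⟨i, hi, h⟩)).imp fun q hq _ => hq
      · exact ⟨default, fun h => absurd h hi⟩
    choose q hq using h
    obtain ⟨c', h1, h2⟩ := exists_list_of (2 * c.length)
      fun j => if j % 2 = 0 then (q (j / 2)).1 else (q (j / 2)).2
    have e1 : ∀ i, i < c.length → c'.getD (2 * i) [] = (q i).1 := fun i hi => by
      rw [h2 _ (by omega)]; simp
    have e2 : ∀ i, i < c.length → c'.getD (2 * i + 1) [] = (q i).2 := fun i hi => by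
      have : (2 * i + 1) / 2 = i := by omega
      rw [h2 _ (by omega), if_neg (by omega), this]
    have hsp : Sp o f x c' c := ⟨hc, h1, fun i hi => by
      rw [e1 i hi, e2 i hi]
      obtain ⟨⟨a1, a2, a3, a4, a5⟩, _⟩ := hq i hi
      exact ⟨a4, a5, a1, a2, a3⟩⟩
    obtain ⟨j, hj, hn⟩ := ih c' hsp (by omega)
    apply hn
    have hj2 : j / 2 < c.length := by omega
    rw [h2 j (by omega)]
    split_ifs
    · exact ((hq _ hj2).2 c' hsp).1
    · exact ((hq _ hj2).2 c' hsp).2

/-- the point read off a chain of surviving nodes. -/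
noncomputable def ec (o : B) (f : Test1) (p : List (List ℕ) × List ℕ) (x : B) : B := fun i =>
  sInf {v | ∃ t', (Le p.2 t' ∧ Nd o f x t' ∧ i < t'.length ∧ (t'.getD i 0).unpair.1 = v) ∧
    ∀ c', Sp o f x c' p.1 → Al o f x c' t'}

theorem ec_cover {x y z : B} (hw : WellFounded (Sp o f x))
    (h : ∀ n, f ((), pre o n, pre x n, pre y n, pre z n) = true) : ∃ p, ec o f p x = y := by
  let w : B := fun i => Nat.pair (y i) (z i)
  have hN : ∀ n, Nd o f x (pre w n) := fun n m hm => by
    rw [pre_length] at hm
    rw [pre_congr (x := yp (ext (pre w n))) (y := y)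
        fun i hi => by simp only [yp, ext]; rw [pre_getD w (by omega)]; simp [w],
      pre_congr (x := zp (ext (pre w n))) (y := z)
        fun i hi => by simp only [zp, ext]; rw [pre_getD w (by omega)]; simp [w]]
    exact h m
  have hne : {c | ∃ n, ¬ Al o f x c (pre w n)}.Nonempty := by
    obtain ⟨i, hi, h⟩ := not_al hw [[]] (by simp)
    have : i = 0 := by simpa using hi
    subst this
    exact ⟨[[]], 0, h⟩
  obtain ⟨c, ⟨n, hn⟩, hmin⟩ := hw.has_min _ hne
  have hA : ∀ m c', Sp o f x c' c → Al o f x c' (pre w m) := fun m c' hc' =>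
    not_not.1 fun h => hmin c' ⟨m, h⟩ hc'
  refine ⟨(c, pre w n), funext fun i => ?_⟩
  have hle : Le (pre w n) (pre w (n + i + 1)) := ⟨by simp; omega, fun j hj => by
    rw [pre_length] at hj
    rw [pre_getD w hj, pre_getD w (by omega)]⟩
  have hy : ((pre w (n + i + 1)).getD i 0).unpair.1 = y i := by
    rw [pre_getD w (by omega)]; simp [w]
  have : {v | ∃ t', (Le (pre w n) t' ∧ Nd o f x t' ∧ i < t'.length ∧ (t'.getD i 0).unpair.1 = v) ∧
      ∀ c', Sp o f x c' c → Al o f x c' t'} = {y i} := by
    ext v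
    constructor
    · rintro ⟨t', ⟨a1, a2, a3, rfl⟩, a5⟩
      by_contra hv
      exact hn (Al.mk c _ t' _ a1 hle ⟨i, a3, by simp, by rw [hy]; exact hv⟩ a2 (hN _) a5
        (hA _))
    · rintro rfl
      exact ⟨_, ⟨hle, hN _, by simp, hy⟩, hA _⟩
  unfold ec
  simp only [this, csInf_singleton]

section definability

variable {α : Type} [Primcodable α]

theorem del_nd (hf : Computable f) : Del o (fun (u : List ℕ) x => Nd o f x u) := by
  have hx : PF o (fun (q : List ℕ × ℕ) (_ : B) => ext q.1) := pf_ext Computable.fst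
  have hy : PF o (fun (q : List ℕ × ℕ) (_ : B) => yp (ext q.1)) :=
    SF.map (Computable.fst.comp Computable.unpair) hx
  have hz : PF o (fun (q : List ℕ × ℕ) (_ : B) => zp (ext q.1)) :=
    SF.map (Computable.snd.comp Computable.unpair) hx
  exact Del.all (P := fun (q : List ℕ × ℕ) x => q.2 ≤ q.1.length →
      f ((), pre o q.2, pre x q.2, pre (yp (ext q.1)) q.2, pre (zp (ext q.1)) q.2) = true)
    ((Del.const (Primrec.nat_le.comp Primrec.snd (Primrec.list_length.comp Primrec.fst))).imp
      (Del.eq (SF.map hf ((sfc ()).pair ((SF.orac0.par Computable.snd).pair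
        ((SF.pre PF.id SF.snd).pair ((SF.pre hy SF.snd).pair (SF.pre hz SF.snd)))))) (sfc true)))

theorem del_le {u v : α → List ℕ} (hu : Computable u) (hv : Computable v) :
    Del o (fun a (_ : B) => Le (u a) (v a)) :=
  (Del.le (SF.const (Computable.list_length.comp hu))
    (SF.const (Computable.list_length.comp hv))).and
    (Del.all (P := fun (q : α × ℕ) (_ : B) => q.2 < (u q.1).length →
      (v q.1).getD q.2 0 = (u q.1).getD q.2 0)
      ((Del.lt SF.snd (SF.const (Computable.list_length.comp (hu.comp Computable.fst)))).imp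
        (Del.eq (SF.const (cgetD (hv.comp Computable.fst) Computable.snd))
          (SF.const (cgetD (hu.comp Computable.fst) Computable.snd)))))

theorem cun {a : α → ℕ} (ha : Computable a) : Computable fun p => (a p).unpair.1 :=
  Computable.fst.comp (Computable.unpair.comp ha)

theorem del_inc {u v : α → List ℕ} (hu : Computable u) (hv : Computable v) :
    Del o (fun a (_ : B) => Inc (u a) (v a)) :=
  Del.ex (P := fun (q : α × ℕ) (_ : B) => q.2 < (u q.1).length ∧ q.2 < (v q.1).length ∧
      ((u q.1).getD q.2 0).unpair.1 ≠ ((v q.1).getD q.2 0).unpair.1)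
    ((Del.lt SF.snd (SF.const (Computable.list_length.comp (hu.comp Computable.fst)))).and
    ((Del.lt SF.snd (SF.const (Computable.list_length.comp (hv.comp Computable.fst)))).and
      (Del.eq (SF.const (cun (cgetD (hu.comp Computable.fst) Computable.snd)))
        (SF.const (cun (cgetD (hv.comp Computable.fst) Computable.snd)))).not))

theorem del_sp (hf : Computable f) :
    Del o (fun (p : List (List ℕ) × List (List ℕ)) x => Sp o f x p.1 p.2) := by
  have g0 : Computable (fun q : (List (List ℕ) × List (List ℕ)) × ℕ => q.1.2.getD q.2 []) :=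
    (Primrec.list_getD []).to_comp.comp (Computable.snd.comp Computable.fst) Computable.snd
  have g1 : Computable (fun q : (List (List ℕ) × List (List ℕ)) × ℕ => q.1.1.getD (2 * q.2) []) :=
    (Primrec.list_getD []).to_comp.comp (Computable.fst.comp Computable.fst)
      (pmul2.to_comp.comp Computable.snd)
  have g2 : Computable (fun q : (List (List ℕ) × List (List ℕ)) × ℕ =>
      q.1.1.getD (2 * q.2 + 1) []) :=
    (Primrec.list_getD []).to_comp.comp (Computable.fst.comp Computable.fst)
      (Computable.succ.comp (pmul2.to_comp.comp Computable.snd))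
  have l2 : Primrec (fun p : List (List ℕ) × List (List ℕ) => p.2.length) :=
    Primrec.list_length.comp Primrec.snd
  exact (Del.const (Primrec.nat_lt.comp (Primrec.const 0) l2)).and
    ((Del.const (Primrec.eq.comp (Primrec.list_length.comp Primrec.fst) (pmul2.comp l2))).and
    (Del.all (P := fun (q : (List (List ℕ) × List (List ℕ)) × ℕ) x => q.2 < q.1.2.length →
      Nd o f x (q.1.1.getD (2 * q.2) []) ∧ Nd o f x (q.1.1.getD (2 * q.2 + 1) []) ∧
      Le (q.1.2.getD q.2 []) (q.1.1.getD (2 * q.2) []) ∧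
      Le (q.1.2.getD q.2 []) (q.1.1.getD (2 * q.2 + 1) []) ∧
      Inc (q.1.1.getD (2 * q.2) []) (q.1.1.getD (2 * q.2 + 1) []))
      ((Del.const (Primrec.nat_lt.comp Primrec.snd (l2.comp Primrec.fst))).imp
        (((del_nd hf).par g1).and (((del_nd hf).par g2).and ((del_le g0 g1).and
          ((del_le g0 g2).and (del_inc g1 g2))))))))

theorem del_al (hf : Computable f) (hw : ∀ x, WellFounded (Sp o f x)) :
    Del o (fun (p : List (List ℕ) × List ℕ) x => Al o f x p.1 p.2) := by
  refine Del.of_code (R := fun _ x t => ∀ p : List (List ℕ) × List ℕ,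
      t (Encodable.encode p) = 0 ↔ ∃ q : List ℕ × List ℕ,
      (Le p.2 q.1 ∧ Le p.2 q.2 ∧ Inc q.1 q.2 ∧ Nd o f x q.1 ∧ Nd o f x q.2) ∧
      ∀ c', Sp o f x c' p.1 → t (Encodable.encode (c', q.1)) = 0 ∧
        t (Encodable.encode (c', q.2)) = 0) ?_ Computable.encode ?_ ?_
  · have q1 : Computable (fun r : (List (List ℕ) × List ℕ) × List ℕ × List ℕ => r.2.1) :=
      Computable.fst.comp Computable.snd
    have q2 : Computable (fun r : (List (List ℕ) × List ℕ) × List ℕ × List ℕ => r.2.2) :=
      Computable.snd.comp Computable.snd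
    have p2 : Computable (fun r : (List (List ℕ) × List ℕ) × List ℕ × List ℕ => r.1.2) :=
      Computable.snd.comp Computable.fst
    have h1 : Del o (fun (r : ((List (List ℕ) × List ℕ) × List ℕ × List ℕ) × List (List ℕ)) w =>
        Sp o f (ev w) r.2 r.1.1.1 → od w (Encodable.encode (r.2, r.1.2.1)) = 0 ∧
          od w (Encodable.encode (r.2, r.1.2.2)) = 0) :=
      ((del_sp hf).par (Computable.snd.pair
        (Computable.fst.comp (Computable.fst.comp Computable.fst)))).ev.imp
      ((Del.eq (PF.od.at (SF.const (Computable.encode.comp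
          (Computable.snd.pair (q1.comp Computable.fst))))) (sfc 0)).and
        (Del.eq (PF.od.at (SF.const (Computable.encode.comp
          (Computable.snd.pair (q2.comp Computable.fst))))) (sfc 0)))
    have h2 := (((del_le (o := o) p2 q1).and ((del_le p2 q2).and ((del_inc q1 q2).and
      (((del_nd hf).par q1).ev.and ((del_nd hf).par q2).ev)))).and h1.all).ex
    exact (((Del.eq (PF.od.at (SF.const Computable.encode)) (sfc 0)).iff h2).par
      (Computable.snd (α := List (List ℕ) × List ℕ))).all.1
  · intro _ x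
    refine ⟨fun n => if Al o f x
      ((Encodable.decode (α := List (List ℕ) × List ℕ) n).getD default).1
      ((Encodable.decode (α := List (List ℕ) × List ℕ) n).getD default).2 then 0 else 1,
      fun s => ?_⟩
    simp only [Encodable.encodek, Option.getD_some, ite_eq_left_iff, one_ne_zero, imp_false,
      not_not]
    exact al_iff
  · intro p x t ht
    have : ∀ c u, t (Encodable.encode ((c, u) : List (List ℕ) × List ℕ)) = 0 ↔ Al o f x c u := by
      intro c
      induction c using (hw x).induction with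
      | _ c ih =>
        intro u
        rw [ht, al_iff]
        exact exists_congr fun q => and_congr_right fun _ => forall_congr' fun c' =>
          imp_congr_right fun h => and_congr (ih _ h _) (ih _ h _)
    exact this p.1 p.2

theorem pf_ec (hf : Computable f) (hw : ∀ x, WellFounded (Sp o f x)) : PF o (ec o f) := by
  have t' : Computable (fun r : (((List (List ℕ) × List ℕ) × ℕ) × ℕ) × List ℕ => r.2) :=
    Computable.snd
  have pp : Computable (fun r : (((List (List ℕ) × List ℕ) × ℕ) × ℕ) × List ℕ => r.1.1.1) :=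
    Computable.fst.comp (Computable.fst.comp Computable.fst)
  have ii : Computable (fun r : (((List (List ℕ) × List ℕ) × ℕ) × ℕ) × List ℕ => r.1.1.2) :=
    Computable.snd.comp (Computable.fst.comp Computable.fst)
  have h1 : Del o (fun (r : ((((List (List ℕ) × List ℕ) × ℕ) × ℕ) × List ℕ) × List (List ℕ)) x =>
      Sp o f x r.2 r.1.1.1.1.1 → Al o f x r.2 r.1.2) :=
    ((del_sp hf).par (Computable.snd.pair (Computable.fst.comp (pp.comp Computable.fst)))).imp
      ((del_al hf hw).par (Computable.snd.pair (t'.comp Computable.fst)))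
  exact SF.sInf (P := fun (q : ((List (List ℕ) × List ℕ) × ℕ) × ℕ) x => ∃ t',
      (Le q.1.1.2 t' ∧ Nd o f x t' ∧ q.1.2 < t'.length ∧ (t'.getD q.1.2 0).unpair.1 = q.2) ∧
        ∀ c', Sp o f x c' q.1.1.1 → Al o f x c' t')
    (((del_le (Computable.snd.comp pp) t').and (((del_nd hf).par t').and
      ((Del.lt (SF.const ii) (SF.const (Computable.list_length.comp t'))).and
        (Del.eq (SF.const (cun (cgetD t' ii)))
          (SF.const (Computable.snd.comp Computable.fst)))))).and h1.all).ex

theorem PF.ite {P : α → B → Prop} (hP : Del o P) {F G : α → B → B} (hF : PF o F) (hG : PF o G) :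
    PF o (fun a x => if P a x then F a x else G a x) :=
  (SF.ite hP.fst hF hG).of_eq fun p x => by beta_reduce; split_ifs <;> rfl

end definability

theorem lusin_novikov {E : B → B → Prop} (hD : Delta11 o fun _ : Unit => E) (hr : ∀ x, E x x)
    (hc : ∀ x, {y | E x y}.Countable) :
    ∃ e : ℕ → B → B, PF o e ∧ ∀ x y, E x y ↔ ∃ i, e i x = y := by
  have hE : Del o (fun (_ : Unit) w => E (ev w) (od w)) := ⟨hD.1.sig, hD.2.sig⟩
  obtain ⟨f, hf, h⟩ := hD.1
  have hw : ∀ x, WellFounded (Sp o f x) := fun x =>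
    sp_wf ((hc x).mono fun y hy => (h () x y).2 hy)
  let d : ℕ → List (List ℕ) × List ℕ := fun n => (Encodable.decode n).getD default
  have hd : Computable d := Computable.option_getD Computable.decode (Computable.const _)
  have h1 : PF o (fun n x => ec o f (d n) x) := (pf_ec hf hw).par hd
  have h2 : Del o (fun (n : ℕ) x => E x (ec o f (d n) x)) :=
    ((hE.par (Computable.const ())).comp (PF.mg PF.id h1)).of_iff fun n x => by simp
  refine ⟨fun n x => if E x (ec o f (d n) x) then ec o f (d n) x else x, PF.ite h2 h1 PF.id,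
    fun x y => ⟨fun hxy => ?_, ?_⟩⟩
  · obtain ⟨z, hz⟩ := (h () x y).1 hxy
    obtain ⟨p, hp⟩ := ec_cover (hw x) hz
    refine ⟨Encodable.encode p, ?_⟩
    have : d (Encodable.encode p) = p := by simp only [d, Encodable.encodek, Option.getD_some]
    simp only [this, hp, hxy, if_true]
  · rintro ⟨i, rfl⟩
    simp only []
    split_ifs with h3
    · exact h3
    · exact hr x

theorem feldman_moore {E : B → B → Prop} (hD : Delta11 o fun _ : Unit => E) (hE : Equivalence E)
    (hc : ∀ x, {y | E x y}.Countable) :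
    ∃ g : ℕ → Equiv.Perm B, Sigma11 o (fun i x y => g i x = y) ∧ ∀ x y, E x y ↔ ∃ i, g i x = y := by
  obtain ⟨e, he, hEe⟩ := lusin_novikov hD hE.refl hc
  let D : ℕ × ℕ × ℕ × ℕ → B → Prop := fun p x =>
    x p.2.2.1 = p.2.2.2 ∧ ¬ e p.1 x p.2.2.1 = p.2.2.2 ∧ e p.2.1 (e p.1 x) = x
  let G : ℕ × ℕ × ℕ × ℕ → B → B := fun p x =>
    if D p x then e p.1 x else if D p (e p.2.1 x) ∧ e p.1 (e p.2.1 x) = x then e p.2.1 x else x
  have hinv : ∀ p, Function.Involutive (G p) := by
    intro p x
    by_cases h1 : D p x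
    · have h2 : ¬ D p (e p.1 x) := fun h => h1.2.1 h.1
      simp only [G, if_pos h1, if_neg h2, h1.2.2, h1, true_and, if_true]
    · by_cases h2 : D p (e p.2.1 x) ∧ e p.1 (e p.2.1 x) = x
      · have h3 : G p x = e p.2.1 x := by simp only [G, if_neg h1, if_pos h2]
        rw [h3]
        simp only [G, if_pos h2.1, h2.2]
      · simp only [G, if_neg h1, if_neg h2]
  have e1 : PF o (fun (p : ℕ × ℕ × ℕ × ℕ) x => e p.1 x) := he.par Computable.fst
  have e2 : PF o (fun (p : ℕ × ℕ × ℕ × ℕ) x => e p.2.1 x) :=
    he.par (Computable.fst.comp Computable.snd)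
  have sm : SF o (fun (p : ℕ × ℕ × ℕ × ℕ) (_ : B) => p.2.2.1) :=
    SF.const (Computable.fst.comp (Computable.snd.comp Computable.snd))
  have sv : SF o (fun (p : ℕ × ℕ × ℕ × ℕ) (_ : B) => p.2.2.2) :=
    SF.const (Computable.snd.comp (Computable.snd.comp Computable.snd))
  have hDd : Del o D := (Del.eq (PF.id.at sm) sv).and ((Del.eq (e1.at sm) sv).not.and
    (Del.eqB (e2.comp e1) PF.id))
  have hG : PF o G := SF.of_eq (PF.ite hDd e1
    (PF.ite ((hDd.comp e2).and (Del.eqB (e1.comp e2) PF.id)) e2 PF.id)) fun p x => by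
      simp only [G]; split_ifs <;> rfl
  let d : ℕ → ℕ × ℕ × ℕ × ℕ := fun n => (Encodable.decode n).getD default
  have hd : Computable d := Computable.option_getD Computable.decode (Computable.const _)
  have hde : ∀ p, d (Encodable.encode p) = p := fun p => by
    simp only [d, Encodable.encodek, Option.getD_some]
  refine ⟨fun n => (hinv (d n)).toPerm, ?_, fun x y => ⟨fun hxy => ?_, ?_⟩⟩
  · exact Sig.sigma11 (R := fun i x y => G (d i) x = y)
      (Del.eqB ((hG.par hd).comp PF.ev) PF.od).1
  · obtain ⟨i, hi⟩ := (hEe _ _).1 hxy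
    obtain ⟨j, hj⟩ := (hEe _ _).1 (hE.symm hxy)
    by_cases hne : x = y
    · subst hne
      refine ⟨Encodable.encode (i, j, 0, x 0 + 1), ?_⟩
      change G (d _) x = x
      have : ¬ D (i, j, 0, x 0 + 1) x := fun h => by simpa using h.1
      simp only [hde, G, hj, this, if_false, false_and]
    · obtain ⟨m, hm⟩ := Function.ne_iff.1 hne
      refine ⟨Encodable.encode (i, j, m, x m), ?_⟩
      change G (d _) x = y
      have : D (i, j, m, x m) x := ⟨rfl, by simp only [hi]; exact hm.symm, by simp only [hi, hj]⟩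
      simp only [hde, G, if_pos this, hi]
  · rintro ⟨n, rfl⟩
    change E x (G (d n) x)
    simp only [G]
    split_ifs
    · exact (hEe _ _).2 ⟨_, rfl⟩
    · exact (hEe _ _).2 ⟨_, rfl⟩
    · exact hE.refl x

theorem MeasureHyperfinite.countable {E : B → B → Prop} (hm : MeasureHyperfinite E) (x : B) :
    {y | E x y}.Countable := by
  obtain ⟨A, hA, hinv, h1, F, _, hF, _, hU⟩ := hm (Measure.dirac x) inferInstance
  have hx : x ∈ A := by
    by_contra h
    simp [Measure.dirac_apply' _ hA, h] at h1
  refine (Set.countable_iUnion fun n => ((hF n).finite x).countable).mono fun y hy => ?_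
  exact Set.mem_iUnion.2 ((hU x hx y (hinv x y hy hx)).1 hy)

theorem main' (o : B) (E : B → B → Prop) (hE : Equivalence E)
    (hD : Delta11 o fun _ : Unit => E) (hm : MeasureHyperfinite E) :
    ∃ N : ℕ → ℕ, Computable N ∧ (∀ k, 0 < N k) ∧ ∃ P : ℕ × ℕ → B → B → Prop, Delta11 o P ∧
      (∀ p, FiniteEquivOn Set.univ (P p)) ∧ (∀ p x y, P p x y → E x y) ∧
      ∀ x y, E x y → Tendsto (fun k =>
        (((Finset.range (N k)).filter fun j => ¬ P (k, j) x y).card : ℝ) / N k) atTop (𝓝 0) := by
  obtain ⟨g, hg, hEg⟩ := feldman_moore hD hE hm.countable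
  exact main o g hg E hE hEg hm

end Pool.Agent.Lib.MP_5ddd96_lc.H74
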