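import Pool.Agent.Lib.MP_5ddd96_lc.H74Walk
import Pool.Agent.Lib.MP_5ddd96_lc.H74Del

/-!
The finite subrelations, their definability and the convergence in density.
-/

set_option autoImplicit false

namespace Pool.Agent.Lib.MP_5ddd96_lc.H74

open Filter Topology Classical

/-- action of a word. -/
def act (g : ℕ → Equiv.Perm B) (x : B) (l : List ℕ) : B := l.foldl (fun p a => g a p) x

/-- a leaf is good for a pair. -/
def gd (g : ℕ → Equiv.Perm B) (x x' : B) (s : List ℕ) : Prop := few s (fun t => ¬ good g t x x')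

/-- threshold for the pair `(x, g i x)`. -/
noncomputable def th (o : B) (f : Test) (g : ℕ → Equiv.Perm B) (x : B) (i : ℕ) (s : List ℕ) : ℕ :=
  thr (leaf o f) (gd g x (g i x)) s

/-- short words with small letters. -/
def Wd (n m : ℕ) : Set (List ℕ) := {l | l.length ≤ n ∧ ∀ i, l.getD i 0 ≤ m}

theorem wd_finite (n m : ℕ) : (Wd n m).Finite := by
  induction n with
  | zero => exact (Set.finite_singleton []).subset fun l hl => by simpa using hl.1
  | succ n ih =>
    refine (((Set.finite_Iic m).image2 List.cons ih).insert []).subset fun l hl => ?_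
    rcases l with _ | ⟨a, l⟩
    · exact Or.inl rfl
    · exact Or.inr ⟨a, by simpa using hl.2 0, l,
        ⟨by simpa using hl.1, fun i => by simpa using hl.2 (i + 1)⟩, rfl⟩

/-- the thresholds in a ball. -/
def Hs (o : B) (f : Test) (g : ℕ → Equiv.Perm B) (x : B) (m : ℕ) (s : List ℕ) : Set ℕ :=
  {v | ∃ q : List ℕ × ℕ, (q.1 ∈ Wd m m ∧ q.2 ≤ m) ∧ v = th o f g (act g x q.1) q.2 s}

/-- the largest threshold in a ball. -/
noncomputable def Hf (o : B) (f : Test) (g : ℕ → Equiv.Perm B) (x : B) (m : ℕ) (s : List ℕ) : ℕ :=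
  sSup (Hs o f g x m s)

variable {o : B} {f : Test} {g : ℕ → Equiv.Perm B}

theorem hs_bdd (x : B) (m : ℕ) (s : List ℕ) : BddAbove (Hs o f g x m s) := by
  refine Set.Finite.bddAbove ((((wd_finite m m).prod (Set.finite_Iic m)).image
    fun q => th o f g (act g x q.1) q.2 s).subset ?_)
  rintro v ⟨q, h, rfl⟩
  exact ⟨q, h, rfl⟩

theorem nil_wd (m : ℕ) : ([] : List ℕ) ∈ Wd m m := ⟨by simp, by simp⟩

theorem hs_ne (x : B) (m : ℕ) (s : List ℕ) : (Hs o f g x m s).Nonempty :=
  ⟨_, ([], 0), ⟨nil_wd m, Nat.zero_le _⟩, rfl⟩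

theorem th_le (x : B) {i m : ℕ} (s : List ℕ) (h : i ≤ m) : th o f g x i s ≤ Hf o f g x m s :=
  le_csSup (hs_bdd x m s) ⟨([], i), ⟨nil_wd m, h⟩, rfl⟩

theorem hf_dom (x : B) (i : ℕ) {d : ℕ} (hd : i + 1 ≤ d) :
    Dom d (Hf o f g (g i x)) (Hf o f g x) := by
  intro m m' s hm
  refine csSup_le_csSup (hs_bdd x m' s) (hs_ne _ m s) ?_
  rintro v ⟨⟨l, j⟩, ⟨⟨h1, h2⟩, h3⟩, rfl⟩
  refine ⟨(i :: l, j), ⟨⟨?_, fun n => ?_⟩, ?_⟩, rfl⟩
  · simp only [List.length_cons] at h1 ⊢; omega
  · rcases n with _ | n
    · simp; omega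
    · have := h2 n
      simp only [List.getD_cons_succ] at this ⊢; omega
  · simp only at h3 ⊢; omega

theorem most_root (hg : Codes o f g) (hw : WellFounded (Ch (leaf o f))) (x : B) (i : ℕ) :
    Most (leaf o f) (gd g x (g i x)) [] := by
  obtain ⟨y, hy, h0, h1⟩ := hg.witness x i
  have key : ∀ s : List ℕ, (∀ m, m + 1 < s.length → y m ≤ s.getD (m + 1) 0) →
      Most (leaf o f) (gd g x (g i x)) s := by
    intro s
    induction s using hw.induction with
    | _ s ih =>
      intro hs
      by_cases h : leaf o f s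
      · refine Most.leaf s h ?_
        have := leaf_few h hy hs
        unfold gd few at *
        rwa [cnt_congr _ (q := fun t => ¬ dgood t y) fun j _ => by
          unfold dgood good; rw [hg.flag hy, h0, h1]]
      · refine Most.node s (y (s.length - 1)) h fun k hk => ih _ ⟨h, k, rfl⟩ fun m hm => ?_
        by_cases h2 : m + 1 < s.length
        · rw [List.getD_append _ _ _ _ h2]; exact hs m h2
        · have e : m + 1 = s.length := by simp at hm; omega
          have e2 : m = s.length - 1 := by omega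
          rw [List.getD_append_right _ _ _ _ (by omega), e, e2]
          simpa using hk
  exact key [] (by simp)

/-- the end of the walk for the point `x`, time `k` and sample `j`. -/
noncomputable def fin (o : B) (f : Test) (g : ℕ → Equiv.Perm B) (k j : ℕ) (x : B) : List ℕ × ℕ :=
  (step (leaf o f) (Gm (leaf o f) (Hf o f g x) k) (k + 1))^[k + 1] ([], j)

/-- the index of the selected map. -/
noncomputable def sel (o : B) (f : Test) (g : ℕ → Equiv.Perm B) (k j : ℕ) (x : B) : ℕ :=
  idx (out (fin o f g k j x)) x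

theorem step_len (lf : List ℕ → Prop) (G : List ℕ → ℕ) (M F : ℕ) (p : List ℕ × ℕ) :
    ((step lf G M)^[F] p).1.length ≤ p.1.length + F := by
  induction F with
  | zero => simp
  | succ F ih =>
    rw [Function.iterate_succ_apply']
    unfold step at ih ⊢
    split_ifs
    · omega
    · simp only [List.length_append, List.length_singleton]; omega

theorem lookup_mem {p : List ℕ} {v : ℕ} {T : List (List ℕ × ℕ)} (h : List.lookup p T = some v) :
    v ∈ T.map Prod.snd := by
  induction T with
  | nil => simp at h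
  | cons q T ih =>
    rw [List.lookup_cons] at h
    cases hb : p == q.1 <;> rw [hb] at h
    · exact List.mem_cons_of_mem _ (ih h)
    · simp only [Option.some.injEq] at h
      simp [h]

theorem sel_finite (k j : ℕ) : (Set.range (sel o f g k j)).Finite := by
  have h1 : {t : Rule | ∃ n ≤ k + 1, t = default ∨ t ∈ Lst n}.Finite := by
    refine ((Set.finite_Iic (k + 1)).biUnion fun n _ =>
      (List.finite_toSet (Lst n)).insert default).subset ?_
    rintro t ⟨n, hn, h⟩
    exact Set.mem_biUnion hn h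
  refine (h1.biUnion fun t _ => (List.finite_toSet (t.2.map Prod.snd)).insert 0).subset ?_
  rintro _ ⟨x, rfl⟩
  refine Set.mem_biUnion (x := out (fin o f g k j x)) ⟨(fin o f g k j x).1.length, ?_, ?_⟩ ?_
  · exact (step_len (leaf o f) (Gm (leaf o f) (Hf o f g x) k) (k + 1) (k + 1) ([], j)).trans
      (by simp)
  · unfold out
    rw [List.getD_eq_getElem?_getD]
    cases h : (Lst (fin o f g k j x).1.length)[(fin o f g k j x).2 %
      (Lst (fin o f g k j x).1.length).length]? with
    | none => exact Or.inl rfl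
    | some v => exact Or.inr (List.mem_of_getElem? h)
  · unfold sel idx
    cases h : List.lookup (pre x (out (fin o f g k j x)).1) (out (fin o f g k j x)).2 with
    | none => exact Or.inl rfl
    | some v => exact Or.inr (lookup_mem h)

theorem density (hg : Codes o f g) (hw : WellFounded (Ch (leaf o f))) {x y : B} {i i' : ℕ}
    (h1 : g i x = y) (h2 : g i' y = x) :
    Tendsto (fun k => (((Finset.range ((k + 1) ^ (k + 2))).filter fun j =>
      ¬ g (sel o f g k j x) x = g (sel o f g k j y) y).card : ℝ) / ((k + 1) ^ (k + 2) : ℕ))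
      atTop (𝓝 0) := by
  rw [Metric.tendsto_atTop']
  intro ε hε
  set d := i + i' + 1 with hd
  obtain ⟨m0, hm0⟩ := exists_nat_gt ((2 + 8 * d) / ε)
  set m := m0 + d with hm
  have hmpos : (0 : ℝ) < m := by exact_mod_cast (by omega : 0 < m)
  obtain ⟨K, hK⟩ := eventually_atTop.1 (big_ev hw (Hf o f g x) [] m)
  refine ⟨K, fun k hk => ?_⟩
  have d1 : Dom d (Hf o f g y) (Hf o f g x) := h1 ▸ hf_dom x i (by omega)
  have d2 : Dom d (Hf o f g x) (Hf o f g y) := by
    have := hf_dom (o := o) (f := f) (g := g) y i' (d := d) (by omega)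
    rwa [h2] at this
  have hc := walk_count (lf := leaf o f) (k := k) (fun s hs => ⟨hs.2.1, hs.2.2.1⟩)
    (fun t t' => ¬ g (idx t x) x = g (idx t' y) y) (i0 := i) (R := m) d2 d1
    (fun m s hm => h1 ▸ th_le x s hm) (k + 1) [] m (hK k hk.le) (h1 ▸ most_root hg hw x i)
    (by omega) (by omega) (by omega) le_rfl (fun h => absurd rfl h) (by simp)
  have hN : (0 : ℝ) < ((k + 1) ^ (k + 2) : ℕ) := by positivity
  rw [Real.dist_eq, sub_zero, abs_of_nonneg (by positivity), div_lt_iff₀ hN]
  refine lt_of_le_of_lt (le_of_eq_of_le (by unfold sel fin; congr) hc) ?_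
  rw [mul_comm ε]
  refine mul_lt_mul_of_pos_left ?_ hN
  have e1 : 2 / ((m : ℝ) + 1) ≤ 2 / m := div_le_div_of_nonneg_left (by norm_num) hmpos (by linarith)
  have e2 : (2 + 8 * (d : ℝ)) / m < ε := by
    rw [div_lt_iff₀ hε] at hm0
    rw [div_lt_iff₀ hmpos]
    have : (m0 : ℝ) ≤ m := by exact_mod_cast (by omega : m0 ≤ m)
    nlinarith
  rw [add_div] at e2
  linarith

section definability

variable {α β : Type} [Primcodable α] [Primcodable β]

theorem PF.bind [Inhabited β] {F : α × β → B → B} (hF : PF o F) {G : α → B → β} (hG : SF o G) :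
    PF o (fun a x => F (a, G a x) x) :=
  SF.bind (F := fun (q : (α × ℕ) × β) x => F (q.1.1, q.2) x q.1.2)
    (SF.par hF (b := fun q : (α × ℕ) × β => ((q.1.1, q.2), q.1.2))
      (((Computable.fst.comp Computable.fst).pair Computable.snd).pair
        (Computable.snd.comp Computable.fst))) hG.fst

theorem Del.of_code {P : α → B → Prop} {R : α → B → B → Prop}
    (hR : Sig o (fun a w => R a (H74.ev w) (H74.od w))) {ι : α → ℕ} (hι : Computable ι)
    (hex : ∀ a x, ∃ t, R a x t) (hun : ∀ a x t, R a x t → (t (ι a) = 0 ↔ P a x)) : Del o P := by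
  have h0 : Del o (fun (a : α) w => H74.od w (ι a) = 0) :=
    Del.eq (PF.od.at (SF.const hι)) (SF.const (Computable.const 0))
  refine ⟨(Sig.exB (R := fun a x t => R a x t ∧ t (ι a) = 0) (hR.and h0.1)).of_iff fun a x => ?_,
    (Sig.exB (R := fun a x t => R a x t ∧ ¬ t (ι a) = 0) (hR.and h0.2)).of_iff fun a x => ?_⟩
  · exact ⟨fun h => (hex a x).imp fun t ht => ⟨ht, (hun _ _ _ ht).2 h⟩,
      fun ⟨t, ht, h⟩ => (hun _ _ _ ht).1 h⟩
  · exact ⟨fun h => (hex a x).imp fun t ht => ⟨ht, fun h' => h ((hun _ _ _ ht).1 h')⟩,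
      fun ⟨t, ht, h⟩ h' => h ((hun _ _ _ ht).2 h')⟩

theorem sfc (c : β) : SF o (fun (_ : α) _ => c) := SF.const (Computable.const c)

theorem pf_sl (j : ℕ) {a : α → B → ℕ} (ha : SF o a) : PF o (fun p y => sl j (a p y) y) :=
  SF.coord (SF.map₂ Primrec₂.natPair (SF.map₂ Primrec₂.natPair (sfc j) ha.fst) SF.snd)

theorem sf_test (hf : Computable f) {a n : α → ℕ} (ha : Computable a) (hn : Computable n)
    {X Y Z : α → B → B} (hX : PF o X) (hY : PF o Y) (hZ : PF o Z) :
    Del o (fun p w => f (a p, pre o (n p), pre (X p w) (n p), pre (Y p w) (n p),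
      pre (Z p w) (n p)) = true) :=
  Del.eq (SF.map hf ((SF.const ha).pair ((SF.orac0.par hn).pair ((SF.pre hX (SF.const hn)).pair
    ((SF.pre hY (SF.const hn)).pair (SF.pre hZ (SF.const hn))))))) (sfc true)

theorem del_cnd (hf : Computable f) :
    Del o (fun (p : ℕ × ℕ × ℕ) y => cnd o f p.1 p.2.1 p.2.2 y) := by
  have ha : Computable (fun p : ℕ × ℕ × ℕ => p.1) := Computable.fst
  have hb : Computable (fun p : ℕ × ℕ × ℕ => p.2.1) := Computable.fst.comp Computable.snd
  have hn : Computable (fun p : ℕ × ℕ × ℕ => p.2.2) := Computable.snd.comp Computable.snd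
  have sa := SF.const (o := o) ha
  have sb := SF.const (o := o) hb
  have sn := SF.const (o := o) hn
  exact (sf_test hf ha hn (pf_sl 0 (sfc 0)) (pf_sl 1 sa) (pf_sl 2 sa)).and
    ((sf_test hf ha hn (pf_sl 0 (sfc 1)) (pf_sl 3 sa) (pf_sl 4 sa)).and
    (((Del.eq ((pf_sl 5 sa).at sb) (sfc 0)).imp
      (Del.eq ((pf_sl 1 sa).at sn) ((pf_sl 3 sb).at sn))).and
    (((Del.eq ((pf_sl 5 sa).at sb) (SF.const (Computable.succ.comp hn))).imp
      (Del.eq ((pf_sl 1 sa).at sn) ((pf_sl 3 sb).at sn)).not).and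
    ((Del.eq ((pf_sl 0 (sfc 2)).at (sfc 0)) sa).imp
      (Del.eq ((pf_sl 1 sa).at sn) ((pf_sl 0 (sfc 1)).at sn))))))

theorem sf_idx {t : α → B → Rule} (ht : SF o t) {X : α → B → B} (hX : PF o X) :
    SF o (fun p w => idx (t p w) (X p w)) :=
  SF.map₂ (c := fun (l : List ℕ) (T : List (List ℕ × ℕ)) => (List.lookup l T).getD 0)
    (Primrec.option_getD.comp ((Primrec.listLookup.comp Primrec.fst Primrec.snd).of_eq
      fun p => by congr; exact lawful_beq_subsingleton _ _) (Primrec.const 0))
    (SF.pre hX (SF.map Computable.fst ht)) (SF.map Computable.snd ht)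

theorem del_dgood : Del o (fun (t : Rule) y => dgood t y) :=
  Del.eq ((pf_sl 5 (sf_idx (SF.const Computable.id) (pf_sl 0 (sfc 0)))).at
    (sf_idx (SF.const Computable.id) (pf_sl 0 (sfc 1)))) (sfc 0)

theorem lst_prim : Primrec Lst :=
  Primrec.option_getD.comp (Primrec.decode.comp (Primrec.fst.comp Primrec.unpair))
    (Primrec.const [])

theorem del_few {s : α → List ℕ} (hs : Computable s) {p : α → B → Rule → Prop}
    (hp : Del o (fun (q : α × Rule) x => p q.1 x q.2)) : Del o (fun a x => few (s a) (p a x)) := by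
  have hL : Computable (fun a => Lst (s a).length) :=
    lst_prim.to_comp.comp (Computable.list_length.comp hs)
  have h1 : Del o (fun (q : α × ℕ) x => p q.1 x ((Lst (s q.1).length).getD q.2 default)) :=
    hp.par (b := fun q : α × ℕ => (q.1, (Lst (s q.1).length).getD q.2 default))
      (Computable.fst.pair ((Primrec.list_getD default).to_comp.comp (hL.comp Computable.fst)
        Computable.snd))
  exact Del.le (SF.map₂ Primrec.nat_mul
    (SF.const (Computable.succ.comp (cgetD hs (Computable.const 0))))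
    (SF.count h1 (SF.const (Computable.list_length.comp hL))))
    (SF.const (Computable.list_length.comp hL))

theorem pf_ext {u : α → List ℕ} (hu : Computable u) : PF o (fun a _ => ext (u a)) :=
  SF.const (cgetD (hu.comp Computable.fst) Computable.snd)

theorem del_leaf (hf : Computable f) : Del o (fun (s : List ℕ) _ => leaf o f s) := by
  have hl : Primrec (fun s : List ℕ => (Lst s.length).length) :=
    Primrec.list_length.comp (lst_prim.comp Primrec.list_length)
  have h1 : Del o (fun (q : List ℕ × List ℕ) _ =>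
      ∀ m, m + 1 < q.1.length → ext q.2 m ≤ q.1.getD (m + 1) 0) :=
    Del.all (P := fun (r : (List ℕ × List ℕ) × ℕ) _ =>
        r.2 + 1 < r.1.1.length → ext r.1.2 r.2 ≤ r.1.1.getD (r.2 + 1) 0)
      ((Del.const (Primrec.nat_lt.comp (Primrec.succ.comp Primrec.snd)
        (Primrec.list_length.comp (Primrec.fst.comp Primrec.fst)))).imp
      (Del.const (Primrec.nat_le.comp
        ((Primrec.list_getD 0).comp (Primrec.snd.comp Primrec.fst) Primrec.snd)
        ((Primrec.list_getD 0).comp (Primrec.fst.comp Primrec.fst)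
          (Primrec.succ.comp Primrec.snd)))))
  have ll : Primrec (fun r : (List ℕ × List ℕ) × ℕ × ℕ × ℕ => r.1.1.length) :=
    Primrec.list_length.comp (Primrec.fst.comp Primrec.fst)
  have h2 : Del o (fun (q : List ℕ × List ℕ) _ => ∀ c : ℕ × ℕ × ℕ, c.1 < q.1.length →
      c.2.1 < q.1.length → c.2.2 < q.1.length → cnd o f c.1 c.2.1 c.2.2 (ext q.2)) :=
    Del.all (P := fun (r : (List ℕ × List ℕ) × ℕ × ℕ × ℕ) _ => r.2.1 < r.1.1.length →
        r.2.2.1 < r.1.1.length → r.2.2.2 < r.1.1.length → cnd o f r.2.1 r.2.2.1 r.2.2.2 (ext r.1.2))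
      ((Del.const (Primrec.nat_lt.comp (Primrec.fst.comp Primrec.snd) ll)).imp
      ((Del.const (Primrec.nat_lt.comp (Primrec.fst.comp (Primrec.snd.comp Primrec.snd)) ll)).imp
      ((Del.const (Primrec.nat_lt.comp (Primrec.snd.comp (Primrec.snd.comp Primrec.snd)) ll)).imp
      (((del_cnd hf).par Computable.snd).comp (pf_ext (Computable.snd.comp Computable.fst))))))
  have h3 : Del o (fun (q : List ℕ × List ℕ) _ => few q.1 (fun t => ¬ dgood t (ext q.2))) :=
    del_few Computable.fst (p := fun q _ t => ¬ dgood t (ext q.2))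
      ((del_dgood.par Computable.snd).comp (pf_ext (Computable.snd.comp Computable.fst))).not
  refine ((Del.const (Primrec.nat_lt.comp (Primrec.const 0) Primrec.list_length)).and
    ((Del.const (Primrec.nat_lt.comp (Primrec.const 0) hl)).and
    ((Del.const (Primrec.nat_le.comp hl Primrec.list_length)).and
      (h1.imp (h2.imp h3)).all))).of_iff fun s _ => ?_
  unfold leaf
  simp only [Prod.forall]

theorem pf_g (hG : PF o (fun i x => g i x)) {n : α → B → ℕ} (hn : SF o n) {X : α → B → B}
    (hX : PF o X) : PF o (fun a w => g (n a w) (X a w)) :=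
  PF.bind (F := fun (q : α × ℕ) w => g q.2 (X q.1 w)) ((hG.par Computable.snd).comp hX.fst) hn

theorem capp {s : α → List ℕ} {k : α → ℕ} (hs : Computable s) (hk : Computable k) :
    Computable (fun a => s a ++ [k a]) := Computable.list_concat.comp hs hk

theorem del_most (hf : Computable f) (hG : PF o (fun i x => g i x))
    (hw : WellFounded (Ch (leaf o f))) :
    Del o (fun (p : ℕ × List ℕ) x => Most (leaf o f) (gd g x (g p.1 x)) p.2) := by
  have h1 : Del o (fun (p : ℕ × List ℕ) x => gd g x (g p.1 x) p.2) := by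
    have hX : PF o (fun (q : (ℕ × List ℕ) × Rule) x => g q.1.1 x) :=
      hG.par (Computable.fst.comp Computable.fst)
    exact del_few Computable.snd (p := fun p x t => ¬ good g t x (g p.1 x))
      (Del.eqB (pf_g hG (sf_idx SF.snd PF.id) PF.id) (pf_g hG (sf_idx SF.snd hX) hX)).not
  refine Del.of_code (R := fun p x t => ∀ s : List ℕ, t (Encodable.encode s) = 0 ↔
      (leaf o f s ∧ gd g x (g p.1 x) s) ∨
      (¬ leaf o f s ∧ ∃ N, ∀ k, N ≤ k → t (Encodable.encode (s ++ [k])) = 0)) ?_
    (Computable.encode.comp Computable.snd) ?_ ?_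
  · have hl : Del o (fun (q : (ℕ × List ℕ) × List ℕ) (_ : B) => leaf o f q.2) :=
      (del_leaf hf).par Computable.snd
    have h2 : Del o (fun (r : (((ℕ × List ℕ) × List ℕ) × ℕ) × ℕ) w =>
        r.1.2 ≤ r.2 → od w (Encodable.encode (r.1.1.2 ++ [r.2])) = 0) :=
      (Del.const (Primrec.nat_le.comp (Primrec.snd.comp Primrec.fst) Primrec.snd)).imp
        (Del.eq (PF.od.at (SF.const (Computable.encode.comp (capp
          (Computable.snd.comp (Computable.fst.comp Computable.fst)) Computable.snd)))) (sfc 0))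
    exact (Del.all (P := fun (q : (ℕ × List ℕ) × List ℕ) w => od w (Encodable.encode q.2) = 0 ↔
      (leaf o f q.2 ∧ gd g (ev w) (g q.1.1 (ev w)) q.2) ∨
      (¬ leaf o f q.2 ∧ ∃ N, ∀ k, N ≤ k → od w (Encodable.encode (q.2 ++ [k])) = 0))
      ((Del.eq (PF.od.at (SF.const (Computable.encode.comp Computable.snd))) (sfc 0)).iff
        ((hl.and (h1.par ((Computable.fst.comp Computable.fst).pair Computable.snd)).ev).or
          (hl.not.and h2.all.ex)))).1
  · intro p x
    refine ⟨fun n => if Most (leaf o f) (gd g x (g p.1 x))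
      ((Encodable.decode (α := List ℕ) n).getD []) then 0 else 1, fun s => ?_⟩
    simp only [Encodable.encodek, Option.getD_some, ite_eq_left_iff, one_ne_zero, imp_false,
      not_not]
    exact most_iff
  · intro p x t ht
    induction p.2 using hw.induction with
    | _ s ih =>
      rw [ht, most_iff]
      refine or_congr Iff.rfl (and_congr_right fun h => exists_congr fun N =>
        forall_congr' fun k => imp_congr_right fun _ => ih _ ⟨h, k, rfl⟩)

theorem sf_th (hf : Computable f) (hG : PF o (fun i x => g i x))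
    (hw : WellFounded (Ch (leaf o f))) :
    SF o (fun (p : ℕ × List ℕ) x => th o f g x p.1 p.2) :=
  SF.sInf (P := fun (q : (ℕ × List ℕ) × ℕ) x =>
      ∀ k, q.2 ≤ k → Most (leaf o f) (gd g x (g q.1.1 x)) (q.1.2 ++ [k]))
    (Del.all (P := fun (r : ((ℕ × List ℕ) × ℕ) × ℕ) x =>
      r.1.2 ≤ r.2 → Most (leaf o f) (gd g x (g r.1.1.1 x)) (r.1.1.2 ++ [r.2]))
    ((Del.const (Primrec.nat_le.comp (Primrec.snd.comp Primrec.fst) Primrec.snd)).imp
      ((del_most hf hG hw).par
        ((Computable.fst.comp (Computable.fst.comp Computable.fst)).pair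
          (capp (Computable.snd.comp (Computable.fst.comp Computable.fst)) Computable.snd)))))

theorem pf_act (hG : PF o (fun i x => g i x)) : PF o (fun (l : List ℕ) x => act g x l) := by
  have cp : ∀ {γ : Type} [Primcodable γ] {a b : γ → ℕ}, Computable a → Computable b →
      Computable (fun c => Nat.pair (a c) (b c)) := fun ha hb =>
    Primrec₂.natPair.to_comp.comp ha hb
  have hrow : PF o (fun (l : List ℕ) w => fun j => od w (Nat.pair (Encodable.encode l) j)) :=
    PF.od.at (SF.const (cp (Computable.encode.comp Computable.fst) Computable.snd))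
  refine SF.of_code (R := fun _ x t =>
      (fun j => t (Nat.pair (Encodable.encode ([] : List ℕ)) j)) = x ∧
      ∀ q : List ℕ × ℕ, (fun j => t (Nat.pair (Encodable.encode (q.1 ++ [q.2])) j)) =
        g q.2 (fun j => t (Nat.pair (Encodable.encode q.1) j))) ?_
    (cp (Computable.encode.comp Computable.fst) Computable.snd) ?_ ?_
  · refine ((Del.eqB (hrow.par (Computable.const [])) PF.ev).and
      (Del.all (P := fun (r : (List ℕ × ℕ) × List ℕ × ℕ) w =>
        (fun j => od w (Nat.pair (Encodable.encode (r.2.1 ++ [r.2.2])) j)) =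
        g r.2.2 (fun j => od w (Nat.pair (Encodable.encode r.2.1) j))) ?_)).1
    exact Del.eqB (hrow.par (capp (Computable.fst.comp Computable.snd)
      (Computable.snd.comp Computable.snd)))
      (pf_g hG (SF.const (Computable.snd.comp Computable.snd))
        (hrow.par (Computable.fst.comp Computable.snd)))
  · intro _ x
    refine ⟨fun n => act g x ((Encodable.decode (α := List ℕ) n.unpair.1).getD []) n.unpair.2,
      ?_, fun q => ?_⟩
    · funext j; simp only [Nat.unpair_pair, Encodable.encodek, Option.getD_some]; rfl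
    · funext j
      simp only [Nat.unpair_pair, Encodable.encodek, Option.getD_some, act, List.foldl_append,
        List.foldl_cons, List.foldl_nil]
  · intro p x t ⟨h0, h1⟩
    have : ∀ l : List ℕ, (fun j => t (Nat.pair (Encodable.encode l) j)) = act g x l := by
      intro l
      induction l using List.reverseRecOn with
      | nil => exact h0
      | append_singleton l a ih =>
        rw [h1 (l, a), ih]; simp [act, List.foldl_append]
    exact congrFun (this p.1) p.2

theorem sf_hf (hf : Computable f) (hG : PF o (fun i x => g i x))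
    (hw : WellFounded (Ch (leaf o f))) :
    SF o (fun (p : ℕ × List ℕ) x => Hf o f g x p.1 p.2) := by
  have m3 : Primrec (fun r : ((ℕ × List ℕ) × ℕ) × List ℕ × ℕ => r.1.1.1) :=
    Primrec.fst.comp (Primrec.fst.comp Primrec.fst)
  have l3 : Primrec (fun r : ((ℕ × List ℕ) × ℕ) × List ℕ × ℕ => r.2.1) :=
    Primrec.fst.comp Primrec.snd
  have h1 : Del o (fun (r : ((ℕ × List ℕ) × ℕ) × List ℕ × ℕ) (_ : B) =>
      r.2.1 ∈ Wd r.1.1.1 r.1.1.1 ∧ r.2.2 ≤ r.1.1.1) :=
    ((Del.const (Primrec.nat_le.comp (Primrec.list_length.comp l3) m3)).and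
      (Del.all (P := fun (u : (((ℕ × List ℕ) × ℕ) × List ℕ × ℕ) × ℕ) (_ : B) =>
        u.1.2.1.getD u.2 0 ≤ u.1.1.1.1) (Del.const (Primrec.nat_le.comp
          ((Primrec.list_getD 0).comp (l3.comp Primrec.fst) Primrec.snd)
          (m3.comp Primrec.fst))))).and
      (Del.const (Primrec.nat_le.comp (Primrec.snd.comp Primrec.snd) m3))
  have h2 : SF o (fun (r : ((ℕ × List ℕ) × ℕ) × List ℕ × ℕ) x =>
      th o f g (act g x r.2.1) r.2.2 r.1.1.2) :=
    ((sf_th hf hG hw).par ((Computable.snd.comp Computable.snd).pair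
      (Computable.snd.comp (Computable.fst.comp Computable.fst)))).comp
      ((pf_act hG).par l3.to_comp)
  have h3 : SF o (fun (r : ((ℕ × List ℕ) × ℕ) × List ℕ × ℕ) (_ : B) => r.1.2) :=
    SF.const (Computable.snd.comp Computable.fst)
  refine SF.of_del ((h1.and (Del.eq h3 h2)).ex.and (h1.imp (Del.le h2 h3)).all) fun p v x => ?_
  constructor
  · rintro rfl
    exact ⟨Nat.sSup_mem (hs_ne (o := o) (f := f) (g := g) x p.1 p.2) (hs_bdd x _ _),
      fun q hq => le_csSup (hs_bdd x _ _) ⟨q, hq, rfl⟩⟩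
  · rintro ⟨h4, h5⟩
    refine le_antisymm (csSup_le (hs_ne x _ _) ?_) (le_csSup (hs_bdd x _ _) h4)
    rintro _ ⟨q, hq, rfl⟩
    exact h5 q hq

theorem del_big (hf : Computable f) (hw : WellFounded (Ch (leaf o f)))
    {H : B → ℕ → List ℕ → ℕ} (hH : SF o (fun (p : ℕ × List ℕ) x => H x p.1 p.2)) :
    Del o (fun (p : ℕ × List ℕ × ℕ) x => Big (leaf o f) (H x) p.1 p.2.1 p.2.2) := by
  have hphi : SF o (fun (p : List ℕ × ℕ) x => phi (H x) p.1 p.2) :=
    SF.map₂ (c := fun a b : ℕ => 2 * a + 2 * b + 2)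
      (Primrec.succ.comp (Primrec.succ.comp (Primrec.nat_add.comp (pmul2.comp Primrec.fst)
        (pmul2.comp Primrec.snd)))) (hH.par (Computable.snd.pair Computable.fst)) SF.snd
  refine Del.of_code (R := fun p x t => ∀ q : List ℕ × ℕ, t (Encodable.encode q) = 0 ↔
      (leaf o f q.1 ∧ q.1.length ≤ p.1) ∨ (¬ leaf o f q.1 ∧ phi (H x) q.1 q.2 ≤ p.1 ∧
        ∀ n, n ≤ phi (H x) q.1 q.2 → t (Encodable.encode (q.1 ++ [n], phi (H x) q.1 q.2)) = 0)) ?_
    (Computable.encode.comp Computable.snd) ?_ ?_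
  · have hl : Del o (fun (q : (ℕ × List ℕ × ℕ) × List ℕ × ℕ) (_ : B) => leaf o f q.2.1) :=
      (del_leaf hf).par (Computable.fst.comp Computable.snd)
    have hp : SF o (fun (q : (ℕ × List ℕ × ℕ) × List ℕ × ℕ) w => phi (H (ev w)) q.2.1 q.2.2) :=
      (hphi.par Computable.snd).ev
    have h2 : Del o (fun (r : ((ℕ × List ℕ × ℕ) × List ℕ × ℕ) × ℕ) w =>
        r.2 ≤ phi (H (ev w)) r.1.2.1 r.1.2.2 →
        od w (Encodable.encode (r.1.2.1 ++ [r.2], phi (H (ev w)) r.1.2.1 r.1.2.2)) = 0) :=
      (Del.le SF.snd hp.fst).imp (Del.eq (PF.od.at (SF.map Computable.encode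
        ((SF.const (capp (Computable.fst.comp (Computable.snd.comp Computable.fst))
          Computable.snd)).pair hp.fst))) (sfc 0))
    exact (Del.all (P := fun (q : (ℕ × List ℕ × ℕ) × List ℕ × ℕ) w =>
      od w (Encodable.encode q.2) = 0 ↔
      (leaf o f q.2.1 ∧ q.2.1.length ≤ q.1.1) ∨ (¬ leaf o f q.2.1 ∧
        phi (H (ev w)) q.2.1 q.2.2 ≤ q.1.1 ∧ ∀ n, n ≤ phi (H (ev w)) q.2.1 q.2.2 →
          od w (Encodable.encode (q.2.1 ++ [n], phi (H (ev w)) q.2.1 q.2.2)) = 0))
      ((Del.eq (PF.od.at (SF.const (Computable.encode.comp Computable.snd))) (sfc 0)).iff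
        ((hl.and (Del.const (Primrec.nat_le.comp
          (Primrec.list_length.comp (Primrec.fst.comp Primrec.snd))
          (Primrec.fst.comp Primrec.fst)))).or
          (hl.not.and ((Del.le hp (SF.const (Computable.fst.comp Computable.fst))).and
            h2.all))))).1
  · intro p x
    refine ⟨fun n => if Big (leaf o f) (H x) p.1
      ((Encodable.decode (α := List ℕ × ℕ) n).getD default).1
      ((Encodable.decode (α := List ℕ × ℕ) n).getD default).2 then 0 else 1, fun s => ?_⟩
    simp only [Encodable.encodek, Option.getD_some, ite_eq_left_iff, one_ne_zero, imp_false,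
      not_not]
    exact big_iff
  · intro p x t ht
    have : ∀ s m, t (Encodable.encode ((s, m) : List ℕ × ℕ)) = 0 ↔ Big (leaf o f) (H x) p.1 s m := by
      intro s
      induction s using hw.induction with
      | _ s ih =>
        intro m
        rw [ht, big_iff]
        refine or_congr Iff.rfl (and_congr_right fun h => and_congr_right fun _ =>
          forall_congr' fun k => imp_congr_right fun _ => ih _ ⟨h, k, rfl⟩ _)
    exact this p.2.1 p.2.2

theorem SF.findGreatest {P : α × ℕ → B → Prop} (hP : Del o P) {k : α → ℕ} (hk : Computable k) :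
    SF o (fun a x => Nat.findGreatest (fun n => P (a, n) x) (k a)) := by
  have h1 : Del o (fun (r : (α × ℕ) × ℕ) x => r.1.2 < r.2 → r.2 ≤ k r.1.1 → ¬ P (r.1.1, r.2) x) :=
    (Del.const (Primrec.nat_lt.comp (Primrec.snd.comp Primrec.fst) Primrec.snd)).imp
      ((Del.le SF.snd (SF.const (hk.comp (Computable.fst.comp Computable.fst)))).imp
        (hP.not.par ((Computable.fst.comp Computable.fst).pair Computable.snd)))
  exact SF.of_del ((Del.le SF.snd (SF.const (hk.comp Computable.fst))).and
    (((Del.eq SF.snd (sfc 0)).not.imp hP).and h1.all)) fun a b x => Nat.findGreatest_eq_iff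

theorem ppow : Primrec₂ (fun a b : ℕ => a ^ b) := Primrec₂.unpaired'.1 Nat.Primrec.pow

theorem sf_pick : SF o (fun (p : ℕ × ℕ × ℕ) (_ : B) => pick p.1 p.2.1 p.2.2) := by
  have ha : Primrec (fun p : ℕ × ℕ × ℕ => p.1 + p.2.2) :=
    Primrec.nat_add.comp Primrec.fst (Primrec.snd.comp Primrec.snd)
  exact SF.map₂ (c := fun a i : ℕ => a / 2 ^ i)
    (Primrec.nat_div.comp Primrec.fst (ppow.comp (Primrec.const 2) Primrec.snd))
    (SF.const ha.to_comp)
    (SF.sInf (P := fun (q : (ℕ × ℕ × ℕ) × ℕ) (_ : B) => (q.1.1 + q.1.2.2) / 2 ^ q.2 ≤ q.1.2.1)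
      (Del.const (Primrec.nat_le.comp (Primrec.nat_div.comp (ha.comp Primrec.fst)
        (ppow.comp (Primrec.const 2) Primrec.snd))
        (Primrec.fst.comp (Primrec.snd.comp Primrec.fst)))))

theorem rec_iter {τ : Type} (S : τ → τ) (p : τ) (n : ℕ) :
    S^[n] p = (Nat.rec p (fun _ acc => S acc) n : τ) := by
  induction n with
  | zero => rfl
  | succ n ih => rw [Function.iterate_succ_apply', ih]

theorem sf_sel (hf : Computable f) (hG : PF o (fun i x => g i x))
    (hw : WellFounded (Ch (leaf o f))) : SF o (fun (p : ℕ × ℕ) x => sel o f g p.1 p.2 x) := by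
  have hB := del_big hf hw (sf_hf hf hG hw)
  have hGm : SF o (fun (p : ℕ × List ℕ) x => Gm (leaf o f) (Hf o f g x) p.1 p.2) :=
    (SF.findGreatest (P := fun (q : (ℕ × List ℕ) × ℕ) x =>
        ∀ n', n' ≤ q.2 → Big (leaf o f) (Hf o f g x) q.1.1 (q.1.2 ++ [n']) q.2)
      (Del.all (P := fun (r : ((ℕ × List ℕ) × ℕ) × ℕ) x =>
        r.2 ≤ r.1.2 → Big (leaf o f) (Hf o f g x) r.1.1.1 (r.1.1.2 ++ [r.2]) r.1.2)
      ((Del.const (Primrec.nat_le.comp Primrec.snd (Primrec.snd.comp Primrec.fst))).imp
        (hB.par ((Computable.fst.comp (Computable.fst.comp Computable.fst)).pair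
          ((capp (Computable.snd.comp (Computable.fst.comp Computable.fst)) Computable.snd).pair
            (Computable.snd.comp Computable.fst)))))) Computable.fst).of_eq
      fun p x => by unfold Gm; congr
  have cM : Primrec (fun q : (ℕ × ℕ) × ℕ × List ℕ × ℕ => q.1.1 + 1) :=
    Primrec.succ.comp (Primrec.fst.comp Primrec.fst)
  have cs : Primrec (fun q : (ℕ × ℕ) × ℕ × List ℕ × ℕ => q.2.2.1) :=
    Primrec.fst.comp (Primrec.snd.comp Primrec.snd)
  have cj : Primrec (fun q : (ℕ × ℕ) × ℕ × List ℕ × ℕ => q.2.2.2) :=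
    Primrec.snd.comp (Primrec.snd.comp Primrec.snd)
  have hS : SF o (fun (q : (ℕ × ℕ) × ℕ × List ℕ × ℕ) x =>
      step (leaf o f) (Gm (leaf o f) (Hf o f g x) q.1.1) (q.1.1 + 1) q.2.2) :=
    SF.ite ((del_leaf hf).par cs.to_comp) (SF.const (Computable.snd.comp Computable.snd))
      ((SF.map₂ Primrec.list_concat (SF.const cs.to_comp)
        (sf_pick.app ((SF.const cM.to_comp).pair
          ((hGm.par ((Computable.fst.comp Computable.fst).pair cs.to_comp)).pair
            (SF.const (Primrec.nat_mod.comp cj cM).to_comp))))).pair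
        (SF.const (Primrec.nat_div.comp cj cM).to_comp))
  have hfin : SF o (fun (p : ℕ × ℕ) x => fin o f g p.1 p.2 x) :=
    ((SF.nrec (F := fun (p : ℕ × ℕ) _ => (([] : List ℕ), p.2))
      (SF.const ((Computable.const []).pair Computable.snd)) hS).par
      (Computable.id.pair (Computable.succ.comp Computable.fst))).of_eq
      fun p x => rec_iter _ _ _
  have hl : Primrec (fun p : List ℕ × ℕ => Lst p.1.length) :=
    lst_prim.comp (Primrec.list_length.comp Primrec.fst)
  have hout : Primrec out := (Primrec.list_getD default).comp hl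
    (Primrec.nat_mod.comp Primrec.snd (Primrec.list_length.comp hl))
  exact sf_idx (SF.map hout.to_comp hfin) PF.id

end definability

theorem main (o : B) (g : ℕ → Equiv.Perm B) (hg : Sigma11 o fun i x y => g i x = y)
    (E : B → B → Prop) (hE : Equivalence E) (hEg : ∀ x y, E x y ↔ ∃ i, g i x = y)
    (hm : MeasureHyperfinite E) :
    ∃ N : ℕ → ℕ, Computable N ∧ (∀ k, 0 < N k) ∧ ∃ P : ℕ × ℕ → B → B → Prop, Delta11 o P ∧
      (∀ p, FiniteEquivOn Set.univ (P p)) ∧ (∀ p x y, P p x y → E x y) ∧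
      ∀ x y, E x y → Tendsto (fun k =>
        (((Finset.range (N k)).filter fun j => ¬ P (k, j) x y).card : ℝ) / N k) atTop (𝓝 0) := by
  have hG : PF o (fun i x => g i x) := PF.of_graph hg
  obtain ⟨f, hf, hc⟩ := hg
  have hc : Codes o f g := hc
  have hw : WellFounded (Ch (leaf o f)) := ch_wf (branch (exists_list hc hEg hm))
  have hs := sf_sel hf hG hw
  refine ⟨fun k => (k + 1) ^ (k + 2),
    (ppow.comp Primrec.succ (Primrec.succ.comp Primrec.succ)).to_comp, fun k => by positivity,
    fun p x y => g (sel o f g p.1 p.2 x) x = g (sel o f g p.1 p.2 y) y, ?_, fun p => ?_, ?_, ?_⟩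
  · exact Del.delta11 (Del.eqB (pf_g hG hs.ev PF.ev) (pf_g hG (hs.comp PF.od) PF.od))
  · refine ⟨fun _ _ _ => ⟨trivial, trivial⟩, fun _ _ => rfl, fun _ _ h => h.symm,
      fun _ _ _ h h' => h.trans h', fun x => ?_⟩
    refine ((sel_finite (o := o) (f := f) (g := g) p.1 p.2).image
      fun b => (g b).symm (g (sel o f g p.1 p.2 x) x)).subset fun y hy => ?_
    exact ⟨_, ⟨y, rfl⟩, (Equiv.symm_apply_eq _).2 hy⟩
  · intro p x y h
    exact hE.trans ((hEg _ _).2 ⟨_, h⟩) (hE.symm ((hEg _ _).2 ⟨_, rfl⟩))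
  · intro x y h
    obtain ⟨i, hi⟩ := (hEg _ _).1 h
    obtain ⟨i', hi'⟩ := (hEg _ _).1 (hE.symm h)
    exact density hc hw hi hi'

end Pool.Agent.Lib.MP_5ddd96_lc.H74
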