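import Pool.Agent.Lib.MP_5ddd96_lc.H74Sig

/-!
Minimax on a compact space (the first two proofs are helper43's), its form for lists of clopen
sets, and approximation of a measurable index function by a finite table.
-/

set_option autoImplicit false

namespace Pool.Agent.Lib.MP_5ddd96_lc.H74

open MeasureTheory Filter Topology Classical

namespace MinimaxAux

open scoped CompactlySupported

/-- A positive linear functional on `C(Z, ℝ)` is integration against a finite measure. -/
theorem riesz {Z : Type} [TopologicalSpace Z] [CompactSpace Z] [T2Space Z] [MeasurableSpace Z]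
    [BorelSpace Z] (f : C(Z, ℝ) →ₗ[ℝ] ℝ) (hf : ∀ ψ : C(Z, ℝ), (∀ z, 0 ≤ ψ z) → 0 ≤ f ψ) :
    ∃ μ : Measure Z, IsFiniteMeasure μ ∧ ∀ φ : C(Z, ℝ), ∫ z, φ z ∂μ = f φ := by
  let L : C_c(Z, ℝ) →ₗ[ℝ] ℝ :=
    { toFun := fun g => f g.toContinuousMap
      map_add' := fun g g' => by
        rw [← map_add]
        rfl
      map_smul' := fun c g => by
        rw [RingHom.id_apply, ← map_smul]
        rfl }
  let Λ : C_c(Z, ℝ) →ₚ[ℝ] ℝ := PositiveLinearMap.mk₀ L (fun g hg => hf _ (fun z => hg z))
  refine ⟨RealRMK.rieszMeasure Λ, inferInstance, fun φ => ?_⟩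
  let g : C_c(Z, ℝ) := ⟨φ, HasCompactSupport.of_compactSpace _⟩
  exact RealRMK.integral_rieszMeasure Λ g

end MinimaxAux

theorem minimax {Z : Type} [TopologicalSpace Z] [CompactSpace Z] [T2Space Z] [MeasurableSpace Z]
    [BorelSpace Z] (C : Set C(Z, ℝ)) (hC : Convex ℝ C) (hne : C.Nonempty) (η : ℝ) (hη : 0 < η)
    (h : ∀ ν : Measure Z, IsProbabilityMeasure ν → ∃ φ ∈ C, ∫ z, φ z ∂ν < η) :
    ∃ φ ∈ C, ∀ z, φ z < η := by
  by_contra hcon
  let U : Set C(Z, ℝ) := {φ | ∀ z, φ z < η}
  have hUc : Convex ℝ U := by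
    intro a ha b hb s t hs ht hst z
    have h1 : a z < η := ha z
    have h2 : b z < η := hb z
    simp only [ContinuousMap.add_apply, ContinuousMap.smul_apply, smul_eq_mul]
    rcases hs.eq_or_lt with rfl | hs'
    · have : t = 1 := by linarith
      subst this
      linarith
    · have h3 : s * a z < s * η := mul_lt_mul_of_pos_left h1 hs'
      have h4 : t * b z ≤ t * η := mul_le_mul_of_nonneg_left h2.le ht
      have h5 : s * η + t * η = η := by rw [← add_mul, hst, one_mul]
      linarith
  have hUo : IsOpen U := by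
    have := ContinuousMap.isOpen_setOfPred_mapsTo (X := Z) (Y := ℝ) isCompact_univ
      (isOpen_Iio (a := η))
    convert this using 1
    ext φ
    simp [U, Set.MapsTo]
  have hdis : Disjoint U C := by
    rw [Set.disjoint_left]
    intro φ hφ hφC
    exact hcon ⟨φ, hφC, hφ⟩
  obtain ⟨f, u, hfU, hfC⟩ := geometric_hahn_banach_open hUc hUo hC hdis
  have hu : 0 < u := by
    have := hfU 0 (fun z => by simpa using hη)
    simpa using this
  have hpos : ∀ ψ : C(Z, ℝ), (∀ z, 0 ≤ ψ z) → 0 ≤ f ψ := by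
    intro ψ hψ
    by_contra hneg
    have hneg' : f ψ < 0 := lt_of_not_ge hneg
    have ht : 0 ≤ u / (-f ψ) := div_nonneg hu.le (by linarith)
    have hmem : (-(u / (-f ψ))) • ψ ∈ U := by
      intro z
      simp only [ContinuousMap.smul_apply, smul_eq_mul]
      have := mul_nonneg ht (hψ z)
      linarith
    have h1 := hfU _ hmem
    rw [map_smul, smul_eq_mul] at h1
    have h2 : -(u / -f ψ) * f ψ = u := by
      have : f ψ ≠ 0 := hneg'.ne
      field_simp
    linarith
  obtain ⟨μ, hμ, hint⟩ := MinimaxAux.riesz (f : C(Z, ℝ) →ₗ[ℝ] ℝ) hpos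
  have hint' : ∀ φ : C(Z, ℝ), ∫ z, φ z ∂μ = f φ := hint
  have hone : f 1 = μ.real Set.univ := by
    rw [← hint' 1]
    simp
  have hμ0 : μ ≠ 0 := by
    rintro rfl
    obtain ⟨b, hb⟩ := hne
    have h1 := hfC b hb
    rw [← hint' b] at h1
    simp at h1
    linarith
  have : NeZero μ := ⟨hμ0⟩
  have hm : 0 < μ.real Set.univ := measureReal_univ_pos
  have hle : η * μ.real Set.univ ≤ u := by
    by_contra hlt
    have hlt' : u < η * μ.real Set.univ := lt_of_not_ge hlt
    have hmem : (u / μ.real Set.univ) • (1 : C(Z, ℝ)) ∈ U := by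
      intro z
      simp only [ContinuousMap.smul_apply, ContinuousMap.one_apply, smul_eq_mul, mul_one]
      rwa [div_lt_iff₀ hm]
    have h1 := hfU _ hmem
    rw [map_smul, smul_eq_mul, hone, div_mul_cancel₀ _ hm.ne'] at h1
    exact lt_irrefl _ h1
  obtain ⟨φ, hφ, hlt⟩ := h ((μ Set.univ)⁻¹ • μ) inferInstance
  rw [integral_smul_measure, hint' φ, smul_eq_mul, ENNReal.toReal_inv] at hlt
  have h2 := hfC φ hφ
  have h3 : (μ Set.univ).toReal = μ.real Set.univ := rfl
  rw [h3, inv_mul_lt_iff₀ hm] at hlt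
  linarith [mul_comm η (μ.real Set.univ)]

/-- number of positions of a list at which a predicate holds. -/
noncomputable def cnt {τ : Type} [Inhabited τ] (L : List τ) (p : τ → Prop) : ℕ :=
  ((Finset.range L.length).filter (fun i => p (L.getD i default))).card

theorem cnt_eq {τ : Type} [Inhabited τ] (L : List τ) (p : τ → Prop) :
    cnt L p = L.countP (fun t => decide (p t)) := by
  unfold cnt
  rw [Finset.card_filter]
  induction L with
  | nil => simp
  | cons a L ih =>
    rw [List.length_cons, Finset.sum_range_succ', List.countP_cons, ← ih]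
    simp

theorem minimax_list {Z : Type} [TopologicalSpace Z] [CompactSpace Z] [T2Space Z]
    [MeasurableSpace Z] [BorelSpace Z] {τ : Type} [Inhabited τ] (bad : τ → Z → Prop)
    (hb : ∀ t, IsClopen {z | bad t z}) (r : ℕ)
    (h : ∀ ν : Measure Z, IsProbabilityMeasure ν → ∀ ε : ℝ, 0 < ε →
      ∃ t, ν.real {z | bad t z} < ε) :
    ∃ L : List τ, L ≠ [] ∧ ∀ z, (r + 1) * cnt L (fun t => bad t z) ≤ L.length := by
  let ind : τ → C(Z, ℝ) := fun t => ⟨Set.indicator {z | bad t z} (fun _ => (1 : ℝ)),
    (hb t).continuous_indicator continuous_const⟩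
  have hη : (0 : ℝ) < 1 / (2 * (r + 1)) := by positivity
  obtain ⟨φ, hφ, hlt⟩ := minimax (convexHull ℝ (Set.range ind)) (convex_convexHull _ _)
    ⟨ind default, subset_convexHull _ _ ⟨default, rfl⟩⟩ _ hη (fun ν hν => by
      obtain ⟨t, ht⟩ := h ν hν _ hη
      refine ⟨ind t, subset_convexHull _ _ ⟨t, rfl⟩, ?_⟩
      have : ∫ z, ind t z ∂ν = ν.real {z | bad t z} := by
        change ∫ z, Set.indicator {z | bad t z} (fun _ => (1 : ℝ)) z ∂ν = _
        rw [integral_indicator (hb t).isOpen.measurableSet]; simp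
      rwa [this])
  obtain ⟨ι, _, w, v, hw0, hw1, hv, hsum⟩ := mem_convexHull_iff_exists_fintype.1 hφ
  choose t ht using hv
  set c : ℕ := Fintype.card ι with hc
  set n : ℕ := 2 * (r + 1) * (c + 1) with hn
  let L : List τ := (Finset.univ : Finset ι).toList.flatMap
    (fun i => List.replicate ⌈(n : ℝ) * w i⌉₊ (t i))
  have hcount : ∀ p : τ → Bool, (L.countP p : ℝ) =
      ∑ i, if p (t i) = true then (⌈(n : ℝ) * w i⌉₊ : ℝ) else 0 := by
    intro p
    simp only [L, List.countP_flatMap]
    rw [Finset.sum_map_toList]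
    push_cast
    refine Finset.sum_congr rfl fun i _ => ?_
    simp only [Function.comp, List.countP_replicate]
    split_ifs <;> simp
  have hlen : (n : ℝ) ≤ L.length := by
    have := hcount (fun _ => true)
    simp only [List.countP_true, if_true] at this
    rw [this]
    calc (n : ℝ) = ∑ i, n * w i := by rw [← Finset.mul_sum, hw1, mul_one]
      _ ≤ _ := Finset.sum_le_sum fun i _ => Nat.le_ceil _
  have hnpos : (0 : ℝ) < n := by rw [hn]; positivity
  refine ⟨L, fun h0 => ?_, fun z => ?_⟩
  · rw [h0] at hlen; simp only [List.length_nil, Nat.cast_zero] at hlen; linarith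
  · have h1 : φ z = ∑ i, w i * (if bad (t i) z then 1 else 0) := by
      rw [← hsum, ContinuousMap.sum_apply]
      refine Finset.sum_congr rfl fun i _ => ?_
      rw [← ht i]
      simp [ind, Set.indicator]
    have h2 : (cnt L (fun t => bad t z) : ℝ) ≤ n * φ z + c := by
      rw [cnt_eq, hcount, h1, Finset.mul_sum]
      have : (c : ℝ) = ∑ _i : ι, (1 : ℝ) := by simp [hc]
      rw [this, ← Finset.sum_add_distrib]
      refine Finset.sum_le_sum fun i _ => ?_
      by_cases hb : bad (t i) z
      · simp only [hb, decide_true, if_true, mul_one]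
        exact (Nat.ceil_lt_add_one (mul_nonneg hnpos.le (hw0 i))).le
      · simp [hb]
    have h3 : (n : ℝ) * φ z ≤ c + 1 := by
      have := mul_le_mul_of_nonneg_left (hlt z).le hnpos.le
      refine this.trans (le_of_eq ?_)
      rw [hn]; push_cast; field_simp
    have h4 : ((r : ℝ) + 1) * cnt L (fun t => bad t z) ≤ n := by
      have : (cnt L (fun t => bad t z) : ℝ) ≤ 2 * (c + 1) := by linarith
      calc ((r : ℝ) + 1) * cnt L (fun t => bad t z) ≤ (r + 1) * (2 * (c + 1)) :=
            mul_le_mul_of_nonneg_left this (by positivity)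
        _ = n := by rw [hn]; push_cast; ring
    exact_mod_cast h4.trans hlen

/-- a finite table of words with values, and the length of the words. -/
abbrev Rule := ℕ × List (List ℕ × ℕ)

/-- the value of a table at a point. -/
def idx (t : Rule) (x : B) : ℕ := (List.lookup (pre x t.1) t.2).getD 0

theorem lc_pre (n : ℕ) : IsLocallyConstant (fun x : B => pre x n) := by
  have h : IsLocallyConstant (fun x : B => fun i : Fin n => x i) :=
    (IsLocallyConstant.iff_continuous _).2 (by fun_prop)
  exact h.comp List.ofFn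

theorem lookup_map (w : List ℕ → ℕ) (T : List (List ℕ)) {p : List ℕ} (hp : p ∈ T) :
    List.lookup p (T.map fun q => (q, w q)) = some (w p) := by
  induction T with
  | nil => simp at hp
  | cons q T ih =>
    by_cases h : p = q
    · subst h; simp
    · have : (p == q) = false := by simpa using h
      simp only [List.map_cons, List.lookup_cons, this]
      exact ih ((List.mem_cons.1 hp).resolve_left h)

theorem exists_rule (ν : Measure B) [IsFiniteMeasure ν] (a : B → ℕ)
    (ha : ∀ s, MeasurableSet {x | a x = s}) (ε : ℝ) (hε : 0 < ε) :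
    ∃ t : Rule, ν.real {x | idx t x ≠ a x} < ε := by
  have hε' : ENNReal.ofReal ε ≠ 0 := by simpa using hε
  obtain ⟨e, he0, he⟩ := ENNReal.exists_pos_sum_of_countable hε' ℕ
  have h1 : ∀ s, ∃ C ⊆ {z | a z = s}, IsCompact C ∧ ν ({z | a z = s} \ C) < e s := fun s =>
    (ha s).exists_isCompact_sdiff_lt (measure_ne_top _ _) (by exact_mod_cast (he0 s).ne')
  choose C hC hcp hm using h1
  have h2 : ν (⋂ I : Finset ℕ, (⋃ s ∈ I, C s)ᶜ) < ENNReal.ofReal ε := by
    refine lt_of_le_of_lt ?_ he
    refine le_trans (measure_mono (t := ⋃ s, {z | a z = s} \ C s) ?_)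
      ((measure_iUnion_le _).trans (ENNReal.tsum_le_tsum fun s => (hm s).le))
    intro z hz
    refine Set.mem_iUnion.2 ⟨a z, rfl, fun h => ?_⟩
    exact Set.mem_iInter.1 hz {a z} (Set.mem_biUnion (Finset.mem_singleton_self _) h)
  have h3 := tendsto_measure_iInter_atTop (μ := ν) (s := fun I : Finset ℕ => (⋃ s ∈ I, C s)ᶜ)
    (fun I => (Finset.measurableSet_biUnion I fun s _ =>
      (hcp s).isClosed.measurableSet).compl.nullMeasurableSet)
    (fun I J hIJ => Set.compl_subset_compl.2 (Set.biUnion_subset_biUnion_left hIJ))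
    ⟨∅, measure_ne_top _ _⟩
  obtain ⟨I, hI⟩ := (h3.eventually (gt_mem_nhds h2)).exists
  set K : Set B := ⋃ s ∈ I, C s with hK
  have hKc : IsCompact K := I.isCompact_biUnion fun s _ => hcp s
  have hloc : ∀ x ∈ K, ∃ n, ∀ y ∈ K, pre y n = pre x n → a y = a x := by
    intro x hx
    have h : ∀ j ∈ I, ∀ᶠ y in 𝓝 x, y ∈ C j → a y = a x := fun j _ => by
      by_cases hx : x ∈ C j
      · exact Eventually.of_forall fun y hy => (hC j hy).trans (hC j hx).symm
      · filter_upwards [(hcp j).isClosed.isOpen_compl.mem_nhds hx] with y hy hy'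
        exact absurd hy' hy
    have h' := (Filter.eventually_all_finset I).2 h
    rw [nhds_pi, Filter.Eventually, Filter.mem_pi] at h'
    obtain ⟨J, hJ, U, hU, hsub⟩ := h'
    obtain ⟨n, hn⟩ := hJ.bddAbove
    refine ⟨n + 1, fun y hy hp => ?_⟩
    obtain ⟨j, hj, hy'⟩ := Set.mem_iUnion₂.1 hy
    refine hsub (fun i hi => ?_) j hj hy'
    have hi' : i < n + 1 := Nat.lt_succ_of_le (hn hi)
    have : y i = x i := by rw [← pre_getD y hi', hp, pre_getD x hi']
    rw [this]; exact mem_of_mem_nhds (hU i)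
  choose! nn hnn using hloc
  obtain ⟨S, hS, hcov⟩ := hKc.elim_nhds_subcover (fun x => {y | pre y (nn x) = pre x (nn x)})
    (fun x _ => ((lc_pre (nn x)).isOpen_fiber _).mem_nhds rfl)
  set n := S.sup nn with hn
  have huni : ∀ x ∈ K, ∀ y ∈ K, pre y n = pre x n → a y = a x := by
    intro x hx y hy hp
    obtain ⟨u, hu, hxu⟩ := Set.mem_iUnion₂.1 (hcov hx)
    have hle : nn u ≤ n := Finset.le_sup hu
    have hxu' : pre x (nn u) = pre u (nn u) := hxu
    have hyu : pre y (nn u) = pre u (nn u) := by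
      rw [← pre_take y hle, hp, pre_take x hle, hxu']
    rw [hnn u (hS u hu) y hy hyu, hnn u (hS u hu) x hx hxu']
  have hfin : ((fun x => pre x n) '' K).Finite := by
    have h1 : ((fun (x : B) (i : Fin n) => x i) '' K).Finite :=
      (hKc.image (by fun_prop)).finite_of_discrete
    exact (h1.image List.ofFn).subset (by rintro _ ⟨x, hx, rfl⟩; exact ⟨_, ⟨x, hx, rfl⟩, rfl⟩)
  let w : List ℕ → ℕ := fun p => if h : ∃ x ∈ K, pre x n = p then a h.choose else 0
  refine ⟨(n, hfin.toFinset.toList.map fun q => (q, w q)), ?_⟩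
  refine lt_of_le_of_lt (measureReal_mono (s₂ := Kᶜ) ?_) (ENNReal.toReal_lt_of_lt_ofReal hI)
  intro x hx hxK
  apply hx
  have hex : ∃ y ∈ K, pre y n = pre x n := ⟨x, hxK, rfl⟩
  simp only [idx]
  rw [lookup_map w _ (by simpa using hex), Option.getD_some]
  simp only [w, dif_pos hex]
  exact huni x hxK _ hex.choose_spec.1 hex.choose_spec.2

end Pool.Agent.Lib.MP_5ddd96_lc.H74
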