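import Pool.Agent.Lib.MP_5ddd96_lc.H74Defs

set_option autoImplicit false

namespace Pool.Agent.Lib.MP_5ddd96_lc.H74

open Classical

theorem pre_eq (x : B) (n : ℕ) : pre x n = (List.range n).map x := by
  apply List.ext_getElem <;> simp [pre]

@[simp] theorem pre_length (x : B) (n : ℕ) : (pre x n).length = n := by simp [pre]

theorem pre_getD (x : B) {n i : ℕ} (h : i < n) : (pre x n).getD i 0 = x i := by
  rw [List.getD_eq_getElem _ _ (by simpa using h)]; simp [pre]

theorem pre_take (x : B) {n m : ℕ} (h : m ≤ n) : (pre x n).take m = pre x m := by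
  apply List.ext_getElem
  · simp [h]
  · intro i h1 h2; simp [pre]

theorem pre_succ (x : B) (n : ℕ) : pre x (n + 1) = pre x n ++ [x n] := by
  simp [pre_eq, List.range_succ]

theorem pre_congr {x y : B} {n : ℕ} (h : ∀ i < n, x i = y i) : pre x n = pre y n := by
  apply List.ext_getElem
  · simp
  · intro i h1 h2
    simp only [pre, List.getElem_ofFn]
    exact h i (by simpa using h1)

variable {α β γ : Type} [Primcodable α] [Primcodable β] [Primcodable γ]

/-- closed predicates, uniformly effective in the oracle. -/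
def PiP (o : B) (Q : α → B → Prop) : Prop :=
  ∃ (h : (α × ℕ) × List ℕ × List ℕ → Bool) (μ : α × ℕ → ℕ), Computable h ∧ Computable μ ∧
    ∀ a w, Q a w ↔ ∀ m, h ((a, m), pre o (μ (a, m)), pre w (μ (a, m))) = true

variable {o : B}

theorem PiP.of_iff {Q Q' : α → B → Prop} (h : PiP o Q) (e : ∀ a w, Q' a w ↔ Q a w) : PiP o Q' := by
  obtain ⟨f, μ, h1, h2, h3⟩ := h
  exact ⟨f, μ, h1, h2, fun a w => (e a w).trans (h3 a w)⟩

/-- a bound for finitely many values. -/
def bd (π : ℕ → ℕ) (k : ℕ) : ℕ := Nat.rec 0 (fun i acc => acc + π i + 1) k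

theorem lt_bd (π : ℕ → ℕ) {i k : ℕ} (h : i < k) : π i < bd π k := by
  induction k with
  | zero => omega
  | succ k ih =>
    have e : bd π (k + 1) = bd π k + π k + 1 := rfl
    rcases Nat.lt_succ_iff_lt_or_eq.1 h with h | h
    · have := ih h; omega
    · subst h; omega

theorem bd_prim {π : γ → ℕ → ℕ} (hπ : Primrec₂ π) : Primrec₂ (fun c k => bd (π c) k) := by
  have := Primrec.nat_rec (f := fun _ : γ => 0)
    (g := fun (c : γ) (p : ℕ × ℕ) => p.2 + π c p.1 + 1) (Primrec.const 0)
    (Primrec.succ.comp (Primrec.nat_add.comp (Primrec.snd.comp Primrec.snd)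
      (hπ.comp Primrec.fst (Primrec.fst.comp Primrec.snd))))
  exact this

/-- reindexing of a finite word. -/
def re (π : ℕ → ℕ) (l : List ℕ) (k : ℕ) : List ℕ := (List.range k).map (fun i => l.getD (π i) 0)

theorem re_pre (π : ℕ → ℕ) (w : B) {k n : ℕ} (h : bd π k ≤ n) :
    re π (pre w n) k = pre (fun i => w (π i)) k := by
  rw [pre_eq (fun i => w (π i)), re]
  apply List.map_congr_left
  intro i hi
  exact pre_getD w ((lt_bd π (List.mem_range.1 hi)).trans_le h)

theorem re_prim {π : γ → ℕ → ℕ} (hπ : Primrec₂ π) :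
    Primrec (fun p : γ × List ℕ × ℕ => re (π p.1) p.2.1 p.2.2) := by
  unfold re
  refine Primrec.list_map (Primrec.list_range.comp (Primrec.snd.comp Primrec.snd)) ?_
  exact (Primrec.list_getD 0).comp (Primrec.fst.comp (Primrec.snd.comp Primrec.fst))
    (hπ.comp (Primrec.fst.comp Primrec.fst) Primrec.snd)

theorem ctake {f : α → ℕ} {l : α → List ℕ} (hf : Computable f) (hl : Computable l) :
    Computable (fun a => (l a).take (f a)) := Primrec.list_take.to_comp.comp hf hl

theorem cmax {f l : α → ℕ} (hf : Computable f) (hl : Computable l) :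
    Computable (fun a => max (f a) (l a)) := Primrec.nat_max.to_comp.comp hf hl

theorem cgetD {f : α → ℕ} {l : α → List ℕ} (hl : Computable l) (hf : Computable f) :
    Computable (fun a => (l a).getD (f a) 0) := (Primrec.list_getD 0).to_comp.comp hl hf

theorem ceq {f l : α → ℕ} (hf : Computable f) (hl : Computable l) :
    Computable (fun a => decide (f a = l a)) :=
  (Primrec.eq.decide.to_comp : Computable₂ (fun a b : ℕ => decide (a = b))).comp hf hl

theorem PiP.sub {Q : α → B → Prop} (hQ : PiP o Q) {b : γ → α} (hb : Computable b)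
    {π : γ → ℕ → ℕ} (hπ : Primrec₂ π) : PiP o (fun c w => Q (b c) (fun i => w (π c i))) := by
  obtain ⟨h, μ, h1, h2, h3⟩ := hQ
  have hbm : Computable (fun p : γ × ℕ => (b p.1, p.2)) :=
    (hb.comp Computable.fst).pair Computable.snd
  have hμ : Computable (fun p : γ × ℕ => μ (b p.1, p.2)) := h2.comp hbm
  refine ⟨fun p => h ((b p.1.1, p.1.2), p.2.1.take (μ (b p.1.1, p.1.2)),
      re (π p.1.1) p.2.2 (μ (b p.1.1, p.1.2))),
    fun p => max (μ (b p.1, p.2)) (bd (π p.1) (μ (b p.1, p.2))), ?_, ?_, ?_⟩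
  · refine h1.comp ((hbm.comp Computable.fst).pair (Computable.pair ?_ ?_))
    · exact ctake (hμ.comp Computable.fst) (Computable.fst.comp Computable.snd)
    · exact (re_prim hπ).to_comp.comp ((Computable.fst.comp Computable.fst).pair
        ((Computable.snd.comp Computable.snd).pair (hμ.comp Computable.fst)))
  · exact cmax hμ ((bd_prim hπ).to_comp.comp Computable.fst hμ)
  · intro c w
    beta_reduce
    rw [h3]
    refine forall_congr' fun m => ?_
    simp only []
    rw [pre_take o (le_max_left _ _), re_pre _ _ (le_max_right _ _)]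

theorem PiP.par {Q : α → B → Prop} (hQ : PiP o Q) {b : γ → α} (hb : Computable b) :
    PiP o (fun c w => Q (b c) w) :=
  hQ.sub hb (π := fun _ i => i) Primrec.snd.to₂

theorem PiP.all {Q : α × ℕ → B → Prop} (hQ : PiP o Q) : PiP o (fun a w => ∀ n, Q (a, n) w) := by
  obtain ⟨h, μ, h1, h2, h3⟩ := hQ
  have hk : Computable (fun p : α × ℕ => ((p.1, p.2.unpair.1), p.2.unpair.2)) :=
    (Computable.fst.pair (Computable.fst.comp (Computable.unpair.comp Computable.snd))).pair
      (Computable.snd.comp (Computable.unpair.comp Computable.snd))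
  refine ⟨fun p => h (((p.1.1, p.1.2.unpair.1), p.1.2.unpair.2), p.2),
    fun p => μ ((p.1, p.2.unpair.1), p.2.unpair.2), ?_, h2.comp hk, ?_⟩
  · exact h1.comp ((hk.comp Computable.fst).pair Computable.snd)
  · intro a w
    constructor
    · intro H m; exact (h3 _ _).1 (H _) _
    · intro H n; rw [h3]; intro m; simpa using H (Nat.pair n m)

theorem PiP.cond {Q Q' : α → B → Prop} (hQ : PiP o Q) (hQ' : PiP o Q') {c : α → Bool}
    (hc : Computable c) : PiP o (fun a w => if c a = true then Q a w else Q' a w) := by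
  obtain ⟨h, μ, h1, h2, h3⟩ := hQ
  obtain ⟨h', μ', h1', h2', h3'⟩ := hQ'
  refine ⟨fun p => bif c p.1.1 then h p else h' p, fun p => bif c p.1 then μ p else μ' p,
    Computable.cond (hc.comp (Computable.fst.comp Computable.fst)) h1 h1',
    Computable.cond (hc.comp Computable.fst) h2 h2', ?_⟩
  intro a w
  cases hca : c a <;> simp [hca, h3, h3']

theorem PiP.atom {c : α × List ℕ × List ℕ → Bool} {μ : α → ℕ} (hc : Computable c)
    (hμ : Computable μ) : PiP o (fun a w => c (a, pre o (μ a), pre w (μ a)) = true) :=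
  ⟨fun p => c (p.1.1, p.2), fun p => μ p.1,
    hc.comp ((Computable.fst.comp Computable.fst).pair Computable.snd), hμ.comp Computable.fst,
    fun _ _ => ⟨fun h _ => h, fun h => h 0⟩⟩

theorem PiP.guard {Q : α → B → Prop} (hQ : PiP o Q) {π v : α → ℕ} (hπ : Computable π)
    (hv : Computable v) : PiP o (fun a w => w (π a) = v a → Q a w) := by
  obtain ⟨h, μ, h1, h2, h3⟩ := hQ
  have hπ' : Computable (fun p : (α × ℕ) × List ℕ × List ℕ => π p.1.1) :=
    hπ.comp (Computable.fst.comp Computable.fst)
  refine ⟨fun p => bif decide (p.2.2.getD (π p.1.1) 0 = v p.1.1) then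
      h (p.1, p.2.1.take (μ p.1), p.2.2.take (μ p.1)) else true,
    fun p => max (μ p) (π p.1 + 1), ?_, ?_, ?_⟩
  · refine Computable.cond (ceq (cgetD (Computable.snd.comp Computable.snd) hπ')
      (hv.comp (Computable.fst.comp Computable.fst))) ?_ (Computable.const true)
    exact h1.comp (Computable.fst.pair
      ((ctake (h2.comp Computable.fst) (Computable.fst.comp Computable.snd)).pair
        (ctake (h2.comp Computable.fst) (Computable.snd.comp Computable.snd))))
  · exact cmax h2 (Computable.succ.comp (hπ.comp Computable.fst))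
  · intro a w
    beta_reduce
    rw [h3]
    have e : ∀ m, (pre w (max (μ (a, m)) (π a + 1))).getD (π a) 0 = w (π a) := fun m =>
      pre_getD w (by omega)
    simp only [e, pre_take _ (le_max_left _ _)]
    by_cases hw : w (π a) = v a <;> simp [hw]

/-- interleaving of two points. -/
def mg (x z : B) : B := fun n => if n % 2 = 0 then x (n / 2) else z (n / 2)
/-- even part. -/
def ev (w : B) : B := fun n => w (2 * n)
/-- odd part. -/
def od (w : B) : B := fun n => w (2 * n + 1)

@[simp] theorem ev_mg (x z : B) : ev (mg x z) = x := by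
  funext n; simp [ev, mg]

@[simp] theorem od_mg (x z : B) : od (mg x z) = z := by
  funext n
  have : (2 * n + 1) % 2 ≠ 0 := by omega
  have h2 : (2 * n + 1) / 2 = n := by omega
  simp [od, mg, h2]

/-- projections of effectively closed predicates. -/
def Sig (o : B) (P : α → B → Prop) : Prop :=
  ∃ Q : α → B → Prop, PiP o Q ∧ ∀ a x, P a x ↔ ∃ z, Q a (mg x z)

theorem Sig.of_iff {P P' : α → B → Prop} (h : Sig o P) (e : ∀ a w, P' a w ↔ P a w) : Sig o P' := by
  obtain ⟨Q, h1, h2⟩ := h
  exact ⟨Q, h1, fun a w => (e a w).trans (h2 a w)⟩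

theorem pmul2 : Primrec (fun n : ℕ => 2 * n) := Primrec.nat_mul.comp (Primrec.const 2) Primrec.id
theorem pdiv2 : Primrec (fun n : ℕ => n / 2) := Primrec.nat_div.comp Primrec.id (Primrec.const 2)
theorem peven : PrimrecPred (fun n : ℕ => n % 2 = 0) :=
  Primrec.eq.comp (Primrec.nat_mod.comp Primrec.id (Primrec.const 2)) (Primrec.const 0)

theorem PiP.sig {P : α → B → Prop} (h : PiP o P) : Sig o P := by
  refine ⟨fun a w => P a (fun i => w (2 * i)),
    h.sub Computable.id (π := fun _ i => 2 * i) (pmul2.comp Primrec.snd).to₂, fun a x => ?_⟩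
  have e : ∀ z, (fun i => mg x z (2 * i)) = x := fun z => ev_mg x z
  simp only [e]
  exact ⟨fun h => ⟨x, h⟩, fun ⟨_, h⟩ => h⟩

theorem Sig.sub {P : α → B → Prop} (hP : Sig o P) {b : γ → α} (hb : Computable b)
    {π : γ → ℕ → ℕ} (hπ : Primrec₂ π) : Sig o (fun c w => P (b c) (fun i => w (π c i))) := by
  obtain ⟨Q, h1, h2⟩ := hP
  refine ⟨fun c w => Q (b c) (fun i => w (if i % 2 = 0 then 2 * π c (i / 2) else i)),
    h1.sub hb (π := fun c i => if i % 2 = 0 then 2 * π c (i / 2) else i) ?_, fun c x => ?_⟩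
  · exact Primrec.ite (peven.comp Primrec.snd)
      (pmul2.comp (hπ.comp Primrec.fst (pdiv2.comp Primrec.snd))) Primrec.snd
  · beta_reduce
    rw [h2]
    refine exists_congr fun z => iff_of_eq (congrArg _ ?_)
    funext i
    by_cases hi : i % 2 = 0 <;> simp [mg, hi]

theorem Sig.par {P : α → B → Prop} (hP : Sig o P) {b : γ → α} (hb : Computable b) :
    Sig o (fun c w => P (b c) w) :=
  hP.sub hb (π := fun _ i => i) Primrec.snd.to₂

theorem Sig.cond {P P' : α → B → Prop} (hP : Sig o P) (hP' : Sig o P') {c : α → Bool}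
    (hc : Computable c) : Sig o (fun a w => if c a = true then P a w else P' a w) := by
  obtain ⟨Q, h1, h2⟩ := hP
  obtain ⟨Q', h1', h2'⟩ := hP'
  refine ⟨_, h1.cond h1' hc, fun a x => ?_⟩
  cases hca : c a <;> simp [hca, h2, h2']

theorem Sig.alln {P : α × ℕ → B → Prop} (hP : Sig o P) :
    Sig o (fun a w => ∀ n, P (a, n) w) := by
  obtain ⟨Q, h1, h2⟩ := hP
  have hs := (h1.sub Computable.id
    (π := fun (c : α × ℕ) i => if i % 2 = 0 then i else 2 * Nat.pair c.2 (i / 2) + 1)
    (Primrec.ite (peven.comp Primrec.snd) Primrec.snd (Primrec.succ.comp (pmul2.comp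
      (Primrec₂.natPair.comp (Primrec.snd.comp Primrec.fst) (pdiv2.comp Primrec.snd)))))).all
  refine ⟨_, hs, fun a x => ?_⟩
  have e : ∀ (z : B) (n : ℕ),
      (fun i => mg x z (if i % 2 = 0 then i else 2 * Nat.pair n (i / 2) + 1)) =
        mg x (fun i => z (Nat.pair n i)) := by
    intro z n; funext i
    by_cases hi : i % 2 = 0
    · simp [mg, hi]
    · have h2 : (2 * Nat.pair n (i / 2) + 1) / 2 = Nat.pair n (i / 2) := by omega
      simp [mg, hi, h2]
  simp only [id, e, h2]
  constructor
  · intro H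
    choose z hz using H
    exact ⟨fun i => z i.unpair.1 i.unpair.2, fun n => by simpa using hz n⟩
  · rintro ⟨z, hz⟩ n; exact ⟨_, hz n⟩

theorem Sig.exn {P : α × ℕ → B → Prop} (hP : Sig o P) :
    Sig o (fun a w => ∃ n, P (a, n) w) := by
  obtain ⟨Q, h1, h2⟩ := hP
  have hs := ((h1.sub Computable.id
    (π := fun (_ : α × ℕ) i => if i % 2 = 0 then i else i + 2)
    (Primrec.ite (peven.comp Primrec.snd) Primrec.snd
      (Primrec.succ.comp (Primrec.succ.comp Primrec.snd)))).guard
      (π := fun _ => 1) (v := fun c => c.2) (Computable.const 1) Computable.snd).all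
  refine ⟨_, hs, fun a x => ?_⟩
  have e : ∀ (z : B), (fun i => mg x z (if i % 2 = 0 then i else i + 2)) =
        mg x (fun i => z (i + 1)) := by
    intro z; funext i
    by_cases hi : i % 2 = 0
    · simp [mg, hi]
    · have h2 : (i + 2) / 2 = i / 2 + 1 := by omega
      simp [mg, hi, h2]
  have e1 : ∀ z : B, mg x z 1 = z 0 := fun z => by simp [mg]
  simp only [id, e, e1, h2]
  constructor
  · rintro ⟨n, z, hz⟩
    refine ⟨fun i => Nat.casesOn i n z, fun v hv => ?_⟩
    have : n = v := hv
    subst this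
    exact hz
  · rintro ⟨z, hz⟩; exact ⟨_, _, hz _ rfl⟩

theorem Sig.exB {R : α → B → B → Prop} (hP : Sig o (fun a w => R a (ev w) (od w))) :
    Sig o (fun a x => ∃ u, R a x u) := by
  obtain ⟨Q, h1, h2⟩ := hP
  have hs := h1.sub Computable.id
    (π := fun (_ : α) i => if i % 2 = 0 then (if (i / 2) % 2 = 0 then i / 2 else i - 1)
      else 2 * i + 1)
    (Primrec.ite (peven.comp Primrec.snd)
      (Primrec.ite (peven.comp (pdiv2.comp Primrec.snd)) (pdiv2.comp Primrec.snd)
        (Primrec.pred.comp Primrec.snd)) (Primrec.succ.comp (pmul2.comp Primrec.snd)))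
  refine ⟨_, hs, fun a x => ?_⟩
  have e : ∀ (u z : B), (fun i => mg x (mg u z) (if i % 2 = 0 then
      (if (i / 2) % 2 = 0 then i / 2 else i - 1) else 2 * i + 1)) = mg (mg x u) z := by
    intro u z; funext i
    by_cases hi : i % 2 = 0
    · by_cases hj : (i / 2) % 2 = 0
      · simp [mg, hi, hj]
      · have a1 : ¬ (i - 1) % 2 = 0 := by omega
        have a2 : ((i - 1) / 2) % 2 = 0 := by omega
        have a3 : (i - 1) / 2 / 2 = i / 2 / 2 := by omega
        simp [mg, hi, hj, a1, a2, a3]
    · have a1 : ¬ (2 * i + 1) % 2 = 0 := by omega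
      have a2 : (2 * i + 1) / 2 = i := by omega
      simp [mg, hi, a2]
  have e2 : ∀ z : B, z = mg (ev z) (od z) := by
    intro z; funext i
    by_cases hi : i % 2 = 0
    · have : 2 * (i / 2) = i := by omega
      simp [mg, ev, hi, this]
    · have : 2 * (i / 2) + 1 = i := by omega
      simp [mg, od, hi, this]
  constructor
  · rintro ⟨u, hu⟩
    obtain ⟨z, hz⟩ := (h2 a (mg x u)).1 (by simpa using hu)
    exact ⟨mg u z, by simpa only [id, e] using hz⟩
  · rintro ⟨z, hz⟩
    rw [e2 z] at hz
    simp only [id, e] at hz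
    exact ⟨ev z, by simpa using (h2 a (mg x (ev z))).2 ⟨_, hz⟩⟩

theorem cdec [Inhabited β] :
    Computable (fun p : α × ℕ => (p.1, ((Encodable.decode p.2 : Option β).getD default))) :=
  Computable.fst.pair (Computable.option_getD (Computable.decode.comp Computable.snd)
    (Computable.const _))

theorem Sig.all [Inhabited β] {P : α × β → B → Prop} (hP : Sig o P) :
    Sig o (fun a w => ∀ b, P (a, b) w) :=
  (hP.par cdec).alln.of_iff fun a w =>
    ⟨fun h n => h _, fun h b => by simpa using h (Encodable.encode b)⟩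

theorem Sig.ex [Inhabited β] {P : α × β → B → Prop} (hP : Sig o P) :
    Sig o (fun a w => ∃ b, P (a, b) w) :=
  (hP.par cdec).exn.of_iff fun a w =>
    ⟨fun ⟨b, h⟩ => ⟨Encodable.encode b, by simpa using h⟩, fun ⟨_, h⟩ => ⟨_, h⟩⟩

theorem Sig.and {P P' : α → B → Prop} (hP : Sig o P) (hP' : Sig o P') :
    Sig o (fun a w => P a w ∧ P' a w) :=
  (((hP.par (Computable.fst (β := Bool))).cond (hP'.par Computable.fst) Computable.snd).all).of_iff
    fun a w => by simp [and_comm]

theorem Sig.or {P P' : α → B → Prop} (hP : Sig o P) (hP' : Sig o P') :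
    Sig o (fun a w => P a w ∨ P' a w) :=
  (((hP.par (Computable.fst (β := Bool))).cond (hP'.par Computable.fst) Computable.snd).ex).of_iff
    fun a w => by simp [or_comm]

theorem Sig.atom {c : α × List ℕ × List ℕ → Bool} {μ : α → ℕ} (hc : Computable c)
    (hμ : Computable μ) : Sig o (fun a w => c (a, pre o (μ a), pre w (μ a)) = true) :=
  (PiP.atom hc hμ).sig

theorem Sig.const {c : α → Bool} (hc : Computable c) : Sig o (fun a _ => c a = true) :=
  Sig.atom (c := fun p => c p.1) (μ := fun _ => 0) (hc.comp Computable.fst) (Computable.const 0)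

end Pool.Agent.Lib.MP_5ddd96_lc.H74
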