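import Pool.Agent.Lib.MP_5ddd96_lc.H74Mm

/-!
The space of witnesses, the well-founded tree with a list of tables at every leaf.
-/

set_option autoImplicit false

namespace Pool.Agent.Lib.MP_5ddd96_lc.H74

open MeasureTheory Filter Topology Classical

/-- type of the tests. -/
abbrev Test := ℕ × List ℕ × List ℕ × List ℕ × List ℕ → Bool

/-- slots of a witness. -/
def sl (j a : ℕ) (y : B) : B := fun i => y (Nat.pair (Nat.pair j a) i)

/-- one local condition on a witness. -/
def cnd (o : B) (f : Test) (a b n : ℕ) (y : B) : Prop :=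
  f (a, pre o n, pre (sl 0 0 y) n, pre (sl 1 a y) n, pre (sl 2 a y) n) = true ∧
  f (a, pre o n, pre (sl 0 1 y) n, pre (sl 3 a y) n, pre (sl 4 a y) n) = true ∧
  (sl 5 a y b = 0 → sl 1 a y n = sl 3 b y n) ∧
  (sl 5 a y b = n + 1 → sl 1 a y n ≠ sl 3 b y n) ∧
  (sl 0 2 y 0 = a → sl 1 a y n = sl 0 1 y n)

/-- the witness says that the table gives the same point on both sides. -/
def dgood (t : Rule) (y : B) : Prop := sl 5 (idx t (sl 0 0 y)) y (idx t (sl 0 1 y)) = 0

/-- the table gives the same point on both sides. -/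
def good (g : ℕ → Equiv.Perm B) (t : Rule) (x x' : B) : Prop := g (idx t x) x = g (idx t x') x'

/-- the list of tables tested at level `n`. -/
def Lst (n : ℕ) : List Rule := (Encodable.decode (α := List Rule) n.unpair.1).getD []

/-- a word continued by zeros. -/
def ext (u : List ℕ) : B := fun i => u.getD i 0

/-- few tables of the list fail. -/
def few (s : List ℕ) (p : Rule → Prop) : Prop :=
  (s.getD 0 0 + 1) * cnt (Lst s.length) p ≤ (Lst s.length).length

/-- leaves of the tree. -/
def leaf (o : B) (f : Test) (s : List ℕ) : Prop :=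
  0 < s.length ∧ 0 < (Lst s.length).length ∧ (Lst s.length).length ≤ s.length ∧
  ∀ u : List ℕ, (∀ m, m + 1 < s.length → ext u m ≤ s.getD (m + 1) 0) →
    (∀ a b n, a < s.length → b < s.length → n < s.length → cnd o f a b n (ext u)) →
    few s (fun t => ¬ dgood t (ext u))

theorem lc_at (j a i : ℕ) : IsLocallyConstant (fun y : B => sl j a y i) :=
  (IsLocallyConstant.iff_continuous _).2 (continuous_apply _)

theorem cont_sl (j a : ℕ) : Continuous (sl j a) := continuous_pi fun _ => continuous_apply _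

theorem lc_presl (j a n : ℕ) : IsLocallyConstant (fun y : B => pre (sl j a y) n) :=
  (lc_pre n).comp_continuous (cont_sl j a)

theorem lc_cnd (o : B) (f : Test) (a b n : ℕ) : IsLocallyConstant (cnd o f a b n) := by
  rw [IsLocallyConstant.iff_eventually_eq]
  intro y
  filter_upwards [(lc_presl 0 0 n).eventually_eq y, (lc_presl 1 a n).eventually_eq y,
    (lc_presl 2 a n).eventually_eq y, (lc_presl 0 1 n).eventually_eq y,
    (lc_presl 3 a n).eventually_eq y, (lc_presl 4 a n).eventually_eq y,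
    (lc_at 5 a b).eventually_eq y, (lc_at 1 a n).eventually_eq y, (lc_at 3 b n).eventually_eq y,
    (lc_at 0 2 0).eventually_eq y, (lc_at 0 1 n).eventually_eq y]
    with z h1 h2 h3 h4 h5 h6 h7 h8 h9 h10 h11
  simp only [cnd, h1, h2, h3, h4, h5, h6, h7, h8, h9, h10, h11]

theorem lc_dgood (t : Rule) : IsLocallyConstant (dgood t) := by
  rw [IsLocallyConstant.iff_eventually_eq]
  intro y
  filter_upwards [(lc_presl 0 0 t.1).eventually_eq y, (lc_presl 0 1 t.1).eventually_eq y,
    (lc_at 5 (idx t (sl 0 0 y)) (idx t (sl 0 1 y))).eventually_eq y] with z h1 h2 h3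
  have e1 : idx t (sl 0 0 z) = idx t (sl 0 0 y) := by simp only [idx, h1]
  have e2 : idx t (sl 0 1 z) = idx t (sl 0 1 y) := by simp only [idx, h2]
  simp only [dgood, e1, e2, h3]

theorem cnt_congr {τ : Type} [Inhabited τ] (L : List τ) {p q : τ → Prop}
    (h : ∀ i < L.length, (p (L.getD i default) ↔ q (L.getD i default))) : cnt L p = cnt L q := by
  unfold cnt
  exact congrArg _ (Finset.filter_congr fun i hi => h i (Finset.mem_range.1 hi))

theorem lc_cnt (L : List Rule) : IsLocallyConstant (fun y => cnt L (fun t => ¬ dgood t y)) := by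
  rw [IsLocallyConstant.iff_eventually_eq]
  intro y
  have h := (Filter.eventually_all_finset (Finset.range L.length)).2
    (fun i _ => (lc_dgood (L.getD i default)).eventually_eq y)
  filter_upwards [h] with z hz
  exact cnt_congr L fun i hi => by rw [hz i (Finset.mem_range.2 hi)]

variable {o : B} {f : Test} {g : ℕ → Equiv.Perm B}

theorem leaf_few {s : List ℕ} (hs : leaf o f s) {y : B} (hy : ∀ a b n, cnd o f a b n y)
    (hb : ∀ m, m + 1 < s.length → y m ≤ s.getD (m + 1) 0) : few s (fun t => ¬ dgood t y) := by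
  have ht : Tendsto (fun N => ext (pre y N)) atTop (𝓝 y) := by
    rw [tendsto_pi_nhds]
    intro i
    refine tendsto_const_nhds.congr' ?_
    filter_upwards [eventually_gt_atTop i] with N hN
    exact (pre_getD y hN).symm
  have h1 : ∀ᶠ z in 𝓝 y, ∀ a ∈ Finset.range s.length, ∀ b ∈ Finset.range s.length,
      ∀ n ∈ Finset.range s.length, cnd o f a b n z := by
    simp only [Filter.eventually_all_finset]
    intro a _ b _ n _
    filter_upwards [(lc_cnd o f a b n).eventually_eq y] with z hz
    rw [hz]; exact hy a b n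
  obtain ⟨N, hN1, hN2, hN3⟩ := ((ht.eventually h1).and
    ((ht.eventually ((lc_cnt (Lst s.length)).eventually_eq y)).and
      (eventually_ge_atTop s.length))).exists
  have := hs.2.2.2 (pre y N) (fun m hm => by
      have : ext (pre y N) m = y m := pre_getD y (by omega)
      rw [this]; exact hb m hm)
    (fun a b n ha hb hn => hN1 a (Finset.mem_range.2 ha) b (Finset.mem_range.2 hb) n
      (Finset.mem_range.2 hn))
  unfold few at this ⊢
  rwa [hN2] at this

theorem branch (H : ∀ (b : B) (r : ℕ), ∃ L : List Rule, L ≠ [] ∧ ∀ y : B,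
      (∀ a b n, cnd o f a b n y) → (∀ m, y m ≤ b m) →
        (r + 1) * cnt L (fun t => ¬ dgood t y) ≤ L.length)
    (b : B) (n0 : ℕ) : ∃ n, n0 ≤ n ∧ leaf o f (pre b n) := by
  obtain ⟨L, hL, H⟩ := H (fun m => b (m + 1)) (b 0)
  by_contra hcon
  let nn : ℕ → ℕ := fun j => Nat.pair (Encodable.encode L) (j + n0 + L.length + 1)
  have hnn : ∀ j, j + n0 + L.length + 1 ≤ nn j := fun j => Nat.right_le_pair _ _
  have hLst : ∀ j, Lst (nn j) = L := fun j => by simp [Lst, nn]
  have hex : ∀ j, ∃ u : List ℕ, (∀ m, m + 1 < nn j → ext u m ≤ b (m + 1)) ∧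
      (∀ a c n, a < nn j → c < nn j → n < nn j → cnd o f a c n (ext u)) ∧
      ¬ (b 0 + 1) * cnt L (fun t => ¬ dgood t (ext u)) ≤ L.length := by
    intro j
    by_contra hj
    refine hcon ⟨nn j, by have := hnn j; omega, ?_⟩
    have h0 := hnn j
    have hp := List.length_pos_iff.2 hL
    unfold leaf few
    rw [pre_length, hLst, pre_getD b (by omega)]
    refine ⟨by omega, hp, by omega, fun u h1 h2 => ?_⟩
    by_contra h3
    exact hj ⟨u, fun m hm => by rw [← pre_getD b hm]; exact h1 m hm, h2, h3⟩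
  choose u hu1 hu2 hu3 using hex
  let U : Ultrafilter ℕ := Ultrafilter.of atTop
  have hU : (U : Filter ℕ) ≤ atTop := Ultrafilter.of_le _
  have hbig : ∀ m, ∀ᶠ j in (U : Filter ℕ), m < nn j := fun m => by
    filter_upwards [hU (eventually_ge_atTop m)] with j hj
    have := hnn j
    have hj' : m ≤ j := hj
    omega
  have hv : ∀ m, ∃ v, v ≤ b (m + 1) ∧ ∀ᶠ j in (U : Filter ℕ), ext (u j) m = v := by
    intro m
    have h1 : ∀ᶠ j in (U : Filter ℕ), ∃ v ∈ Set.Iic (b (m + 1)), ext (u j) m = v := by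
      filter_upwards [hbig (m + 1)] with j hj
      exact ⟨_, hu1 j m hj, rfl⟩
    exact (Ultrafilter.eventually_exists_mem_iff (Set.finite_Iic _)).1 h1
  choose y hy1 hy2 using hv
  have ht : Tendsto (fun j => ext (u j)) U (𝓝 y) := by
    rw [tendsto_pi_nhds]
    intro i
    exact tendsto_const_nhds.congr' ((hy2 i).mono fun j hj => hj.symm)
  have hc : ∀ a c n, cnd o f a c n y := by
    intro a c n
    obtain ⟨j, h1, h2, h3, h4⟩ := ((ht.eventually ((lc_cnd o f a c n).eventually_eq y)).and
      ((hbig a).and ((hbig c).and (hbig n)))).exists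
    rw [← h1]; exact hu2 j a c n h2 h3 h4
  obtain ⟨j, hj⟩ := (ht.eventually ((lc_cnt L).eventually_eq y)).exists
  exact hu3 j (by rw [hj]; exact H y hc hy1)

/-- the tests describe the graphs. -/
def Codes (o : B) (f : Test) (g : ℕ → Equiv.Perm B) : Prop :=
  ∀ i x y, g i x = y ↔ ∃ z : B, ∀ n : ℕ, f (i, pre o n, pre x n, pre y n, pre z n) = true

theorem Codes.measurable (hg : Codes o f g) (i : ℕ) : Measurable (g i) := by
  have hcl : MeasurableSet {w : B × B × B |
      ∀ n, f (i, pre o n, pre w.1 n, pre w.2.1 n, pre w.2.2 n) = true} := by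
    simp only [Set.ofPred_forall]
    refine MeasurableSet.iInter fun n => IsOpen.measurableSet ?_
    have h1 : IsLocallyConstant (fun w : B × B × B => pre w.1 n) :=
      (lc_pre n).comp_continuous continuous_fst
    have h2 : IsLocallyConstant (fun w : B × B × B => pre w.2.1 n) :=
      (lc_pre n).comp_continuous (by fun_prop)
    have h3 : IsLocallyConstant (fun w : B × B × B => pre w.2.2 n) :=
      (lc_pre n).comp_continuous (by fun_prop)
    exact ((h1.prodMk (h2.prodMk h3)).comp (fun p => f (i, pre o n, p))).isOpen_fiber true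
  have han : ∀ S : Set B, MeasurableSet S → AnalyticSet (g i ⁻¹' S) := by
    intro S hS
    have := (hcl.inter (hS.preimage (f := fun w : B × B × B => w.2.1) (by fun_prop))).analyticSet_image
      (f := Prod.fst) measurable_fst
    convert this using 1
    ext x
    constructor
    · intro hx
      obtain ⟨z, hz⟩ := (hg i x _).1 rfl
      exact ⟨(x, g i x, z), ⟨hz, hx⟩, rfl⟩
    · rintro ⟨⟨x', y, z⟩, ⟨h1, h2⟩, rfl⟩
      have : g i x' = y := (hg i x' y).2 ⟨z, h1⟩
      simpa [this] using h2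
  intro S hS
  exact (han S hS).measurableSet_of_compl (han Sᶜ hS.compl)

theorem Codes.flag (hg : Codes o f g) {y : B} (hy : ∀ a b n, cnd o f a b n y) (a b : ℕ) :
    sl 5 a y b = 0 ↔ g a (sl 0 0 y) = g b (sl 0 1 y) := by
  have h1 : g a (sl 0 0 y) = sl 1 a y := (hg _ _ _).2 ⟨_, fun n => (hy a b n).1⟩
  have h2 : g b (sl 0 1 y) = sl 3 b y := (hg _ _ _).2 ⟨_, fun n => (hy b b n).2.1⟩
  rw [h1, h2]
  refine ⟨fun h => funext fun n => (hy a b n).2.2.1 h, fun h => ?_⟩
  by_contra h0
  obtain ⟨n, hn⟩ := Nat.exists_eq_succ_of_ne_zero h0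
  exact (hy a b n).2.2.2.1 hn (congrFun h n)

theorem Codes.rel (hg : Codes o f g) {y : B} (hy : ∀ a b n, cnd o f a b n y) :
    g (sl 0 2 y 0) (sl 0 0 y) = sl 0 1 y := by
  have h1 : g (sl 0 2 y 0) (sl 0 0 y) = sl 1 (sl 0 2 y 0) y :=
    (hg _ _ _).2 ⟨_, fun n => (hy _ 0 n).1⟩
  rw [h1]
  exact funext fun n => (hy _ 0 n).2.2.2.2 rfl

theorem Codes.witness (hg : Codes o f g) (x : B) (i : ℕ) :
    ∃ y, (∀ a b n, cnd o f a b n y) ∧ sl 0 0 y = x ∧ sl 0 1 y = g i x := by
  choose z hz using fun a x => (hg a x _).1 rfl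
  let e : ℕ → ℕ → ℕ := fun a b => if h : ∃ n, g a x n ≠ g b (g i x) n then h.choose + 1 else 0
  let c : ℕ → ℕ → B := fun j a => match j with
    | 0 => if a = 0 then x else if a = 1 then g i x else fun _ => i
    | 1 => g a x
    | 2 => z a x
    | 3 => g a (g i x)
    | 4 => z a (g i x)
    | _ => e a
  let y : B := fun n => c n.unpair.1.unpair.1 n.unpair.1.unpair.2 n.unpair.2
  have hs : ∀ j a, sl j a y = c j a := fun j a => by funext n; simp [sl, y]
  refine ⟨y, fun a b n => ?_, by simp [hs, c], by simp [hs, c]⟩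
  unfold cnd
  simp only [hs]
  refine ⟨by simpa [c] using hz a x n, by simpa [c] using hz a (g i x) n, ?_, ?_, ?_⟩
  · intro h
    by_contra hne
    have hex : ∃ n, g a x n ≠ g b (g i x) n := ⟨n, hne⟩
    simp [c, e, dif_pos hex] at h
  · intro h
    by_cases hex : ∃ n, g a x n ≠ g b (g i x) n
    · simp only [c, e, dif_pos hex, add_left_inj] at h
      rw [← h]; exact hex.choose_spec
    · simp [c, e, dif_neg hex] at h
  · intro h
    have : i = a := by simpa [c] using h
    subst this; simp [c]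

theorem exists_selector (hg : Codes o f g) {E : B → B → Prop} (hEg : ∀ x y, E x y ↔ ∃ i, g i x = y)
    {A : Set B} {F : B → B → Prop} (hF : FiniteEquivOn A F)
    (hm : MeasurableSet {p : B × B | F p.1 p.2}) (hFE : ∀ x y, F x y → E x y) :
    ∃ a : B → ℕ, (∀ s, MeasurableSet {x | a x = s}) ∧
      ∀ x y, F x y → g (a x) x = g (a y) y := by
  obtain ⟨e, he⟩ := exists_measurableEmbedding_real B
  let P : ℕ → B → Prop := fun b x => F x (g b x) ∧ ∀ c, F x (g c x) → e (g b x) ≤ e (g c x)
  have hFm : ∀ b, MeasurableSet {x | F x (g b x)} := fun b =>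
    hm.preimage (f := fun x => (x, g b x)) (measurable_id.prodMk (hg.measurable b))
  have hP : ∀ b, MeasurableSet {x | P b x} := by
    intro b
    refine (hFm b).inter ?_
    change MeasurableSet {x | ∀ c, F x (g c x) → e (g b x) ≤ e (g c x)}
    simp only [Set.ofPred_forall]
    refine MeasurableSet.iInter fun c => ?_
    have := (hFm c).compl.union (measurableSet_le (he.measurable.comp (hg.measurable b))
      (he.measurable.comp (hg.measurable c)))
    convert this using 1
    ext x; simp [imp_iff_not_or]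
  have hex : ∀ x, ∃ b, P b x ∨ ∀ c, ¬ P c x := fun x => by
    by_cases h : ∃ b, P b x
    · obtain ⟨b, hb⟩ := h; exact ⟨b, Or.inl hb⟩
    · exact ⟨0, Or.inr (not_exists.1 h)⟩
  have hQ : ∀ b, MeasurableSet {x | P b x ∨ ∀ c, ¬ P c x} := fun b => by
    refine (hP b).union ?_
    change MeasurableSet {x | ∀ c, ¬ P c x}
    simp only [Set.ofPred_forall]
    exact MeasurableSet.iInter fun c => (hP c).compl
  have hmeas : Measurable (fun x => Nat.find (hex x)) := measurable_find hex hQ
  refine ⟨fun x => Nat.find (hex x), fun s => hmeas (measurableSet_singleton s), ?_⟩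
  have hspec : ∀ x ∈ A, P (Nat.find (hex x)) x := by
    intro x hx
    refine (Nat.find_spec (hex x)).resolve_right fun h => ?_
    obtain ⟨u, hu, hmin⟩ := Set.exists_min_image _ e (hF.finite x) ⟨x, hF.refl x hx⟩
    obtain ⟨b, rfl⟩ := (hEg _ _).1 (hFE _ _ hu)
    exact h b ⟨hu, fun c hc => hmin _ hc⟩
  have hle : ∀ x y, F x y → e (g (Nat.find (hex x)) x) ≤ e (g (Nat.find (hex y)) y) := by
    intro x y hxy
    have h1 := hF.trans _ _ _ hxy (hspec y (hF.mem _ _ hxy).2).1
    obtain ⟨c, hc⟩ := (hEg _ _).1 (hFE _ _ h1)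
    rw [← hc] at h1 ⊢
    exact (hspec x (hF.mem _ _ hxy).1).2 c h1
  intro x y hxy
  exact he.injective (le_antisymm (hle x y hxy) (hle y x (hF.symm _ _ hxy)))

theorem exists_list (hg : Codes o f g) {E : B → B → Prop} (hEg : ∀ x y, E x y ↔ ∃ i, g i x = y)
    (hE : MeasureHyperfinite E) (b : B) (r : ℕ) : ∃ L : List Rule, L ≠ [] ∧ ∀ y : B,
      (∀ a b n, cnd o f a b n y) → (∀ m, y m ≤ b m) →
        (r + 1) * cnt L (fun t => ¬ dgood t y) ≤ L.length := by
  let K : Set B := {y | (∀ a b n, cnd o f a b n y) ∧ ∀ m, y m ≤ b m}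
  have hK : IsCompact K := by
    have h1 : IsCompact (Set.pi Set.univ fun m => Set.Iic (b m)) :=
      isCompact_univ_pi fun m => (Set.finite_Iic _).isCompact
    have h2 : IsClosed {y | ∀ a b n, cnd o f a b n y} := by
      simp only [Set.ofPred_forall]
      refine isClosed_iInter fun a => isClosed_iInter fun c => isClosed_iInter fun n => ?_
      simpa using (lc_cnd o f a c n).isClosed_fiber True
    convert h1.inter_left h2 using 1
    ext y; simp [K, Pi.le_def]
  have : CompactSpace K := isCompact_iff_compactSpace.1 hK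
  obtain ⟨L, hL, h⟩ := minimax_list (Z := K) (fun t z => ¬ dgood t z.1) (fun t => by
    have := ((lc_dgood t).comp_continuous (continuous_subtype_val (p := (· ∈ K)))).isClopen_fiber False
    simpa using this) r (by
    intro ν hν ε hε
    have hX : Measurable (fun z : K => sl 0 0 z.1) :=
      ((cont_sl 0 0).comp continuous_subtype_val).measurable
    have hX' : Measurable (fun z : K => sl 0 1 z.1) :=
      ((cont_sl 0 1).comp continuous_subtype_val).measurable
    obtain ⟨A, hA, hinv, hA1, F, hFm, hF, hmono, hU⟩ :=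
      hE (ν.map fun z : K => sl 0 0 z.1) (Measure.isProbabilityMeasure_map hX.aemeasurable)
    have hCm : ∀ n, MeasurableSet {z : K | F n (sl 0 0 z.1) (sl 0 1 z.1)} := fun n =>
      (hFm n).preimage (hX.prodMk hX')
    have h0 : ν (⋂ n, {z : K | F n (sl 0 0 z.1) (sl 0 1 z.1)}ᶜ) = 0 := by
      rw [Measure.map_apply hX hA] at hA1
      refine measure_mono_null (t := ((fun z : K => sl 0 0 z.1) ⁻¹' A)ᶜ) ?_
        ((prob_compl_eq_zero_iff (hX hA)).2 hA1)
      intro z hz hzA
      have hE' : E (sl 0 0 z.1) (sl 0 1 z.1) := (hEg _ _).2 ⟨_, hg.rel z.2.1⟩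
      obtain ⟨n, hn⟩ := (hU _ hzA _ (hinv _ _ hE' hzA)).1 hE'
      exact Set.mem_iInter.1 hz n hn
    have h3 := tendsto_measure_iInter_atTop (μ := ν)
      (s := fun n => {z : K | F n (sl 0 0 z.1) (sl 0 1 z.1)}ᶜ)
      (fun n => (hCm n).compl.nullMeasurableSet)
      (antitone_nat_of_succ_le fun n => Set.compl_subset_compl.2 fun z hz => hmono n _ _ hz)
      ⟨0, measure_ne_top _ _⟩
    rw [h0] at h3
    obtain ⟨n, hn⟩ := (h3.eventually (gt_mem_nhds
      (ENNReal.ofReal_pos.2 (half_pos hε)))).exists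
    obtain ⟨a, ham, ha⟩ := exists_selector hg hEg (hF n) (hFm n) (fun x y hxy =>
      (hU x ((hF n).mem _ _ hxy).1 y ((hF n).mem _ _ hxy).2).2 ⟨n, hxy⟩)
    obtain ⟨t, ht⟩ := exists_rule ((ν.map fun z : K => sl 0 0 z.1) + ν.map fun z : K => sl 0 1 z.1)
      a ham _ (half_pos hε)
    have hD : MeasurableSet {x | idx t x ≠ a x} := by
      have h1 : Measurable (idx t) :=
        (((lc_pre t.1).comp fun p => (List.lookup p t.2).getD 0).continuous).measurable
      have h2 : Measurable a := measurable_to_countable' ham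
      exact (measurableSet_eq_fun h1 h2).compl
    rw [measureReal_add_apply (measure_ne_top _ _) (measure_ne_top _ _),
      map_measureReal_apply hX hD, map_measureReal_apply hX' hD] at ht
    refine ⟨t, lt_of_le_of_lt (measureReal_mono (s₂ := {z : K | F n (sl 0 0 z.1) (sl 0 1 z.1)}ᶜ ∪
      ((fun z : K => sl 0 0 z.1) ⁻¹' {x | idx t x ≠ a x} ∪
        (fun z : K => sl 0 1 z.1) ⁻¹' {x | idx t x ≠ a x})) ?_) ?_⟩
    · intro z hz
      by_contra hc
      simp only [Set.mem_union, Set.mem_compl_iff, Set.mem_ofPred_eq, Set.mem_preimage, not_or,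
        not_not] at hc
      apply hz
      unfold dgood
      rw [hg.flag z.2.1, hc.2.1, hc.2.2]
      exact ha _ _ hc.1
    · have h5 := ENNReal.toReal_lt_of_lt_ofReal hn
      have h6 := measureReal_union_le (μ := ν) {z : K | F n (sl 0 0 z.1) (sl 0 1 z.1)}ᶜ
        ((fun z : K => sl 0 0 z.1) ⁻¹' {x | idx t x ≠ a x} ∪
          (fun z : K => sl 0 1 z.1) ⁻¹' {x | idx t x ≠ a x})
      have h7 := measureReal_union_le (μ := ν) ((fun z : K => sl 0 0 z.1) ⁻¹' {x | idx t x ≠ a x})
          ((fun z : K => sl 0 1 z.1) ⁻¹' {x | idx t x ≠ a x})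
      have h8 : ν.real {z : K | F n (sl 0 0 z.1) (sl 0 1 z.1)}ᶜ < ε / 2 := h5
      linarith)
  exact ⟨L, hL, fun y h1 h2 => h ⟨y, h1, h2⟩⟩

end Pool.Agent.Lib.MP_5ddd96_lc.H74
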