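import Pool.Agent.Lib.MP_5ddd96_lc.H74Tree

/-!
The random walk down the tree and the count of the failing samples.
-/

set_option autoImplicit false

namespace Pool.Agent.Lib.MP_5ddd96_lc.H74

open Filter Topology Classical

/-- child relation of the tree. -/
def Ch (lf : List ℕ → Prop) (s' s : List ℕ) : Prop := ¬ lf s ∧ ∃ n, s' = s ++ [n]

theorem ch_wf {lf : List ℕ → Prop} (hb : ∀ (b : B) (n0 : ℕ), ∃ n, n0 ≤ n ∧ lf (pre b n)) :
    WellFounded (Ch lf) := by
  refine ⟨fun s0 => ?_⟩
  by_contra h0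
  have hstep : ∀ s, ∃ n, ¬ Acc (Ch lf) s → ¬ lf s ∧ ¬ Acc (Ch lf) (s ++ [n]) := by
    intro s
    by_cases h : Acc (Ch lf) s
    · exact ⟨0, fun h' => absurd h h'⟩
    · by_contra hc
      apply h
      refine Acc.intro _ fun s' hs' => ?_
      obtain ⟨h1, n, rfl⟩ := hs'
      by_contra h2
      exact hc ⟨n, fun _ => ⟨h1, h2⟩⟩
  choose c hc using hstep
  let q : ℕ → List ℕ := fun j => Nat.rec s0 (fun _ s => s ++ [c s]) j
  have hq : ∀ j, q (j + 1) = q j ++ [c (q j)] := fun _ => rfl
  have hacc : ∀ j, ¬ Acc (Ch lf) (q j) := fun j => by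
    induction j with
    | zero => exact h0
    | succ j ih => exact (hc _ ih).2
  have hlen : ∀ j, (q j).length = s0.length + j := fun j => by
    induction j with
    | zero => rfl
    | succ j ih => rw [hq, List.length_append, ih]; rfl
  have hpre : ∀ j d i, i < (q j).length → (q (j + d)).getD i 0 = (q j).getD i 0 := by
    intro j d i hi
    induction d with
    | zero => rfl
    | succ d ih =>
      rw [← add_assoc, hq, List.getD_append _ _ _ _ (by rw [hlen] at hi ⊢; omega), ih]
  obtain ⟨n, hn, hl⟩ := hb (fun i => (q (i + 1)).getD i 0) s0.length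
  obtain ⟨j, rfl⟩ := Nat.exists_eq_add_of_le hn
  refine (hc _ (hacc j)).1 ?_
  convert hl using 1
  apply List.ext_getElem
  · simp [hlen]
  · intro i h1 h2
    have e1 := hpre j (i + 1) i h1
    have e2 := hpre (i + 1) j i (by have := hlen (i + 1); omega)
    rw [add_comm (i + 1) j, e1] at e2
    simp only [pre, List.getElem_ofFn]
    rw [← e2, List.getD_eq_getElem _ _ h1]

/-- most leaves above a node are good. -/
inductive Most (lf gd : List ℕ → Prop) : List ℕ → Prop
  | leaf (s : List ℕ) : lf s → gd s → Most lf gd s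
  | node (s : List ℕ) (N : ℕ) : ¬ lf s → (∀ k, N ≤ k → Most lf gd (s ++ [k])) → Most lf gd s

theorem most_iff {lf gd : List ℕ → Prop} {s : List ℕ} : Most lf gd s ↔
    (lf s ∧ gd s) ∨ (¬ lf s ∧ ∃ N, ∀ k, N ≤ k → Most lf gd (s ++ [k])) := by
  constructor
  · rintro (⟨_, h1, h2⟩ | ⟨_, N, h1, h2⟩)
    · exact Or.inl ⟨h1, h2⟩
    · exact Or.inr ⟨h1, N, h2⟩
  · rintro (⟨h1, h2⟩ | ⟨h1, N, h2⟩)
    · exact Most.leaf s h1 h2
    · exact Most.node s N h1 h2

/-- threshold from which the children are good. -/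
noncomputable def thr (lf gd : List ℕ → Prop) (s : List ℕ) : ℕ :=
  sInf {N | ∀ k, N ≤ k → Most lf gd (s ++ [k])}

theorem Most.child {lf gd : List ℕ → Prop} {s : List ℕ} (h : Most lf gd s) (hs : ¬ lf s) {k : ℕ}
    (hk : thr lf gd s ≤ k) : Most lf gd (s ++ [k]) := by
  rcases most_iff.1 h with h | ⟨_, h⟩
  · exact absurd h.1 hs
  · exact Nat.sInf_mem (s := {N | ∀ k, N ≤ k → Most lf gd (s ++ [k])}) h k hk

/-- the next scale. -/
def phi (H : ℕ → List ℕ → ℕ) (s : List ℕ) (m : ℕ) : ℕ := 2 * H m s + 2 * m + 2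

/-- time `k` is large for the node `s` at scale `m`. -/
inductive Big (lf : List ℕ → Prop) (H : ℕ → List ℕ → ℕ) (k : ℕ) : List ℕ → ℕ → Prop
  | leaf (s : List ℕ) (m : ℕ) : lf s → s.length ≤ k → Big lf H k s m
  | node (s : List ℕ) (m : ℕ) : ¬ lf s → phi H s m ≤ k →
      (∀ n, n ≤ phi H s m → Big lf H k (s ++ [n]) (phi H s m)) → Big lf H k s m

variable {lf gd : List ℕ → Prop} {H H' : ℕ → List ℕ → ℕ} {k : ℕ}

theorem big_iff {s : List ℕ} {m : ℕ} : Big lf H k s m ↔ (lf s ∧ s.length ≤ k) ∨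
    (¬ lf s ∧ phi H s m ≤ k ∧ ∀ n, n ≤ phi H s m → Big lf H k (s ++ [n]) (phi H s m)) := by
  constructor
  · rintro (⟨_, _, h1, h2⟩ | ⟨_, _, h1, h2, h3⟩)
    · exact Or.inl ⟨h1, h2⟩
    · exact Or.inr ⟨h1, h2, h3⟩
  · rintro (⟨h1, h2⟩ | ⟨h1, h2, h3⟩)
    · exact Big.leaf s m h1 h2
    · exact Big.node s m h1 h2 h3

theorem Big.len {s : List ℕ} {m : ℕ} (h : Big lf H k s m) : s.length ≤ k := by
  induction h with
  | leaf s m _ h => exact h
  | node s m _ _ _ ih => have := ih 0 (Nat.zero_le _); simp at this; omega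

/-- domination up to a shift of the scale. -/
def Dom (d : ℕ) (H H' : ℕ → List ℕ → ℕ) : Prop := ∀ m m' s, m + d ≤ m' → H m s ≤ H' m' s

theorem Big.dom {d : ℕ} (hd : Dom d H H') {s : List ℕ} {m' : ℕ} (h : Big lf H' k s m') :
    ∀ m, m + d ≤ m' → Big lf H k s m := by
  induction h with
  | leaf s m h1 h2 => exact fun m _ => Big.leaf s m h1 h2
  | node s m' h1 h2 _ ih =>
    intro m hm
    have : phi H s m + d ≤ phi H' s m' := by
      have := hd m m' s hm
      unfold phi; omega
    exact Big.node s m h1 (by omega) fun n hn => ih n (by omega) _ this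

theorem big_ev (hw : WellFounded (Ch lf)) (H : ℕ → List ℕ → ℕ) (s : List ℕ) :
    ∀ m, ∀ᶠ k in atTop, Big lf H k s m := by
  induction s using hw.induction with
  | _ s ih =>
    intro m
    by_cases h : lf s
    · filter_upwards [eventually_ge_atTop s.length] with k hk using Big.leaf s m h hk
    · have h2 := (Filter.eventually_all_finset (Finset.range (phi H s m + 1))).2
        (fun n _ => ih (s ++ [n]) ⟨h, n, rfl⟩ (phi H s m))
      filter_upwards [h2, eventually_ge_atTop (phi H s m)] with k h3 hk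
      exact Big.node s m h hk fun n hn => h3 n (Finset.mem_range.2 (by omega))

/-- the largest admissible child index. -/
noncomputable def Gm (lf : List ℕ → Prop) (H : ℕ → List ℕ → ℕ) (k : ℕ) (s : List ℕ) : ℕ :=
  Nat.findGreatest (fun n => ∀ n', n' ≤ n → Big lf H k (s ++ [n']) n) k

theorem Gm_le (s : List ℕ) : Gm lf H k s ≤ k := Nat.findGreatest_le k

theorem Big.gm {s : List ℕ} {m : ℕ} (h : Big lf H k s m) (hs : ¬ lf s) :
    phi H s m ≤ Gm lf H k s ∧ ∀ n, n ≤ Gm lf H k s → Big lf H k (s ++ [n]) (Gm lf H k s) := by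
  rcases big_iff.1 h with h | ⟨_, h2, h3⟩
  · exact absurd h.1 hs
  · exact ⟨Nat.le_findGreatest h2 h3, Nat.findGreatest_spec
      (P := fun n => ∀ n', n' ≤ n → Big lf H k (s ++ [n']) n) h2 h3⟩

theorem Gm_dom {d : ℕ} (hd : Dom d H H') (s : List ℕ) : Gm lf H' k s ≤ Gm lf H k s + d := by
  by_cases h : Gm lf H' k s ≤ d
  · omega
  · have h0 : Gm lf H' k s ≠ 0 := by omega
    have h1 := Nat.findGreatest_of_ne_zero
      (P := fun n => ∀ n', n' ≤ n → Big lf H' k (s ++ [n']) n) (n := k) rfl h0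
    have h2 : Gm lf H' k s - d ≤ Gm lf H k s := Nat.le_findGreatest
      (by have := Gm_le (lf := lf) (H := H') (k := k) s; omega)
      fun n' hn' => (h1 n' (le_trans hn' (Nat.sub_le _ _))).dom hd _ (by
        change Gm lf H' k s - d + d ≤ Gm lf H' k s
        omega)
    omega

/-- the largest point of the grid of `θ` below `γ`. -/
noncomputable def pick (M γ θ : ℕ) : ℕ := (M + θ) / 2 ^ sInf {i | (M + θ) / 2 ^ i ≤ γ}

theorem pick_ne (M γ θ : ℕ) : {i | (M + θ) / 2 ^ i ≤ γ}.Nonempty :=
  ⟨M + θ, by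
    change (M + θ) / 2 ^ (M + θ) ≤ γ
    rw [Nat.div_eq_of_lt Nat.lt_two_pow_self]; exact Nat.zero_le _⟩

theorem pick_le (M γ θ : ℕ) : pick M γ θ ≤ γ := Nat.sInf_mem (pick_ne M γ θ)

theorem pick_ge {M γ : ℕ} (θ : ℕ) (h : γ < M) : γ ≤ 2 * pick M γ θ := by
  have h1 := pick_le M γ θ
  unfold pick at h1 ⊢
  rcases hi : sInf {i | (M + θ) / 2 ^ i ≤ γ} with _ | i
  · rw [hi] at h1; simp at h1; omega
  · have h2 : i ∉ {i | (M + θ) / 2 ^ i ≤ γ} := Nat.notMem_of_lt_sInf (by omega)
    have h3 : γ < (M + θ) / 2 ^ i := not_le.1 h2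
    rw [pow_succ, ← Nat.div_div_eq_div_mul]
    omega

theorem pick_diff {M γ γ' θ : ℕ} (h : γ' ≤ γ) (hne : pick M γ θ ≠ pick M γ' θ) :
    ∃ i, γ' < (M + θ) / 2 ^ i ∧ (M + θ) / 2 ^ i ≤ γ := by
  refine ⟨_, ?_, pick_le M γ θ⟩
  by_contra hc
  apply hne
  have : sInf {i | (M + θ) / 2 ^ i ≤ γ'} = sInf {i | (M + θ) / 2 ^ i ≤ γ} :=
    le_antisymm (Nat.sInf_le (not_lt.1 hc)) (Nat.sInf_le (le_trans (pick_le M γ' θ) h))
  unfold pick; rw [this]

theorem grid_count (M γ d : ℕ) :
    ((Finset.range M).filter fun θ => ∃ i, γ < (M + θ) / 2 ^ i ∧ (M + θ) / 2 ^ i ≤ γ + d).card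
      * (γ + 1) ≤ 4 * d * M := by
  have hne : {i | 2 * M ≤ 2 ^ i * (γ + 1)}.Nonempty :=
    ⟨2 * M, le_trans Nat.lt_two_pow_self.le (Nat.le_mul_of_pos_right _ (Nat.succ_pos _))⟩
  set I := sInf {i | 2 * M ≤ 2 ^ i * (γ + 1)} with hI
  have hI1 : 2 * M ≤ 2 ^ I * (γ + 1) := Nat.sInf_mem hne
  have hsub : ((Finset.range M).filter fun θ =>
      ∃ i, γ < (M + θ) / 2 ^ i ∧ (M + θ) / 2 ^ i ≤ γ + d) ⊆ (Finset.range I).biUnion fun i =>
        (Finset.Ico (2 ^ i * (γ + 1)) (2 ^ i * (γ + d + 1))).image (· - M) := by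
    intro θ hθ
    obtain ⟨h1, i, h2, h3⟩ := Finset.mem_filter.1 hθ
    have h1 := Finset.mem_range.1 h1
    have hp : 0 < 2 ^ i := by positivity
    have a1 : 2 ^ i * (γ + 1) ≤ M + θ := by
      rw [mul_comm]; exact (Nat.le_div_iff_mul_le hp).1 h2
    have a2 : M + θ < 2 ^ i * (γ + d + 1) := by
      rw [mul_comm]; exact (Nat.div_lt_iff_lt_mul hp).1 (by omega)
    refine Finset.mem_biUnion.2 ⟨i, Finset.mem_range.2 ?_,
      Finset.mem_image.2 ⟨M + θ, Finset.mem_Ico.2 ⟨a1, a2⟩, by simp⟩⟩
    by_contra hc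
    have : 2 ^ I * (γ + 1) ≤ 2 ^ i * (γ + 1) :=
      Nat.mul_le_mul_right _ (Nat.pow_le_pow_right (by norm_num) (not_lt.1 hc))
    omega
  have hcard : ∀ J, ∑ i ∈ Finset.range J, 2 ^ i * d + d = 2 ^ J * d := fun J => by
    induction J with
    | zero => simp
    | succ J ih => rw [Finset.sum_range_succ, pow_succ, mul_right_comm]; omega
  have h4 := (Finset.card_le_card hsub).trans (Finset.card_biUnion_le.trans
    (Finset.sum_le_sum (g := fun i => 2 ^ i * d) fun i _ => Finset.card_image_le.trans (by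
      rw [Nat.card_Ico]
      have : 2 ^ i * (γ + d + 1) = 2 ^ i * (γ + 1) + 2 ^ i * d := by ring
      omega)))
  rcases hI0 : I with _ | J
  · rw [hI0] at h4; simp only [Finset.range_zero, Finset.sum_empty, Nat.le_zero] at h4
    rw [h4]; simp
  · have h5 : J ∉ {i | 2 * M ≤ 2 ^ i * (γ + 1)} := Nat.notMem_of_lt_sInf (by omega)
    have h6 : 2 ^ J * (γ + 1) < 2 * M := not_le.1 h5
    have h7 := hcard I
    calc _ ≤ 2 ^ I * d * (γ + 1) := Nat.mul_le_mul_right _ (by omega)
      _ = 2 * d * (2 ^ J * (γ + 1)) := by rw [hI0]; ring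
      _ ≤ 2 * d * (2 * M) := Nat.mul_le_mul_left _ h6.le
      _ = 4 * d * M := by ring

theorem card_split (M N T : ℕ) (hM : 0 < M) (hT : T ≤ M * N) (p : ℕ → ℕ → Prop) :
    ((Finset.range T).filter fun j => p (j % M) (j / M)).card ≤
      ∑ θ ∈ Finset.range M, ((Finset.range N).filter (p θ)).card := by
  rw [← Finset.card_sigma]
  refine Finset.card_le_card_of_injOn (fun j => (⟨j % M, j / M⟩ : Σ _ : ℕ, ℕ)) ?_ ?_
  · intro j hj
    obtain ⟨h1, h2⟩ := Finset.mem_filter.1 hj
    have h1 := Finset.mem_range.1 h1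
    refine Finset.mem_coe.2 (Finset.mem_sigma.2 ⟨Finset.mem_range.2 (Nat.mod_lt _ hM),
      Finset.mem_filter.2 ⟨Finset.mem_range.2 ?_, h2⟩⟩)
    exact (Nat.div_lt_iff_lt_mul hM).2 (by rw [mul_comm]; omega)
  · intro a _ b _ h
    have h1 : a % M = b % M := congrArg Sigma.fst h
    have h2 : a / M = b / M := congrArg (fun q : (Σ _ : ℕ, ℕ) => q.2) h
    rw [← Nat.mod_add_div a M, ← Nat.mod_add_div b M, h1, h2]

/-- one step of the walk. -/
noncomputable def step (lf : List ℕ → Prop) (G : List ℕ → ℕ) (M : ℕ) (p : List ℕ × ℕ) :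
    List ℕ × ℕ :=
  if lf p.1 then p else (p.1 ++ [pick M (G p.1) (p.2 % M)], p.2 / M)

/-- the table read at the end of the walk. -/
def out (p : List ℕ × ℕ) : Rule :=
  (Lst p.1.length).getD (p.2 % (Lst p.1.length).length) default

theorem walk_count (hlf : ∀ s, lf s → 0 < (Lst s.length).length ∧ (Lst s.length).length ≤ s.length)
    (bad : Rule → Rule → Prop) {d i0 R : ℕ} (hd : Dom d H H') (hd' : Dom d H' H)
    (hthr : ∀ m s, i0 ≤ m → thr lf (fun s => few s fun t => bad t t) s ≤ H m s) (F : ℕ) :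
    ∀ s m, Big lf H k s m → Most lf (fun s => few s fun t => bad t t) s → i0 ≤ m → d ≤ m → 0 < m →
      R ≤ m → (s ≠ [] → R ≤ s.getD 0 0) → k + 1 ≤ s.length + F →
      (((Finset.range ((k + 1) ^ (F + 1))).filter fun j =>
        bad (out ((step lf (Gm lf H k) (k + 1))^[F] (s, j)))
          (out ((step lf (Gm lf H' k) (k + 1))^[F] (s, j)))).card : ℝ) ≤
        ((k + 1) ^ (F + 1) : ℕ) * (2 / ((R : ℝ) + 1) + 8 * d / m) := by
  induction F with
  | zero => intro s m hb _ _ _ _ _ _ h; have := hb.len; omega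
  | succ F ih =>
    intro s m hb hm h1 h2 h3 h4 h5 h6
    have hm0 : (0 : ℝ) < m := by exact_mod_cast h3
    by_cases hs : lf s
    · have hfix : ∀ G j, (step lf G (k + 1))^[F + 1] (s, j) = (s, j) := fun G j =>
        Function.iterate_fixed (by simp [step, hs]) _
      simp only [hfix, out]
      obtain ⟨hl0, hl1⟩ := hlf s hs
      set T := (k + 1) ^ (F + 1 + 1) with hT
      set L := Lst s.length with hL
      have hlT : L.length ≤ T := by
        have := hb.len
        have : k + 1 ≤ T := Nat.le_self_pow (by omega) _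
        omega
      have a1 := card_split L.length (T / L.length + 1) T hl0 (Nat.lt_mul_div_succ T hl0).le
        (fun θ _ => bad (L.getD θ default) (L.getD θ default))
      have a2 : ∑ θ ∈ Finset.range L.length, ((Finset.range (T / L.length + 1)).filter
          fun _ => bad (L.getD θ default) (L.getD θ default)).card =
          cnt L (fun t => bad t t) * (T / L.length + 1) := by
        unfold cnt
        rw [Finset.card_filter, Finset.sum_mul]
        refine Finset.sum_congr rfl fun θ _ => ?_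
        rw [Finset.filter_const]
        split_ifs <;> simp
      have a3 : (s.getD 0 0 + 1) * cnt L (fun t => bad t t) ≤ L.length := by
        rcases most_iff.1 hm with h | h
        · exact h.2
        · exact absurd hs h.1
      have a4 : R ≤ s.getD 0 0 := h5 (by rintro rfl; simp at hl1; rw [hl1] at hl0; simp at hl0)
      have a5 : (R + 1) * (cnt L (fun t => bad t t) * (T / L.length + 1)) ≤ 2 * T := by
        have := Nat.mul_div_le T L.length
        calc _ = (R + 1) * cnt L (fun t => bad t t) * (T / L.length + 1) := by ring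
          _ ≤ L.length * (T / L.length + 1) := Nat.mul_le_mul_right _
              ((Nat.mul_le_mul_right _ (by omega)).trans a3)
          _ ≤ 2 * T := by rw [mul_add]; omega
      rw [a2] at a1
      have a6 := (Nat.mul_le_mul_left (R + 1) a1).trans a5
      have a7 : (0 : ℝ) ≤ T * (8 * d / m) := by positivity
      rw [mul_add, ← mul_div_assoc]
      refine le_trans ?_ (le_add_of_nonneg_right a7)
      rw [le_div_iff₀ (by positivity), mul_comm, mul_comm (T : ℝ)]
      exact_mod_cast a6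
    · obtain ⟨g1, g2⟩ := hb.gm hs
      have g3 := Gm_dom (lf := lf) (k := k) hd s
      have g4 := Gm_dom (lf := lf) (k := k) hd' s
      have g5 := Gm_le (lf := lf) (H := H) (k := k) s
      set γ := Gm lf H k s with hγ
      set γ' := Gm lf H' k s with hγ'
      unfold phi at g1
      set N := (k + 1) ^ (F + 1) with hN
      have a1 := card_split (k + 1) N ((k + 1) ^ (F + 1 + 1)) (Nat.succ_pos k)
        (by rw [hN, pow_succ _ (F + 1), mul_comm]) (fun θ j =>
          bad (out ((step lf (Gm lf H k) (k + 1))^[F] (s ++ [pick (k + 1) γ θ], j)))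
            (out ((step lf (Gm lf H' k) (k + 1))^[F] (s ++ [pick (k + 1) γ' θ], j))))
      simp only [Function.iterate_succ_apply, step, hs, if_false]
      set D := (Finset.range (k + 1)).filter fun θ => ∃ i, min γ γ' < (k + 1 + θ) / 2 ^ i ∧
        (k + 1 + θ) / 2 ^ i ≤ min γ γ' + d with hD
      have a2 : ∀ θ ∈ Finset.range (k + 1), (((Finset.range N).filter fun j =>
          bad (out ((step lf (Gm lf H k) (k + 1))^[F] (s ++ [pick (k + 1) γ θ], j)))
            (out ((step lf (Gm lf H' k) (k + 1))^[F] (s ++ [pick (k + 1) γ' θ], j)))).card : ℝ) ≤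
          (if θ ∈ D then (N : ℝ) else 0) + N * (2 / ((R : ℝ) + 1) + 4 * d / m) := by
        intro θ hθ
        by_cases hθD : θ ∈ D
        · rw [if_pos hθD]
          refine le_trans ?_ (le_add_of_nonneg_right (by positivity))
          exact_mod_cast (Finset.card_filter_le _ _).trans (Finset.card_range N).le
        · rw [if_neg hθD, zero_add]
          have e : pick (k + 1) γ' θ = pick (k + 1) γ θ := by
            by_contra hne
            refine hθD (Finset.mem_filter.2 ⟨hθ, ?_⟩)
            rcases le_total γ γ' with h | h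
            · obtain ⟨i, b1, b2⟩ := pick_diff h hne
              exact ⟨i, by omega, by omega⟩
            · obtain ⟨i, b1, b2⟩ := pick_diff h (Ne.symm hne)
              exact ⟨i, by omega, by omega⟩
          rw [e]
          have b1 := pick_ge (M := k + 1) (γ := γ) θ (by omega)
          have b2 := hthr m s h1
          refine (ih _ γ (g2 _ (pick_le _ _ _)) (hm.child hs (by omega)) (by omega) (by omega)
            (by omega) (by omega) (fun _ => ?_) (by simp; omega)).trans ?_
          · rcases s with _ | ⟨a, s⟩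
            · simp; omega
            · simpa using h5 (by simp)
          · refine mul_le_mul_of_nonneg_left (add_le_add_right ?_ _) (by positivity)
            have : (2 : ℝ) * m ≤ γ := by exact_mod_cast (by omega : 2 * m ≤ γ)
            rw [div_le_div_iff₀ (by linarith) hm0]
            nlinarith [Nat.cast_nonneg (α := ℝ) d]
      have a3 : (D.card : ℝ) * m ≤ 4 * d * (k + 1 : ℕ) := by
        have := grid_count (k + 1) (min γ γ') d
        exact_mod_cast (Nat.mul_le_mul_left _ (by omega : m ≤ min γ γ' + 1)).trans this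
      have a4 : ∑ θ ∈ Finset.range (k + 1), (if θ ∈ D then (N : ℝ) else 0) = D.card * N := by
        rw [← Finset.sum_filter, Finset.sum_const, nsmul_eq_mul]
        congr 3
        ext θ
        exact ⟨fun h => (Finset.mem_filter.1 h).2,
          fun h => Finset.mem_filter.2 ⟨(Finset.mem_filter.1 h).1, h⟩⟩
      have a5 := Finset.sum_le_sum a2
      rw [Finset.sum_add_distrib, a4, Finset.sum_const, Finset.card_range, nsmul_eq_mul] at a5
      have a6 : (D.card : ℝ) * N ≤ (k + 1 : ℕ) * N * (4 * d / m) := by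
        have : (D.card : ℝ) ≤ (k + 1 : ℕ) * (4 * d / m) := by
          rw [← mul_div_assoc, le_div_iff₀ hm0]; linarith
        calc _ ≤ (k + 1 : ℕ) * (4 * d / m) * (N : ℝ) :=
              mul_le_mul_of_nonneg_right this (by positivity)
          _ = _ := by ring
      have a7 : (((k + 1) ^ (F + 1 + 1) : ℕ) : ℝ) = (k + 1 : ℕ) * N := by
        rw [hN, pow_succ _ (F + 1), mul_comm]; push_cast; ring
      rw [a7]
      refine le_trans (by exact_mod_cast a1) (a5.trans ?_)
      have : (8 : ℝ) * d / m = 4 * d / m + 4 * d / m := by ring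
      rw [this]; nlinarith

end Pool.Agent.Lib.MP_5ddd96_lc.H74
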