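import Pool.Agent.Lib.MP_5ddd96_lc.Sig2

/-!
Kleene separation, evaluated at a point: a uniformly `Δ¹₁` sequence of sets is read off from a
`Δ¹₁` function with closed graph.
-/

namespace Pool.Agent.EffHyp

namespace KleeneAux

open RawAux

/-- `c` is `0` if `Q` is empty and the successor of the least element of `Q` otherwise. -/
def Least (c : ℕ) (Q : ℕ → Prop) : Prop :=
  ∀ b, (Q b → 0 < c ∧ c ≤ b + 1) ∧ (c = b + 1 → Q b)

theorem Least.unique {c c' : ℕ} {Q : ℕ → Prop} (h : Least c Q) (h' : Least c' Q) : c = c' := by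
  rcases c with _ | b <;> rcases c' with _ | b'
  · rfl
  · have := (h b').1 ((h' b').2 rfl)
    omega
  · have := (h' b).1 ((h b).2 rfl)
    omega
  · have h1 := (h b').1 ((h' b').2 rfl)
    have h2 := (h' b).1 ((h b).2 rfl)
    omega

theorem exists_least (Q : ℕ → Prop) : ∃ c, Least c Q := by
  classical
  by_cases h : ∃ b, Q b
  · refine ⟨Nat.find h + 1, fun b => ⟨fun hb => ⟨Nat.succ_pos _,
      Nat.succ_le_succ (Nat.find_min' h hb)⟩, fun e => ?_⟩⟩
    have : b = Nat.find h := by omega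
    rw [this]
    exact Nat.find_spec h
  · exact ⟨0, fun b => ⟨fun hb => absurd ⟨b, hb⟩ h, fun e => by omega⟩⟩

theorem Least.eq_zero_iff {c : ℕ} {Q : ℕ → Prop} (h : Least c Q) : c = 0 ↔ ∀ b, ¬ Q b := by
  constructor
  · intro e b hb
    have := (h b).1 hb
    omega
  · intro hn
    rcases c with _ | b
    · rfl
    · exact absurd ((h b).2 rfl) (hn b)

/-- The equations for the value `Y w 0` of the node `w` and the witnesses `Y w (j + 1)`. -/
def Sol (S T : List ℕ → Prop) (Y : List ℕ → ℕ → ℕ) : Prop :=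
  ∀ w, (¬ T w → Y w 0 = 1) ∧ (T w → ¬ S w → Y w 0 = 0) ∧
    (T w → S w → Y w 1 = 0 → Y w 0 = 0) ∧ (T w → S w → ¬ Y w 1 = 0 → Y w 0 = 1) ∧
    Least (Y w 1) (fun a => Y w (a + 2) = 0) ∧
    ∀ a, Least (Y w (a + 2)) (fun b => ¬ Y (w ++ [Nat.pair a b]) 0 = 1)

/-- The child relation below the nodes lying in both trees. -/
def Child (S T : List ℕ → Prop) (w' w : List ℕ) : Prop := S w ∧ T w ∧ ∃ c, w' = w ++ [c]

/-- The least fixed point of the game operator. -/
def Win (S T : List ℕ → Prop) (w : List ℕ) : Prop :=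
  ∀ Q : List ℕ → Prop,
    (∀ v, (¬ T v ∨ (S v ∧ ∃ a, ∀ b, Q (v ++ [Nat.pair a b]))) → Q v) → Q w

theorem win_of {S T : List ℕ → Prop} {w : List ℕ}
    (h : ¬ T w ∨ (S w ∧ ∃ a, ∀ b, Win S T (w ++ [Nat.pair a b]))) : Win S T w := by
  intro Q hQ
  refine hQ w (h.imp_right ?_)
  rintro ⟨hs, a, ha⟩
  exact ⟨hs, a, fun b => ha b Q hQ⟩

theorem win_iff {S T : List ℕ → Prop} {w : List ℕ} :
    Win S T w ↔ ¬ T w ∨ (S w ∧ ∃ a, ∀ b, Win S T (w ++ [Nat.pair a b])) := by
  refine ⟨fun h => h (fun v => ¬ T v ∨ (S v ∧ ∃ a, ∀ b, Win S T (v ++ [Nat.pair a b]))) ?_,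
    win_of⟩
  intro v hv
  refine hv.imp_right ?_
  rintro ⟨hs, a, ha⟩
  exact ⟨hs, a, fun b => win_of (ha b)⟩

theorem exists_sol (S T : List ℕ → Prop) : ∃ Y, Sol S T Y := by
  classical
  choose be hbe using fun (w : List ℕ) (a : ℕ) =>
    exists_least (fun b => ¬ (if Win S T (w ++ [Nat.pair a b]) then 1 else 0) = 1)
  choose al hal using fun w : List ℕ => exists_least (fun a => be w a = 0)
  have hal0 : ∀ w, al w = 0 ↔ ¬ ∃ a, ∀ b, Win S T (w ++ [Nat.pair a b]) := by
    intro w
    rw [(hal w).eq_zero_iff, not_exists]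
    refine forall_congr' fun a => not_congr ?_
    rw [(hbe w a).eq_zero_iff]
    refine forall_congr' fun b => ?_
    by_cases h : Win S T (w ++ [Nat.pair a b]) <;> simp [h]
  refine ⟨fun w j => match j with
    | 0 => if Win S T w then 1 else 0
    | 1 => al w
    | a + 2 => be w a, fun w => ⟨?_, ?_, ?_, ?_, hal w, hbe w⟩⟩
  · intro ht
    exact if_pos (win_of (Or.inl ht))
  · intro ht hs
    refine if_neg fun h => ?_
    rcases win_iff.1 h with h | h
    · exact h ht
    · exact hs h.1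
  · intro ht _ h0
    refine if_neg fun h => ?_
    rcases win_iff.1 h with h | h
    · exact h ht
    · exact (hal0 w).1 h0 h.2
  · intro _ hs h0
    refine if_pos (win_of (Or.inr ⟨hs, ?_⟩))
    by_contra hn
    exact h0 ((hal0 w).2 hn)

theorem sol_unique {S T : List ℕ → Prop} (wf : WellFounded (Child S T))
    {Y Y' : List ℕ → ℕ → ℕ} (h : Sol S T Y) (h' : Sol S T Y') : Y = Y' := by
  have h2 : ∀ w, (∀ c, Y (w ++ [c]) 0 = Y' (w ++ [c]) 0) → ∀ a, Y w (a + 2) = Y' w (a + 2) := by
    intro w hw a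
    refine ((h w).2.2.2.2.2 a).unique ?_
    simp only [hw]
    exact (h' w).2.2.2.2.2 a
  have h1 : ∀ w, (∀ c, Y (w ++ [c]) 0 = Y' (w ++ [c]) 0) → Y w 1 = Y' w 1 := by
    intro w hw
    refine (h w).2.2.2.2.1.unique ?_
    simp only [h2 w hw]
    exact (h' w).2.2.2.2.1
  have h0 : ∀ w, Y w 0 = Y' w 0 := by
    intro w
    induction w using wf.induction with
    | _ w ih =>
      by_cases ht : T w
      · by_cases hs : S w
        · have e := h1 w fun c => ih _ ⟨hs, ht, c, rfl⟩
          by_cases hz : Y w 1 = 0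
          · rw [(h w).2.2.1 ht hs hz, (h' w).2.2.1 ht hs (e ▸ hz)]
          · rw [(h w).2.2.2.1 ht hs hz, (h' w).2.2.2.1 ht hs (e ▸ hz)]
        · rw [(h w).2.1 ht hs, (h' w).2.1 ht hs]
      · rw [(h w).1 ht, (h' w).1 ht]
  funext w j
  match j with
  | 0 => exact h0 w
  | 1 => exact h1 w fun c => h0 _
  | a + 2 => exact h2 w (fun c => h0 _) a

theorem pre_succ (z : Baire) (n : ℕ) : pre z (n + 1) = pre z n ++ [z n] := by
  rw [pre_eq, pre_eq, List.range_succ, List.map_append]
  rfl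

theorem val_one {S T : List ℕ → Prop} (wf : WellFounded (Child S T))
    {Y : List ℕ → ℕ → ℕ} (h : Sol S T Y) (z : Baire)
    (hz : ∀ w : List ℕ, w.map (fun c => c.unpair.1) = pre z w.length → S w) :
    ∀ w : List ℕ, w.map (fun c => c.unpair.1) = pre z w.length → Y w 0 = 1 := by
  intro w
  induction w using wf.induction with
  | _ w ih =>
    intro hw
    by_cases ht : T w
    · refine (h w).2.2.2.1 ht (hz w hw) fun h0 => ?_
      refine (h w).2.2.2.2.1.eq_zero_iff.1 h0 (z w.length) ?_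
      refine ((h w).2.2.2.2.2 _).eq_zero_iff.2 fun b hb => hb ?_
      refine ih _ ⟨hz w hw, ht, _, rfl⟩ ?_
      rw [List.map_append, hw, List.length_append, List.length_singleton, pre_succ]
      simp
    · exact (h w).1 ht

theorem val_zero {S T : List ℕ → Prop} (wf : WellFounded (Child S T))
    {Y : List ℕ → ℕ → ℕ} (h : Sol S T Y) (z : Baire)
    (hz : ∀ w : List ℕ, w.map (fun c => c.unpair.2) = pre z w.length → T w) :
    ∀ w : List ℕ, w.map (fun c => c.unpair.2) = pre z w.length → Y w 0 = 0 := by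
  intro w
  induction w using wf.induction with
  | _ w ih =>
    intro hw
    by_cases hs : S w
    · refine (h w).2.2.1 (hz w hw) hs ?_
      refine (h w).2.2.2.2.1.eq_zero_iff.2 fun a ha => ?_
      refine ((h w).2.2.2.2.2 a).eq_zero_iff.1 ha (z w.length) ?_
      rw [ih _ ⟨hs, hz w hw, _, rfl⟩]
      · decide
      · rw [List.map_append, hw, List.length_append, List.length_singleton, pre_succ]
        simp
    · exact (h w).2.1 (hz w hw) hs

/-- A descending chain of nodes has a limit. -/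
theorem exists_limit (f : ℕ → List ℕ) (hf : ∀ n, ∃ c, f (n + 1) = f n ++ [c]) :
    ∃ Z : Baire, ∀ m, m ≤ (f m).length ∧ (f m).take m = pre Z m := by
  have hl : ∀ n, n ≤ (f n).length := by
    intro n
    induction n with
    | zero => exact Nat.zero_le _
    | succ n ih =>
      obtain ⟨c, hc⟩ := hf n
      rw [hc, List.length_append, List.length_singleton]
      omega
  refine ⟨fun i => (f (i + 1)).getD i 0, fun m => ⟨hl m, ?_⟩⟩
  induction m with
  | zero => simp [pre]
  | succ m ih =>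
    have h1 : m < (f (m + 1)).length := hl (m + 1)
    rw [pre_succ, ← ih, List.take_succ_eq_append_getElem h1, List.getD_eq_getElem _ _ h1]
    obtain ⟨c, hc⟩ := hf m
    congr 1
    rw [hc, List.take_append_of_le_length (hl m)]

/-- The tree of attempts to find a branch. -/
def Tr (φ : List ℕ → List ℕ → Bool) (π : ℕ → ℕ) (k : ℕ) (x : Baire) (w : List ℕ) : Prop :=
  ∀ m, m ≤ w.length → φ (k :: (w.take m).map π) (pre x m) = true

theorem tr_of_branch {φ : List ℕ → List ℕ → Bool} {π : ℕ → ℕ} {k : ℕ} {x z : Baire}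
    (hz : ∀ n, φ (k :: pre z n) (pre x n) = true) (w : List ℕ)
    (hw : w.map π = pre z w.length) : Tr φ π k x w := by
  intro m hm
  rw [List.map_take, hw, take_pre z hm]
  exact hz m

theorem wf_child {φ ψ : List ℕ → List ℕ → Bool} {π ρ : ℕ → ℕ} {k : ℕ} {x : Baire}
    (h : ¬ ((∃ z : Baire, ∀ n, φ (k :: pre z n) (pre x n) = true) ∧
      ∃ z : Baire, ∀ n, ψ (k :: pre z n) (pre x n) = true)) :
    WellFounded (Child (Tr φ π k x) (Tr ψ ρ k x)) := by
  refine wellFounded_iff_isEmpty_descending_chain.2 ⟨fun ⟨f, hf⟩ => h ?_⟩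
  obtain ⟨Z, hZ⟩ := exists_limit f fun n => (hf n).2.2
  have e : ∀ (σ : ℕ → ℕ) (n : ℕ), pre (fun i => σ (Z i)) n = ((f n).take n).map σ := by
    intro σ n
    rw [(hZ n).2, pre_eq, pre_eq, List.map_map]
    rfl
  refine ⟨⟨fun i => π (Z i), fun n => ?_⟩, ⟨fun i => ρ (Z i), fun n => ?_⟩⟩
  · rw [e]
    exact (hf n).1 n (hZ n).1
  · rw [e]
    exact (hf n).2.1 n (hZ n).1

/-- The place of the entry `j` of the node `w` of the game number `k`. -/
def ix (k : ℕ) (w : List ℕ) (j : ℕ) : ℕ := Nat.pair (Nat.pair k (Encodable.encode w)) j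

theorem ix_surj (n : ℕ) : ∃ k w j, ix k w j = n := by
  refine ⟨n.unpair.1.unpair.1, Denumerable.ofNat (List ℕ) n.unpair.1.unpair.2, n.unpair.2, ?_⟩
  have e : Encodable.encode (Denumerable.ofNat (List ℕ) n.unpair.1.unpair.2) =
      n.unpair.1.unpair.2 := Denumerable.encode_ofNat _
  rw [ix, e, Nat.pair_unpair, Nat.pair_unpair]

/-- The real `y` solves all games at the point `x`. -/
def Cond (φ ψ : List ℕ → List ℕ → Bool) (x y : Baire) : Prop :=
  ∀ k, Sol (Tr φ (fun c => c.unpair.1) k x) (Tr ψ (fun c => c.unpair.2) k x)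
    (fun w j => y (ix k w j))

theorem exists_cond (φ ψ : List ℕ → List ℕ → Bool) (x : Baire) : ∃ y, Cond φ ψ x y := by
  choose Y hY using fun k => exists_sol (Tr φ (fun c => c.unpair.1) k x)
    (Tr ψ (fun c => c.unpair.2) k x)
  refine ⟨fun n => Y n.unpair.1.unpair.1
    ((Encodable.decode n.unpair.1.unpair.2 : Option (List ℕ)).getD []) n.unpair.2, fun k => ?_⟩
  simpa only [ix, Nat.unpair_pair, Encodable.encodek, Option.getD_some] using hY k

section Delta

variable {S : Type} [Coded S]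

theorem dfun_val {Y : S → Baire} {K : S → ℕ} {W : S → List ℕ} {J : S → ℕ} (hY : DFun Y)
    (hK : DFun K) (hW : DFun W) (hJ : DFun J) : DFun (fun s => Y s (ix (K s) (W s) (J s))) := by
  refine DFun.eval hY (DFun.prim₂ (φ := Nat.pair) Primrec₂.natPair.to_comp
    (DFun.prim₂ (φ := Nat.pair) Primrec₂.natPair.to_comp hK ?_) hJ)
  exact DFun.prim₁ (φ := fun w : List ℕ => Encodable.encode w) Computable.encode hW

theorem del_least {C : S → ℕ} {Q : S → ℕ → Prop} (hC : DFun C)
    (hQ : Del (fun p : S × ℕ => Q p.1 p.2)) : Del (fun s => Least (C s) (Q s)) := by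
  unfold Least
  exact Del.all (Del.and (Del.imp hQ (Del.and (Del.lt (by fun_prop) (by fun_prop))
    (Del.le (by fun_prop) (by fun_prop)))) (Del.imp (Del.eqAtom (by fun_prop) (by fun_prop)) hQ))

theorem del_tr {φ : List ℕ → List ℕ → Bool} (hφ : Computable₂ φ) {π : ℕ → ℕ} (hπ : Primrec π)
    {K : S → ℕ} {X : S → Baire} {W : S → List ℕ} (hK : DFun K) (hX : DFun X) (hW : DFun W) :
    Del (fun s => Tr φ π (K s) (X s) (W s)) := by
  unfold Tr
  refine Del.all (Del.imp (Del.le (by fun_prop) (by fun_prop))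
    (Del.test (DFun.prim₂ hφ ?_ (by fun_prop))))
  refine DFun.prim₂ (φ := List.cons) Primrec.list_cons.to_comp (by fun_prop) ?_
  have hm : Primrec (fun l : List ℕ => l.map π) :=
    Primrec.list_map Primrec.id (hπ.comp Primrec.snd).to₂
  refine DFun.prim₁ (φ := fun l : List ℕ => l.map π) hm.to_comp ?_
  exact DFun.prim₂ (φ := List.take) Primrec.list_take.to_comp (by fun_prop) (by fun_prop)

theorem del_cond {φ ψ : List ℕ → List ℕ → Bool} (hφ : Computable₂ φ) (hψ : Computable₂ ψ) :
    Del (fun p : Baire × Baire => Cond φ ψ p.1 p.2) := by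
  have hS : Del (fun q : ((Baire × Baire) × ℕ) × List ℕ =>
      Tr φ (fun c => c.unpair.1) q.1.2 q.1.1.1 q.2) :=
    del_tr hφ (Primrec.fst.comp Primrec.unpair) (by fun_prop) (by fun_prop) (by fun_prop)
  have hT : Del (fun q : ((Baire × Baire) × ℕ) × List ℕ =>
      Tr ψ (fun c => c.unpair.2) q.1.2 q.1.1.1 q.2) :=
    del_tr hψ (Primrec.snd.comp Primrec.unpair) (by fun_prop) (by fun_prop) (by fun_prop)
  have hV : ∀ j c : ℕ, Del (fun q : ((Baire × Baire) × ℕ) × List ℕ =>
      q.1.1.2 (ix q.1.2 q.2 j) = c) := fun j c =>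
    Del.eqAtom (dfun_val (by fun_prop) (by fun_prop) (by fun_prop) (by fun_prop)) (by fun_prop)
  unfold Cond Sol
  refine Del.all (Del.all (Del.and (hT.not.imp (hV 0 1)) (Del.and (hT.imp (hS.not.imp (hV 0 0)))
    (Del.and (hT.imp (hS.imp ((hV 1 0).imp (hV 0 0))))
    (Del.and (hT.imp (hS.imp ((hV 1 0).not.imp (hV 0 1)))) (Del.and (del_least ?_ ?_)
    (Del.all (del_least ?_ (Del.not ?_)))))))))
  · exact dfun_val (by fun_prop) (by fun_prop) (by fun_prop) (by fun_prop)
  · exact Del.eqAtom (dfun_val (by fun_prop) (by fun_prop) (by fun_prop) (by fun_prop))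
      (by fun_prop)
  · exact dfun_val (by fun_prop) (by fun_prop) (by fun_prop) (by fun_prop)
  · refine Del.eqAtom (dfun_val (by fun_prop) (by fun_prop) ?_ (by fun_prop)) (by fun_prop)
    refine DFun.prim₂ (φ := fun (l : List ℕ) (a : ℕ) => l ++ [a]) Primrec.list_concat.to_comp
      (by fun_prop) ?_
    exact DFun.prim₂ (φ := Nat.pair) Primrec₂.natPair.to_comp (by fun_prop) (by fun_prop)

end Delta

section Closed

variable {X : Type} [TopologicalSpace X]

/-- Clopen predicates. -/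
def Clo (P : X → Prop) : Prop := IsClopen {x | P x}

theorem Clo.not {P : X → Prop} (h : Clo P) : Clo (fun x => ¬ P x) := IsClopen.compl h

theorem Clo.and {P Q : X → Prop} (h : Clo P) (h' : Clo Q) : Clo (fun x => P x ∧ Q x) :=
  IsClopen.inter h h'

theorem Clo.imp {P Q : X → Prop} (h : Clo P) (h' : Clo Q) : Clo (fun x => P x → Q x) := by
  have := (h.and h'.not).not
  simpa only [Clo, not_and, not_not] using this

theorem clo_val (i : ℕ) (Q : ℕ → Prop) : Clo (fun p : Baire × Baire => Q (p.2 i)) :=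
  (isClopen_discrete {n | Q n}).preimage ((continuous_apply i).comp continuous_snd)

theorem closed_all {ι : Type} {P : ι → X → Prop} (h : ∀ i, IsClosed {x | P i x}) :
    IsClosed {x | ∀ i, P i x} := by
  rw [Set.ofPred_forall]
  exact isClosed_iInter h

theorem closed_least (i : ℕ) {Q : Baire × Baire → ℕ → Prop} (hQ : ∀ b, Clo (fun p => Q p b)) :
    IsClosed {p : Baire × Baire | Least (p.2 i) (Q p)} :=
  closed_all fun b => (((hQ b).imp (clo_val i fun c => 0 < c ∧ c ≤ b + 1)).and
    ((clo_val i fun c => c = b + 1).imp (hQ b))).isClosed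

theorem clo_tr (φ : List ℕ → List ℕ → Bool) (π : ℕ → ℕ) (k : ℕ) (w : List ℕ) :
    Clo (fun p : Baire × Baire => Tr φ π k p.1 w) := by
  have h : ∀ m, IsClopen {p : Baire × Baire | φ (k :: (w.take m).map π) (pre p.1 m) = true} := by
    intro m
    have hc : Continuous (fun p : Baire × Baire => fun i : Fin m => p.1 i) :=
      continuous_pi fun i => (continuous_apply (i : ℕ)).comp continuous_fst
    exact (isClopen_discrete
      {g : Fin m → ℕ | φ (k :: (w.take m).map π) (List.ofFn g) = true}).preimage hc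
  have h2 := (Set.finite_Iic w.length).isClopen_biInter fun m _ => h m
  unfold Clo Tr
  convert h2 using 1
  ext p
  simp

theorem closed_cond (φ ψ : List ℕ → List ℕ → Bool) :
    IsClosed {p : Baire × Baire | Cond φ ψ p.1 p.2} := by
  refine closed_all fun k => closed_all fun w => ?_
  have hS := clo_tr φ (fun c => c.unpair.1) k w
  have hT := clo_tr ψ (fun c => c.unpair.2) k w
  have hV : ∀ i c : ℕ, Clo (fun p : Baire × Baire => p.2 i = c) := fun i c =>
    clo_val i fun n => n = c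
  refine (hT.not.imp (hV _ 1)).isClosed.inter ((hT.imp (hS.not.imp (hV _ 0))).isClosed.inter
    ((hT.imp (hS.imp ((hV _ 0).imp (hV _ 0)))).isClosed.inter
    ((hT.imp (hS.imp ((hV _ 0).not.imp (hV _ 1)))).isClosed.inter
    ((closed_least _ fun a => hV _ 0).inter
    (closed_all fun a => closed_least _ fun b => (hV _ 1).not)))))

end Closed

theorem exists_test {P : ℕ → Baire → Prop} (hP : Sig (fun p : ℕ × Baire => P p.1 p.2)) :
    ∃ φ : List ℕ → List ℕ → Bool, Computable₂ φ ∧
      ∀ k x, P k x ↔ ∃ z : Baire, ∀ n, φ (k :: pre z n) (pre x n) = true := by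
  have h : Sig (fun p : ℕ × Baire × Baire => P p.1 p.2.1) :=
    Sig.comp (F := fun p : ℕ × Baire × Baire => (p.1, p.2.1)) hP (by fun_prop)
  obtain ⟨f, hf, h⟩ := (sig_iff_sigma11 (fun k x _ => P k x)).1 h
  refine ⟨fun c l => f (c.headI, l, l, c.tail), ?_, fun k x => h k x x⟩
  exact hf.comp ((Primrec.list_headI.comp Primrec.fst).pair (Primrec.snd.pair
    (Primrec.snd.pair (Primrec.list_tail.comp Primrec.fst)))).to_comp

end KleeneAux

open KleeneAux

theorem exists_closed_graph {P : ℕ → Baire → Prop} (hP : Del (fun p : ℕ × Baire => P p.1 p.2)) :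
    ∃ W : Baire → Baire, DFun W ∧ IsClosed {p : Baire × Baire | W p.1 = p.2} ∧
      ∃ ι : ℕ → ℕ, ∀ n x, P n x ↔ W x (ι n) = 1 := by
  obtain ⟨φ, hφ, eφ⟩ := exists_test hP.1
  obtain ⟨ψ, hψ, eψ⟩ := exists_test (P := fun k x => ¬ P k x) hP.2
  have wf : ∀ k x, WellFounded (Child (Tr φ (fun c => c.unpair.1) k x)
      (Tr ψ (fun c => c.unpair.2) k x)) := fun k x =>
    wf_child fun h => (eψ k x).2 h.2 ((eφ k x).2 h.1)
  choose W hW using exists_cond φ ψ
  have hg : ∀ x y, W x = y ↔ Cond φ ψ x y := by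
    intro x y
    refine ⟨fun e => e ▸ hW x, fun h => funext fun n => ?_⟩
    obtain ⟨k, w, j, rfl⟩ := ix_surj n
    exact congrFun (congrFun (sol_unique (wf k x) (hW x k) (h k)) w) j
  refine ⟨W, DFun.ofGraphReal ((del_cond hφ hψ).1.congr fun p => hg p.1 p.2), ?_,
    fun k => ix k [] 0, fun k x => ?_⟩
  · simp only [hg]
    exact closed_cond φ ψ
  · constructor
    · intro h
      obtain ⟨z, hz⟩ := (eφ k x).1 h
      exact val_one (wf k x) (hW x k) z (tr_of_branch hz) [] rfl
    · intro h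
      by_contra hn
      obtain ⟨z, hz⟩ := (eψ k x).1 hn
      have h0 : W x (ix k [] 0) = 0 := val_zero (wf k x) (hW x k) z (tr_of_branch hz) [] rfl
      exact absurd (h0.symm.trans h) (by decide)

end Pool.Agent.EffHyp
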