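import Pool.Agent.Lib.MP_5ddd96_lc.Sys

/-!
The sequence `Sys.F` is an increasing sequence of finite equivalence relations exhausting the orbits.
-/

namespace Pool.Agent.EffHyp

namespace RainbowAux

open Sys

variable {k : ℕ} (A : Sys k)

theorem act_append (v w : List (Fin k)) (x : Baire) : A.act (v ++ w) x = A.act v (A.act w x) := by
  simp [Sys.act, List.foldr_append]

theorem exists_inv (w : List (Fin k)) :
    ∃ w' : List (Fin k), w'.length = w.length ∧ ∀ x, A.act w' (A.act w x) = x := by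
  induction w with
  | nil => exact ⟨[], rfl, fun _ => rfl⟩
  | cons s w ih =>
    obtain ⟨w', h1, h2⟩ := ih
    obtain ⟨s', hs⟩ := A.inv s
    refine ⟨w' ++ [s'], by simp [h1], fun x => ?_⟩
    rw [act_append]
    have : A.act [s'] (A.act (s :: w) x) = A.act w x := hs _
    rw [this, h2]

variable {A}

theorem near_refl (r : ℕ) (x : Baire) : A.near r x x := ⟨[], Nat.zero_le _, rfl⟩

theorem near_symm {r : ℕ} {x y : Baire} (h : A.near r x y) : A.near r y x := by
  obtain ⟨w, h1, rfl⟩ := h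
  obtain ⟨w', k1, k2⟩ := exists_inv A w
  exact ⟨w', k1.trans_le h1, k2 x⟩

theorem near_trans {r s : ℕ} {x y z : Baire} (h : A.near r x y) (h' : A.near s y z) :
    A.near (r + s) x z := by
  obtain ⟨w, h1, rfl⟩ := h
  obtain ⟨v, k1, rfl⟩ := h'
  refine ⟨v ++ w, ?_, act_append A v w x⟩
  rw [List.length_append]
  omega

theorem near_mono {r s : ℕ} {x y : Baire} (h : A.near r x y) (hrs : r ≤ s) : A.near s x y := by
  obtain ⟨w, h1, h2⟩ := h
  exact ⟨w, h1.trans hrs, h2⟩

theorem near_finite (r : ℕ) (x : Baire) : {y | A.near r x y}.Finite :=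
  ((List.finite_length_le (Fin k) r).image fun w => A.act w x).subset
    fun _ ⟨w, h1, h2⟩ => ⟨w, h1, h2⟩

theorem near_lam (p : ℕ) (u : Baire) : A.near (bd p) u (A.lam p u) :=
  ⟨word k p (pre u p.unpair.2.unpair.1), List.length_take_le _ _, rfl⟩

/-- Being in the same orbit. -/
def Orb (A : Sys k) (x y : Baire) : Prop := ∃ r, A.near r x y

theorem Orb.symm {x y : Baire} (h : Orb A x y) : Orb A y x :=
  let ⟨r, h⟩ := h
  ⟨r, near_symm h⟩

theorem Orb.trans {x y z : Baire} (h : Orb A x y) (h' : Orb A y z) : Orb A x z :=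
  let ⟨_, h⟩ := h
  let ⟨_, h'⟩ := h'
  ⟨_, near_trans h h'⟩

theorem G_mono {m n : ℕ} {x y : Baire} (h : A.G m x y) (hmn : m ≤ n) : A.G n x y := by
  induction hmn with
  | refl => exact h
  | step _ ih => exact A.G_succ _ _ _ ih

theorem good_of_orb {x y : Baire} (h : Orb A x y) {p n ρ : ℕ} (hxy : A.G n x y)
    (hg : A.Good p n ρ x) : A.Good p n ρ y := by
  obtain ⟨_, u, _, rfl⟩ := h
  intro w hw
  rw [← act_append] at hw ⊢
  exact hg _ ((A.G_equiv n).trans hxy hw)

theorem bnd_eq {x y : Baire} (h : Orb A x y) (n ρ : ℕ) : A.bnd n ρ x = A.bnd n ρ y := by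
  have key : ∀ {x y : Baire}, Orb A x y → ∀ R,
      (∀ w : List (Fin k), ∃ p : ℕ, bd p ≤ R ∧ A.Good p n ρ (A.act w x)) →
      ∀ w : List (Fin k), ∃ p : ℕ, bd p ≤ R ∧ A.Good p n ρ (A.act w y) := by
    rintro x y ⟨_, u, _, rfl⟩ R hR w
    rw [← act_append]
    exact hR _
  have : {R | ∀ w : List (Fin k), ∃ p : ℕ, bd p ≤ R ∧ A.Good p n ρ (A.act w x)} =
      {R | ∀ w : List (Fin k), ∃ p : ℕ, bd p ≤ R ∧ A.Good p n ρ (A.act w y)} :=
    Set.ext fun R => ⟨key h R, key h.symm R⟩
  rw [Sys.bnd, Sys.bnd, this]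

theorem best_eq {x y : Baire} (h : Orb A x y) {n : ℕ} (hxy : A.G n x y) (ρ : ℕ) :
    A.best n ρ x = A.best n ρ y := by
  have : {p | bd p ≤ A.bnd n ρ x ∧ A.Good p n ρ x} = {p | bd p ≤ A.bnd n ρ y ∧ A.Good p n ρ y} := by
    rw [bnd_eq h]
    exact Set.ext fun _ => and_congr_right fun _ =>
      ⟨good_of_orb h hxy, good_of_orb h.symm ((A.G_equiv n).symm hxy)⟩
  rw [Sys.best, Sys.best, this]

theorem diam_eq {x y : Baire} (h : Orb A x y) (n : ℕ) : A.diam x n = A.diam y n := by
  induction n with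
  | zero => rfl
  | succ n ih => rw [Sys.diam, Sys.diam, ih, bnd_eq h]

theorem rad_eq {x y : Baire} (h : Orb A x y) (n : ℕ) : A.rad x n = A.rad y n := by
  rw [Sys.rad, Sys.rad, diam_eq h]

theorem code_eq {x y : Baire} (h : Orb A x y) {n : ℕ} (hxy : A.G n x y) :
    A.code x n = A.code y n := by
  rw [Sys.code, Sys.code, rad_eq h, best_eq h hxy]

/-- Good tables exist, with a displacement bound that is uniform on each orbit. -/
def HasTables (A : Sys k) : Prop :=
  ∀ x n ρ, ∃ R, ∀ w : List (Fin k), ∃ p : ℕ, bd p ≤ R ∧ A.Good p n ρ (A.act w x)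

theorem best_spec (hG : HasTables A) (x : Baire) (n ρ : ℕ) :
    bd (A.best n ρ x) ≤ A.bnd n ρ x ∧ A.Good (A.best n ρ x) n ρ x :=
  Nat.sInf_mem (s := {p | bd p ≤ A.bnd n ρ x ∧ A.Good p n ρ x})
    (Nat.sInf_mem (s := {R | ∀ w : List (Fin k), ∃ p : ℕ, bd p ≤ R ∧ A.Good p n ρ (A.act w x)})
      (hG x n ρ) [])

theorem step_symm {i n : ℕ} {x y : Baire} (h : A.Step i n x y) : A.Step i n y x :=
  let ⟨m, h1, h2, hg, h3⟩ := h
  ⟨m, h1, near_symm h2, (A.G_equiv m).symm hg, h3.symm⟩

theorem rel_symm {i n : ℕ} {x y : Baire} (h : A.Rel i n x y) : A.Rel i n y x := by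
  induction h with
  | refl => exact Relation.ReflTransGen.refl
  | tail _ hs ih => exact Relation.ReflTransGen.head (step_symm hs) ih

theorem rel_mono {i n n' : ℕ} {x y : Baire} (h : A.Rel i n x y) (hn : n ≤ n') :
    A.Rel i n' x y := by
  induction h with
  | refl => exact Relation.ReflTransGen.refl
  | tail _ hs ih =>
    obtain ⟨m, h1, h2⟩ := hs
    exact Relation.ReflTransGen.tail ih ⟨m, h1.trans_le hn, h2⟩

theorem orb_of_rel {i n : ℕ} {x y : Baire} (h : A.Rel i n x y) : Orb A x y := by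
  induction h with
  | refl => exact ⟨0, near_refl 0 _⟩
  | tail _ hs ih =>
    obtain ⟨m, _, h2, _⟩ := hs
    exact ih.trans ⟨m, h2⟩

theorem G_of_rel {i n n' : ℕ} {x y : Baire} (h : A.Rel i n x y) (hn : n ≤ n' + 1) :
    A.G n' x y := by
  induction h with
  | refl => exact (A.G_equiv n').refl _
  | tail _ hs ih =>
    obtain ⟨m, h1, _, h2, _⟩ := hs
    exact (A.G_equiv n').trans ih (G_mono h2 (by omega))

theorem full_of_orb {x y : Baire} (h : Orb A x y) {i : ℕ} (hf : A.Full i x) : A.Full i y := by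
  obtain ⟨_, u, _, rfl⟩ := h
  intro w
  obtain ⟨n, hn⟩ := hf u
  obtain ⟨m, hm⟩ := hf (w ++ u)
  rw [act_append] at hm
  exact ⟨max n m, Relation.ReflTransGen.trans (rel_symm (rel_mono hn (le_max_left _ _)))
    (rel_mono hm (le_max_right _ _))⟩

theorem col_eq {x y : Baire} (h : Orb A x y) : A.col x = A.col y := by
  have : {i | A.Full i x} = {i | A.Full i y} :=
    Set.ext fun _ => ⟨full_of_orb h, full_of_orb h.symm⟩
  rw [Sys.col, Sys.col, this]

/-- The values of `lam p` on the ball of radius `t`. -/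
def Lev (A : Sys k) (p t : ℕ) (a : Baire) : Set Baire := A.lam p '' {u | A.near t a u}

theorem lev_sub {p r s t : ℕ} {a a' : Baire} (h : A.near r a a') (hst : r + s ≤ t) :
    Lev A p s a' ⊆ Lev A p t a :=
  Set.image_mono fun _ hu => near_mono (near_trans h hu) hst

theorem lev_mono {p s t : ℕ} (a : Baire) (hst : s ≤ t) : Lev A p s a ⊆ Lev A p t a :=
  lev_sub (near_refl 0 a) (by omega)

theorem lev_finite (p t : ℕ) (a : Baire) : (Lev A p t a).Finite := (near_finite t a).image _

theorem col_iff {i n : ℕ} {a : Baire} : A.Col i n a ↔ i < A.N ∧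
    Lev A (A.code a n) ((2 * i + 2) * A.rad a n) a ⊆ Lev A (A.code a n) (2 * i * A.rad a n) a := by
  refine and_congr_right fun _ => ⟨fun h => ?_, fun h v hv => ?_⟩
  · rintro _ ⟨_, ⟨v, hv, rfl⟩, rfl⟩
    obtain ⟨v', h1, h2⟩ := h v hv
    exact ⟨_, ⟨v', h1, rfl⟩, h2.symm⟩
  · obtain ⟨_, ⟨v', h1, rfl⟩, h2⟩ := h ⟨_, ⟨v, hv, rfl⟩, rfl⟩
    exact ⟨v', h1, h2.symm⟩

theorem lab_eq {p r i : ℕ} {a a' : Baire}
    (hc : Lev A p ((2 * i + 2) * r) a ⊆ Lev A p (2 * i * r) a) (h : A.near r a a') :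
    Lev A p ((2 * i + 1) * r) a' = Lev A p ((2 * i + 1) * r) a := by
  refine Set.Subset.antisymm ?_ ?_
  · exact ((lev_sub h (le_of_eq (by ring))).trans hc).trans (lev_mono a (by nlinarith))
  · exact ((lev_mono a (by nlinarith)).trans hc).trans
      (lev_sub (near_symm h) (le_of_eq (by ring)))

theorem key (hG : HasTables A) (i n : ℕ) :
    ∀ x y : Baire, A.Rel i n x y → A.near (A.diam x n) x y := by
  induction n with
  | zero =>
    intro x y h
    induction h with
    | refl => exact near_refl _ _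
    | tail _ hs _ =>
      obtain ⟨m, h1, _⟩ := hs
      omega
  | succ n ih =>
    intro x y h
    have W : A.Rel i n x y ∨ ∃ a a' x' y', A.Col i n a ∧ A.Col i n a' ∧
        Lev A (A.code x n) ((2 * i + 1) * A.rad x n) a =
          Lev A (A.code x n) ((2 * i + 1) * A.rad x n) a' ∧
        A.Rel i n x x' ∧ A.near n x' a ∧ A.Rel i n y y' ∧ A.near n y' a' ∧ A.G n x a' := by
      induction h with
      | refl => exact Or.inl Relation.ReflTransGen.refl
      | @tail y z hy hs ihw =>
        obtain ⟨m, h1, h2, hg, h3⟩ := hs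
        rcases Nat.lt_succ_iff_lt_or_eq.1 h1 with hm | rfl
        · have hyz : A.Step i n y z := ⟨m, hm, h2, hg, h3⟩
          rcases ihw with hw | ⟨a, a', x', y', c1, c2, c3, c4, c5, c6, c7, c8⟩
          · exact Or.inl (Relation.ReflTransGen.tail hw hyz)
          · exact Or.inr ⟨a, a', x', y', c1, c2, c3, c4, c5,
              Relation.ReflTransGen.head (step_symm hyz) c6, c7, c8⟩
        · have gy : A.G m x y := G_of_rel hy le_rfl
          obtain ⟨b, hb, hyb, hzb, gb⟩ :
              ∃ b, A.Col i m b ∧ A.near m y b ∧ A.near m z b ∧ A.G m x b := by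
            rcases h3 with h3 | h3
            · exact ⟨y, h3, near_refl _ _, near_symm h2, gy⟩
            · exact ⟨z, h3, h2, near_refl _ _, (A.G_equiv m).trans gy hg⟩
          rcases ihw with hw | ⟨a, a', x', y', c1, c2, c3, c4, c5, c6, c7, c8⟩
          · exact Or.inr ⟨b, b, y, z, hb, hb, rfl, hw, hyb, Relation.ReflTransGen.refl, hzb, gb⟩
          · have oy : Orb A x y := orb_of_rel hy
            have oa : Orb A x a' := (oy.trans (orb_of_rel c6)).trans ⟨_, c7⟩
            have d1 := near_symm (ih y y' c6)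
            rw [← diam_eq oy] at d1
            have d2 : A.near (A.rad x m) a' b :=
              near_mono (near_trans (near_trans (near_symm c7) d1) hyb)
                (by rw [Sys.rad]; omega)
            have hc := (col_iff.1 c2).2
            rw [← code_eq oa c8, ← rad_eq oa] at hc
            exact Or.inr ⟨a, b, x', z, c1, hb, c3.trans (lab_eq hc d2).symm, c4, c5,
              Relation.ReflTransGen.refl, hzb, gb⟩
    have e : A.diam x (n + 1) = 2 * A.diam x n + 2 * n + 2 * A.N * A.rad x n +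
        2 * A.bnd n (2 * A.N * A.rad x n) x := rfl
    have eb : bd (A.code x n) ≤ A.bnd n (2 * A.N * A.rad x n) x := (best_spec hG x n _).1
    rcases W with hw | ⟨a, a', x', y', c1, _, c3, c4, c5, c6, c7, -⟩
    · exact near_mono (ih x y hw) (by omega)
    · have d1 := near_symm (ih y y' c6)
      rw [← diam_eq (orb_of_rel h)] at d1
      have hm : A.lam (A.code x n) a ∈ Lev A (A.code x n) ((2 * i + 1) * A.rad x n) a :=
        ⟨a, near_refl _ _, rfl⟩
      rw [c3] at hm
      obtain ⟨u, hu, hl⟩ := hm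
      have d2 : A.near (bd (A.code x n)) (A.lam (A.code x n) a) u := by
        rw [← hl]
        exact near_symm (near_lam _ u)
      have hi : (2 * i + 1) * A.rad x n ≤ 2 * A.N * A.rad x n :=
        Nat.mul_le_mul_right _ (by have := c1.1; omega)
      refine near_mono (near_trans (near_trans (near_trans (near_trans (near_trans
        (near_trans (ih x x' c4) c5) (near_lam (A.code x n) a)) d2) (near_symm hu))
        (near_symm c7)) d1) ?_
      omega

theorem exists_col (hG : HasTables A) (x : Baire) (n : ℕ) : ∃ i, A.Col i n x := by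
  by_contra hno
  have hg : A.Good (A.code x n) n (2 * A.N * A.rad x n) x := (best_spec hG x n _).2
  obtain ⟨L, hL⟩ := hg [] ((A.G_equiv n).refl x)
  have up : (Lev A (A.code x n) (2 * A.N * A.rad x n) x).ncard ≤ A.N := by
    have hs : Lev A (A.code x n) (2 * A.N * A.rad x n) x ⊆
        (fun i => A.act (L.getD i []) x) '' (Finset.range A.N : Set ℕ) := by
      rintro _ ⟨_, ⟨v, hv, rfl⟩, rfl⟩
      obtain ⟨i, h1, h2⟩ := hL v hv
      exact ⟨i, by simpa using h1, h2.symm⟩
    refine (Set.ncard_le_ncard hs ((Finset.finite_toSet _).image _)).trans ?_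
    refine (Set.ncard_image_le (Finset.finite_toSet _)).trans ?_
    simp
  have low : ∀ i, i ≤ A.N → i + 1 ≤ (Lev A (A.code x n) (2 * i * A.rad x n) x).ncard := by
    intro i
    induction i with
    | zero =>
      intro _
      exact (Set.ncard_pos (lev_finite _ _ _)).2 ⟨_, x, near_refl _ _, rfl⟩
    | succ i ih =>
      intro hi
      have h1 := ih (by omega)
      have h2 : Lev A (A.code x n) (2 * i * A.rad x n) x ⊂
          Lev A (A.code x n) ((2 * i + 2) * A.rad x n) x :=
        ⟨lev_mono x (by nlinarith), fun hc => hno ⟨i, col_iff.2 ⟨by omega, hc⟩⟩⟩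
      have h3 := Set.ncard_lt_ncard h2 (lev_finite _ _ _)
      have e : 2 * (i + 1) = 2 * i + 2 := by ring
      rw [e]
      omega
  have := low A.N le_rfl
  omega

theorem full_col (hG : HasTables A) (hc : ∀ x w, ∃ n, A.G n x (A.act w x)) (x : Baire) :
    A.Full (A.col x) x := by
  have h : ∃ i, ∀ m, ∃ n, m ≤ n ∧ A.Col i n x := by
    by_contra hno
    have hno' : ∀ i, ∃ m, ∀ n, m ≤ n → ¬ A.Col i n x := by
      intro i
      by_contra hc
      refine hno ⟨i, fun m => ?_⟩
      by_contra hc'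
      exact hc ⟨m, fun n hn hcol => hc' ⟨n, hn, hcol⟩⟩
    choose m hm using hno'
    obtain ⟨i, hi⟩ := exists_col hG x ((Finset.range A.N).sup m)
    exact hm i _ (Finset.le_sup (Finset.mem_range.2 hi.1)) hi
  obtain ⟨i, hi⟩ := h
  refine Nat.sInf_mem (s := {i | A.Full i x}) ⟨i, fun w => ?_⟩
  obtain ⟨n₀, h0⟩ := hc x w
  obtain ⟨n, h1, h2⟩ := hi (max w.length n₀)
  exact ⟨n + 1, Relation.ReflTransGen.single ⟨n, Nat.lt_succ_self n,
    ⟨w, (le_max_left _ _).trans h1, rfl⟩, G_mono h0 ((le_max_right _ _).trans h1), Or.inl h2⟩⟩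

end RainbowAux

namespace Sys

variable {k : ℕ} (A : Sys k)

open RainbowAux in
theorem rainbow
    (hG : ∀ x n ρ, ∃ R, ∀ w : List (Fin k), ∃ p : ℕ, bd p ≤ R ∧ A.Good p n ρ (A.act w x))
    (hc : ∀ x w, ∃ n, A.G n x (A.act w x)) :
    FiniteChain A.F ∧ ∀ x y, (∃ w, A.act w x = y) ↔ ∃ n, A.F n x y := by
  refine ⟨⟨fun n => ⟨fun x => Relation.ReflTransGen.refl, fun {x y} h => ?_,
    fun {x y z} h h' => ?_⟩, fun n x => ?_, fun n x y h => rel_mono h (Nat.le_succ n)⟩,
    fun x y => ⟨?_, ?_⟩⟩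
  · have h1 : A.Rel (A.col x) n x y := h
    show A.Rel (A.col y) n y x
    rw [← col_eq (orb_of_rel h1)]
    exact rel_symm h1
  · have h1 : A.Rel (A.col x) n x y := h
    have h2 : A.Rel (A.col y) n y z := h'
    rw [← col_eq (orb_of_rel h1)] at h2
    exact Relation.ReflTransGen.trans h1 h2
  · exact (near_finite (A.diam x n) x).subset fun y hy => key hG _ n x y hy
  · rintro ⟨w, rfl⟩
    exact full_col hG hc x w
  · rintro ⟨n, h⟩
    obtain ⟨_, w, _, hw⟩ := orb_of_rel h
    exact ⟨w, hw⟩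

end Sys

end Pool.Agent.EffHyp
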