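import Pool.Agent.Lib.MP_5ddd96_lc.Basic

/-!
A minimax statement on a compact space (Hahn-Banach and the Riesz representation theorem).
-/

namespace Pool.Agent.EffHyp

open MeasureTheory

namespace MinimaxAux

open scoped CompactlySupported

/-- A positive linear functional on `C(Z, ℝ)` is integration against a finite measure. -/
theorem riesz {Z : Type} [TopologicalSpace Z] [CompactSpace Z] [T2Space Z] [MeasurableSpace Z]
    [BorelSpace Z] (f : C(Z, ℝ) →ₗ[ℝ] ℝ) (hf : ∀ ψ : C(Z, ℝ), (∀ z, 0 ≤ ψ z) → 0 ≤ f ψ) :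
    ∃ μ : Measure Z, IsFiniteMeasure μ ∧ ∀ φ : C(Z, ℝ), ∫ z, φ z ∂μ = f φ := by
  let L : C_c(Z, ℝ) →ₗ[ℝ] ℝ :=
    { toFun := fun g => f g.toContinuousMap
      map_add' := fun g g' => by
        rw [← map_add]
        rfl
      map_smul' := fun c g => by
        rw [RingHom.id_apply, ← map_smul]
        rfl }
  let Λ : C_c(Z, ℝ) →ₚ[ℝ] ℝ := PositiveLinearMap.mk₀ L (fun g hg => hf _ (fun z => hg z))
  refine ⟨RealRMK.rieszMeasure Λ, inferInstance, fun φ => ?_⟩
  let g : C_c(Z, ℝ) := ⟨φ, HasCompactSupport.of_compactSpace _⟩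
  exact RealRMK.integral_rieszMeasure Λ g

end MinimaxAux

theorem minimax {Z : Type} [TopologicalSpace Z] [CompactSpace Z] [T2Space Z] [MeasurableSpace Z]
    [BorelSpace Z] (C : Set C(Z, ℝ)) (hC : Convex ℝ C) (hne : C.Nonempty) (η : ℝ) (hη : 0 < η)
    (h : ∀ ν : Measure Z, IsProbabilityMeasure ν → ∃ φ ∈ C, ∫ z, φ z ∂ν < η) :
    ∃ φ ∈ C, ∀ z, φ z < η := by
  by_contra hcon
  let U : Set C(Z, ℝ) := {φ | ∀ z, φ z < η}
  have hUc : Convex ℝ U := by
    intro a ha b hb s t hs ht hst z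
    have h1 : a z < η := ha z
    have h2 : b z < η := hb z
    simp only [ContinuousMap.add_apply, ContinuousMap.smul_apply, smul_eq_mul]
    rcases hs.eq_or_lt with rfl | hs'
    · have : t = 1 := by linarith
      subst this
      linarith
    · have h3 : s * a z < s * η := mul_lt_mul_of_pos_left h1 hs'
      have h4 : t * b z ≤ t * η := mul_le_mul_of_nonneg_left h2.le ht
      have h5 : s * η + t * η = η := by rw [← add_mul, hst, one_mul]
      linarith
  have hUo : IsOpen U := by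
    have := ContinuousMap.isOpen_setOfPred_mapsTo (X := Z) (Y := ℝ) isCompact_univ
      (isOpen_Iio (a := η))
    convert this using 1
    ext φ
    simp [U, Set.MapsTo]
  have hdis : Disjoint U C := by
    rw [Set.disjoint_left]
    intro φ hφ hφC
    exact hcon ⟨φ, hφC, hφ⟩
  obtain ⟨f, u, hfU, hfC⟩ := geometric_hahn_banach_open hUc hUo hC hdis
  have hu : 0 < u := by
    have := hfU 0 (fun z => by simpa using hη)
    simpa using this
  have hpos : ∀ ψ : C(Z, ℝ), (∀ z, 0 ≤ ψ z) → 0 ≤ f ψ := by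
    intro ψ hψ
    by_contra hneg
    have hneg' : f ψ < 0 := lt_of_not_ge hneg
    have ht : 0 ≤ u / (-f ψ) := div_nonneg hu.le (by linarith)
    have hmem : (-(u / (-f ψ))) • ψ ∈ U := by
      intro z
      simp only [ContinuousMap.smul_apply, smul_eq_mul]
      have := mul_nonneg ht (hψ z)
      linarith
    have h1 := hfU _ hmem
    rw [map_smul, smul_eq_mul] at h1
    have h2 : -(u / -f ψ) * f ψ = u := by
      have : f ψ ≠ 0 := hneg'.ne
      field_simp
    linarith
  obtain ⟨μ, hμ, hint⟩ := MinimaxAux.riesz (f : C(Z, ℝ) →ₗ[ℝ] ℝ) hpos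
  have hint' : ∀ φ : C(Z, ℝ), ∫ z, φ z ∂μ = f φ := hint
  have hone : f 1 = μ.real Set.univ := by
    rw [← hint' 1]
    simp
  have hμ0 : μ ≠ 0 := by
    rintro rfl
    obtain ⟨b, hb⟩ := hne
    have h1 := hfC b hb
    rw [← hint' b] at h1
    simp at h1
    linarith
  have : NeZero μ := ⟨hμ0⟩
  have hm : 0 < μ.real Set.univ := measureReal_univ_pos
  have hle : η * μ.real Set.univ ≤ u := by
    by_contra hlt
    have hlt' : u < η * μ.real Set.univ := lt_of_not_ge hlt
    have hmem : (u / μ.real Set.univ) • (1 : C(Z, ℝ)) ∈ U := by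
      intro z
      simp only [ContinuousMap.smul_apply, ContinuousMap.one_apply, smul_eq_mul, mul_one]
      rwa [div_lt_iff₀ hm]
    have h1 := hfU _ hmem
    rw [map_smul, smul_eq_mul, hone, div_mul_cancel₀ _ hm.ne'] at h1
    exact lt_irrefl _ h1
  obtain ⟨φ, hφ, hlt⟩ := h ((μ Set.univ)⁻¹ • μ) inferInstance
  rw [integral_smul_measure, hint' φ, smul_eq_mul, ENNReal.toReal_inv] at hlt
  have h2 := hfC φ hφ
  have h3 : (μ Set.univ).toReal = μ.real Set.univ := rfl
  rw [h3, inv_mul_lt_iff₀ hm] at hlt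
  linarith [mul_comm η (μ.real Set.univ)]

end Pool.Agent.EffHyp
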