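import Pool.Agent.Lib.MP_5ddd96_lc.Approx
import Pool.Agent.Lib.MP_5ddd96_lc.Minimax

/-!
Locally constant Reiter functions on compact sets.
-/

namespace Pool.Agent.EffHyp

open MeasureTheory Filter Topology

namespace ReiterAux

open Classical in
/-- The uniform probability on a finite set. -/
noncomputable def avg {Γ : Type} (s : Finset Γ) (Y : Set Γ) : ℝ :=
  ((s.filter (fun a => a ∈ Y)).card : ℝ) / (s.card : ℝ)

theorem fap_le_one {Γ : Type} {m : Set Γ → ℝ} (hm : IsFAP m) (Y : Set Γ) : m Y ≤ 1 := by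
  have h := hm.add Y Yᶜ disjoint_compl_right
  rw [Set.union_compl_self, hm.univ] at h
  linarith [hm.nonneg Yᶜ]

theorem avg_fap {Γ : Type} (s : Finset Γ) (hs : s.Nonempty) : IsFAP (avg s) := by
  classical
  have hpos : (0 : ℝ) < s.card := by exact_mod_cast hs.card_pos
  refine ⟨fun Y => ?_, fun Y Y' hd => ?_, ?_⟩
  · unfold avg
    positivity
  · unfold avg
    rw [← add_div, ← Nat.cast_add, ← Finset.card_union_of_disjoint]
    · congr 3
      ext a
      simp only [Finset.mem_filter, Finset.mem_union, Set.mem_union]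
      tauto
    · rw [Finset.disjoint_left]
      intro a ha hb
      rw [Finset.mem_filter] at ha hb
      exact Set.disjoint_left.1 hd ha.2 hb.2
  · unfold avg
    rw [div_eq_one_iff_eq hpos.ne']
    congr 2
    ext a
    simp

theorem avg_shift {Γ : Type} [Group Γ] (s t : Finset Γ) (g : Γ)
    (h : ∀ a, a * g ∈ s ↔ a ∈ t) (Y : Set Γ) : avg s Y = avg t {a | a * g ∈ Y} := by
  classical
  have h' : ∀ b, b ∈ s ↔ b * g⁻¹ ∈ t := fun b => by
    rw [← h, inv_mul_cancel_right]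
  unfold avg
  congr 2
  · refine Finset.card_nbij' (fun b => b * g⁻¹) (fun a => a * g) ?_ ?_ ?_ ?_
    · intro b hb
      simp only [Finset.coe_filter, Set.mem_ofPred_eq] at hb ⊢
      exact ⟨(h' b).1 hb.1, by rw [inv_mul_cancel_right]; exact hb.2⟩
    · intro a ha
      simp only [Finset.coe_filter, Set.mem_ofPred_eq] at ha ⊢
      exact ⟨(h a).2 ha.1, ha.2⟩
    · intro b _
      simp
    · intro a _
      simp
  · refine Finset.card_nbij' (fun b => b * g⁻¹) (fun a => a * g) ?_ ?_ ?_ ?_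
    · intro b hb
      exact (h' b).1 hb
    · intro a ha
      exact (h a).2 ha
    · intro b _
      simp
    · intro a _
      simp

theorem fap_mix {Γ : Type} {m₁ m₂ : Set Γ → ℝ} (h₁ : IsFAP m₁) (h₂ : IsFAP m₂) {a b : ℝ}
    (ha : 0 ≤ a) (hb : 0 ≤ b) (hab : a + b = 1) : IsFAP (fun Y => a * m₁ Y + b * m₂ Y) := by
  refine ⟨fun Y => ?_, fun Y Y' hd => ?_, ?_⟩
  · exact add_nonneg (mul_nonneg ha (h₁.nonneg Y)) (mul_nonneg hb (h₂.nonneg Y))
  · rw [h₁.add Y Y' hd, h₂.add Y Y' hd]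
    ring
  · rw [h₁.univ, h₂.univ]
    linarith

theorem bad_clopen {Γ : Type} [Group Γ] {X : Type} [TopologicalSpace X] [MulAction Γ X]
    [ContinuousConstSMul Γ X] (τ : X → Finset Γ) (hτ : IsLocallyConstant τ) (T : Finset Γ) :
    IsClopen {x : X | ∃ g ∈ T, ∃ a : Γ, ¬ (a * g ∈ τ x ↔ a ∈ τ (g • x))} := by
  have hlc : IsLocallyConstant
      (fun x : X => ∃ g ∈ T, ∃ a : Γ, ¬ (a * g ∈ τ x ↔ a ∈ τ (g • x))) := by
    rw [IsLocallyConstant.iff_eventually_eq]
    intro x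
    have h1 : ∀ᶠ y in 𝓝 x, τ y = τ x := hτ.eventually_eq x
    have h2 : ∀ᶠ y in 𝓝 x, ∀ g ∈ T, τ (g • y) = τ (g • x) := by
      rw [Filter.eventually_all_finset]
      intro g _
      exact (hτ.comp_continuous (continuous_const_smul g)).eventually_eq x
    filter_upwards [h1, h2] with y hy1 hy2
    refine propext ⟨?_, ?_⟩
    · rintro ⟨g, hg, a, ha⟩
      exact ⟨g, hg, a, by rwa [hy1, hy2 g hg] at ha⟩
    · rintro ⟨g, hg, a, ha⟩
      exact ⟨g, hg, a, by rwa [hy1, hy2 g hg]⟩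
  have h := hlc.isClopen_fiber True
  simpa only [eq_iff_iff, iff_true] using h

end ReiterAux

open ReiterAux in
theorem exists_reiter {Γ : Type} [Group Γ] [Countable Γ] (X : Set Baire) [MulAction Γ X]
    [ContinuousConstSMul Γ X] (hfree : ∀ (g : Γ) (x : X), g • x = x → g = 1)
    (hE : MeasureHyperfinite (OrbitRel Γ X)) (K : Set X) (hK : IsCompact K) (T : Finset Γ)
    (η : ℝ) (hη : 0 < η) :
    ∃ m : X → Set Γ → ℝ, IsLocallyConstant m ∧ (∀ x, IsFAP (m x)) ∧
      ∀ x ∈ K, ∀ g ∈ T, ∀ Y : Set Γ, m x Y ≤ m (g • x) {a | a * g ∈ Y} + η := by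
  classical
  have : CompactSpace K := isCompact_iff_compactSpace.1 hK
  let C : Set C(K, ℝ) := {φ | ∃ m : X → Set Γ → ℝ, IsLocallyConstant m ∧ (∀ x, IsFAP (m x)) ∧
    ∀ z : K, ∀ g ∈ T, ∀ Y : Set Γ, m z Y ≤ m (g • (z : X)) {a | a * g ∈ Y} + φ z}
  have hC : Convex ℝ C := by
    rintro φ₁ ⟨m₁, hl₁, hf₁, hb₁⟩ φ₂ ⟨m₂, hl₂, hf₂, hb₂⟩ a b ha hb hab
    refine ⟨fun x Y => a * m₁ x Y + b * m₂ x Y, ?_, fun x => fap_mix (hf₁ x) (hf₂ x) ha hb hab,
      fun z g hg Y => ?_⟩
    · exact hl₁.comp₂ hl₂ (fun u v Y => a * u Y + b * v Y)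
    · have e₁ := mul_le_mul_of_nonneg_left (hb₁ z g hg Y) ha
      have e₂ := mul_le_mul_of_nonneg_left (hb₂ z g hg Y) hb
      simp only [ContinuousMap.add_apply, ContinuousMap.smul_apply, smul_eq_mul]
      linarith
  have hne : C.Nonempty := by
    have hf : IsFAP (avg ({1} : Finset Γ)) := avg_fap _ (Finset.singleton_nonempty 1)
    refine ⟨1, fun _ => avg {1}, IsLocallyConstant.const _, fun _ => hf, fun z g _ Y => ?_⟩
    have e₁ := fap_le_one hf Y
    have e₂ := hf.nonneg {a | a * g ∈ Y}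
    simp only [ContinuousMap.one_apply]
    linarith
  obtain ⟨φ, ⟨m, hl, hf, hb⟩, hφ⟩ := minimax C hC hne η hη (fun ν hν => by
    obtain ⟨τ, hτ, hτne, hτν⟩ := exists_lc_sets X hfree hE K hK T η hη ν
    have hcl : IsClopen {z : K | ∃ g ∈ T, ∃ a : Γ, ¬ (a * g ∈ τ z ↔ a ∈ τ (g • (z : X)))} :=
      (bad_clopen τ hτ T).preimage continuous_subtype_val
    set B : Set K := {z : K | ∃ g ∈ T, ∃ a : Γ, ¬ (a * g ∈ τ z ↔ a ∈ τ (g • (z : X)))} with hB
    have hcont : Continuous (B.indicator (1 : K → ℝ)) :=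
      hcl.continuous_indicator continuous_const
    refine ⟨⟨B.indicator 1, hcont⟩, ⟨fun x => avg (τ x), hτ.comp avg,
      fun x => avg_fap _ (hτne x), fun z g hg Y => ?_⟩, ?_⟩
    · simp only [ContinuousMap.coe_mk]
      by_cases hz : z ∈ B
      · have e₁ := fap_le_one (avg_fap _ (hτne z)) Y
        have e₂ := (avg_fap _ (hτne (g • (z : X)))).nonneg {a | a * g ∈ Y}
        rw [Set.indicator_of_mem hz, Pi.one_apply]
        linarith
      · rw [Set.indicator_of_notMem hz, add_zero]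
        refine le_of_eq (avg_shift _ _ g (fun a => ?_) Y)
        by_contra hc
        exact hz ⟨g, hg, a, hc⟩
    · simp only [ContinuousMap.coe_mk]
      rw [integral_indicator_one hcl.isOpen.measurableSet]
      exact hτν)
  refine ⟨m, hl, hf, fun x hx g hg Y => ?_⟩
  have e₁ := hb ⟨x, hx⟩ g hg Y
  have e₂ := hφ ⟨x, hx⟩
  simp only at e₁
  linarith

end Pool.Agent.EffHyp
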