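import Pool.Agent.Lib.MP_5ddd96_lc.Sys
import Pool.Agent.Lib.MP_5ddd96_lc.Level

/-!
A locally constant word valued function is given on a compact set by a finite table.
-/

namespace Pool.Agent.EffHyp

theorem exists_table {k : ℕ} {X : Set Baire} (t : X → List (Fin k)) (ht : IsLocallyConstant t)
    (C : Set X) (hC : IsCompact C) (R : ℕ) (hR : ∀ u, (t u).length ≤ R) :
    ∃ p : ℕ, Sys.bd p = R ∧ ∀ u ∈ C, Sys.word k p (pre u p.unpair.2.unpair.1) = t u := by
  classical
  obtain ⟨j, hj⟩ := exists_level t C hC fun x _ =>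
    ((IsLocallyConstant.iff_eventually_eq t).1 ht x).mono fun y hy _ => hy
  have hfin := finite_pre_image C hC j
  obtain ⟨M, hM⟩ := (hfin.image fun l : List ℕ => Encodable.encode l).bddAbove
  let T : ℕ → List (Fin k) := fun c =>
    if h : ∃ u ∈ C, Encodable.encode (pre (u : Baire) j) = c then t h.choose else []
  have hT : ∀ u ∈ C, T (Encodable.encode (pre (u : Baire) j)) = t u := by
    intro u hu
    have h : ∃ v ∈ C, Encodable.encode (pre (v : Baire) j) =
        Encodable.encode (pre (u : Baire) j) := ⟨u, hu, rfl⟩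
    simp only [T, dif_pos h]
    exact hj _ h.choose_spec.1 u hu (Encodable.encode_injective h.choose_spec.2)
  let tab : List (List (Fin k)) := (List.range (M + 1)).map T
  refine ⟨Nat.pair R (Nat.pair j (Encodable.encode tab)), by simp [Sys.bd], fun u hu => ?_⟩
  have hle : Encodable.encode (pre (u : Baire) j) < M + 1 :=
    Nat.lt_succ_of_le (hM ⟨_, ⟨u, hu, rfl⟩, rfl⟩)
  have hget : tab.getD (Encodable.encode (pre (u : Baire) j)) [] = t u := by
    rw [← hT u hu]
    simp [tab, List.getD_eq_getElem?_getD, hle]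
  unfold Sys.word Sys.bd
  simp only [Nat.unpair_pair, Encodable.encodek, Option.getD_some]
  rw [hget, List.take_of_length_le (hR u)]

end Pool.Agent.EffHyp
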