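import Pool.Agent.Lib.MP_5ddd96_lc.Asdim
import Pool.Agent.Lib.MP_5ddd96_lc.Reiter
import Pool.Agent.Lib.MP_5ddd96_lc.Rainbow
import Pool.Agent.Lib.MP_5ddd96_lc.Delta
import Pool.Agent.Lib.MP_5ddd96_lc.Table

/-!
Assembly of the main theorem.
-/

namespace Pool.Agent.EffHyp

open Classical in
/-- The action of a group element on `X`, extended by the identity off `X`. -/
noncomputable def ext {Γ : Type} [Group Γ] (X : Set Baire) [MulAction Γ X] (g : Γ) (x : Baire) :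
    Baire :=
  if hx : x ∈ X then ((g • (⟨x, hx⟩ : X) : X) : Baire) else x

section

variable {Γ : Type} [Group Γ] {X : Set Baire} [MulAction Γ X]

theorem ext_coe (g : Γ) (x : X) : ext X g (x : Baire) = ((g • x : X) : Baire) := by
  simp [ext]

theorem ext_not_mem (g : Γ) {x : Baire} (hx : x ∉ X) : ext X g x = x := by
  simp [ext, hx]

theorem ext_one (x : Baire) : ext X (1 : Γ) x = x := by
  by_cases hx : x ∈ X
  · have := ext_coe (1 : Γ) (⟨x, hx⟩ : X)
    simpa using this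
  · exact ext_not_mem _ hx

theorem ext_mul (g h : Γ) (x : Baire) : ext X (g * h) x = ext X g (ext X h x) := by
  by_cases hx : x ∈ X
  · have h1 := ext_coe (g * h) (⟨x, hx⟩ : X)
    have h2 := ext_coe h (⟨x, hx⟩ : X)
    simp only at h1 h2
    rw [h1, h2, ext_coe, mul_smul]
  · rw [ext_not_mem _ hx, ext_not_mem _ hx, ext_not_mem _ hx]

theorem orbitRel_iff (x y : Baire) : OrbitRel Γ X x y ↔ ∃ g : Γ, ext X g x = y := by
  constructor
  · rintro (rfl | ⟨hx, g, rfl⟩)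
    · exact ⟨1, ext_one _⟩
    · exact ⟨g, ext_coe g ⟨x, hx⟩⟩
  · rintro ⟨g, rfl⟩
    by_cases hx : x ∈ X
    · exact Or.inr ⟨hx, g, (ext_coe g ⟨x, hx⟩).symm⟩
    · exact Or.inl (ext_not_mem _ hx).symm

theorem dfun_ext (hX : Delta11 (fun _ x _ => x ∈ X)) (s : Γ)
    (hs : Sigma11 (fun _ x y => ∃ hx : x ∈ X, ((s • (⟨x, hx⟩ : X) : X) : Baire) = y)) :
    DFun (ext X s) ∧ DFun (ext X s⁻¹) := by
  have h1 : Sig (fun p : Baire × Baire =>
      (∃ hx : p.1 ∈ X, ((s • (⟨p.1, hx⟩ : X) : X) : Baire) = p.2) ∨ (p.1 ∉ X ∧ p.1 = p.2)) := by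
    refine Sig.or (((sig_iff_sigma11 _).2 hs).comp
      (F := fun p : Baire × Baire => ((0 : ℕ), p.1, p.2)) (by fun_prop)) (Sig.and ?_ ?_)
    · exact ((sig_iff_sigma11 _).2 hX.2).comp
        (F := fun p : Baire × Baire => ((0 : ℕ), p.1, p.2)) (by fun_prop)
    · exact (Del.eqReal (by fun_prop) (by fun_prop)).1
  have h2 : Sig (fun p : Baire × Baire => ext X s p.1 = p.2) := by
    refine h1.congr fun p => ?_
    by_cases hx : p.1 ∈ X <;> simp [ext, hx]
  refine ⟨DFun.ofGraphReal h2, DFun.ofGraphReal ?_⟩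
  refine (h2.comp (F := fun p : Baire × Baire => (p.2, p.1)) (by fun_prop)).congr fun p => ?_
  constructor
  · intro h
    rw [← h, ← ext_mul, mul_inv_cancel, ext_one]
  · intro h
    simp only at h
    rw [← h, ← ext_mul, inv_mul_cancel, ext_one]

end

theorem exists_enum {α : Type} {s : Set α} {N : ℕ} (hs : s.encard ≤ N) :
    ∃ l : List α, l.length ≤ N ∧ ∀ a ∈ s, a ∈ l := by
  have hfin : s.Finite := Set.finite_of_encard_le_coe hs
  refine ⟨hfin.toFinset.toList, ?_, fun a ha => by simpa using ha⟩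
  rw [Finset.length_toList]
  rw [hfin.encard_eq_coe_toFinset_card] at hs
  exact_mod_cast hs

theorem main {Γ : Type} [Group Γ] (S : Finset Γ) (hS : IsHyperbolic S)
    (X : Set Baire) [MulAction Γ X] [ContinuousConstSMul Γ X]
    (hfree : ∀ (g : Γ) (x : X), g • x = x → g = 1)
    (hX : Delta11 (fun _ x _ => x ∈ X))
    (hgen : ∀ s ∈ S, Sigma11
      (fun _ x y => ∃ hx : x ∈ X, ((s • (⟨x, hx⟩ : X) : X) : Baire) = y))
    (G : ℕ → Baire → Baire → Prop) (hGd : Delta11 G) (hGe : ∀ n, Equivalence (G n))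
    (hGm : ∀ n x y, G n x y → G (n + 1) x y) (hGu : ∀ x y, OrbitRel Γ X x y ↔ ∃ n, G n x y)
    (hK : ∀ (n : ℕ) (x : X), ∃ K : Set X, IsCompact K ∧ ∀ y : X, G n x y → y ∈ K)
    (hE : MeasureHyperfinite (OrbitRel Γ X)) :
    EffHyperfinite (OrbitRel Γ X) := by
  classical
  obtain ⟨ℓ, hℓ⟩ := exists_hypLen S hS
  haveI : Countable Γ := ℓ.countable
  obtain ⟨N, hN⟩ := asdim_of_reiter ℓ
  let S' : Finset Γ := S ∪ S.image (fun s => s⁻¹)
  have hS' : ∀ a, a ∈ S' ↔ a ∈ S ∨ a⁻¹ ∈ S := by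
    intro a
    simp only [S', Finset.mem_union, Finset.mem_image]
    refine or_congr_right ⟨?_, fun h => ⟨_, h, inv_inv a⟩⟩
    rintro ⟨s, hs, rfl⟩
    simpa using hs
  let e : Fin S'.card → Γ := fun i => (S'.equivFin.symm i : Γ)
  have he : ∀ i, e i ∈ S ∨ (e i)⁻¹ ∈ S := fun i => (hS' _).1 (S'.equivFin.symm i).2
  have hes : ∀ a, a ∈ S ∨ a⁻¹ ∈ S → ∃ i, e i = a := fun a ha =>
    ⟨S'.equivFin ⟨a, (hS' a).2 ha⟩, by simp [e]⟩
  let A : Sys S'.card :=
    { gen := fun i => ext X (e i)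
      inv := fun i => by
        obtain ⟨j, hj⟩ := hes (e i)⁻¹ (by simpa [or_comm] using he i)
        exact ⟨j, fun x => by rw [hj, ← ext_mul, inv_mul_cancel, ext_one]⟩
      G := G
      G_equiv := hGe
      G_succ := hGm
      N := N + 1 }
  have hact : ∀ (w : List (Fin S'.card)) (x : Baire), A.act w x = ext X (w.map e).prod x := by
    intro w x
    induction w with
    | nil => exact (ext_one x).symm
    | cons s w ih =>
      rw [List.map_cons, List.prod_cons, ext_mul, ← ih]; rfl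
  have hlen : ∀ w : List (Fin S'.card), ℓ.len (w.map e).prod ≤ w.length := by
    intro w
    rw [hℓ, wordLen_le_iff S hS.1]
    refine ⟨w.map e, by simp, fun a ha => ?_, rfl⟩
    obtain ⟨i, -, rfl⟩ := List.mem_map.1 ha
    exact he i
  have hwd : ∀ g : Γ, ∃ w : List (Fin S'.card), (w.map e).prod = g ∧ w.length ≤ ℓ.len g := by
    intro g
    obtain ⟨l, hlen, hl, rfl⟩ := (wordLen_le_iff S hS.1 g _).1 le_rfl
    have : ∃ w : List (Fin S'.card), w.map e = l := by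
      clear hlen
      induction l with
      | nil => exact ⟨[], rfl⟩
      | cons a l ih =>
        obtain ⟨w, hw⟩ := ih fun b hb => hl b (List.mem_cons_of_mem _ hb)
        obtain ⟨i, hi⟩ := hes a (hl a List.mem_cons_self)
        exact ⟨i :: w, by rw [List.map_cons, hw, hi]⟩
    obtain ⟨w, rfl⟩ := this
    exact ⟨w, rfl, by rw [hℓ]; simpa using hlen⟩
  choose wd hwd hwl using hwd
  have hG : ∀ x n ρ, ∃ R, ∀ w : List (Fin S'.card),
      ∃ p : ℕ, Sys.bd p ≤ R ∧ A.Good p n ρ (A.act w x) := by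
    intro x₀ n ρ
    obtain ⟨R, hR⟩ := hN ρ
    refine ⟨R, fun w₀ => ?_⟩
    generalize A.act w₀ x₀ = x
    by_cases hx : x ∈ X
    swap
    · refine ⟨0, by simp [Sys.bd], fun w _ => ⟨[], fun v _ => ⟨0, Nat.succ_pos _, ?_⟩⟩⟩
      simp only [Sys.lam, hact, ext_not_mem _ hx]
    obtain ⟨K, hKc, hKx⟩ := hK n ⟨x, hx⟩
    obtain ⟨τ, hτ, hτR, hτK⟩ := hR X (exists_base_colour X hfree) K
      (fun T => exists_reiter X hfree hE K hKc T (1 / 20) (by norm_num))
    have hC : IsCompact (⋃ g ∈ {g | ℓ.len g ≤ ρ}, (fun y : X => g • y) '' K) :=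
      (ℓ.finite_ball ρ).isCompact_biUnion fun g _ => hKc.image (continuous_const_smul g)
    obtain ⟨p, hpR, hp⟩ := exists_table (fun u : X => wd (τ u)) (hτ.comp wd) _ hC R
      (fun u => (hwl _).trans (hτR u))
    refine ⟨p, hpR.le, fun w hw => ?_⟩
    have hy : A.act w x = (((w.map e).prod • (⟨x, hx⟩ : X) : X) : Baire) := by
      rw [hact]; exact ext_coe _ ⟨x, hx⟩
    rw [hy] at hw ⊢
    set y : X := (w.map e).prod • (⟨x, hx⟩ : X)
    have hyK : y ∈ K := hKx _ hw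
    obtain ⟨l, hl, hmem⟩ := exists_enum (hτK y hyK)
    refine ⟨l.map wd, fun v hv => ?_⟩
    have hg : ℓ.len (v.map e).prod ≤ ρ := (hlen v).trans hv
    obtain ⟨i, hi, hli⟩ := List.getElem_of_mem (hmem _ ⟨_, hg, rfl⟩)
    refine ⟨i, by show i < N + 1; omega, ?_⟩
    rw [List.getD_eq_getElem _ _ (by simpa using hi), List.getElem_map, hli, hact v, ext_coe,
      Sys.lam, hp _ (Set.mem_biUnion hg ⟨y, hyK, rfl⟩), hact, hact, hwd, hwd, ext_coe, ext_coe,
      mul_smul]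
  obtain ⟨h1, h2⟩ := A.rainbow hG fun x w =>
    (hGu _ _).1 ((orbitRel_iff _ _).2 ⟨_, (hact w x).symm⟩)
  refine ⟨A.F, h1, A.delta (fun i => ?_) ?_, fun x y => ?_⟩
  · rcases he i with hi | hi
    · exact (dfun_ext hX _ (hgen _ hi)).1
    · have := (dfun_ext hX _ (hgen _ hi)).2
      rwa [inv_inv] at this
  · exact ⟨(sig_iff_sigma11 _).2 hGd.1, (sig_iff_sigma11 (fun n x y => ¬ G n x y)).2 hGd.2⟩
  · rw [← h2, orbitRel_iff]
    constructor
    · rintro ⟨g, rfl⟩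
      exact ⟨wd g, by rw [hact, hwd]⟩
    · rintro ⟨w, rfl⟩
      exact ⟨_, (hact w x).symm⟩

end Pool.Agent.EffHyp
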