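import Pool.Agent.Lib.MP_5ddd96_lc.Approx2
import Pool.Agent.Lib.MP_5ddd96_lc.Reiter

/-!
Reiter functions on compact sets; the action need not be free.
-/

namespace Pool.Agent.EffHyp

open MeasureTheory Filter Topology

namespace Reiter2Aux

open ReiterAux

theorem fap_comap {Γ Z : Type} {m : Set Γ → ℝ} (hm : IsFAP m) (F : Γ → Z) :
    IsFAP (fun Y : Set Z => m (F ⁻¹' Y)) :=
  ⟨fun _ => hm.nonneg _, fun Y Y' h => by
    rw [Set.preimage_union, hm.add _ _ (h.preimage F)], by simpa using hm.univ⟩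

open Classical in
theorem avg_eq {Γ Z : Type} (s : Finset Γ) (F : Γ → Z) (Y : Set Z) :
    avg s (F ⁻¹' Y) = ((s.val.map F).countP (· ∈ Y) : ℝ) / ((s.val.map F).card : ℝ) := by
  unfold avg
  rw [Multiset.countP_map, Multiset.card_map]
  rfl

theorem avg_lc {Γ Z : Type} [Group Γ] [TopologicalSpace Z] [MulAction Γ Z] (τ : Z → Finset Γ)
    (hτ : IsLocallyConstant τ) (Y : Z → Set Z)
    (hY : ∀ b : Γ, IsLocallyConstant (fun z => b • z ∈ Y z)) :
    IsLocallyConstant (fun z => avg (τ z) ((fun a : Γ => a • z) ⁻¹' Y z)) := by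
  classical
  rw [IsLocallyConstant.iff_eventually_eq]
  intro x
  have h2 : ∀ᶠ y in 𝓝 x, ∀ b ∈ τ x, (b • y ∈ Y y) = (b • x ∈ Y x) := by
    rw [Filter.eventually_all_finset]
    exact fun b _ => (hY b).eventually_eq x
  filter_upwards [hτ.eventually_eq x, h2] with y h1 h2
  rw [h1]
  unfold avg
  congr 3
  exact Finset.filter_congr fun b hb => by
    simp only [Set.mem_preimage]; rw [h2 b hb]

end Reiter2Aux

open ReiterAux Reiter2Aux in
theorem exists_reiter2 {Γ : Type} [Group Γ] [Countable Γ] (X : Set Baire) [MulAction Γ X]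
    [ContinuousConstSMul Γ X] (hfix : ∀ g : Γ, IsClopen {x : X | g • x = x})
    (hE : MeasureHyperfinite (OrbitRel Γ X)) (K : Set X) (hK : IsCompact K) (T : Finset Γ)
    (η : ℝ) (hη : 0 < η) :
    ∃ μ : X → Set X → ℝ, (∀ x, IsFAP (μ x)) ∧
      (∀ Y : X → Set X, (∀ b : Γ, IsLocallyConstant (fun z => b • z ∈ Y z)) →
        IsLocallyConstant (fun z => μ z (Y z))) ∧
      (∀ x Y, μ x Y = μ x (Y ∩ MulAction.orbit Γ x)) ∧
      ∀ x ∈ K, ∀ g ∈ T, ∀ Y : Set X, μ x Y ≤ μ (g • x) Y + η := by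
  classical
  have : CompactSpace K := isCompact_iff_compactSpace.1 hK
  let C : Set C(K, ℝ) := {φ | ∃ μ : X → Set X → ℝ, (∀ x, IsFAP (μ x)) ∧
    (∀ Y : X → Set X, (∀ b : Γ, IsLocallyConstant (fun z => b • z ∈ Y z)) →
        IsLocallyConstant (fun z => μ z (Y z))) ∧
    (∀ x Y, μ x Y = μ x (Y ∩ MulAction.orbit Γ x)) ∧
    ∀ z : K, ∀ g ∈ T, ∀ Y : Set X, μ z Y ≤ μ (g • (z : X)) Y + φ z}
  have hC : Convex ℝ C := by
    rintro φ₁ ⟨m₁, hf₁, hl₁, ho₁, hb₁⟩ φ₂ ⟨m₂, hf₂, hl₂, ho₂, hb₂⟩ a b ha hb hab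
    refine ⟨fun x Y => a * m₁ x Y + b * m₂ x Y, fun x => fap_mix (hf₁ x) (hf₂ x) ha hb hab,
      fun Y hY => (hl₁ Y hY).comp₂ (hl₂ Y hY) (fun u v => a * u + b * v),
      fun x Y => by beta_reduce; rw [← ho₁, ← ho₂], fun z g hg Y => ?_⟩
    have e₁ := mul_le_mul_of_nonneg_left (hb₁ z g hg Y) ha
    have e₂ := mul_le_mul_of_nonneg_left (hb₂ z g hg Y) hb
    simp only [ContinuousMap.add_apply, ContinuousMap.smul_apply, smul_eq_mul]
    linarith
  have horb : ∀ (s : Finset Γ) (x : X) (Y : Set X), avg s ((fun a : Γ => a • x) ⁻¹' Y) =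
      avg s ((fun a : Γ => a • x) ⁻¹' (Y ∩ MulAction.orbit Γ x)) := by
    intro s x Y
    congr 1
    ext a
    simp [MulAction.mem_orbit]
  have hne : C.Nonempty := by
    have hf : ∀ x : X, IsFAP (fun Y : Set X => avg ({1} : Finset Γ) ((fun a : Γ => a • x) ⁻¹' Y)) :=
      fun x => fap_comap (avg_fap _ (Finset.singleton_nonempty 1)) _
    refine ⟨1, fun x Y => avg {1} ((fun a : Γ => a • x) ⁻¹' Y), hf,
      avg_lc (fun _ => {1}) (IsLocallyConstant.const _), horb _, fun z g _ Y => ?_⟩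
    have e₁ := fap_le_one (hf z) Y
    have e₂ := (hf (g • (z : X))).nonneg Y
    simp only [ContinuousMap.one_apply]
    linarith
  obtain ⟨φ, ⟨m, hf, hl, ho, hb⟩, hφ⟩ := minimax C hC hne η hη (fun ν hν => by
    obtain ⟨τ, hτ, hτne, B, hcl, hτν, hB⟩ := exists_lc_sets2 X hfix hE K hK T η hη ν
    have hcont : Continuous (B.indicator (1 : K → ℝ)) :=
      hcl.continuous_indicator continuous_const
    have hf : ∀ x : X, IsFAP (fun Y : Set X => avg (τ x) ((fun a : Γ => a • x) ⁻¹' Y)) :=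
      fun x => fap_comap (avg_fap _ (hτne x)) _
    refine ⟨⟨B.indicator 1, hcont⟩, ⟨fun x Y => avg (τ x) ((fun a : Γ => a • x) ⁻¹' Y), hf,
      avg_lc τ hτ, fun x => horb _ x, fun z g hg Y => ?_⟩, ?_⟩
    · simp only [ContinuousMap.coe_mk]
      by_cases hz : z ∈ B
      · have e₁ := fap_le_one (hf z) Y
        have e₂ := (hf (g • (z : X))).nonneg Y
        rw [Set.indicator_of_mem hz, Pi.one_apply]
        linarith
      · rw [Set.indicator_of_notMem hz, add_zero, avg_eq, avg_eq, hB z hz g hg]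
    · simp only [ContinuousMap.coe_mk]
      rw [integral_indicator_one hcl.isOpen.measurableSet]
      exact hτν)
  refine ⟨m, hf, hl, ho, fun x hx g hg Y => ?_⟩
  have e₁ := hb ⟨x, hx⟩ g hg Y
  have e₂ := hφ ⟨x, hx⟩
  simp only at e₁
  linarith

end Pool.Agent.EffHyp
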