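import Pool.Agent.Lib.MP_5ddd96_lc.Main
import Pool.Agent.Lib.MP_5ddd96_lc.Asdim2
import Pool.Agent.Lib.MP_5ddd96_lc.Reiter2

/-!
Continuous actions with hyperbolic Schreier graphs and an exhaustion by precompact classes.
-/

namespace Pool.Agent.EffHyp

/-- Enumeration of a symmetric generating set, with geodesic words. -/
theorem exists_words {Γ : Type} [Group Γ] (S : Finset Γ) (hS : Subgroup.closure (S : Set Γ) = ⊤) :
    ∃ (k : ℕ) (e : Fin k → Γ) (wd : Γ → List (Fin k)), (∀ i, e i ∈ S ∨ (e i)⁻¹ ∈ S) ∧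
      (∀ i, ∃ j, e j = (e i)⁻¹) ∧ (∀ w : List (Fin k), wordLen S (w.map e).prod ≤ w.length) ∧
      (∀ g, ((wd g).map e).prod = g) ∧ ∀ g, (wd g).length ≤ wordLen S g := by
  classical
  let S' : Finset Γ := S ∪ S.image (fun s => s⁻¹)
  have hS' : ∀ a, a ∈ S' ↔ a ∈ S ∨ a⁻¹ ∈ S := by
    intro a
    simp only [S', Finset.mem_union, Finset.mem_image]
    refine or_congr_right ⟨?_, fun h => ⟨_, h, inv_inv a⟩⟩
    rintro ⟨s, hs, rfl⟩
    simpa using hs
  let e : Fin S'.card → Γ := fun i => (S'.equivFin.symm i : Γ)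
  have he : ∀ i, e i ∈ S ∨ (e i)⁻¹ ∈ S := fun i => (hS' _).1 (S'.equivFin.symm i).2
  have hes : ∀ a, a ∈ S ∨ a⁻¹ ∈ S → ∃ i, e i = a := fun a ha =>
    ⟨S'.equivFin ⟨a, (hS' a).2 ha⟩, by simp [e]⟩
  have hwd : ∀ g : Γ, ∃ w : List (Fin S'.card), (w.map e).prod = g ∧ w.length ≤ wordLen S g := by
    intro g
    obtain ⟨l, hlen, hl, rfl⟩ := (wordLen_le_iff S hS g _).1 le_rfl
    have : ∃ w : List (Fin S'.card), w.map e = l := by
      clear hlen
      induction l with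
      | nil => exact ⟨[], rfl⟩
      | cons a l ih =>
        obtain ⟨w, hw⟩ := ih fun b hb => hl b (List.mem_cons_of_mem _ hb)
        obtain ⟨i, hi⟩ := hes a (hl a List.mem_cons_self)
        exact ⟨i :: w, by rw [List.map_cons, hw, hi]⟩
    obtain ⟨w, rfl⟩ := this
    exact ⟨w, rfl, by simpa using hlen⟩
  choose wd hwd hwl using hwd
  refine ⟨_, e, wd, he, fun i => hes _ (by simpa [or_comm] using he i), fun w => ?_, hwd, hwl⟩
  rw [wordLen_le_iff S hS]
  refine ⟨w.map e, by simp, fun a ha => ?_, rfl⟩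
  obtain ⟨i, -, rfl⟩ := List.mem_map.1 ha
  exact he i

theorem mainC {Γ : Type} [Group Γ] (S : Finset Γ) (hS : Subgroup.closure (S : Set Γ) = ⊤)
    (X : Set Baire) [MulAction Γ X] [ContinuousConstSMul Γ X]
    (hfix : ∀ g : Γ, IsClopen {x : X | g • x = x})
    (ℓ : GLen Γ) (hℓ : ℓ.len = wordLen S) (δ : ℕ) (hfour : ℓ.Four X δ)
    (hgen : ∀ s ∈ S, DFun (ext X s) ∧ DFun (ext X s⁻¹))
    (G : ℕ → Baire → Baire → Prop) (hGd : Delta11 G) (hGe : ∀ n, Equivalence (G n))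
    (hGm : ∀ n x y, G n x y → G (n + 1) x y) (hGu : ∀ x y, OrbitRel Γ X x y ↔ ∃ n, G n x y)
    (hK : ∀ (n : ℕ) (x : X), ∃ K : Set X, IsCompact K ∧ ∀ y : X, G n x y → y ∈ K)
    (hE : MeasureHyperfinite (OrbitRel Γ X)) :
    EffHyperfinite (OrbitRel Γ X) := by
  classical
  have : Countable Γ := ℓ.countable
  obtain ⟨N, hN⟩ := asdim_of_reiter2 ℓ δ
  obtain ⟨k, e, wd, he, hei, hlen, hwd, hwl⟩ := exists_words S hS
  rw [← hℓ] at hlen hwl
  let A : Sys k :=
    { gen := fun i => ext X (e i)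
      inv := fun i => by
        obtain ⟨j, hj⟩ := hei i
        exact ⟨j, fun x => by rw [hj, ← ext_mul, inv_mul_cancel, ext_one]⟩
      G := G
      G_equiv := hGe
      G_succ := hGm
      N := N + 1 }
  have hact : ∀ (w : List (Fin k)) (x : Baire), A.act w x = ext X (w.map e).prod x := by
    intro w x
    induction w with
    | nil => exact (ext_one x).symm
    | cons s w ih =>
      rw [List.map_cons, List.prod_cons, ext_mul, ← ih]; rfl
  have hG : ∀ x n ρ, ∃ R, ∀ w : List (Fin k),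
      ∃ p : ℕ, Sys.bd p ≤ R ∧ A.Good p n ρ (A.act w x) := by
    intro x₀ n ρ
    obtain ⟨R, hR⟩ := hN ρ
    refine ⟨R, fun w₀ => ?_⟩
    generalize A.act w₀ x₀ = x
    by_cases hx : x ∈ X
    swap
    · refine ⟨0, by simp [Sys.bd], fun w _ => ⟨[], fun v _ => ⟨0, Nat.succ_pos _, ?_⟩⟩⟩
      simp only [Sys.lam, hact, ext_not_mem _ hx]
    obtain ⟨K, hKc, hKx⟩ := hK n ⟨x, hx⟩
    obtain ⟨τ, hτ, hτR, hτK⟩ := hR X hfix hfour (exists_base_colour2 X hfix) K
      (fun T => exists_reiter2 X hfix hE K hKc T (1 / 20) (by norm_num))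
    have hC : IsCompact (⋃ g ∈ {g | ℓ.len g ≤ ρ}, (fun y : X => g • y) '' K) :=
      (ℓ.finite_ball ρ).isCompact_biUnion fun g _ => hKc.image (continuous_const_smul g)
    obtain ⟨p, hpR, hp⟩ := exists_table (fun u : X => wd (τ u)) (hτ.comp wd) _ hC R
      (fun u => (hwl _).trans (hτR u))
    refine ⟨p, hpR.le, fun w hw => ?_⟩
    have hy : A.act w x = (((w.map e).prod • (⟨x, hx⟩ : X) : X) : Baire) := by
      rw [hact]; exact ext_coe _ ⟨x, hx⟩
    rw [hy] at hw ⊢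
    set y : X := (w.map e).prod • (⟨x, hx⟩ : X)
    have hyK : y ∈ K := hKx _ hw
    obtain ⟨l, hl, hmem⟩ := exists_enum (hτK y hyK)
    let nm : X → List (Fin k) := fun v => if h : ∃ g : Γ, g • y = v then wd h.choose else []
    have hnm : ∀ g : Γ, A.act (nm (g • y)) y = ((g • y : X) : Baire) := by
      intro g
      have h : ∃ g' : Γ, g' • y = g • y := ⟨g, rfl⟩
      simp only [nm, dif_pos h]
      rw [hact, hwd, ext_coe, h.choose_spec]
    refine ⟨l.map nm, fun v hv => ?_⟩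
    have hg : ℓ.len (v.map e).prod ≤ ρ := (hlen v).trans hv
    obtain ⟨i, hi, hli⟩ := List.getElem_of_mem (hmem _ ⟨_, hg, rfl⟩)
    refine ⟨i, by show i < N + 1; omega, ?_⟩
    rw [List.getD_eq_getElem _ _ (by simpa using hi), List.getElem_map, hli, ← mul_smul, hnm,
      hact v, ext_coe, Sys.lam, hp _ (Set.mem_biUnion hg ⟨y, hyK, rfl⟩), hact, hwd, ext_coe,
      mul_smul]
  obtain ⟨h1, h2⟩ := A.rainbow hG fun x w =>
    (hGu _ _).1 ((orbitRel_iff _ _).2 ⟨_, (hact w x).symm⟩)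
  refine ⟨A.F, h1, A.delta (fun i => ?_) ?_, fun x y => ?_⟩
  · rcases he i with hi | hi
    · exact (hgen _ hi).1
    · have := (hgen _ hi).2
      rwa [inv_inv] at this
  · exact ⟨(sig_iff_sigma11 _).2 hGd.1, (sig_iff_sigma11 (fun n x y => ¬ G n x y)).2 hGd.2⟩
  · rw [← h2, orbitRel_iff]
    constructor
    · rintro ⟨g, rfl⟩
      exact ⟨wd g, by rw [hact, hwd]⟩
    · rintro ⟨w, rfl⟩
      exact ⟨_, (hact w x).symm⟩

theorem main_precompact {Γ : Type} [Group Γ] (S : Finset Γ)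
    (hS : Subgroup.closure (S : Set Γ) = ⊤)
    (X : Set Baire) [MulAction Γ X] [ContinuousConstSMul Γ X]
    (hfix : ∀ g : Γ, IsOpen {x : X | g • x = x}) (hhyp : HypComponents (schreier S X))
    (hX : Delta11 (fun _ x _ => x ∈ X))
    (hgen : ∀ s ∈ S, Sigma11
      (fun _ x y => ∃ hx : x ∈ X, ((s • (⟨x, hx⟩ : X) : X) : Baire) = y))
    (G : ℕ → Baire → Baire → Prop) (hGd : Delta11 G) (hGe : ∀ n, Equivalence (G n))
    (hGm : ∀ n x y, G n x y → G (n + 1) x y) (hGu : ∀ x y, OrbitRel Γ X x y ↔ ∃ n, G n x y)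
    (hK : ∀ (n : ℕ) (x : X), ∃ K : Set X, IsCompact K ∧ ∀ y : X, G n x y → y ∈ K)
    (hE : MeasureHyperfinite (OrbitRel Γ X)) :
    EffHyperfinite (OrbitRel Γ X) := by
  obtain ⟨ℓ, hℓ⟩ := exists_gLen S hS
  obtain ⟨δ, hδ⟩ := four_of_hypComponents S hS ℓ hℓ X hhyp
  exact mainC S hS X (fun g => ⟨isClosed_eq (continuous_const_smul g) continuous_id, hfix g⟩) ℓ hℓ
    δ hδ (fun s hs => dfun_ext hX s (hgen s hs)) G hGd hGe hGm hGu hK hE

end Pool.Agent.EffHyp
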