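import Pool.Agent.Lib.MP_5ddd96_lc.Kleene
import Pool.Agent.Lib.MP_5ddd96_lc.Delta
import Pool.Agent.Lib.MP_5ddd96_lc.Len

/-!
A `Δ¹₁` action is `Δ¹₁` isomorphic to a continuous action on a closed set with clopen sets of
fixed points.
-/

namespace Pool.Agent.EffHyp

namespace RealizeAux

/-- The word with code `a`. -/
def wrd (k a : ℕ) : List (Fin k) := (Encodable.decode a : Option (List (Fin k))).getD []

theorem wrd_encode {k : ℕ} (w : List (Fin k)) : wrd k (Encodable.encode w) = w := by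
  simp [wrd]

theorem primrec_wrd (k : ℕ) : Primrec (wrd k) :=
  Primrec.option_getD.comp Primrec.decode (Primrec.const [])

theorem dfun_join {S : Type} [Coded S] {A B : S → Baire} (hA : DFun A) (hB : DFun B) :
    DFun (T := Baire) (fun s => join (A s) (B s)) :=
  hA.prodMk hB

theorem dfun_up1 {S : Type} [Coded S] {N : S → ℕ} (hN : DFun N) :
    DFun (fun s => (N s).unpair.1) :=
  DFun.prim₁ (φ := fun n : ℕ => n.unpair.1) (Primrec.fst.comp Primrec.unpair).to_comp hN

theorem dfun_up2 {S : Type} [Coded S] {N : S → ℕ} (hN : DFun N) :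
    DFun (fun s => (N s).unpair.2) :=
  DFun.prim₁ (φ := fun n : ℕ => n.unpair.2) (Primrec.snd.comp Primrec.unpair).to_comp hN

/-- The realization for the action of words. -/
theorem realize {k : ℕ} (A : Sys k) (hgen : ∀ s, DFun (A.gen s)) :
    ∃ σ π : Baire → Baire, DFun σ ∧ DFun π ∧ Continuous π ∧ (∀ x, π (σ x) = x) ∧
      IsClosed (Set.range σ) ∧
      (∀ u, ∃ t : Baire → Baire, Continuous t ∧ ∀ x, σ (A.act u x) = t (σ x)) ∧
      ∀ u, ∃ U : Set Baire, IsClopen U ∧ ∀ x, A.act u x = x ↔ σ x ∈ U := by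
  have hP : Del (fun p : ℕ × Baire =>
      (p.1.unpair.2 = 0 ∧ A.act (wrd k p.1.unpair.1) p.2 = p.2) ∨
      (¬ p.1.unpair.2 = 0 ∧ A.act (wrd k p.1.unpair.1) p.2 p.1.unpair.2.pred.unpair.1 =
        p.1.unpair.2.pred.unpair.2)) := by
    have h0 : DFun (fun p : ℕ × Baire => p.1) := by fun_prop
    have h1 : DFun (fun p : ℕ × Baire => p.1.unpair.2) := dfun_up2 h0
    have h2 : DFun (fun p : ℕ × Baire => A.act (wrd k p.1.unpair.1) p.2) :=
      A.dfun_act hgen (DFun.prim₁ (primrec_wrd k).to_comp (dfun_up1 h0)) (by fun_prop)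
    have h3 : DFun (fun p : ℕ × Baire => p.1.unpair.2.pred) := DFun.prim₁ Computable.pred h1
    have h4 : Del (fun p : ℕ × Baire => p.1.unpair.2 = 0) := Del.eqAtom h1 (DFun.const 0)
    exact (h4.and (Del.eqReal h2 (by fun_prop))).or
      (h4.not.and (Del.eqAtom (DFun.eval h2 (dfun_up1 h3)) (dfun_up2 h3)))
  obtain ⟨W, hW, hWc, ι, hι⟩ := exists_closed_graph
    (P := fun n x => (n.unpair.2 = 0 ∧ A.act (wrd k n.unpair.1) x = x) ∨
      (¬ n.unpair.2 = 0 ∧ A.act (wrd k n.unpair.1) x n.unpair.2.pred.unpair.1 =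
        n.unpair.2.pred.unpair.2)) hP
  have hfix : ∀ a x, A.act (wrd k a) x = x ↔ W x (ι (Nat.pair a 0)) = 1 := by
    intro a x
    rw [← hι]
    simp
  have hval : ∀ a i j x, A.act (wrd k a) x i = j ↔
      W x (ι (Nat.pair a (Nat.pair i j + 1))) = 1 := by
    intro a i j x
    rw [← hι]
    simp
  set a₀ : ℕ := Encodable.encode ([] : List (Fin k)) with ha₀
  have hw₀ : wrd k a₀ = [] := wrd_encode _
  let σ : Baire → Baire := fun x n =>
    join (A.act (wrd k n.unpair.1) x) (W (A.act (wrd k n.unpair.1) x)) n.unpair.2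
  have hσl : ∀ x a i, σ x (Nat.pair a (2 * i)) = A.act (wrd k a) x i := by
    intro x a i
    simp only [σ, Nat.unpair_pair, join_even]
  have hσr : ∀ x a i, σ x (Nat.pair a (2 * i + 1)) = W (A.act (wrd k a) x) i := by
    intro x a i
    simp only [σ, Nat.unpair_pair, join_odd]
  have hnil : ∀ x, A.act [] x = x := fun _ => rfl
  refine ⟨σ, fun y i => y (Nat.pair a₀ (2 * i)), ?_, ?_, ?_, ?_, ?_, ?_, ?_⟩
  · refine DFun.lam (F := σ) ?_
    have h0 : DFun (fun p : Baire × ℕ => p.2) := by fun_prop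
    have h2 : DFun (fun p : Baire × ℕ => A.act (wrd k p.2.unpair.1) p.1) :=
      A.dfun_act hgen (DFun.prim₁ (primrec_wrd k).to_comp (dfun_up1 h0)) (by fun_prop)
    have h3 := DFun.eval (dfun_join h2 (hW.comp h2)) (dfun_up2 h0)
    exact h3
  · refine DFun.lam (F := fun (y : Baire) (i : ℕ) => y (Nat.pair a₀ (2 * i))) ?_
    refine DFun.eval (A := fun p : Baire × ℕ => p.1)
      (B := fun p : Baire × ℕ => Nat.pair a₀ (2 * p.2)) (by fun_prop) ?_
    exact DFun.prim₂ Primrec₂.natPair.to_comp (DFun.const a₀) (by fun_prop)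
  · exact continuous_pi fun i => continuous_apply _
  · intro x
    funext i
    beta_reduce
    rw [hσl, hw₀, hnil]
  · have hr : Set.range σ =
        (⋂ a : ℕ, (fun y : Baire => ((fun i => y (Nat.pair a (2 * i)),
            fun i => y (Nat.pair a (2 * i + 1))) : Baire × Baire)) ⁻¹'
          {p : Baire × Baire | W p.1 = p.2}) ∩
        ⋂ a : ℕ, ⋂ i : ℕ, ⋂ j : ℕ, ((fun y : Baire => y (Nat.pair a (2 * i))) ⁻¹' {j}ᶜ ∪
          (fun y : Baire => y (Nat.pair a₀ (2 * ι (Nat.pair a (Nat.pair i j + 1)) + 1))) ⁻¹'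
            {1}) := by
      ext y
      simp only [Set.mem_range, Set.mem_inter_iff, Set.mem_iInter, Set.mem_preimage,
        Set.mem_ofPred_eq, Set.mem_union, Set.mem_compl_iff, Set.mem_singleton_iff]
      constructor
      · rintro ⟨x, rfl⟩
        refine ⟨fun a => ?_, fun a i j => ?_⟩
        · simp only [hσl, hσr]
        · rw [hσl, hσr, hw₀, hnil, ← hval]
          exact (em _).symm
      · rintro ⟨hg, hv⟩
        refine ⟨fun i => y (Nat.pair a₀ (2 * i)), ?_⟩
        have hl : ∀ a, A.act (wrd k a) (fun i => y (Nat.pair a₀ (2 * i))) =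
            fun i => y (Nat.pair a (2 * i)) := by
          intro a
          funext i
          rw [hval, hg a₀]
          exact (hv a i _).resolve_left (not_not.2 rfl)
        funext n
        simp only [σ]
        rw [hl, hg]
        conv_rhs => rw [← Nat.pair_unpair n]
        generalize n.unpair.1 = a
        generalize n.unpair.2 = m
        exact congrFun (join_lft_rgt fun i => y (Nat.pair a i)) m
    rw [hr]
    refine IsClosed.inter (isClosed_iInter fun a => hWc.preimage ?_)
      (isClosed_iInter fun a => isClosed_iInter fun i => isClosed_iInter fun j =>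
        IsClosed.union ((isClosed_discrete _).preimage (continuous_apply _))
          ((isClosed_discrete _).preimage (continuous_apply _)))
    exact (continuous_pi fun i => continuous_apply _).prodMk
      (continuous_pi fun i => continuous_apply _)
  · intro u
    refine ⟨fun y n => y (Nat.pair (Encodable.encode (wrd k n.unpair.1 ++ u)) n.unpair.2),
      continuous_pi fun n => continuous_apply _, fun x => ?_⟩
    funext n
    have happ : ∀ v : List (Fin k), A.act (v ++ u) x = A.act v (A.act u x) := fun v =>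
      List.foldr_append
    simp only [σ, Nat.unpair_pair, wrd_encode, happ]
  · intro u
    refine ⟨(fun y : Baire =>
      y (Nat.pair a₀ (2 * ι (Nat.pair (Encodable.encode u) 0) + 1))) ⁻¹' {1},
      (isClopen_discrete _).preimage (continuous_apply _), fun x => ?_⟩
    rw [Set.mem_preimage, Set.mem_singleton_iff, hσr, hw₀, hnil, ← hfix, wrd_encode]

end RealizeAux

theorem exists_realization {Γ : Type} [Group Γ] (S : Finset Γ)
    (hS : Subgroup.closure (S : Set Γ) = ⊤) (ac : Γ → Baire → Baire) (h1 : ∀ x, ac 1 x = x)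
    (hm : ∀ g h x, ac (g * h) x = ac g (ac h x)) (hd : ∀ s ∈ S, DFun (ac s) ∧ DFun (ac s⁻¹)) :
    ∃ σ π : Baire → Baire, DFun σ ∧ DFun π ∧ Continuous π ∧ (∀ x, π (σ x) = x) ∧
      IsClosed (Set.range σ) ∧
      (∀ g, ∃ t : Baire → Baire, Continuous t ∧ ∀ x, σ (ac g x) = t (σ x)) ∧
      ∀ g, ∃ U : Set Baire, IsClopen U ∧ ∀ x, ac g x = x ↔ σ x ∈ U := by
  classical
  let S' : Finset Γ := S ∪ S.image (fun s => s⁻¹)
  have hS' : ∀ a, a ∈ S' ↔ a ∈ S ∨ a⁻¹ ∈ S := by
    intro a
    simp only [S', Finset.mem_union, Finset.mem_image]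
    refine or_congr Iff.rfl ⟨?_, fun h => ⟨a⁻¹, h, inv_inv a⟩⟩
    rintro ⟨b, hb, rfl⟩
    rwa [inv_inv]
  let e : Fin S'.card → Γ := fun i => (S'.equivFin.symm i : Γ)
  have he : ∀ i, e i ∈ S ∨ (e i)⁻¹ ∈ S := fun i => (hS' _).1 (S'.equivFin.symm i).2
  have hes : ∀ a, a ∈ S ∨ a⁻¹ ∈ S → ∃ i, e i = a := fun a ha =>
    ⟨S'.equivFin ⟨a, (hS' a).2 ha⟩, by simp [e]⟩
  let A : Sys S'.card :=
    { gen := fun i => ac (e i)
      inv := fun i => by
        obtain ⟨j, hj⟩ := hes (e i)⁻¹ (by simpa [or_comm] using he i)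
        exact ⟨j, fun x => by rw [hj, ← hm, inv_mul_cancel, h1]⟩
      G := fun _ => Eq
      G_equiv := fun _ => eq_equivalence
      G_succ := fun _ _ _ h => h
      N := 0 }
  have hact : ∀ (w : List (Fin S'.card)) (x : Baire), A.act w x = ac (w.map e).prod x := by
    intro w x
    induction w with
    | nil => exact (h1 x).symm
    | cons s w ih =>
      rw [List.map_cons, List.prod_cons, hm, ← ih]; rfl
  have hwd : ∀ g : Γ, ∃ w : List (Fin S'.card), ∀ x, A.act w x = ac g x := by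
    intro g
    obtain ⟨l, hlen, hl, rfl⟩ := (wordLen_le_iff S hS g _).1 le_rfl
    have : ∃ w : List (Fin S'.card), w.map e = l := by
      clear hlen
      induction l with
      | nil => exact ⟨[], rfl⟩
      | cons a l ih =>
        obtain ⟨w, hw⟩ := ih fun b hb => hl b (List.mem_cons_of_mem _ hb)
        obtain ⟨i, hi⟩ := hes a (hl a List.mem_cons_self)
        exact ⟨i :: w, by rw [List.map_cons, hw, hi]⟩
    obtain ⟨w, rfl⟩ := this
    exact ⟨w, hact w⟩
  have hgen : ∀ i, DFun (A.gen i) := by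
    intro i
    rcases he i with hi | hi
    · exact (hd _ hi).1
    · have := (hd _ hi).2
      rwa [inv_inv] at this
  obtain ⟨σ, π, k1, k2, k3, k4, k5, k6, k7⟩ := RealizeAux.realize A hgen
  refine ⟨σ, π, k1, k2, k3, k4, k5, fun g => ?_, fun g => ?_⟩
  · obtain ⟨w, hw⟩ := hwd g
    obtain ⟨t, ht, h⟩ := k6 w
    exact ⟨t, ht, fun x => by rw [← hw, h]⟩
  · obtain ⟨w, hw⟩ := hwd g
    obtain ⟨U, hU, h⟩ := k7 w
    exact ⟨U, hU, fun x => by rw [← hw, h]⟩

end Pool.Agent.EffHyp
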