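import Pool.Agent.Lib.MP_5ddd96_lc.MainC
import Pool.Agent.Lib.MP_5ddd96_lc.Realize
import Pool.Agent.Lib.MP_5ddd96_lc.Bound
import Pool.Agent.Lib.MP_5ddd96_lc.Converse

/-!
For `Δ¹₁` actions with hyperbolic Schreier graphs, effective hyperfiniteness is equivalent to
measure hyperfiniteness together with effective Borel boundedness.
-/

namespace Pool.Agent.EffHyp

theorem exists_enumeration {Γ : Type} [Group Γ] (S : Finset Γ)
    (hS : Subgroup.closure (S : Set Γ) = ⊤) (X : Set Baire) [MulAction Γ X]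
    (hgen : ∀ s ∈ S, DFun (ext X s) ∧ DFun (ext X s⁻¹)) :
    ∃ (k : ℕ) (en : List (Fin k) → Baire → Baire),
      DFun (fun p : List (Fin k) × Baire => en p.1 p.2) ∧
      ∀ x y, OrbitRel Γ X x y ↔ ∃ w, en w x = y := by
  obtain ⟨k, e, wd, he, hei, -, hwd, -⟩ := exists_words S hS
  let A : Sys k :=
    { gen := fun i => ext X (e i)
      inv := fun i => by
        obtain ⟨j, hj⟩ := hei i
        exact ⟨j, fun x => by rw [hj, ← ext_mul, inv_mul_cancel, ext_one]⟩
      G := fun _ => Eq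
      G_equiv := fun _ => eq_equivalence
      G_succ := fun _ _ _ h => h
      N := 0 }
  have hact : ∀ (w : List (Fin k)) (x : Baire), A.act w x = ext X (w.map e).prod x := by
    intro w x
    induction w with
    | nil => exact (ext_one x).symm
    | cons s w ih =>
      rw [List.map_cons, List.prod_cons, ext_mul, ← ih]; rfl
  refine ⟨k, A.act, A.dfun_act0 fun i => ?_, fun x y => ?_⟩
  · rcases he i with hi | hi
    · exact (hgen _ hi).1
    · have := (hgen _ hi).2
      rwa [inv_inv] at this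
  · rw [orbitRel_iff]
    constructor
    · rintro ⟨g, rfl⟩
      exact ⟨wd g, by rw [hact, hwd]⟩
    · rintro ⟨w, rfl⟩
      exact ⟨_, (hact w x).symm⟩

theorem orbitRel_equiv {Γ : Type} [Group Γ] (X : Set Baire) [MulAction Γ X] :
    Equivalence (OrbitRel Γ X) := by
  refine ⟨fun x => Or.inl rfl, fun {x y} h => ?_, fun {x y z} h h' => ?_⟩
  · obtain ⟨g, rfl⟩ := (orbitRel_iff _ _).1 h
    exact (orbitRel_iff _ _).2 ⟨g⁻¹, by rw [← ext_mul, inv_mul_cancel, ext_one]⟩
  · obtain ⟨g, rfl⟩ := (orbitRel_iff _ _).1 h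
    obtain ⟨g', rfl⟩ := (orbitRel_iff _ _).1 h'
    exact (orbitRel_iff _ _).2 ⟨g' * g, ext_mul _ _ _⟩

theorem mainD {Γ : Type} [Group Γ] (S : Finset Γ) (hS : Subgroup.closure (S : Set Γ) = ⊤)
    (X : Set Baire) [MulAction Γ X] (hhyp : HypComponents (schreier S X))
    (hX : Delta11 (fun _ x _ => x ∈ X))
    (hgen : ∀ s ∈ S, Sigma11
      (fun _ x y => ∃ hx : x ∈ X, ((s • (⟨x, hx⟩ : X) : X) : Baire) = y)) :
    EffHyperfinite (OrbitRel Γ X) ↔
      MeasureHyperfinite (OrbitRel Γ X) ∧ EffBorelBounded (OrbitRel Γ X) := by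
  classical
  have hd : ∀ s ∈ S, DFun (ext X s) ∧ DFun (ext X s⁻¹) := fun s hs => dfun_ext hX s (hgen s hs)
  constructor
  · intro h
    obtain ⟨k, en, hen, hE⟩ := exists_enumeration S hS X hd
    exact ⟨h.measureHyperfinite, h.effBorelBounded en hen hE⟩
  rintro ⟨hM, hB⟩
  obtain ⟨ℓ, hℓ⟩ := exists_gLen S hS
  obtain ⟨δ, hδ⟩ := four_of_hypComponents S hS ℓ hℓ X hhyp
  obtain ⟨σ, π, hσ, hπ, hπc, hπσ, hcl, ht, hU⟩ :=
    exists_realization S hS (ext X) ext_one ext_mul hd
  have hinj : Function.Injective σ := Function.LeftInverse.injective hπσ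
  set Y : Set Baire := Set.range σ with hY
  have hσπ : ∀ y : Y, σ (π y) = y := by
    rintro ⟨_, x, rfl⟩
    simp [hπσ]
  let _ : MulAction Γ Y :=
    { smul := fun g y => ⟨σ (ext X g (π y)), _, rfl⟩
      one_smul := fun y => Subtype.ext (by
        show σ (ext X (1 : Γ) (π y)) = y
        rw [ext_one, hσπ])
      mul_smul := fun g h y => Subtype.ext (by
        show σ (ext X (g * h) (π y)) = σ (ext X g (π (σ (ext X h (π y)))))
        rw [hπσ, ext_mul]) }
  have hsm : ∀ (g : Γ) (y : Y), ((g • y : Y) : Baire) = σ (ext X g (π y)) := fun _ _ => rfl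
  have : ContinuousConstSMul Γ Y := ⟨fun g => by
    obtain ⟨t, htc, h⟩ := ht g
    refine Continuous.subtype_mk (f := fun y : Y => σ (ext X g (π y))) ?_ _
    have : (fun y : Y => σ (ext X g (π y))) = fun y : Y => t y := by
      funext y; rw [h, hσπ]
    rw [this]
    exact htc.comp continuous_subtype_val⟩
  have heq : ∀ (g : Γ) (y y' : Y), g • y = y' ↔ ext X g (π y) = π y' := by
    intro g y y'
    rw [Subtype.ext_iff, hsm, ← hσπ y']
    simp [hinj.eq_iff, hπσ]
  have hfix : ∀ g : Γ, IsClopen {y : Y | g • y = y} := by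
    intro g
    obtain ⟨U, hUc, h⟩ := hU g
    have : {y : Y | g • y = y} = Subtype.val ⁻¹' U := by
      ext y
      simp only [Set.mem_ofPred_eq, Set.mem_preimage, heq, h, hσπ]
    rw [this]
    exact hUc.preimage continuous_subtype_val
  have hπs : ∀ (g : Γ) (y : Y), π ((g • y : Y) : Baire) = ext X g (π y) := fun g y => by
    rw [hsm, hπσ]
  have hfour : ℓ.Four Y δ := by
    intro o a b c d
    by_cases hx : π o ∈ X
    · have key : ∀ a b : Γ, ℓ.sd (a • o) (b • o) =
          ℓ.sd (a • (⟨π o, hx⟩ : X)) (b • (⟨π o, hx⟩ : X)) := by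
        intro a b
        unfold GLen.sd
        congr 1
        ext n
        refine exists_congr fun g => and_congr_right fun _ => ?_
        have h1 := ext_coe a (⟨π o, hx⟩ : X)
        have h2 := ext_coe b (⟨π o, hx⟩ : X)
        simp only at h1 h2
        rw [heq, hπs, hπs, h1, h2, ext_coe, Subtype.ext_iff]
      simp only [key]
      exact hδ _ a b c d
    · have key : ∀ a b : Γ, ℓ.sd (a • o) (b • o) = 0 := by
        intro a b
        refine Nat.sInf_eq_zero.2 (Or.inl ⟨1, ℓ.len_one.le, ?_⟩)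
        rw [heq, hπs, hπs, ext_one, ext_not_mem _ hx, ext_not_mem _ hx]
      simp [key]
  have hYd : Del (fun y : Baire => y ∈ Y) := by
    refine (Del.eqReal (hσ.comp hπ) DFun.id).congr fun y => ⟨fun h => hσπ ⟨y, h⟩, fun h => ⟨_, h⟩⟩
  have hextY : ∀ g : Γ, DFun (ext X g) → DFun (ext Y g) := by
    intro g hg
    refine (DFun.ite hYd (hσ.comp (hg.comp hπ)) DFun.id).congr fun y => ?_
    by_cases hy : y ∈ Y
    · rw [if_pos hy]; exact ext_coe g (⟨y, hy⟩ : Y)
    · rw [if_neg hy]; exact ext_not_mem g hy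
  have hdY : ∀ s ∈ S, DFun (ext Y s) ∧ DFun (ext Y s⁻¹) := fun s hs =>
    ⟨hextY _ (hd s hs).1, hextY _ (hd s hs).2⟩
  have hrel : ∀ x x', OrbitRel Γ X x x' ↔ OrbitRel Γ Y (σ x) (σ x') := by
    intro x x'
    rw [orbitRel_iff, orbitRel_iff]
    refine exists_congr fun g => ?_
    have h1 := ext_coe g (⟨σ x, x, rfl⟩ : Y)
    simp only at h1
    rw [h1, hsm, hπσ, hinj.eq_iff]
  have hrelY : ∀ y y', OrbitRel Γ Y y y' ↔
      y = y' ∨ ∃ x x', σ x = y ∧ σ x' = y' ∧ OrbitRel Γ X x x' := by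
    intro y y'
    constructor
    · rintro (h | ⟨⟨x, rfl⟩, g, rfl⟩)
      · exact Or.inl h
      · refine Or.inr ⟨x, ext X g x, rfl, by rw [hsm, hπσ], (orbitRel_iff _ _).2 ⟨g, rfl⟩⟩
    · rintro (h | ⟨x, x', rfl, rfl, h⟩)
      · exact Or.inl h
      · exact (hrel _ _).1 h
  obtain ⟨ψ, hψ, hψ1, hψ2⟩ := hB σ ((sig_iff_sigma11 (fun _ x y => σ x = y)).1
    (Del.eqReal (hσ.comp (by fun_prop)) (by fun_prop)).1)
  have hψd : DFun ψ := DFun.ofGraphReal (((sig_iff_sigma11 _).2 hψ).comp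
    (F := fun p : Baire × Baire => ((0 : ℕ), p.1, p.2)) (by fun_prop))
  obtain ⟨k, en, hen, hEn⟩ := exists_enumeration S hS Y hdY
  have hEd : Del (fun p : Baire × Baire => OrbitRel Γ Y p.1 p.2) := by
    refine Del.congr ?_ fun p => hEn _ _
    exact Del.ex (Del.eqReal (hen.comp (F := fun q : (Baire × Baire) × List (Fin k) =>
      (q.2, q.1.1)) (by fun_prop)) (by fun_prop))
  obtain ⟨G, hGd, hGe, hGm, hGu, hGK⟩ := exists_exhaustion (orbitRel_equiv (Γ := Γ) Y) hEd Y
    (fun y y' h => ((hrelY y y').1 h).imp_right fun ⟨x, x', h1, h2, _⟩ => ⟨⟨x, h1⟩, ⟨x', h2⟩⟩)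
    (fun y => ψ (π y)) (hψd.comp hπ)
    (by rintro _ ⟨x, rfl⟩; simpa [hπσ] using hψ1 x)
    (fun y y' h => by
      rcases (hrelY y y').1 h with rfl | ⟨x, x', rfl, rfl, h'⟩
      · exact ⟨0, fun _ _ => rfl⟩
      · simpa [hπσ] using hψ2 x x' h')
  have hEY := mainC S hS Y hfix ℓ hℓ δ hfour hdY G hGd hGe hGm hGu
    (fun n y => by
      obtain ⟨K, hK, h⟩ := hGK n y
      exact ⟨Subtype.val ⁻¹' K, hcl.isClosedEmbedding_subtypeVal.isCompact_preimage hK,
        fun y' hy' => h _ hy'⟩)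
    (hM.transfer σ π hπc hπσ hcl (fun x => Or.inl rfl) hrelY)
  exact hEY.pullback σ hσ hinj hrel

end Pool.Agent.EffHyp
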