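import Pool.Agent.Lib.MP_5ddd96_lc.Defs

/-!
Closed and analytic lightface subsets of Baire space: basic closure properties.
-/

namespace Pool.Agent.EffHyp

/-- Interleaving of two reals. -/
def join (x y : Baire) : Baire := fun n => if n % 2 = 0 then x (n / 2) else y (n / 2)

/-- The even part of a real. -/
def lft (w : Baire) : Baire := fun n => w (2 * n)

/-- The odd part of a real. -/
def rgt (w : Baire) : Baire := fun n => w (2 * n + 1)

/-- The constant real. -/
def cst (k : ℕ) : Baire := fun _ => k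

@[simp] theorem join_even (x y : Baire) (n : ℕ) : join x y (2 * n) = x n := by
  simp [join]

@[simp] theorem join_odd (x y : Baire) (n : ℕ) : join x y (2 * n + 1) = y n := by
  have h1 : (2 * n + 1) % 2 = 1 := by omega
  have h2 : (2 * n + 1) / 2 = n := by omega
  simp [join, h1, h2]

@[simp] theorem lft_join (x y : Baire) : lft (join x y) = x := by
  funext n; simp [lft]

@[simp] theorem rgt_join (x y : Baire) : rgt (join x y) = y := by
  funext n; simp [rgt]

@[simp] theorem join_lft_rgt (w : Baire) : join (lft w) (rgt w) = w := by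
  funext n
  simp only [join, lft, rgt]
  split_ifs with h
  · congr 1; omega
  · congr 1; omega

/-- Lightface closed sets. -/
def Pi01 (Q : Baire → Prop) : Prop :=
  ∃ f : ℕ × List ℕ → Bool, Computable f ∧ ∀ x, Q x ↔ ∀ m n, f (m, pre x n) = true

/-- Lightface analytic sets. -/
def S0 (Q : Baire → Prop) : Prop :=
  ∃ R, Pi01 R ∧ ∀ x, Q x ↔ ∃ z, R (join x z)

theorem Pi01.congr {Q Q' : Baire → Prop} (h : Pi01 Q) (e : ∀ x, Q' x ↔ Q x) : Pi01 Q' := by
  obtain ⟨f, hf, h⟩ := h
  exact ⟨f, hf, fun x => (e x).trans (h x)⟩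

theorem S0.congr {Q Q' : Baire → Prop} (h : S0 Q) (e : ∀ x, Q' x ↔ Q x) : S0 Q' := by
  obtain ⟨R, hR, h⟩ := h
  exact ⟨R, hR, fun x => (e x).trans (h x)⟩

namespace RawAux

theorem pre_eq (x : Baire) (n : ℕ) : pre x n = (List.range n).map x := by
  apply List.ext_getElem
  · simp [pre]
  · intro i h1 h2
    simp [pre]

theorem length_pre (x : Baire) (n : ℕ) : (pre x n).length = n := by simp [pre]

theorem getD_pre (x : Baire) {N i : ℕ} (h : i < N) : (pre x N).getD i 0 = x i := by
  rw [pre_eq, List.getD_eq_getElem _ _ (by simpa using h)]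
  simp

theorem take_pre (x : Baire) {N n : ℕ} (h : n ≤ N) : (pre x N).take n = pre x n := by
  rw [pre_eq, pre_eq, ← List.map_take, List.take_range, min_eq_left h]

/-- A bound for the use below `n`. -/
def bnd (b : ℕ × ℕ → ℕ) (k n : ℕ) : ℕ :=
  Nat.rec (motive := fun _ => ℕ) 0 (fun i acc => acc + b (k, i)) n

theorem le_bnd (b : ℕ × ℕ → ℕ) (k : ℕ) {n i : ℕ} (h : i < n) : b (k, i) ≤ bnd b k n := by
  induction n with
  | zero => omega
  | succ n ih =>
    have e : bnd b k (n + 1) = bnd b k n + b (k, n) := rfl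
    rcases Nat.lt_succ_iff_lt_or_eq.1 h with h' | h'
    · have := ih h'
      omega
    · subst h'
      omega

theorem primrec_bnd {b : ℕ × ℕ → ℕ} (hb : Primrec b) : Primrec₂ (bnd b) := by
  have h := Primrec.nat_rec (α := ℕ) (β := ℕ) (f := fun _ => 0)
    (g := fun k p => p.2 + b (k, p.1)) (Primrec.const 0)
    (Primrec.nat_add.comp (Primrec.snd.comp Primrec.snd)
      (hb.comp (Primrec.pair Primrec.fst (Primrec.fst.comp Primrec.snd)))).to₂
  exact h

theorem half : Primrec (fun n : ℕ => n / 2) :=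
  Primrec.nat_div.comp Primrec.id (Primrec.const 2)

theorem even_pred {α : Type} [Primcodable α] {g : α → ℕ} (hg : Primrec g) :
    PrimrecPred (fun a => g a % 2 = 0) :=
  Primrec.eq.comp (Primrec.nat_mod.comp hg (Primrec.const 2)) (Primrec.const 0)

theorem primrec_join {σ τ : ℕ → ℕ} (hσ : Primrec σ) (hτ : Primrec τ) : Primrec (join σ τ) :=
  Primrec.ite (even_pred Primrec.id) (hσ.comp half) (hτ.comp half)

theorem comp_join (w : Baire) (σ τ : ℕ → ℕ) :
    (fun n => w (join σ τ n)) = join (fun n => w (σ n)) (fun n => w (τ n)) := by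
  funext n
  simp only [join]
  split_ifs <;> rfl

theorem computable_test {α : Type} [Primcodable α] {u v : α → ℕ} {g : α → Bool}
    (hu : Primrec u) (hv : Primrec v) (hg : Computable g) :
    Computable (fun a => if u a ≤ v a then g a else true) := by
  have hc : Primrec (fun a => if u a ≤ v a then true else false) :=
    Primrec.ite (Primrec.nat_le.comp hu hv) (Primrec.const true) (Primrec.const false)
  refine (Computable.cond hc.to_comp hg (Computable.const true)).of_eq fun a => ?_
  by_cases h : u a ≤ v a <;> simp [h]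

end RawAux

open RawAux

/-- Substitution of a functional with primitive recursive values and use, and a number quantifier. -/
theorem Pi01.subst {R : Baire → Prop} (hR : Pi01 R) (Φ : ℕ → Baire → Baire)
    (e : ℕ × ℕ × List ℕ → ℕ) (b : ℕ × ℕ → ℕ) (he : Primrec e) (hb : Primrec b)
    (h : ∀ k i x N, b (k, i) ≤ N → e (k, i, pre x N) = Φ k x i) :
    Pi01 (fun x => ∀ k, R (Φ k x)) := by
  obtain ⟨f, hf, hfR⟩ := hR
  have hk : Primrec (fun p : ℕ × List ℕ => p.1.unpair.1) :=
    Primrec.fst.comp (Primrec.unpair.comp Primrec.fst)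
  have hmn : Primrec (fun p : ℕ × List ℕ => p.1.unpair.2.unpair) :=
    Primrec.unpair.comp (Primrec.snd.comp (Primrec.unpair.comp Primrec.fst))
  have hm : Primrec (fun p : ℕ × List ℕ => p.1.unpair.2.unpair.1) := Primrec.fst.comp hmn
  have hn : Primrec (fun p : ℕ × List ℕ => p.1.unpair.2.unpair.2) := Primrec.snd.comp hmn
  have hl : Primrec (fun p : ℕ × List ℕ =>
      (List.range p.1.unpair.2.unpair.2).map (fun i => e (p.1.unpair.1, i, p.2))) :=
    Primrec.list_map (Primrec.list_range.comp hn)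
      (he.comp (Primrec.pair (hk.comp Primrec.fst)
        (Primrec.pair Primrec.snd (Primrec.snd.comp Primrec.fst)))).to₂
  refine ⟨fun p => if bnd b p.1.unpair.1 p.1.unpair.2.unpair.2 ≤ p.2.length then
      f (p.1.unpair.2.unpair.1,
        (List.range p.1.unpair.2.unpair.2).map (fun i => e (p.1.unpair.1, i, p.2))) else true,
    computable_test ((primrec_bnd hb).comp hk hn) (Primrec.list_length.comp Primrec.snd)
      (hf.comp (Primrec.pair hm hl).to_comp), fun x => ?_⟩
  have key : ∀ k n N, bnd b k n ≤ N →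
      (List.range n).map (fun i => e (k, i, pre x N)) = pre (Φ k x) n := by
    intro k n N hN
    rw [pre_eq (Φ k x)]
    apply List.map_congr_left
    intro i hi
    exact h k i x N ((le_bnd b k (List.mem_range.1 hi)).trans hN)
  constructor
  · intro hx m N
    simp only [length_pre]
    split_ifs with hN
    · rw [key _ _ _ hN]
      exact (hfR _).1 (hx _) _ _
    · rfl
  · intro hx k
    refine (hfR _).2 fun m n => ?_
    have := hx (Nat.pair k (Nat.pair m n)) (bnd b k n)
    simp only [length_pre, Nat.unpair_pair, le_refl, if_true] at this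
    rwa [key _ _ _ le_rfl] at this

theorem Pi01.reindex {R : Baire → Prop} (hR : Pi01 R) {σ : ℕ → ℕ} (hσ : Primrec σ) :
    Pi01 (fun x => R (fun n => x (σ n))) := by
  have h := hR.subst (fun _ x => fun n => x (σ n)) (fun p => p.2.2.getD (σ p.2.1) 0)
    (fun p => σ p.2 + 1)
    ((Primrec.list_getD 0).comp (Primrec.snd.comp Primrec.snd)
      (hσ.comp (Primrec.fst.comp Primrec.snd)))
    (Primrec.succ.comp (hσ.comp Primrec.snd))
    (fun k i x N hN => getD_pre x (Nat.lt_of_succ_le hN))
  exact h.congr fun x => ⟨fun hx _ => hx, fun hx => hx 0⟩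

theorem Pi01.and {Q R : Baire → Prop} (hQ : Pi01 Q) (hR : Pi01 R) : Pi01 (fun x => Q x ∧ R x) := by
  obtain ⟨f, hf, hfQ⟩ := hQ
  obtain ⟨g, hg, hgR⟩ := hR
  refine ⟨fun p => f p && g p, Primrec.and.to_comp.comp hf hg, fun x => ?_⟩
  simp only [Bool.and_eq_true]
  rw [hfQ, hgR]
  exact ⟨fun h m n => ⟨h.1 m n, h.2 m n⟩, fun h => ⟨fun m n => (h m n).1, fun m n => (h m n).2⟩⟩

theorem Pi01.or {Q R : Baire → Prop} (hQ : Pi01 Q) (hR : Pi01 R) : Pi01 (fun x => Q x ∨ R x) := by
  obtain ⟨f, hf, hfQ⟩ := hQ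
  obtain ⟨g, hg, hgR⟩ := hR
  have ha : Primrec (fun p : ℕ × List ℕ => p.1.unpair.1.unpair) :=
    Primrec.unpair.comp (Primrec.fst.comp (Primrec.unpair.comp Primrec.fst))
  have hb : Primrec (fun p : ℕ × List ℕ => p.1.unpair.2.unpair) :=
    Primrec.unpair.comp (Primrec.snd.comp (Primrec.unpair.comp Primrec.fst))
  have h1 : Primrec (fun p : ℕ × List ℕ =>
      (p.1.unpair.1.unpair.1, p.2.take p.1.unpair.1.unpair.2)) :=
    Primrec.pair (Primrec.fst.comp ha) (Primrec.list_take.comp (Primrec.snd.comp ha) Primrec.snd)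
  have h2 : Primrec (fun p : ℕ × List ℕ =>
      (p.1.unpair.2.unpair.1, p.2.take p.1.unpair.2.unpair.2)) :=
    Primrec.pair (Primrec.fst.comp hb) (Primrec.list_take.comp (Primrec.snd.comp hb) Primrec.snd)
  refine ⟨fun p => if p.1.unpair.1.unpair.2 + p.1.unpair.2.unpair.2 ≤ p.2.length then
      (f (p.1.unpair.1.unpair.1, p.2.take p.1.unpair.1.unpair.2) ||
        g (p.1.unpair.2.unpair.1, p.2.take p.1.unpair.2.unpair.2)) else true,
    computable_test (Primrec.nat_add.comp (Primrec.snd.comp ha) (Primrec.snd.comp hb))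
      (Primrec.list_length.comp Primrec.snd)
      (Primrec.or.to_comp.comp (hf.comp h1.to_comp) (hg.comp h2.to_comp)), fun x => ?_⟩
  constructor
  · intro hx m N
    simp only [length_pre]
    split_ifs with hN
    · rw [take_pre x (le_trans (Nat.le_add_right _ _) hN),
        take_pre x (le_trans (Nat.le_add_left _ _) hN), Bool.or_eq_true]
      rcases hx with hx | hx
      · exact Or.inl ((hfQ x).1 hx _ _)
      · exact Or.inr ((hgR x).1 hx _ _)
    · rfl
  · intro hx
    by_contra hne
    rw [not_or, hfQ, hgR] at hne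
    obtain ⟨hn1, hn2⟩ := hne
    simp only [not_forall] at hn1 hn2
    obtain ⟨m, n, hmn⟩ := hn1
    obtain ⟨m', n', hmn'⟩ := hn2
    have := hx (Nat.pair (Nat.pair m n) (Nat.pair m' n')) (n + n')
    simp only [length_pre, Nat.unpair_pair, le_refl, if_true] at this
    rw [take_pre x (Nat.le_add_right _ _), take_pre x (Nat.le_add_left _ _),
      Bool.or_eq_true] at this
    exact this.elim hmn hmn'

theorem Pi01.s0 {Q : Baire → Prop} (hQ : Pi01 Q) : S0 Q := by
  refine ⟨fun w => Q (fun n => w (2 * n)), hQ.reindex Primrec.nat_double, fun x => ?_⟩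
  simp only [join_even]
  exact ⟨fun h => ⟨x, h⟩, fun ⟨_, h⟩ => h⟩

theorem S0.reindex {Q : Baire → Prop} (hQ : S0 Q) {σ : ℕ → ℕ} (hσ : Primrec σ) :
    S0 (fun x => Q (fun n => x (σ n))) := by
  obtain ⟨R, hR, h⟩ := hQ
  refine ⟨_, hR.reindex (primrec_join (Primrec.nat_double.comp hσ) Primrec.nat_double_succ),
    fun x => ?_⟩
  simp only [comp_join, join_even, join_odd]
  exact h _

theorem S0.and {Q R : Baire → Prop} (hQ : S0 Q) (hR : S0 R) : S0 (fun x => Q x ∧ R x) := by
  obtain ⟨R1, hR1, h1⟩ := hQ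
  obtain ⟨R2, hR2, h2⟩ := hR
  refine ⟨_, (hR1.reindex (primrec_join Primrec.nat_double
      (Primrec.nat_double_succ.comp Primrec.nat_double))).and
    (hR2.reindex (primrec_join Primrec.nat_double
      (Primrec.nat_double_succ.comp Primrec.nat_double_succ))), fun x => ?_⟩
  simp only [comp_join, join_even, join_odd]
  rw [h1, h2]
  constructor
  · rintro ⟨⟨z, hz⟩, ⟨z', hz'⟩⟩
    refine ⟨join z z', ?_⟩
    simp only [join_even, join_odd]
    exact ⟨hz, hz'⟩
  · rintro ⟨w, hw, hw'⟩
    exact ⟨⟨_, hw⟩, ⟨_, hw'⟩⟩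

theorem S0.or {Q R : Baire → Prop} (hQ : S0 Q) (hR : S0 R) : S0 (fun x => Q x ∨ R x) := by
  obtain ⟨R1, hR1, h1⟩ := hQ
  obtain ⟨R2, hR2, h2⟩ := hR
  refine ⟨_, hR1.or hR2, fun x => ?_⟩
  simp only [h1, h2]
  exact exists_or.symm

theorem S0.exReal {Q : Baire → Prop} (hQ : S0 Q) : S0 (fun x => ∃ y, Q (join x y)) := by
  obtain ⟨R, hR, h⟩ := hQ
  refine ⟨_, hR.reindex (primrec_join (primrec_join Primrec.nat_double
      (Primrec.nat_double_succ.comp Primrec.nat_double))
      (Primrec.nat_double_succ.comp Primrec.nat_double_succ)), fun x => ?_⟩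
  simp only [comp_join, join_even, join_odd, h]
  constructor
  · rintro ⟨y, z, hz⟩
    refine ⟨join y z, ?_⟩
    simp only [join_even, join_odd]
    exact hz
  · rintro ⟨w, hw⟩
    exact ⟨_, _, hw⟩

theorem S0.allNat {Q : Baire → Prop} (hQ : S0 Q) : S0 (fun x => ∀ k, Q (join x (cst k))) := by
  obtain ⟨R, hR, h⟩ := hQ
  have hi : Primrec (fun p : ℕ × ℕ × List ℕ => p.2.1) := Primrec.fst.comp Primrec.snd
  have hl : Primrec (fun p : ℕ × ℕ × List ℕ => p.2.2) := Primrec.snd.comp Primrec.snd
  have hP := hR.subst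
    (fun k w => join (join (lft w) (cst k)) (fun i => rgt w (Nat.pair k i)))
    (fun p => if p.2.1 % 2 = 0 then
        (if p.2.1 / 2 % 2 = 0 then p.2.2.getD (2 * (p.2.1 / 2 / 2)) 0 else p.1)
      else p.2.2.getD (2 * Nat.pair p.1 (p.2.1 / 2) + 1) 0)
    (fun p => p.2 + (2 * Nat.pair p.1 (p.2 / 2) + 1) + 1)
    (Primrec.ite (even_pred hi)
      (Primrec.ite (even_pred (half.comp hi))
        ((Primrec.list_getD 0).comp hl (Primrec.nat_double.comp (half.comp (half.comp hi))))
        Primrec.fst)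
      ((Primrec.list_getD 0).comp hl (Primrec.nat_double_succ.comp
        (Primrec₂.natPair.comp Primrec.fst (half.comp hi)))))
    (Primrec.succ.comp (Primrec.nat_add.comp Primrec.snd (Primrec.nat_double_succ.comp
      (Primrec₂.natPair.comp Primrec.fst (half.comp Primrec.snd)))))
    (by
      intro k i x N hN
      simp only [join, lft, rgt, cst] at hN ⊢
      split_ifs with h1 h2
      · exact getD_pre x (by omega)
      · rfl
      · exact getD_pre x (by omega))
  refine ⟨_, hP, fun x => ?_⟩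
  simp only [lft_join, rgt_join, h]
  constructor
  · intro hx
    choose z hz using hx
    refine ⟨fun n => z n.unpair.1 n.unpair.2, fun k => ?_⟩
    simp only [Nat.unpair_pair]
    exact hz k
  · rintro ⟨Z, hZ⟩ k
    exact ⟨_, hZ k⟩

theorem S0.exNat {Q : Baire → Prop} (hQ : S0 Q) : S0 (fun x => ∃ k, Q (join x (cst k))) := by
  have h := (hQ.reindex (primrec_join Primrec.nat_double (Primrec.const 1))).exReal
  refine h.congr fun x => ?_
  have h1 : ∀ y : Baire, join x y 1 = y 0 := fun y => join_odd x y 0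
  simp only [comp_join, join_even, h1]
  constructor
  · rintro ⟨k, hk⟩
    exact ⟨cst k, hk⟩
  · rintro ⟨y, hy⟩
    exact ⟨y 0, hy⟩

end Pool.Agent.EffHyp
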