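import Pool.Agent.Lib.MP_5ddd96_lc.Atoms

/-!
Lightface `Σ¹₁` and `Δ¹₁` predicates and `Δ¹₁` functions on coded types.
-/

namespace Pool.Agent.EffHyp

/-- Types coded by reals. -/
class Coded (T : Type) where
  enc : T → Baire

open Coded

/-- Marker for countable types that are coded through their `Primcodable` instance. -/
class Atom (α : Type) : Prop where

instance : Atom ℕ := ⟨⟩
instance : Atom Bool := ⟨⟩
instance {β : Type} : Atom (List β) := ⟨⟩
instance {k : ℕ} : Atom (Fin k) := ⟨⟩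

instance codedBaire : Coded Baire := ⟨fun x => x⟩
instance codedAtom {α : Type} [Atom α] [Primcodable α] : Coded α :=
  ⟨fun a => cst (Encodable.encode a)⟩
instance codedProd {S T : Type} [Coded S] [Coded T] : Coded (S × T) :=
  ⟨fun p => join (enc p.1) (enc p.2)⟩

/-- `Σ¹₁` predicates. -/
def Sig {T : Type} [Coded T] (P : T → Prop) : Prop := ∃ Q, S0 Q ∧ ∀ t, P t ↔ Q (enc t)

/-- `Δ¹₁` predicates. -/
def Del {T : Type} [Coded T] (P : T → Prop) : Prop := Sig P ∧ Sig (fun t => ¬ P t)

/-- Functions with `Σ¹₁` graph. -/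
@[fun_prop] def DFun {S T : Type} [Coded S] [Coded T] (F : S → T) : Prop :=
  Sig (fun p : S × Baire => enc (F p.1) = p.2)

variable {S T U : Type} [Coded S] [Coded T] [Coded U]
variable {α β γ : Type} [Atom α] [Primcodable α] [Atom β] [Primcodable β] [Atom γ] [Primcodable γ]

theorem Sig.congr {P P' : T → Prop} (h : Sig P) (e : ∀ t, P' t ↔ P t) : Sig P' := by
  obtain ⟨Q, hQ, h⟩ := h
  exact ⟨Q, hQ, fun t => (e t).trans (h t)⟩

theorem Del.congr {P P' : T → Prop} (h : Del P) (e : ∀ t, P' t ↔ P t) : Del P' :=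
  ⟨h.1.congr e, h.2.congr fun t => not_congr (e t)⟩

theorem DFun.congr {F F' : S → T} (h : DFun F) (e : ∀ s, F' s = F s) : DFun F' := by
  rwa [show F' = F from funext e]

namespace SigAux

/-- Maps of Baire space given by a primitive recursive reindexing. -/
def Rx (Φ : Baire → Baire) : Prop := ∃ σ : ℕ → ℕ, Primrec σ ∧ ∀ x, Φ x = fun n => x (σ n)

theorem rx_id : Rx (fun x => x) := ⟨fun n => n, Primrec.id, fun _ => rfl⟩

theorem Rx.lft {Φ : Baire → Baire} (h : Rx Φ) : Rx (fun x => lft (Φ x)) := by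
  obtain ⟨σ, hσ, h⟩ := h
  refine ⟨fun n => σ (2 * n), hσ.comp (Primrec.nat_mul.comp (Primrec.const 2) Primrec.id), ?_⟩
  intro x
  beta_reduce
  rw [h x]
  rfl

theorem Rx.rgt {Φ : Baire → Baire} (h : Rx Φ) : Rx (fun x => rgt (Φ x)) := by
  obtain ⟨σ, hσ, h⟩ := h
  refine ⟨fun n => σ (2 * n + 1),
    hσ.comp (Primrec.succ.comp (Primrec.nat_mul.comp (Primrec.const 2) Primrec.id)), ?_⟩
  intro x
  beta_reduce
  rw [h x]
  rfl

theorem Rx.cst {Φ : Baire → Baire} (h : Rx Φ) (k : ℕ) : Rx (fun x => cst (Φ x k)) := by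
  obtain ⟨σ, hσ, h⟩ := h
  refine ⟨fun _ => σ k, Primrec.const _, ?_⟩
  intro x
  beta_reduce
  rw [h x]
  rfl

theorem Rx.join {Φ Ψ : Baire → Baire} (h : Rx Φ) (h' : Rx Ψ) :
    Rx (fun x => join (Φ x) (Ψ x)) := by
  obtain ⟨σ, hσ, h⟩ := h
  obtain ⟨τ, hτ, h'⟩ := h'
  have hd : Primrec (fun n : ℕ => n / 2) := Primrec.nat_div.comp Primrec.id (Primrec.const 2)
  have hm : PrimrecPred (fun n : ℕ => n % 2 = 0) :=
    Primrec.eq.comp (Primrec.nat_mod.comp Primrec.id (Primrec.const 2)) (Primrec.const 0)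
  refine ⟨fun n => if n % 2 = 0 then σ (n / 2) else τ (n / 2),
    Primrec.ite hm (hσ.comp hd) (hτ.comp hd), ?_⟩
  intro x
  beta_reduce
  rw [h x, h' x]
  funext n
  simp only [EffHyp.join]
  split_ifs <;> rfl

theorem s0_rx {Q : Baire → Prop} (hQ : S0 Q) {Φ : Baire → Baire} (h : Rx Φ) :
    S0 (fun x => Q (Φ x)) := by
  obtain ⟨σ, hσ, h⟩ := h
  exact (hQ.reindex hσ).congr fun x => by rw [h x]

theorem s0_eq {Φ Ψ : Baire → Baire} (h : Rx Φ) (h' : Rx Ψ) : S0 (fun x => Φ x = Ψ x) :=
  (s0_rx pi01_eq.s0 (h.join h')).congr fun x => by simp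

theorem join_zero (x y : Baire) : join x y 0 = x 0 := join_even x y 0

theorem join_one (x y : Baire) : join x y 1 = y 0 := join_odd x y 0

theorem join_two (x y : Baire) : join x y 2 = x 1 := join_even x y 1

theorem join_eq_iff (x y w : Baire) : join x y = w ↔ x = lft w ∧ y = rgt w := by
  constructor
  · rintro rfl
    simp
  · rintro ⟨rfl, rfl⟩
    simp

theorem cst_inj {a b : ℕ} : cst a = cst b ↔ a = b :=
  ⟨fun h => congrFun h 0, fun h => by rw [h]⟩

/-- The test whether a number is a code. -/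
def isCode (α : Type) [Primcodable α] (k : ℕ) : Bool :=
  decide (Encodable.encode (Encodable.decode k : Option α) = k + 1)

theorem isCode_iff (α : Type) [Primcodable α] (k : ℕ) :
    isCode α k = true ↔ ∃ a : α, Encodable.encode a = k := by
  simp only [isCode, decide_eq_true_eq]
  constructor
  · intro h
    cases hd : (Encodable.decode k : Option α) with
    | none => rw [hd] at h; simp at h
    | some a =>
      rw [hd] at h
      exact ⟨a, by simpa using h⟩
  · rintro ⟨a, rfl⟩
    simp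

theorem isCode_prim (α : Type) [Primcodable α] : Primrec (isCode α) := by
  have h : PrimrecPred
      (fun k : ℕ => Encodable.encode (Encodable.decode k : Option α) = k + 1) :=
    Primrec.eq.comp Primrec.encdec Primrec.succ
  exact h.decide

/-- The graph of a function with `Σ¹₁` graph, in raw form. -/
theorem dfun_iff {F : S → T} :
    DFun F ↔ ∃ Q, S0 Q ∧ ∀ s y, enc (F s) = y ↔ Q (join (enc s) y) :=
  ⟨fun ⟨Q, hQ, h⟩ => ⟨Q, hQ, fun s y => h (s, y)⟩, fun ⟨Q, hQ, h⟩ => ⟨Q, hQ, fun p => h p.1 p.2⟩⟩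

theorem pre_getD (x : Baire) (n : ℕ) : (pre x (n + 1)).getD n 0 = x n := by
  rw [List.getD_eq_getElem _ _ (by simp [pre])]
  simp only [pre, List.getElem_ofFn]

end SigAux

open SigAux

theorem Sig.comp {P : T → Prop} {F : S → T} (hP : Sig P) (hF : DFun F) :
    Sig (fun s => P (F s)) := by
  obtain ⟨QP, hQP, hP⟩ := hP
  obtain ⟨QF, hQF, hF⟩ := dfun_iff.1 hF
  refine ⟨_, (hQF.and (s0_rx hQP rx_id.rgt)).exReal, fun s => ?_⟩
  simp only [rgt_join, ← hF, hP]
  simp

theorem Sig.and {P Q : T → Prop} (hP : Sig P) (hQ : Sig Q) : Sig (fun t => P t ∧ Q t) := by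
  obtain ⟨A, hA, hP⟩ := hP
  obtain ⟨B, hB, hQ⟩ := hQ
  exact ⟨_, hA.and hB, fun t => and_congr (hP t) (hQ t)⟩

theorem Sig.or {P Q : T → Prop} (hP : Sig P) (hQ : Sig Q) : Sig (fun t => P t ∨ Q t) := by
  obtain ⟨A, hA, hP⟩ := hP
  obtain ⟨B, hB, hQ⟩ := hQ
  exact ⟨_, hA.or hB, fun t => or_congr (hP t) (hQ t)⟩

theorem Sig.exReal {P : T → Baire → Prop} (h : Sig (fun p : T × Baire => P p.1 p.2)) :
    Sig (fun t => ∃ y, P t y) := by
  obtain ⟨Q, hQ, h⟩ := h
  exact ⟨_, hQ.exReal, fun t => exists_congr fun y => h (t, y)⟩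

theorem Sig.ex {P : T → α → Prop} (h : Sig (fun p : T × α => P p.1 p.2)) :
    Sig (fun t => ∃ a, P t a) := by
  obtain ⟨Q, hQ, h⟩ := h
  have h' : ∀ t a, P t a ↔ Q (join (enc t) (cst (Encodable.encode a))) := fun t a => h (t, a)
  have hc := s0_rx (pi01_test (isCode_prim α).to_comp).s0 rx_id.rgt
  refine ⟨_, (hc.and hQ).exNat, fun t => ?_⟩
  simp only [rgt_join, isCode_iff, h']
  constructor
  · rintro ⟨a, ha⟩
    exact ⟨Encodable.encode a, ⟨a, rfl⟩, ha⟩
  · rintro ⟨k, ⟨a, ha⟩, hk⟩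
    have ha' : Encodable.encode a = k := ha
    exact ⟨a, by rw [ha']; exact hk⟩

theorem Sig.all {P : T → α → Prop} (h : Sig (fun p : T × α => P p.1 p.2)) :
    Sig (fun t => ∀ a, P t a) := by
  obtain ⟨Q, hQ, h⟩ := h
  have h' : ∀ t a, P t a ↔ Q (join (enc t) (cst (Encodable.encode a))) := fun t a => h (t, a)
  have hn : Primrec (fun k => !isCode α k) := Primrec.not.comp (isCode_prim α)
  have hc := s0_rx (pi01_test hn.to_comp).s0 rx_id.rgt
  refine ⟨_, (hc.or hQ).allNat, fun t => ?_⟩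
  simp only [rgt_join, h']
  constructor
  · intro ha k
    by_cases hk : isCode α k = true
    · obtain ⟨a, rfl⟩ := (isCode_iff α k).1 hk
      exact Or.inr (ha a)
    · left
      show (!isCode α k) = true
      simpa using hk
  · intro hk a
    rcases hk (Encodable.encode a) with h1 | h1
    · have h2 : isCode α (Encodable.encode a) = true := (isCode_iff α _).2 ⟨a, rfl⟩
      have h3 : (!isCode α (Encodable.encode a)) = true := h1
      rw [h2] at h3
      exact absurd h3 (by decide)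
    · exact h1

theorem Sig.const (p : Prop) : Sig (fun _ : T => p) := by
  by_cases hp : p
  · exact ⟨_, (pi01_test (φ := fun _ => true) (Computable.const true)).s0, fun _ => by simp [hp]⟩
  · exact ⟨_, (pi01_test (φ := fun _ => false) (Computable.const false)).s0, fun _ => by simp [hp]⟩

/-- A finite union; no uniformity is needed. -/
theorem Sig.exFin {k : ℕ} {P : T → Fin k → Prop} (h : ∀ i, Sig (fun t => P t i)) :
    Sig (fun t => ∃ i, P t i) := by
  induction k with
  | zero => exact (Sig.const False).congr fun t => by simp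
  | succ k ih =>
    exact ((h 0).or (ih (P := fun t i => P t i.succ) fun i => h i.succ)).congr fun t =>
      Fin.exists_fin_succ

@[fun_prop] theorem DFun.id : DFun (fun t : T => t) := by
  exact dfun_iff.2 ⟨_, pi01_eq.s0, fun s y => by simp⟩

@[fun_prop] theorem DFun.comp {G : T → U} {F : S → T} (hG : DFun G) (hF : DFun F) :
    DFun (fun s => G (F s)) := by
  obtain ⟨QG, hQG, hG⟩ := dfun_iff.1 hG
  obtain ⟨QF, hQF, hF⟩ := dfun_iff.1 hF
  refine dfun_iff.2 ⟨_, ((s0_rx hQF (rx_id.lft.lft.join rx_id.rgt)).and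
    (s0_rx hQG (rx_id.rgt.join rx_id.lft.rgt))).exReal, fun s y => ?_⟩
  simp only [lft_join, rgt_join, ← hF, hG]
  simp

@[fun_prop] theorem DFun.const (a : α) : DFun (fun _ : S => a) := by
  have h : Computable₂ (fun _ _ : ℕ => Encodable.encode a) := Computable.const _
  refine dfun_iff.2 ⟨_, (pi01_fun h).s0, fun s y => ?_⟩
  simp only [rgt_join]
  exact eq_comm

@[fun_prop] theorem DFun.fst {F : S → T × U} (hF : DFun F) : DFun (fun s => (F s).1) := by
  obtain ⟨QF, hQF, hF⟩ := dfun_iff.1 hF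
  refine dfun_iff.2 ⟨_, ((s0_rx hQF (rx_id.lft.lft.join rx_id.rgt)).and
    (s0_eq rx_id.rgt.lft rx_id.lft.rgt)).exReal, fun s y => ?_⟩
  simp only [lft_join, rgt_join, ← hF]
  have e : lft (enc (F s)) = enc (F s).1 := lft_join _ _
  simp [e]

@[fun_prop] theorem DFun.snd {F : S → T × U} (hF : DFun F) : DFun (fun s => (F s).2) := by
  obtain ⟨QF, hQF, hF⟩ := dfun_iff.1 hF
  refine dfun_iff.2 ⟨_, ((s0_rx hQF (rx_id.lft.lft.join rx_id.rgt)).and
    (s0_eq rx_id.rgt.rgt rx_id.lft.rgt)).exReal, fun s y => ?_⟩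
  simp only [lft_join, rgt_join, ← hF]
  have e : rgt (enc (F s)) = enc (F s).2 := rgt_join _ _
  simp [e]

@[fun_prop] theorem DFun.prodMk {F : S → T} {G : S → U} (hF : DFun F) (hG : DFun G) :
    DFun (fun s => (F s, G s)) := by
  obtain ⟨QF, hQF, hF⟩ := dfun_iff.1 hF
  obtain ⟨QG, hQG, hG⟩ := dfun_iff.1 hG
  refine dfun_iff.2 ⟨_, (s0_rx hQF (rx_id.lft.join rx_id.rgt.lft)).and
    (s0_rx hQG (rx_id.lft.join rx_id.rgt.rgt)), fun s y => ?_⟩
  simp only [lft_join, rgt_join, ← hF, ← hG]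
  exact join_eq_iff _ _ _

theorem DFun.prim₂ {φ : α → β → γ} (hφ : Computable₂ φ) {A : S → α} {B : S → β}
    (hA : DFun A) (hB : DFun B) : DFun (fun s => φ (A s) (B s)) := by
  have h1 : Computable (fun p : ℕ × ℕ => (Encodable.decode p.1 : Option α).bind fun a =>
      (Encodable.decode p.2 : Option β).map fun b => φ a b) := by
    refine Computable.option_bind (Computable.decode.comp Computable.fst) ?_
    refine Computable.option_map
      (Computable.decode.comp (Computable.snd.comp Computable.fst)) ?_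
    exact hφ.comp (Computable.snd.comp Computable.fst) Computable.snd
  have h2 : Computable₂ (fun i j : ℕ => (Encodable.encode
      ((Encodable.decode i : Option α).bind fun a =>
        (Encodable.decode j : Option β).map fun b => φ a b)).pred) :=
    Computable.pred.comp (Computable.encode.comp h1)
  have h3 : DFun (fun p : α × β => φ p.1 p.2) := by
    refine dfun_iff.2 ⟨_, (pi01_fun h2).s0, fun p y => ?_⟩
    have e0 : join (enc p) y 0 = Encodable.encode p.1 := by
      rw [join_zero]; exact join_zero _ _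
    have e2 : join (enc p) y 2 = Encodable.encode p.2 := by
      rw [join_two]; exact join_one _ _
    simp only [rgt_join, e0, e2, Encodable.encodek, Option.bind_some, Option.map_some,
      Encodable.encode_some, Nat.pred_succ]
    exact eq_comm
  exact h3.comp (hA.prodMk hB)

theorem DFun.prim₁ {φ : α → β} (hφ : Computable φ) {A : S → α} (hA : DFun A) :
    DFun (fun s => φ (A s)) := by
  have h : Computable₂ (fun a _ : α => φ a) := hφ.comp Computable.fst
  exact DFun.prim₂ h hA hA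

@[fun_prop] theorem DFun.pre {A : S → Baire} {B : S → ℕ} (hA : DFun A) (hB : DFun B) :
    DFun (fun s => pre (A s) (B s)) := by
  have h3 : DFun (fun p : Baire × ℕ => EffHyp.pre p.1 p.2) := by
    refine dfun_iff.2 ⟨_, pi01_pre.s0, fun p y => ?_⟩
    have e1 : lft (enc p) = p.1 := lft_join _ _
    have e2 : join (enc p) y 2 = p.2 := by
      rw [join_two]; exact join_one _ _
    simp only [rgt_join, lft_join, e1, e2]
    exact eq_comm
  exact h3.comp (hA.prodMk hB)

theorem DFun.eval {A : S → Baire} {B : S → ℕ} (hA : DFun A) (hB : DFun B) :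
    DFun (fun s => A s (B s)) := by
  have h1 : DFun (fun s => B s + 1) := DFun.prim₁ Computable.succ hB
  have h2 : Computable₂ (fun (l : List ℕ) (n : ℕ) => l.getD n 0) :=
    (Primrec.list_getD 0).to_comp
  exact (DFun.prim₂ h2 (hA.pre h1) hB).congr fun s => (pre_getD _ _).symm

theorem DFun.lam {F : S → ℕ → ℕ} (h : DFun (fun p : S × ℕ => F p.1 p.2)) :
    DFun (T := Baire) F := by
  have he : Sig (fun p : ℕ × ℕ => p.1 = p.2) := by
    refine ⟨_, pi01_eq.s0, fun p => ?_⟩
    have e1 : lft (enc p) = cst p.1 := lft_join _ _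
    have e2 : rgt (enc p) = cst p.2 := rgt_join _ _
    rw [e1, e2, cst_inj]
  have h1 : DFun (fun q : (S × Baire) × ℕ => F q.1.1 q.2) :=
    h.comp (DFun.id.fst.fst.prodMk DFun.id.snd)
  have h2 : DFun (fun q : (S × Baire) × ℕ => q.1.2 q.2) :=
    DFun.eval DFun.id.fst.snd DFun.id.snd
  have h3 : Sig (fun q : (S × Baire) × ℕ => F q.1.1 q.2 = q.1.2 q.2) := he.comp (h1.prodMk h2)
  exact (Sig.all (P := fun (p : S × Baire) (i : ℕ) => F p.1 i = p.2 i) h3).congr fun p =>
    funext_iff

theorem sig_iff_sigma11 (R : ℕ → Baire → Baire → Prop) :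
    Sig (fun p : ℕ × Baire × Baire => R p.1 p.2.1 p.2.2) ↔ Sigma11 R := by
  rw [sigma11_iff]
  constructor
  · rintro ⟨Q, hQ, h⟩
    refine (s0_rx hQ ((rx_id.cst 0).join rx_id.rgt)).congr fun w => ?_
    have := h (w 0, lft (rgt w), rgt (rgt w))
    have e : enc ((w 0, lft (rgt w), rgt (rgt w)) : ℕ × Baire × Baire) =
        join (cst (w 0)) (join (lft (rgt w)) (rgt (rgt w))) := rfl
    rw [e, join_lft_rgt] at this
    exact this
  · intro h
    refine ⟨_, h, fun p => ?_⟩
    have e : enc p = join (cst p.1) (join p.2.1 p.2.2) := rfl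
    simp only [e, rgt_join, lft_join, join_zero]
    rfl

end Pool.Agent.EffHyp
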