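import Pool.Agent.Lib.MP_5ddd96_lc.Defs

/-!
The explicit increasing sequence of finite equivalence relations attached to finitely many
invertible maps of Baire space, an exhaustion of the orbits and a number of colours.
-/

namespace Pool.Agent.EffHyp

/-- Finitely many maps of Baire space closed under inverses, an increasing sequence of
equivalence relations and a number `N`. -/
structure Sys (k : ℕ) where
  gen : Fin k → Baire → Baire
  inv : ∀ s, ∃ s', ∀ x, gen s' (gen s x) = x
  G : ℕ → Baire → Baire → Prop
  G_equiv : ∀ n, Equivalence (G n)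
  G_succ : ∀ n x y, G n x y → G (n + 1) x y
  N : ℕ

namespace Sys

variable {k : ℕ} (A : Sys k)

/-- Action of a word. -/
def act (w : List (Fin k)) (x : Baire) : Baire := w.foldr A.gen x

/-- Distance at most `r` in the orbit graph. -/
def near (r : ℕ) (x y : Baire) : Prop := ∃ w : List (Fin k), w.length ≤ r ∧ A.act w x = y

/-- The displacement bound of the table with code `p`. -/
def bd (p : ℕ) : ℕ := p.unpair.1

/-- The word that the table with code `p` assigns to the list `l`. -/
def word (k p : ℕ) (l : List ℕ) : List (Fin k) :=
  ((((Encodable.decode p.unpair.2.unpair.2 : Option (List (List (Fin k)))).getD []).getD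
    (Encodable.encode l) []).take (bd p))

/-- The map given by the table with code `p`. -/
def lam (p : ℕ) (u : Baire) : Baire := A.act (word k p (pre u p.unpair.2.unpair.1)) u

/-- On `ρ`-balls around points of the orbit of `x` that are `G n`-related to `x` the map `lam p`
takes at most `N` values. -/
def Good (p n ρ : ℕ) (x : Baire) : Prop :=
  ∀ w : List (Fin k), A.G n x (A.act w x) → ∃ L : List (List (Fin k)),
    ∀ v : List (Fin k), v.length ≤ ρ → ∃ i : ℕ, i < A.N ∧
      A.lam p (A.act v (A.act w x)) = A.act (L.getD i []) (A.act w x)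

/-- The least displacement bound that serves all points of the orbit. -/
noncomputable def bnd (n ρ : ℕ) (x : Baire) : ℕ :=
  sInf {R | ∀ w : List (Fin k), ∃ p : ℕ, bd p ≤ R ∧ A.Good p n ρ (A.act w x)}

/-- The least good code with that displacement bound. -/
noncomputable def best (n ρ : ℕ) (x : Baire) : ℕ :=
  sInf {p | bd p ≤ A.bnd n ρ x ∧ A.Good p n ρ x}

/-- The diameter bound for the classes at stage `n`. -/
noncomputable def diam (x : Baire) : ℕ → ℕ
  | 0 => 0
  | n + 1 => 2 * diam x n + 2 * n + 2 * A.N * (diam x n + 2 * n) +
      2 * A.bnd n (2 * A.N * (diam x n + 2 * n)) x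

/-- The scale at stage `n`. -/
noncomputable def rad (x : Baire) (n : ℕ) : ℕ := A.diam x n + 2 * n

/-- The table at stage `n`. -/
noncomputable def code (x : Baire) (n : ℕ) : ℕ := A.best n (2 * A.N * A.rad x n) x

/-- `x` has colour `i` at stage `n`. -/
def Col (i n : ℕ) (x : Baire) : Prop :=
  i < A.N ∧ ∀ v : List (Fin k), v.length ≤ (2 * i + 2) * A.rad x n →
    ∃ v' : List (Fin k), v'.length ≤ 2 * i * A.rad x n ∧
      A.lam (A.code x n) (A.act v x) = A.lam (A.code x n) (A.act v' x)

/-- The generating pairs of colour `i` before stage `n`. -/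
def Step (i n : ℕ) (x y : Baire) : Prop :=
  ∃ m : ℕ, m < n ∧ A.near m x y ∧ A.G m x y ∧ (A.Col i m x ∨ A.Col i m y)

/-- The equivalence relation of colour `i` at stage `n`. -/
def Rel (i n : ℕ) : Baire → Baire → Prop := Relation.ReflTransGen (A.Step i n)

/-- The relations of colour `i` exhaust the orbit of `x`. -/
def Full (i : ℕ) (x : Baire) : Prop := ∀ w : List (Fin k), ∃ n : ℕ, A.Rel i n x (A.act w x)

/-- The least colour that exhausts the orbit. -/
noncomputable def col (x : Baire) : ℕ := sInf {i | A.Full i x}

/-- The final sequence. -/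
def F (n : ℕ) (x y : Baire) : Prop := A.Rel (A.col x) n x y

end Sys

end Pool.Agent.EffHyp
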